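import Pool.Agent.MP_ac6554_pr.Koebe

set_option autoImplicit false

open MeasureTheory ProbabilityTheory TopologicalSpace Metric Set Filter Topology
open scoped NNReal ENNReal

namespace Pool.Agent.MP_ac6554_pr

namespace CRAux

/-- A polynomial vanishing at the origin. -/
noncomputable def pol {n : ℕ} (a : Fin (n + 1) → ℂ) (z : ℂ) : ℂ := ∑ i, a i * z ^ ((i : ℕ) + 1)

lemma pol_zero {n : ℕ} (a : Fin (n + 1) → ℂ) : pol a 0 = 0 := by simp [pol]

lemma differentiable_pol {n : ℕ} (a : Fin (n + 1) → ℂ) : Differentiable ℂ (pol a) := by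
  unfold pol; fun_prop

lemma deriv_pol {n : ℕ} (a : Fin (n + 1) → ℂ) : deriv (pol a) 0 = a 0 := by
  have : HasDerivAt (pol a)
      (∑ i : Fin (n + 1), a i * ((((i : ℕ) + 1 : ℕ) : ℂ) * (0 : ℂ) ^ ((i : ℕ) + 1 - 1))) 0 :=
    HasDerivAt.fun_sum fun i _ => (hasDerivAt_pow _ _).const_mul _
  rw [this.deriv, Fin.sum_univ_succ]
  simp

lemma norm_pol_sub {n : ℕ} (a b : Fin (n + 1) → ℂ) {z : ℂ} (hz : ‖z‖ ≤ 1) :
    ‖pol a z - pol b z‖ ≤ (n + 1) * dist a b := by
  rw [pol, pol, ← Finset.sum_sub_distrib]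
  refine (norm_sum_le _ _).trans ((Finset.sum_le_card_nsmul _ _ (dist a b) fun i _ => ?_).trans ?_)
  · rw [← sub_mul, norm_mul, norm_pow, ← dist_eq_norm]
    exact (mul_le_of_le_one_right dist_nonneg (pow_le_one₀ (norm_nonneg _) hz)).trans
      (dist_le_pi_dist a b i)
  · simp

/-- The conformal radius at the origin. -/
noncomputable def cr (U : Opens ℂ) : ℝ≥0∞ := ⨆ n : ℕ, ⨆ k : ℕ,
  {V : Opens ℂ | pol (denseSeq (Fin (n + 1) → ℂ) k) '' closedBall 0 1 ⊆ V}.indicator
    (fun _ => ‖denseSeq (Fin (n + 1) → ℂ) k 0‖ₑ) U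

lemma norm_le {U : Opens ℂ} {j : ℂ → ℂ} (hj : Conf j (comp0 U)) (h0 : j 0 = 0) {g : ℂ → ℂ}
    (hg : Differentiable ℂ g) (hg0 : g 0 = 0) (hU : g '' closedBall 0 1 ⊆ U) :
    ‖deriv g 0‖ ≤ ‖deriv j 0‖ := by
  have hb : (0 : ℂ) ∈ ball (0 : ℂ) 1 := mem_ball_self one_pos
  have hsub : g '' ball 0 1 ⊆ j '' ball 0 1 := by
    rw [hj.2.image_eq, coe_comp0]
    exact ((convex_ball (0 : ℂ) 1).isPreconnected.image g
      hg.continuous.continuousOn).subset_connectedComponentIn ⟨0, hb, hg0⟩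
      ((image_mono ball_subset_closedBall).trans hU)
  have hmem : ∀ z ∈ ball (0 : ℂ) 1, ∃ a ∈ ball (0 : ℂ) 1, j a = g z := fun z hz =>
    hsub ⟨z, hz, rfl⟩
  set φ : ℂ → ℂ := fun z => Function.invFunOn j (ball 0 1) (g z) with hφ
  have hφd : DifferentiableOn ℂ φ (ball 0 1) :=
    (univ_inv_diff isOpen_ball hj.1 hj.2.injOn).comp hg.differentiableOn
      fun z hz => hsub ⟨z, hz, rfl⟩
  have hφm : ∀ z ∈ ball (0 : ℂ) 1, φ z ∈ ball (0 : ℂ) 1 := fun z hz =>
    Function.invFunOn_mem (hmem z hz)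
  have hφe : ∀ z ∈ ball (0 : ℂ) 1, j (φ z) = g z := fun z hz => Function.invFunOn_eq (hmem z hz)
  have hφ0 : φ 0 = 0 := hj.2.injOn (hφm 0 hb) hb (by rw [hφe 0 hb, hg0, h0])
  have h1 : ‖deriv φ 0‖ ≤ 1 := by
    have := Complex.norm_deriv_le_div_of_mapsTo_ball (R₂ := 1) hφd
      (fun z hz => by rw [hφ0]; exact ball_subset_closedBall (hφm z hz)) one_pos
    simpa using this
  have h2 : deriv g 0 = deriv j 0 * deriv φ 0 := by
    have e : g =ᶠ[𝓝 0] j ∘ φ := by
      filter_upwards [isOpen_ball.mem_nhds hb] with z hz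
      exact (hφe z hz).symm
    rw [e.deriv_eq, deriv_comp 0 (by rw [hφ0]; exact hj.1.differentiableAt (isOpen_ball.mem_nhds hb))
      (hφd.differentiableAt (isOpen_ball.mem_nhds hb)), hφ0]
  rw [h2, norm_mul]
  exact mul_le_of_le_one_right (norm_nonneg _) h1

lemma exists_pol {j : ℂ → ℂ} (hj : DifferentiableOn ℂ j (ball 0 1)) (h0 : j 0 = 0) {s δ : ℝ}
    (hs0 : 0 < s) (hs : s < 1) (hδ : 0 < δ) : ∃ (n : ℕ) (b : Fin (n + 1) → ℂ),
      b 0 = s * deriv j 0 ∧ ∀ z : ℂ, ‖z‖ ≤ 1 → dist (pol b z) (j (s * z)) < δ := by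
  obtain ⟨R, hsR, hR1⟩ := exists_between hs
  obtain ⟨r, hsr, hrR⟩ := exists_between hsR
  lift R to ℝ≥0 using by linarith
  lift r to ℝ≥0 using by linarith
  have hR0 : 0 < R := by exact_mod_cast hs0.trans hsR
  have hp := (hj.mono (closedBall_subset_ball hR1)).hasFPowerSeriesOnBall hR0
  set p := cauchyPowerSeries j 0 R
  have hu := hp.tendstoUniformlyOn (r' := r) (by exact_mod_cast hrR)
  obtain ⟨N, hN⟩ := eventually_atTop.1 (Metric.tendstoUniformlyOn_iff.1 hu δ hδ)
  refine ⟨N, fun i => p.coeff (i + 1) * s ^ ((i : ℕ) + 1), ?_, fun z hz => ?_⟩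
  · rw [hp.hasFPowerSeriesAt.deriv]
    simp [mul_comm]
  · have hz' : (s : ℂ) * z ∈ ball (0 : ℂ) r := by
      rw [mem_ball_zero_iff, norm_mul, Complex.norm_real, Real.norm_eq_abs, abs_of_pos hs0]
      nlinarith
    have := hN (N + 1 + 1) (by omega) _ hz'
    rw [zero_add, dist_comm] at this
    convert this using 2
    rw [FormalMultilinearSeries.partialSum, Finset.sum_range_succ', hp.coeff_zero, h0, add_zero,
      pol, Finset.sum_range]
    refine Finset.sum_congr rfl fun i _ => ?_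
    rw [FormalMultilinearSeries.apply_eq_pow_smul_coeff, smul_eq_mul, mul_pow]
    ring

end CRAux

open CRAux in
theorem exists_cr : ∃ cr : Opens ℂ → ℝ≥0∞, Measurable cr ∧ Monotone cr ∧
    (∀ U : Opens ℂ, (0 : ℂ) ∉ U → cr U = 0) ∧
    ∀ (U : Opens ℂ) (j : ℂ → ℂ), Conf j (comp0 U) → j 0 = 0 → cr U = ‖deriv j 0‖ₑ := by
  refine ⟨cr, ?_, fun U V h => ?_, fun U h => ?_, fun U j hj h0 => le_antisymm ?_ ?_⟩
  · refine Measurable.iSup fun n => Measurable.iSup fun k => measurable_const.indicator ?_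
    exact MeasurableSpace.measurableSet_generateFrom ⟨_, (isCompact_closedBall 0 1).image
      (differentiable_pol _).continuous, rfl⟩
  · refine iSup_mono fun n => iSup_mono fun k => ?_
    by_cases hU : pol (denseSeq (Fin (n + 1) → ℂ) k) '' closedBall 0 1 ⊆ U
    · rw [indicator_of_mem (by exact hU), indicator_of_mem (by exact hU.trans h)]
    · rw [indicator_of_notMem (by exact hU)]; exact zero_le
  · refine le_antisymm (iSup_le fun n => iSup_le fun k => ?_) zero_le
    rw [indicator_of_notMem]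
    exact fun hU => h (hU ⟨0, mem_closedBall_self zero_le_one, pol_zero _⟩)
  · refine iSup_le fun n => iSup_le fun k => ?_
    by_cases hU : pol (denseSeq (Fin (n + 1) → ℂ) k) '' closedBall 0 1 ⊆ U
    · rw [indicator_of_mem (by exact hU), ← deriv_pol (denseSeq (Fin (n + 1) → ℂ) k),
        ← ofReal_norm, ← ofReal_norm]
      exact ENNReal.ofReal_le_ofReal (norm_le hj h0 (differentiable_pol _) (pol_zero _) hU)
    · rw [indicator_of_notMem (by exact hU)]; exact zero_le
  · refine le_of_forall_lt fun c hc => ?_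
    have hct : c ≠ ⊤ := hc.ne_top
    rw [← ofReal_norm, ENNReal.lt_ofReal_iff_toReal_lt hct] at hc
    have h1 : ∀ᶠ s in 𝓝[<] (1 : ℝ), c.toReal < s * ‖deriv j 0‖ := by
      refine nhdsWithin_le_nhds (continuousAt_const.eventually_lt (by fun_prop) ?_)
      simpa using hc
    obtain ⟨s, hs1, hs2⟩ := (h1.and (Ioo_mem_nhdsLT one_pos)).exists
    have hK : IsCompact (j '' closedBall 0 s) := (isCompact_closedBall 0 s).image_of_continuousOn
      (hj.1.continuousOn.mono (closedBall_subset_ball hs2.2))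
    have hKU : j '' closedBall 0 s ⊆ U :=
      ((image_mono (closedBall_subset_ball hs2.2)).trans hj.2.image_eq.subset).trans (comp0_le U)
    obtain ⟨δ, hδ, hth⟩ := hK.exists_thickening_subset_open U.isOpen hKU
    obtain ⟨n, b, hb0, hb⟩ := exists_pol hj.1 h0 hs2.1 hs2.2 (half_pos hδ)
    have hη : 0 < min (s * ‖deriv j 0‖ - c.toReal) (δ / 2 / (n + 1)) :=
      lt_min (by linarith) (by positivity)
    obtain ⟨k, hk⟩ := (denseRange_denseSeq (Fin (n + 1) → ℂ)).exists_dist_lt b hη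
    set a := denseSeq (Fin (n + 1) → ℂ) k with ha
    have hU : pol a '' closedBall 0 1 ⊆ U := by
      rintro _ ⟨z, hz, rfl⟩
      have hz' := mem_closedBall_zero_iff.1 hz
      refine hth (mem_thickening_iff.2 ⟨j (s * z), ⟨s * z, ?_, rfl⟩, ?_⟩)
      · rw [mem_closedBall_zero_iff, norm_mul, Complex.norm_real, Real.norm_eq_abs,
          abs_of_pos hs2.1]
        nlinarith [hs2.1]
      · have h2 := norm_pol_sub a b hz'
        have h3 : dist a b ≤ δ / 2 / (n + 1) := by
          rw [dist_comm]; exact (hk.trans_le (min_le_right _ _)).le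
        rw [le_div_iff₀ (by positivity)] at h3
        have h4 := dist_triangle (pol a z) (pol b z) (j (s * z))
        rw [← dist_eq_norm] at h2
        have := hb z hz'
        linarith
    refine lt_of_lt_of_le ?_ (le_iSup₂_of_le n k le_rfl)
    rw [indicator_of_mem (by exact hU), ← ofReal_norm,
      ENNReal.lt_ofReal_iff_toReal_lt hct]
    have h5 : dist (b 0) (a 0) < s * ‖deriv j 0‖ - c.toReal :=
      (dist_le_pi_dist b a 0).trans_lt (hk.trans_le (min_le_left _ _))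
    have h6 : ‖b 0‖ = s * ‖deriv j 0‖ := by
      rw [hb0, norm_mul, Complex.norm_real, Real.norm_eq_abs, abs_of_pos hs2.1]
    have h7 := norm_sub_norm_le (b 0) (a 0)
    rw [dist_eq_norm] at h5
    linarith

end Pool.Agent.MP_ac6554_pr
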