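import Pool.Agent.MP_ac6554_pr.Meas

set_option autoImplicit false

open MeasureTheory ProbabilityTheory TopologicalSpace Metric Set Filter Topology
open scoped NNReal ENNReal

namespace Pool.Agent.MP_ac6554_pr

namespace CanonAux

theorem exists_le_of_injective {π : ℕ → ℕ} (h : Function.Injective π) (n : ℕ) :
    ∃ i ≤ n, n ≤ π i := by
  by_contra hn
  push Not at hn
  have := Finset.card_le_card_of_injOn (s := Finset.range (n + 1)) (t := Finset.range n) π
    (fun i hi => by
      simp only [Finset.coe_range, mem_Iio] at hi ⊢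
      exact hn i (by omega)) h.injOn
  simp at this

theorem monotone_perm {a : ℕ → ℝ} (π : Equiv.Perm ℕ) (h1 : Monotone a) (h2 : Monotone (a ∘ π))
    (n : ℕ) : a (π n) = a n := by
  apply le_antisymm
  · obtain ⟨j, hj, hn⟩ := exists_le_of_injective π.symm.injective n
    have := h2 hn
    simp only [Function.comp, Equiv.apply_symm_apply] at this
    exact this.trans (h1 hj)
  · obtain ⟨i, hi, hn⟩ := exists_le_of_injective π.injective n
    exact (h1 hn).trans (h2 hi)

/-- The labels preceding `k`. -/
def below (a : ℕ → ℝ) (k : ℕ) : Set ℕ := {j | a j < a k ∨ (a j = a k ∧ j < k)}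

/-- Finite sublevel sets. -/
def Fin' (a : ℕ → ℝ) : Prop := ∀ j, {k | a k ≤ a j}.Finite

theorem below_finite {a : ℕ → ℝ} (h : Fin' a) (k : ℕ) : (below a k).Finite :=
  (h k).subset fun _ hj => hj.elim le_of_lt fun h => h.1.le

theorem rank_lt {a : ℕ → ℝ} (h : Fin' a) {j k : ℕ} (hj : j ∈ below a k) :
    (below a j).ncard < (below a k).ncard := by
  refine ncard_lt_ncard ⟨fun i hi => ?_, fun hs => ?_⟩ (below_finite h k)
  · rcases hi with hi | ⟨hi, hi'⟩ <;> rcases hj with hj | ⟨hj, hj'⟩
    · exact Or.inl (hi.trans hj)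
    · exact Or.inl (hj ▸ hi)
    · exact Or.inl (hi ▸ hj)
    · exact Or.inr ⟨hi.trans hj, hi'.trans hj'⟩
  · rcases hs hj with h1 | ⟨-, h1⟩
    · exact lt_irrefl _ h1
    · exact lt_irrefl _ h1

theorem below_total (a : ℕ → ℝ) (j k : ℕ) : j ∈ below a k ∨ j = k ∨ k ∈ below a j := by
  rcases lt_trichotomy (a j) (a k) with h | h | h
  · exact Or.inl (Or.inl h)
  · rcases lt_trichotomy j k with h' | h' | h'
    · exact Or.inl (Or.inr ⟨h, h'⟩)
    · exact Or.inr (Or.inl h')
    · exact Or.inr (Or.inr (Or.inr ⟨h.symm, h'⟩))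
  · exact Or.inr (Or.inr (Or.inl h))

theorem rank_bij {a : ℕ → ℝ} (h : Fin' a) : Function.Bijective fun k => (below a k).ncard := by
  have hinj : Function.Injective fun k => (below a k).ncard := by
    intro j k hjk
    rcases below_total a j k with h1 | h1 | h1
    · exact absurd hjk (rank_lt h h1).ne
    · exact h1
    · exact absurd hjk (rank_lt h h1).ne'
  refine ⟨hinj, fun m => ?_⟩
  obtain ⟨_, ⟨k, rfl⟩, hk⟩ := (infinite_range_of_injective hinj).exists_gt m
  obtain ⟨j, -, hj⟩ := surj_on_of_inj_on_of_ncard_le (s := below a k)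
    (t := Iio (below a k).ncard) (fun j _ => (below a j).ncard) (fun j hj => rank_lt h hj)
    (fun _ _ _ _ e => hinj e) (by simp) (finite_Iio _) m hk
  exact ⟨j, hj.symm⟩

open Classical in
/-- The rank of a label. -/
noncomputable def rk (a : ℕ → ℝ) (k : ℕ) : ℕ := if Fin' a then (below a k).ncard else k

theorem rk_bij (a : ℕ → ℝ) : Function.Bijective (rk a) := by
  by_cases h : Fin' a
  · have : rk a = fun k => (below a k).ncard := funext fun k => if_pos h
    rw [this]
    exact rank_bij h
  · have : rk a = id := funext fun k => if_neg h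
    rw [this]
    exact Function.bijective_id

/-- The increasing enumeration. -/
noncomputable def srt (a : ℕ → ℝ) : Equiv.Perm ℕ := (Equiv.ofBijective _ (rk_bij a)).symm

theorem srt_symm (a : ℕ → ℝ) (k : ℕ) : (srt a).symm k = rk a k := rfl

theorem monotone_srt {a : ℕ → ℝ} (h : Fin' a) : Monotone (a ∘ srt a) := by
  intro m n hmn
  by_contra hlt
  have h1 := rank_lt h (j := srt a n) (k := srt a m) (Or.inl (not_le.1 hlt))
  have h2 : ∀ k, (below a (srt a k)).ncard = k := by
    intro k
    have := (srt a).symm_apply_apply k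
    rwa [srt_symm, rk, if_pos h] at this
  rw [h2, h2] at h1
  omega

theorem fin'_comp {a : ℕ → ℝ} (h : Fin' a) (τ : Equiv.Perm ℕ) : Fin' (a ∘ τ) := fun j =>
  (h (τ j)).preimage τ.injective.injOn

theorem fin'_comp_iff {a : ℕ → ℝ} (τ : Equiv.Perm ℕ) : Fin' (a ∘ τ) ↔ Fin' a := by
  refine ⟨fun h => ?_, fun h => fin'_comp h τ⟩
  have := fin'_comp h τ.symm
  rwa [Function.comp_assoc, Equiv.self_comp_symm, Function.comp_id] at this

theorem srt_comp {a : ℕ → ℝ} (h : Fin' a) (τ : Equiv.Perm ℕ) (n : ℕ) :
    a (τ (srt (a ∘ τ) n)) = a (srt a n) := by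
  have h1 := monotone_srt h
  have h2 := monotone_srt (fin'_comp h τ)
  have := monotone_perm (a := a ∘ srt a) ((srt (a ∘ τ)).trans (τ.trans (srt a).symm)) h1 (by
    convert h2 using 1
    funext k
    simp) n
  simpa using this

theorem measurableSet_fin' : MeasurableSet {a : ℕ → ℝ | Fin' a} := by
  have : {a : ℕ → ℝ | Fin' a} = ⋂ j, (fun a : ℕ → ℝ => {k | a k ≤ a j}) ⁻¹' {s | s.Finite} := by
    ext a
    simp [Fin']
  rw [this]
  refine MeasurableSet.iInter fun j => ?_
  refine measurable_set_iff.2 (fun k => ?_) MeasurableSet.setOfPred_finite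
  exact measurableSet_setOfPred.1 (measurableSet_le (measurable_pi_apply k) (measurable_pi_apply j))

theorem measurable_rk (k : ℕ) : Measurable fun a : ℕ → ℝ => rk a k := by
  unfold rk
  refine Measurable.ite measurableSet_fin' (measurable_ncard.comp ?_) measurable_const
  refine measurable_set_iff.2 fun j => ?_
  refine Measurable.or ?_ (Measurable.and ?_ measurable_const)
  · exact measurableSet_setOfPred.1
      (measurableSet_lt (measurable_pi_apply j) (measurable_pi_apply k))
  · exact measurableSet_setOfPred.1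
      (measurableSet_eq_fun (measurable_pi_apply j) (measurable_pi_apply k))

theorem measurable_srt (n : ℕ) : Measurable fun a : ℕ → ℝ => srt a n := by
  refine measurable_to_countable' fun k => ?_
  have : (fun a : ℕ → ℝ => srt a n) ⁻¹' {k} = (fun a => rk a k) ⁻¹' {n} := by
    ext a
    simp only [mem_preimage, mem_singleton_iff, ← srt_symm]
    rw [Equiv.symm_apply_eq, eq_comm]
  rw [this]
  exact measurable_rk k (measurableSet_singleton n)

theorem meas_idx {Ω β : Type*} [MeasurableSpace Ω] [MeasurableSpace β] {X : ℕ → Ω → β}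
    (hX : ∀ k, Measurable (X k)) {N : Ω → ℕ} (hN : Measurable N) :
    Measurable fun ω => X (N ω) ω := by
  have : Measurable fun p : Ω × ℕ => X p.2 p.1 := measurable_from_prod_countable_left hX
  exact this.comp (measurable_id.prodMk hN)

/-- A sequence of closed discs generating the topology. -/
noncomputable def disc (m : ℕ) : Set ℂ :=
  closedBall (denseSeq ℂ m.unpair.1) (1 / ((m.unpair.2 : ℝ) + 1))

theorem exists_disc {U : Set ℂ} (hU : IsOpen U) {z : ℂ} (hz : z ∈ U) :
    ∃ m, z ∈ disc m ∧ disc m ⊆ U := by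
  obtain ⟨r, hr, hs⟩ := Metric.isOpen_iff.1 hU z hz
  obtain ⟨n, hn⟩ := exists_nat_one_div_lt (half_pos hr)
  obtain ⟨a, ha⟩ := (denseRange_denseSeq ℂ).exists_dist_lt z
    (show (0 : ℝ) < 1 / ((n : ℝ) + 1) by positivity)
  refine ⟨Nat.pair a n, ?_, fun w hw => hs ?_⟩
  · simp only [disc, Nat.unpair_pair, mem_closedBall]
    exact ha.le
  · simp only [disc, Nat.unpair_pair, mem_closedBall] at hw
    rw [mem_ball]
    have := dist_triangle_right w z (denseSeq ℂ a)
    linarith

open Classical in
/-- The code of an open set. -/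
noncomputable def code (U : Opens ℂ) (m : ℕ) : Bool := decide (disc m ⊆ U)

/-- A real number determining an open set. -/
noncomputable def key (U : Opens ℂ) : ℝ := -Cardinal.cantorFunction (1 / 3) (code U)

theorem key_injective : Function.Injective key := by
  intro U U' h
  have h1 := Cardinal.cantorFunction_injective (c := 1 / 3) (by norm_num) (by norm_num)
    (neg_injective h)
  have h2 : ∀ m, disc m ⊆ U ↔ disc m ⊆ U' := fun m => by
    simpa [code] using congrFun h1 m
  ext z
  constructor
  · intro hz
    obtain ⟨m, h3, h4⟩ := exists_disc U.isOpen hz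
    exact (h2 m).1 h4 h3
  · intro hz
    obtain ⟨m, h3, h4⟩ := exists_disc U'.isOpen hz
    exact (h2 m).2 h4 h3

theorem measurable_key : Measurable key := by
  refine Measurable.neg (Measurable.tsum fun m => ?_)
  have h1 : Measurable fun U : Opens ℂ => code U m := by
    refine measurable_to_bool ?_
    have : (fun U : Opens ℂ => code U m) ⁻¹' {true} = {U : Opens ℂ | disc m ⊆ U} := by
      ext U
      simp [code]
    rw [this]
    exact measurableSet_supset (isCompact_closedBall _ _)
  exact (Measurable.of_discrete (f := fun b : Bool => cond b ((1 / 3 : ℝ) ^ m) 0)).comp h1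

theorem fin'_of_good {v : Ens} (hv : Good v) : Fin' (key ∘ v) := by
  classical
  intro j
  obtain ⟨z, hz⟩ := (hv.1 j).1
  have hex : ∃ m, disc m ⊆ v j := (exists_disc (v j).isOpen hz).imp fun _ h => h.2
  have hfin : ∀ m, {k | disc m ⊆ v k}.Finite := fun m =>
    (hv.2 (denseSeq ℂ m.unpair.1) (1 / ((m.unpair.2 : ℝ) + 1)) (by positivity)).subset
      fun k hk => ball_subset_closedBall.trans hk
  refine ((finite_Iic (Nat.find hex)).biUnion fun m _ => hfin m).subset fun k hk => ?_
  by_contra hn
  simp only [mem_iUnion, mem_Iic, mem_ofPred_eq, not_exists] at hn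
  have := Cardinal.increasing_cantorFunction (c := 1 / 3) (by norm_num) (by norm_num)
    (n := Nat.find hex) (f := code (v k)) (g := code (v j)) (fun m hm => by
      simp [code, hn m hm.le, Nat.find_min hex hm]) (by simp [code, hn _ le_rfl])
    (by simp [code, Nat.find_spec hex])
  simp only [Function.comp, key, mem_ofPred_eq] at hk
  linarith

end CanonAux

open CanonAux in
theorem exists_can : ∃ (σ : Ens → Equiv.Perm ℕ) (can : Quotient relabel → Ens),
    (∀ n, Measurable fun v => σ v n) ∧ (∀ n, Measurable fun v => (σ v).symm n) ∧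
    Measurable can ∧ ∀ v, Good v → can (Quotient.mk relabel v) = v ∘ σ v := by
  classical
  have hk : Measurable fun v : Ens => key ∘ v :=
    measurable_pi_lambda _ fun k => measurable_key.comp (measurable_pi_apply k)
  refine ⟨fun v => srt (key ∘ v), Quotient.lift
    (fun v : Ens => if Fin' (key ∘ v) then v ∘ srt (key ∘ v) else fun _ => ⊥) ?_,
    fun n => (measurable_srt n).comp hk, fun n => (measurable_rk n).comp hk, ?_, ?_⟩
  · rintro v w ⟨τ, rfl⟩
    have h1 : Fin' (key ∘ v ∘ τ) ↔ Fin' (key ∘ v) := fin'_comp_iff (a := key ∘ v) τ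
    by_cases h : Fin' (key ∘ v)
    · rw [if_pos h, if_pos (h1.2 h)]
      funext n
      exact key_injective (srt_comp h τ n).symm
    · rw [if_neg h, if_neg (mt h1.1 h)]
  · refine measurable_from_quotient.2 ?_
    refine Measurable.ite (hk measurableSet_fin') ?_ measurable_const
    exact measurable_pi_lambda _ fun n =>
      meas_idx (X := fun k (v : Ens) => v k) measurable_pi_apply ((measurable_srt n).comp hk)
  · intro v hv
    exact if_pos (fin'_of_good hv)

end Pool.Agent.MP_ac6554_pr
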