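import Pool.Agent.MP_ac6554_pr.Laplace

set_option autoImplicit false

open Filter Topology Set MeasureTheory
open scoped NNReal ENNReal

namespace Pool.Agent.MP_ac6554_pr

lemma hit_eq (θ : ℝ → ℝ) :
    hit θ = ((sInf {t : ℝ≥0 | Real.cos (θ t / 2) ≤ -1} : ℝ≥0) : ℝ) := by
  rw [NNReal.coe_sInf, hit]
  congr 1
  ext t
  constructor
  · rintro ⟨h0, h⟩
    exact ⟨⟨t, h0⟩, h.le, rfl⟩
  · rintro ⟨s, h, rfl⟩
    exact ⟨s.2, le_antisymm h (Real.neg_one_le_cos _)⟩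

/-- The full output: measurability, almost sure finiteness, Laplace transform. -/
theorem laplace_sle' {κ : ℝ} (h1 : 8 / 3 < κ) (h2 : κ < 8) (h4 : κ ≠ 4) {Ω : Type}
    {m : MeasurableSpace Ω} {Q : Measure Ω} {𝓕 : Filtration ℝ≥0 m} {θ : ℝ → Ω → ℝ}
    {W : ℝ → Ω → ℂ} (h : IsSLE κ Q 𝓕 θ W) :
    Measurable (fun ω => hit fun t => θ t ω) ∧
      (∀ᵐ ω ∂Q, ∃ t, 0 ≤ t ∧ Real.cos (θ t ω / 2) = -1) ∧
      ∀ᶠ l in 𝓝 (0 : ℝ), ∫⁻ ω, ENNReal.ofReal (Real.exp (-(l * hit fun t => θ t ω))) ∂Q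
        = ENNReal.ofReal (Real.cos (Real.pi * (1 - 4 / κ)) /
            Real.cos (Real.pi * √((1 - 4 / κ) ^ 2 - 8 * l / κ))) := by
  have := h.prob
  have key := laplace (P := Q) (ℱ := 𝓕) (x := fun t ω => Real.cos (θ t ω / 2)) h1 h2 h4
    (fun ω => by have := (h.cont ω).1; fun_prop)
    (fun t => Real.measurable_cos.comp ((h.adapted t).div_const 2))
    (fun t ω => Real.abs_cos_le_one _) (fun ω => by simp [h.start])
    (fun f hf => by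
      convert h.mart f hf using 4 with t ω
      refine intervalIntegral.integral_congr fun s hs => ?_
      rw [uIcc_of_le (NNReal.coe_nonneg t)] at hs
      simp only [Real.coe_toNNReal s hs.1])
  simp only [hit_eq]
  refine ⟨key.1.coe_nnreal_real, ?_, key.2.2⟩
  filter_upwards [key.2.1] with ω ⟨t, ht⟩
  exact ⟨t, t.2, le_antisymm ht (Real.neg_one_le_cos _)⟩

theorem laplace_sle {κ : ℝ} (h1 : 8 / 3 < κ) (h2 : κ < 8) (h4 : κ ≠ 4) {Ω : Type}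
    {m : MeasurableSpace Ω} {Q : Measure Ω} {𝓕 : Filtration ℝ≥0 m} {θ : ℝ → Ω → ℝ}
    {W : ℝ → Ω → ℂ} (h : IsSLE κ Q 𝓕 θ W) :
    AEMeasurable (fun ω => hit fun t => θ t ω) Q ∧
      ∀ᶠ l in 𝓝 (0 : ℝ), ∫⁻ ω, ENNReal.ofReal (Real.exp (-(l * hit fun t => θ t ω))) ∂Q
        = ENNReal.ofReal (Real.cos (Real.pi * (1 - 4 / κ)) /
            Real.cos (Real.pi * √((1 - 4 / κ) ^ 2 - 8 * l / κ))) :=
  ⟨(laplace_sle' h1 h2 h4 h).1.aemeasurable, (laplace_sle' h1 h2 h4 h).2.2⟩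

end Pool.Agent.MP_ac6554_pr
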