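import Pool.Agent.MP_ac6554_pr.Int

/-! The radial Loewner domain is the conformal image of the disc, with derivative `exp (-T)`. -/

set_option autoImplicit false

open MeasureTheory TopologicalSpace Metric Set Filter Topology
open scoped NNReal

namespace Pool.Agent.MP_ac6554_pr

namespace LoewnerAux

/-- A solution of the radial Loewner equation that lives in the disc on `[0,T]`. -/
def Sol (W : ℝ → ℂ) (T : ℝ) (g : ℝ → ℂ) : Prop :=
  ∀ s ∈ Icc 0 T, g s ∈ ball (0 : ℂ) 1 ∧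
    HasDerivWithinAt g (g s * (W s + g s) / (W s - g s)) (Icc 0 T) s

/-- The linear equation. -/
lemma lin_ode {T : ℝ} {y q : ℝ → ℂ} (hq : ContinuousOn q (Icc 0 T))
    (hy : ∀ s ∈ Icc 0 T, HasDerivWithinAt y (y s * q s) (Icc 0 T) s) :
    ∀ s ∈ Icc 0 T, y s = y 0 * Complex.exp (∫ u in (0 : ℝ)..s, q u) := by
  have h1 : ∀ s ∈ Icc 0 T, HasDerivWithinAt (fun s => ∫ u in (0 : ℝ)..s, q u) (q s) (Icc 0 T) s := by
    intro s hs
    have : Fact (s ∈ Icc 0 T) := ⟨hs⟩
    refine intervalIntegral.integral_hasDerivWithinAt_right ?_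
      (hq.stronglyMeasurableAtFilter_nhdsWithin measurableSet_Icc s) (hq s hs)
    exact (hq.mono (uIcc_subset_Icc ⟨le_rfl, hs.1.trans hs.2⟩ hs)).intervalIntegrable
  have h2 : ∀ s ∈ Icc 0 T, HasDerivWithinAt
      (fun s => y s * Complex.exp (-∫ u in (0 : ℝ)..s, q u)) 0 (Icc 0 T) s := by
    intro s hs
    have := (hy s hs).mul ((h1 s hs).neg.cexp)
    exact this.congr_deriv (by simp only [Pi.neg_apply]; ring)
  have h3 := constant_of_has_deriv_right_zero (a := 0) (b := T)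
    (f := fun s => y s * Complex.exp (-∫ u in (0 : ℝ)..s, q u))
    (fun s hs => (h2 s hs).continuousWithinAt)
    (fun s hs => (h2 s (Ico_subset_Icc_self hs)).mono_of_mem_nhdsWithin (Icc_mem_nhdsGE_of_mem hs))
  intro s hs
  have h4 := h3 s hs
  simp only [intervalIntegral.integral_same, neg_zero, Complex.exp_zero, mul_one] at h4
  rw [← h4, mul_assoc, ← Complex.exp_add, neg_add_cancel, Complex.exp_zero, mul_one]

lemma norm_sub_ge {V a : ℂ} (hV : ‖V‖ = 1) {r : ℝ} (ha : ‖a‖ ≤ r) : 1 - r ≤ ‖V - a‖ := by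
  have := norm_sub_norm_le V a
  linarith

lemma sub_ne {V a : ℂ} (hV : ‖V‖ = 1) (ha : ‖a‖ < 1) : V - a ≠ 0 := by
  have := norm_sub_ge hV (le_refl ‖a‖)
  exact norm_pos_iff.1 (by linarith)

/-- The divided difference of the vector field. -/
noncomputable def dq (V a b : ℂ) : ℂ := -1 + 2 * V ^ 2 / ((V - a) * (V - b))

lemma field_sub {V a b : ℂ} (ha : V - a ≠ 0) (hb : V - b ≠ 0) :
    a * (V + a) / (V - a) - b * (V + b) / (V - b) = (a - b) * dq V a b := by
  unfold dq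
  field_simp
  ring

lemma norm_dq {V a b : ℂ} (hV : ‖V‖ = 1) {r : ℝ} (hr : r < 1) (ha : ‖a‖ ≤ r) (hb : ‖b‖ ≤ r) :
    ‖dq V a b‖ ≤ 1 + 2 / (1 - r) ^ 2 := by
  unfold dq
  refine (norm_add_le _ _).trans ?_
  rw [norm_neg, norm_one, norm_div, norm_mul, norm_mul, norm_pow, hV, Complex.norm_two, one_pow,
    mul_one]
  have h0 : 0 < 1 - r := by linarith
  have h1 : (1 - r) ^ 2 ≤ ‖V - a‖ * ‖V - b‖ := by
    rw [sq]
    exact mul_le_mul (norm_sub_ge hV ha) (norm_sub_ge hV hb) h0.le (norm_nonneg _)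
  have := div_le_div_of_nonneg_left (by norm_num : (0 : ℝ) ≤ 2) (by positivity) h1
  linarith

variable {W : ℝ → ℂ} {T : ℝ}

lemma Sol.cont {g : ℝ → ℂ} (hg : Sol W T g) : ContinuousOn g (Icc 0 T) :=
  fun s hs => (hg s hs).2.continuousWithinAt

lemma cont_dq (hW : Continuous W) (h1 : ∀ t, ‖W t‖ = 1) {g k : ℝ → ℂ} (hg : Sol W T g)
    (hk : Sol W T k) : ContinuousOn (fun s => dq (W s) (g s) (k s)) (Icc 0 T) := by
  unfold dq
  refine continuousOn_const.add (ContinuousOn.div (by fun_prop)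
    ((hW.continuousOn.sub hg.cont).mul (hW.continuousOn.sub hk.cont)) fun s hs => ?_)
  exact mul_ne_zero (sub_ne (h1 s) (mem_ball_zero_iff.1 (hg s hs).1))
    (sub_ne (h1 s) (mem_ball_zero_iff.1 (hk s hs).1))

lemma sol_sub (hW : Continuous W) (h1 : ∀ t, ‖W t‖ = 1) {g k : ℝ → ℂ} (hg : Sol W T g)
    (hk : Sol W T k) : ∀ s ∈ Icc 0 T,
      g s - k s = (g 0 - k 0) * Complex.exp (∫ u in (0 : ℝ)..s, dq (W u) (g u) (k u)) := by
  refine lin_ode (y := fun s => g s - k s) (cont_dq hW h1 hg hk) fun s hs => ?_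
  have := (hg s hs).2.sub (hk s hs).2
  rwa [field_sub (sub_ne (h1 s) (mem_ball_zero_iff.1 (hg s hs).1))
    (sub_ne (h1 s) (mem_ball_zero_iff.1 (hk s hs).1))] at this

lemma sol_zero (hW : Continuous W) (h1 : ∀ t, ‖W t‖ = 1) (hT : 0 ≤ T) {g k : ℝ → ℂ}
    (hg : Sol W T g) (hk : Sol W T k) :
    g 0 - k 0 = (g T - k T) * Complex.exp (-∫ u in (0 : ℝ)..T, dq (W u) (g u) (k u)) := by
  rw [sol_sub hW h1 hg hk T ⟨hT, le_rfl⟩, mul_assoc, ← Complex.exp_add, add_neg_cancel,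
    Complex.exp_zero, mul_one]

lemma norm_int_le (h1 : ∀ t, ‖W t‖ = 1) {g k : ℝ → ℂ} {r : ℝ} (hr : r < 1)
    (hg : ∀ s ∈ Icc 0 T, ‖g s‖ ≤ r) (hk : ∀ s ∈ Icc 0 T, ‖k s‖ ≤ r) {s : ℝ} (hs : s ∈ Icc 0 T) :
    ‖∫ u in (0 : ℝ)..s, dq (W u) (g u) (k u)‖ ≤ (1 + 2 / (1 - r) ^ 2) * T := by
  have h := intervalIntegral.norm_integral_le_of_norm_le_const (a := 0) (b := s)
    (f := fun u => dq (W u) (g u) (k u)) (C := 1 + 2 / (1 - r) ^ 2) fun u hu => by
      rw [uIoc_of_le hs.1] at hu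
      exact norm_dq (h1 u) hr (hg u ⟨hu.1.le, hu.2.trans hs.2⟩) (hk u ⟨hu.1.le, hu.2.trans hs.2⟩)
  rw [sub_zero, abs_of_nonneg hs.1] at h
  exact h.trans (mul_le_mul_of_nonneg_left hs.2 (by positivity))

lemma sol_lip (hW : Continuous W) (h1 : ∀ t, ‖W t‖ = 1) (hT : 0 ≤ T) {g k : ℝ → ℂ}
    (hg : Sol W T g) (hk : Sol W T k) {r : ℝ} (hr : r < 1)
    (hg' : ∀ s ∈ Icc 0 T, ‖g s‖ ≤ r) (hk' : ∀ s ∈ Icc 0 T, ‖k s‖ ≤ r) {s : ℝ} (hs : s ∈ Icc 0 T) :
    ‖g s - k s‖ ≤ ‖g T - k T‖ * Real.exp ((1 + 2 / (1 - r) ^ 2) * T) *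
      Real.exp ((1 + 2 / (1 - r) ^ 2) * T) := by
  rw [sol_sub hW h1 hg hk s hs, sol_zero hW h1 hT hg hk, norm_mul, norm_mul]
  have e1 := norm_int_le h1 hr hg' hk' hs
  have e2 := norm_int_le h1 hr hg' hk' ⟨hT, le_rfl⟩
  refine mul_le_mul (mul_le_mul_of_nonneg_left ?_ (norm_nonneg _)) ?_ (norm_nonneg _) (by positivity)
  · refine (Complex.norm_exp_le_exp_norm _).trans (Real.exp_le_exp.2 ?_)
    rwa [norm_neg]
  · exact (Complex.norm_exp_le_exp_norm _).trans (Real.exp_le_exp.2 e1)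

/-- The radial retraction onto the closed disc of radius `r`. -/
noncomputable def ret (r : ℝ) (z : ℂ) : ℂ := (r / max r ‖z‖ : ℝ) * z

lemma ret_eq {r : ℝ} (hr : 0 < r) {z : ℂ} (hz : ‖z‖ ≤ r) : ret r z = z := by
  unfold ret
  rw [max_eq_left hz, div_self hr.ne']
  simp

lemma norm_ret {r : ℝ} (hr : 0 < r) (z : ℂ) : ‖ret r z‖ ≤ r := by
  unfold ret
  have h0 : 0 < max r ‖z‖ := lt_max_of_lt_left hr
  rw [norm_mul, Complex.norm_real, Real.norm_of_nonneg (by positivity), div_mul_eq_mul_div,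
    div_le_iff₀ h0]
  exact mul_le_mul_of_nonneg_left (le_max_right _ _) hr.le

lemma ret_lip {r : ℝ} (hr : 0 < r) (z w : ℂ) : ‖ret r z - ret r w‖ ≤ 2 * ‖z - w‖ := by
  have hz : 0 < max r ‖z‖ := lt_max_of_lt_left hr
  have hw : 0 < max r ‖w‖ := lt_max_of_lt_left hr
  have h1 : ret r z - ret r w = (r / max r ‖z‖ : ℝ) * (z - w) +
      ((r / max r ‖z‖ - r / max r ‖w‖ : ℝ) : ℂ) * w := by
    unfold ret
    push_cast
    ring
  have h2 : r / max r ‖z‖ ≤ 1 := (div_le_one hz).2 (le_max_left _ _)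
  have h3 : |max r ‖w‖ - max r ‖z‖| ≤ ‖z - w‖ := by
    refine (abs_max_sub_max_le_max _ _ _ _).trans (max_le (by simp) ?_)
    rw [norm_sub_rev]
    exact abs_norm_sub_norm_le w z
  have h4 : |r / max r ‖z‖ - r / max r ‖w‖| * ‖w‖ ≤ ‖z - w‖ := by
    have e : r / max r ‖z‖ - r / max r ‖w‖ =
        (max r ‖w‖ - max r ‖z‖) * (r / max r ‖z‖) / max r ‖w‖ := by
      field_simp
    rw [e, abs_div, abs_mul, abs_of_pos hw, abs_of_pos (div_pos hr hz), div_mul_eq_mul_div,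
      div_le_iff₀ hw]
    refine mul_le_mul ?_ (le_max_right _ _) (norm_nonneg _) (norm_nonneg _)
    exact (mul_le_of_le_one_right (abs_nonneg _) h2).trans h3
  rw [h1]
  refine (norm_add_le _ _).trans ?_
  rw [norm_mul, norm_mul, Complex.norm_real, Complex.norm_real, Real.norm_eq_abs, Real.norm_eq_abs,
    abs_of_pos (div_pos hr hz)]
  have := mul_le_of_le_one_left (norm_nonneg (z - w)) h2
  linarith

lemma re_nonneg {V p : ℂ} (hV : ‖V‖ = 1) (hp : ‖p‖ < 1) : 0 ≤ ((V + p) / (V - p)).re := by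
  rw [Complex.div_re, ← add_div]
  refine div_nonneg ?_ (Complex.normSq_nonneg _)
  have h1 : V.re ^ 2 + V.im ^ 2 = 1 := by
    have := Complex.sq_norm V
    rw [hV, Complex.normSq_apply] at this
    linarith
  have h2 : p.re ^ 2 + p.im ^ 2 ≤ 1 := by
    have := Complex.sq_norm p
    rw [Complex.normSq_apply] at this
    nlinarith [norm_nonneg p]
  simp only [Complex.add_re, Complex.sub_re, Complex.add_im, Complex.sub_im]
  nlinarith

lemma exists_sol (hW : Continuous W) (h1 : ∀ t, ‖W t‖ = 1) (hT : 0 ≤ T) {w : ℂ} (hw : ‖w‖ < 1) :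
    ∃ g, Sol W T g ∧ g T = w ∧ ∀ s ∈ Icc 0 T, ‖g s‖ ≤ ‖w‖ := by
  obtain ⟨r, hwr, hr1⟩ := exists_between hw
  have hr : 0 < r := (norm_nonneg w).trans_lt hwr
  have hne : ∀ t z, W t - ret r z ≠ 0 := fun t z => sub_ne (h1 t) ((norm_ret hr z).trans_lt hr1)
  set C : ℝ := 1 + 2 / (1 - r) ^ 2 with hC
  have hC0 : 0 ≤ C := by positivity
  have hpl : IsPicardLindelof
      (fun t z => ret r z * (W t + ret r z) / (W t - ret r z)) (⟨T, hT, le_rfl⟩ : Icc 0 T) w
      ⟨C * T, mul_nonneg hC0 hT⟩ 0 ⟨C, hC0⟩ ⟨2 * C, by positivity⟩ := by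
    refine ⟨fun t _ => ?_, fun z _ => ?_, fun t _ z _ => ?_, ?_⟩
    · refine LipschitzWith.lipschitzOnWith (LipschitzWith.of_dist_le_mul fun a b => ?_)
      rw [dist_eq_norm, dist_eq_norm, field_sub (hne t a) (hne t b), norm_mul]
      refine (mul_le_mul (ret_lip hr a b) (norm_dq (h1 t) hr1 (norm_ret hr a) (norm_ret hr b))
        (norm_nonneg _) (by positivity)).trans (le_of_eq ?_)
      change _ = 2 * C * _
      ring
    · exact (Continuous.div (by fun_prop) (by fun_prop) fun t => hne t z).continuousOn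
    · have h := field_sub (hne t z) (b := 0) (sub_ne (h1 t) (by simp))
      simp only [zero_mul, zero_div, sub_zero] at h
      rw [h, norm_mul]
      refine (mul_le_mul ((norm_ret hr z).trans hr1.le)
        (norm_dq (h1 t) hr1 (norm_ret hr z) (b := 0) (by simpa using hr.le))
        (norm_nonneg _) zero_le_one).trans (le_of_eq ?_)
      rw [one_mul]
      rfl
    · change C * max (T - T) (T - 0) ≤ C * T - 0
      rw [sub_self, sub_zero, sub_zero, max_eq_right hT]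
  obtain ⟨g, hgT, hg⟩ := hpl.exists_eq_forall_mem_Icc_hasDerivWithinAt₀
  have hmono : MonotoneOn (fun s => ‖g s‖ ^ 2) (Icc 0 T) := by
    refine monotoneOn_of_hasDerivWithinAt_nonneg (convex_Icc 0 T)
      (f' := fun s => 2 * inner ℝ (g s) (ret r (g s) * (W s + ret r (g s)) / (W s - ret r (g s))))
      (fun s hs => (hg s hs).norm_sq.continuousWithinAt)
      (fun s hs => ((hg s (interior_subset hs)).norm_sq).mono interior_subset) fun s _ => ?_
    have e1 := re_nonneg (h1 s) ((norm_ret hr (g s)).trans_lt hr1)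
    have e2 : 0 ≤ r / max r ‖g s‖ := by positivity
    rw [mul_div_assoc]
    generalize (W s + ret r (g s)) / (W s - ret r (g s)) = ζ at e1 ⊢
    unfold ret
    generalize r / max r ‖g s‖ = a at e2 ⊢
    have e3 : inner ℝ (g s) ((a : ℂ) * g s * ζ) = a * ((g s).re ^ 2 + (g s).im ^ 2) * ζ.re := by
      rw [Complex.inner]
      simp only [Complex.mul_re, Complex.mul_im, Complex.ofReal_re, Complex.ofReal_im,
        Complex.conj_re, Complex.conj_im]
      ring
    rw [e3]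
    positivity
  have hle : ∀ s ∈ Icc 0 T, ‖g s‖ ≤ ‖w‖ := by
    intro s hs
    have := hmono hs ⟨hT, le_rfl⟩ hs.2
    simp only at this hgT
    rw [hgT] at this
    exact (pow_le_pow_iff_left₀ (norm_nonneg _) (norm_nonneg _) two_ne_zero).1 this
  refine ⟨g, fun s hs => ⟨mem_ball_zero_iff.2 ((hle s hs).trans_lt hw), ?_⟩, hgT, hle⟩
  have := hg s hs
  rwa [ret_eq hr ((hle s hs).trans hwr.le)] at this

end LoewnerAux

open LoewnerAux in
/-- The Loewner domain at time `T` is the conformal image of the disc under a map that fixes the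
origin and has derivative `exp (-T)` there. -/
theorem loewner_conf' {W : ℝ → ℂ} (hW : Continuous W) (h1 : ∀ t, ‖W t‖ = 1) {T : ℝ} (hT : 0 ≤ T) :
    ∃ h : ℂ → ℂ, Conf h (loewner W T) ∧ h 0 = 0 ∧ HasDerivAt h (Real.exp (-T) : ℂ) 0 := by
  have hex : ∀ w : ℂ, ∃ g : ℝ → ℂ, ‖w‖ < 1 → Sol W T g ∧ g T = w ∧ ∀ s ∈ Icc 0 T, ‖g s‖ ≤ ‖w‖ := by
    intro w
    by_cases hw : ‖w‖ < 1
    · obtain ⟨g, hg⟩ := exists_sol hW h1 hT hw
      exact ⟨g, fun _ => hg⟩
    · exact ⟨fun _ => 0, fun h => absurd h hw⟩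
  choose G hG using hex
  have hder : ∀ w : ℂ, ‖w‖ < 1 → HasDerivAt (fun z => G z 0)
      (Complex.exp (-∫ u in (0 : ℝ)..T, dq (W u) (G w u) (G w u))) w := by
    intro w hw
    obtain ⟨r, hwr, hr1⟩ := exists_between hw
    have hev : ∀ᶠ z in 𝓝 w, ‖z‖ < r := continuous_norm.continuousAt.eventually_lt
      continuousAt_const hwr
    have hb : ∀ z : ℂ, ‖z‖ < r → ∀ s ∈ Icc 0 T, ‖G z s‖ ≤ r := fun z hz s hs =>
      ((hG z (hz.trans hr1)).2.2 s hs).trans hz.le
    have hpt : ∀ s ∈ Icc 0 T, Tendsto (fun z => G z s) (𝓝 w) (𝓝 (G w s)) := by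
      intro s hs
      rw [tendsto_iff_norm_sub_tendsto_zero]
      refine squeeze_zero' (g := fun z => ‖z - w‖ * Real.exp ((1 + 2 / (1 - r) ^ 2) * T) *
        Real.exp ((1 + 2 / (1 - r) ^ 2) * T)) (Eventually.of_forall fun _ => norm_nonneg _) ?_ ?_
      · filter_upwards [hev] with z hz
        have := sol_lip hW h1 hT (hG z (hz.trans hr1)).1 (hG w hw).1 hr1 (hb z hz) (hb w hwr) hs
        rwa [(hG z (hz.trans hr1)).2.1, (hG w hw).2.1] at this
      · have : Continuous fun z : ℂ => ‖z - w‖ * Real.exp ((1 + 2 / (1 - r) ^ 2) * T) *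
          Real.exp ((1 + 2 / (1 - r) ^ 2) * T) := by fun_prop
        simpa using this.tendsto w
    have hint : Tendsto (fun z => ∫ u in (0 : ℝ)..T, dq (W u) (G z u) (G w u)) (𝓝 w)
        (𝓝 (∫ u in (0 : ℝ)..T, dq (W u) (G w u) (G w u))) := by
      have hsub : ∀ u ∈ uIoc 0 T, u ∈ Icc 0 T := fun u hu => by
        rw [uIoc_of_le hT] at hu
        exact Ioc_subset_Icc_self hu
      refine intervalIntegral.tendsto_integral_filter_of_dominated_convergence
        (fun _ => 1 + 2 / (1 - r) ^ 2) ?_ ?_ intervalIntegrable_const ?_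
      · filter_upwards [hev] with z hz
        exact ((cont_dq hW h1 (hG z (hz.trans hr1)).1 (hG w hw).1).mono hsub).aestronglyMeasurable
          measurableSet_uIoc
      · filter_upwards [hev] with z hz
        exact Eventually.of_forall fun u hu =>
          norm_dq (h1 u) hr1 (hb z hz u (hsub u hu)) (hb w hwr u (hsub u hu))
      · refine Eventually.of_forall fun u hu => ?_
        have hne := sub_ne (h1 u) ((hb w hwr u (hsub u hu)).trans_lt hr1)
        unfold dq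
        exact tendsto_const_nhds.add (tendsto_const_nhds.div
          ((tendsto_const_nhds.sub (hpt u (hsub u hu))).mul tendsto_const_nhds)
          (mul_ne_zero hne hne))
    rw [hasDerivAt_iff_tendsto_slope]
    refine ((hint.neg.cexp).mono_left nhdsWithin_le_nhds).congr' ?_
    filter_upwards [nhdsWithin_le_nhds hev, self_mem_nhdsWithin] with z hz hzw
    have := sol_zero hW h1 hT (hG z (hz.trans hr1)).1 (hG w hw).1
    rw [(hG z (hz.trans hr1)).2.1, (hG w hw).2.1] at this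
    rw [slope_def_field, this, mul_div_cancel_left₀ _ (sub_ne_zero.2 hzw)]
  have hdiff : DifferentiableOn ℂ (fun z => G z 0) (ball 0 1) := fun w hw =>
    (hder w (mem_ball_zero_iff.1 hw)).differentiableAt.differentiableWithinAt
  have hinj : InjOn (fun z => G z 0) (ball 0 1) := by
    intro z hz w hw h
    have hz' := mem_ball_zero_iff.1 hz
    have hw' := mem_ball_zero_iff.1 hw
    have := sol_zero hW h1 hT (hG z hz').1 (hG w hw').1
    rw [(hG z hz').2.1, (hG w hw').2.1, sub_eq_zero.2 h] at this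
    exact sub_eq_zero.1 ((mul_eq_zero.1 this.symm).resolve_right (Complex.exp_ne_zero _))
  have himg : (fun z => G z 0) '' ball 0 1 = {z | ∃ g : ℝ → ℂ, g 0 = z ∧ Sol W T g} := by
    ext z
    constructor
    · rintro ⟨w, hw, rfl⟩
      exact ⟨G w, rfl, (hG w (mem_ball_zero_iff.1 hw)).1⟩
    · rintro ⟨g, rfl, hg⟩
      have hw := (hg T ⟨hT, le_rfl⟩).1
      have hw' := mem_ball_zero_iff.1 hw
      refine ⟨g T, hw, ?_⟩
      have := sol_zero hW h1 hT (hG _ hw').1 hg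
      rw [(hG _ hw').2.1, sub_self, zero_mul] at this
      exact sub_eq_zero.1 this
  have hopen : IsOpen ((fun z => G z 0) '' ball 0 1) := by
    rcases (hdiff.analyticOnNhd isOpen_ball).is_constant_or_isOpen (convex_ball 0 1).isPreconnected
      with ⟨c, hc⟩ | h
    · have a0 : (0 : ℂ) ∈ ball (0 : ℂ) 1 := by simp
      have a1 : (1 / 2 : ℂ) ∈ ball (0 : ℂ) 1 := by
        rw [mem_ball_zero_iff]
        norm_num
      have := hinj a0 a1 ((hc _ a0).trans (hc _ a1).symm)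
      norm_num at this
    · exact h _ Subset.rfl isOpen_ball
  have hL : (loewner W T : Set ℂ) = (fun z => G z 0) '' ball 0 1 := by
    rw [← hopen.interior_eq, himg]
    rfl
  have h0 : ∀ s ∈ Icc 0 T, G 0 s = 0 := fun s hs => by
    simpa using (hG 0 (by simp)).2.2 s hs
  refine ⟨fun z => G z 0, ⟨hdiff, ?_⟩, h0 0 ⟨le_rfl, hT⟩, ?_⟩
  · rw [hL]
    exact hinj.bijOn_image
  · have := hder 0 (by simp)
    have e : ∫ u in (0 : ℝ)..T, dq (W u) (G 0 u) (G 0 u) = ∫ u in (0 : ℝ)..T, (1 : ℂ) := by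
      refine intervalIntegral.integral_congr fun u hu => ?_
      rw [uIcc_of_le hT] at hu
      have hne : W u ≠ 0 := norm_ne_zero_iff.1 (by rw [h1 u]; exact one_ne_zero)
      simp only [h0 u hu, dq, sub_zero]
      field_simp
      ring
    rw [e] at this
    simpa using this

theorem loewner_conf (W : ℝ → ℂ) (hW : Continuous W) (h1 : ∀ t, ‖W t‖ = 1) {t : ℝ} (ht : 0 ≤ t) :
    ∃ j : ℂ → ℂ, Conf j (loewner W t) ∧ j 0 = 0 ∧ ‖deriv j 0‖ = Real.exp (-t) := by
  obtain ⟨j, a, b, c⟩ := loewner_conf' hW h1 ht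
  exact ⟨j, a, b, by rw [c.deriv, Complex.norm_real, Real.norm_of_nonneg (Real.exp_pos _).le]⟩

end Pool.Agent.MP_ac6554_pr
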