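import Pool.Agent.MP_ac6554_pr.Freeze
import Pool.Agent.MP_ac6554_pr.CR
import Pool.Agent.MP_ac6554_pr.Loewner
import Pool.Agent.MP_ac6554_pr.LaplaceSLE

set_option autoImplicit false

open MeasureTheory ProbabilityTheory TopologicalSpace Metric Set Filter Topology
open scoped NNReal ENNReal

namespace Pool.Agent.MP_ac6554_pr

namespace ChainAux

/-- Each variable independent of its past gives an independent sequence. -/
theorem iIndep_of_past {Ω : Type} [mΩ : MeasurableSpace Ω] {P : Measure Ω} [IsProbabilityMeasure P]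
    {B : ℕ → Ω → ℝ} {M : ℕ → MeasurableSpace Ω}
    (hM : ∀ m n, m ≤ n → Measurable[M n] (B m))
    (hI : ∀ n (s : Set Ω) (t : Set ℝ), MeasurableSet[M n] s → MeasurableSet t →
      P (s ∩ B (n + 1) ⁻¹' t) = P s * P (B (n + 1) ⁻¹' t)) : iIndepFun B P := by
  rw [iIndepFun_iff_measure_inter_preimage_eq_mul]
  intro S
  induction S using Finset.induction_on_max with
  | empty => intro s _; simp
  | insert a S haS ih =>
    intro s hs
    have ha : a ∉ S := fun h => lt_irrefl _ (haS a h)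
    rw [Finset.prod_insert ha, Finset.set_biInter_insert,
      ← ih fun j hj => hs j (Finset.mem_insert_of_mem hj)]
    cases a with
    | zero =>
      have : S = ∅ := Finset.eq_empty_of_forall_notMem fun j hj => Nat.not_lt_zero _ (haS j hj)
      subst this
      simp
    | succ n =>
      rw [inter_comm, mul_comm]
      refine hI n _ _ ?_ (hs _ (Finset.mem_insert_self _ _))
      exact Finset.measurableSet_biInter (m := M n) _ fun j hj =>
        hM j n (Nat.le_of_lt_succ (haS j hj)) (hs j (Finset.mem_insert_of_mem hj))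

theorem iIndep_comp_mp {Ω Ω' ι α : Type} [MeasurableSpace Ω] [MeasurableSpace Ω']
    [MeasurableSpace α] {P : Measure Ω} {Q : Measure Ω'} {R : Ω → Ω'} (hR : MeasurePreserving R P Q)
    {Y : ι → Ω' → α} (mY : ∀ n, Measurable (Y n)) (hY : iIndepFun Y Q) :
    iIndepFun (fun n ω => Y n (R ω)) P := by
  rw [iIndepFun_iff_measure_inter_preimage_eq_mul] at hY ⊢
  intro S s hs
  have h1 : (⋂ n ∈ S, (fun ω => Y n (R ω)) ⁻¹' s n) = R ⁻¹' (⋂ n ∈ S, Y n ⁻¹' s n) := by
    ext ω; simp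
  rw [h1, hR.measure_preimage
    (Finset.measurableSet_biInter _ fun n hn => mY n (hs n hn)).nullMeasurableSet, hY S hs]
  refine Finset.prod_congr rfl fun n hn => ?_
  rw [← hR.measure_preimage (mY n (hs n hn)).nullMeasurableSet]
  rfl

theorem iIndep_pair {Ω Ω' ι α β : Type} [MeasurableSpace Ω] [MeasurableSpace Ω']
    [MeasurableSpace α] [MeasurableSpace β] {P : Measure Ω} {Q : Measure Ω'}
    [IsProbabilityMeasure P] [IsProbabilityMeasure Q] {X : ι → Ω → α} {Y : ι → Ω' → β}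
    (mX : ∀ n, Measurable (X n)) (mY : ∀ n, Measurable (Y n)) (hX : iIndepFun X P)
    (hY : iIndepFun Y Q) :
    iIndepFun (fun n (p : Ω × Ω') => (X n p.1, Y n p.2)) (P.prod Q) := by
  classical
  rw [iIndepFun_iff_iIndep]
  refine iIndepSets.iIndep (fun n => Measurable.comap_le (by fun_prop))
    (fun n => preimage (fun p : Ω × Ω' => (X n p.1, Y n p.2)) ''
      image2 (· ×ˢ ·) {s : Set α | MeasurableSet s} {t : Set β | MeasurableSet t})
    (fun n => isPiSystem_prod.comap _) (fun n => ?_) ?_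
  · rw [← MeasurableSpace.comap_generateFrom, generateFrom_prod]
  rw [iIndepSets_iff]
  intro S g hg
  have hg' : ∀ n, ∃ (A : Set α) (B : Set β), n ∈ S → MeasurableSet A ∧ MeasurableSet B ∧
      g n = (X n ⁻¹' A) ×ˢ (Y n ⁻¹' B) := by
    intro n
    by_cases hn : n ∈ S
    · obtain ⟨_, ⟨A, hA, B, hB, rfl⟩, h⟩ := hg n hn
      exact ⟨A, B, fun _ => ⟨hA, hB, h ▸ rfl⟩⟩
    · exact ⟨univ, univ, fun h => absurd h hn⟩
  choose A B hAB using hg'
  have h1 : (⋂ n ∈ S, g n) = (⋂ n ∈ S, X n ⁻¹' A n) ×ˢ (⋂ n ∈ S, Y n ⁻¹' B n) := by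
    ext p
    simp only [mem_iInter, mem_prod, mem_preimage]
    constructor
    · intro h
      refine ⟨fun n hn => ?_, fun n hn => ?_⟩
      · have := h n hn
        rw [(hAB n hn).2.2] at this
        exact this.1
      · have := h n hn
        rw [(hAB n hn).2.2] at this
        exact this.2
    · intro h n hn
      rw [(hAB n hn).2.2]
      exact ⟨h.1 n hn, h.2 n hn⟩
  rw [h1, Measure.prod_prod, hX.measure_inter_preimage_eq_mul S fun n hn => (hAB n hn).1,
    hY.measure_inter_preimage_eq_mul S fun n hn => (hAB n hn).2.1, ← Finset.prod_mul_distrib]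
  refine Finset.prod_congr rfl fun n hn => ?_
  rw [(hAB n hn).2.2, Measure.prod_prod]

theorem zero_mem : (0 : ℂ) ∈ ball (0 : ℂ) 1 := mem_ball_self one_pos

theorem comp0_eq {j : ℂ → ℂ} {U : Opens ℂ} (hj : Conf j U) (h0 : j 0 = 0) : comp0 U = U := by
  apply Opens.ext
  rw [coe_comp0]
  have hc : IsPreconnected (U : Set ℂ) := by
    rw [← hj.2.image_eq]
    exact (convex_ball 0 1).isPreconnected.image _ hj.1.continuousOn
  exact hc.connectedComponentIn (h0 ▸ hj.2.mapsTo zero_mem)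

theorem conf_pull {F G : ℂ → ℂ} {D : Set ℂ} {U : Opens ℂ} (hF : Conf F D) (hF0 : F 0 = 0)
    (hU : (U : Set ℂ) ⊆ D) (hG : Conf G (comp0 U)) (hG0 : G 0 = 0) :
    ∃ g : ℂ → ℂ, Conf g (comp0 (pull F U)) ∧ g 0 = 0 ∧ deriv G 0 = deriv F 0 * deriv g 0 := by
  set φ := Function.invFunOn F (ball 0 1) with hφ
  have hD : F '' ball 0 1 = D := hF.2.image_eq
  have hφd : DifferentiableOn ℂ φ D := hD ▸ univ_inv_diff isOpen_ball hF.1 hF.2.injOn
  have hl : ∀ z ∈ ball (0 : ℂ) 1, φ (F z) = z := fun z hz => hF.2.injOn.leftInvOn_invFunOn hz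
  have hr : ∀ w ∈ D, φ w ∈ ball (0 : ℂ) 1 ∧ F (φ w) = w := fun w hw =>
    Function.invFunOn_pos (hF.2.surjOn hw)
  have hGD : MapsTo G (ball 0 1) D := fun z hz => hU (comp0_le U (hG.2.mapsTo hz))
  have hgd : DifferentiableOn ℂ (fun z => φ (G z)) (ball 0 1) := hφd.comp hG.1 hGD
  have hφ0 : φ 0 = 0 := by have := hl 0 zero_mem; rwa [hF0] at this
  have hg0 : φ (G 0) = 0 := by rw [hG0, hφ0]
  have h0U : (0 : ℂ) ∈ (U : Set ℂ) := comp0_le U (hG0 ▸ hG.2.mapsTo zero_mem)
  have hP : (pull F U : Set ℂ) = ball 0 1 ∩ F ⁻¹' U := coe_pull hF.1.continuousOn U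
  refine ⟨fun z => φ (G z), ⟨hgd, ?_, ?_, ?_⟩, hg0, ?_⟩
  · rw [coe_comp0, mapsTo_iff_image_subset]
    refine ((convex_ball 0 1).isPreconnected.image _ hgd.continuousOn).subset_connectedComponentIn
      ⟨0, zero_mem, hg0⟩ ?_
    rintro _ ⟨z, hz, rfl⟩
    rw [hP]
    refine ⟨(hr _ (hGD hz)).1, ?_⟩
    show F (φ (G z)) ∈ (U : Set ℂ)
    rw [(hr _ (hGD hz)).2]
    exact comp0_le U (hG.2.mapsTo hz)
  · intro z hz w hw h
    refine hG.2.injOn hz hw ?_
    have := congrArg F h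
    simp only at this
    rwa [(hr _ (hGD hz)).2, (hr _ (hGD hw)).2] at this
  · intro z hz
    have hsub : (comp0 (pull F U) : Set ℂ) ⊆ ball 0 1 ∩ F ⁻¹' U := hP ▸ comp0_le _
    have h0 : (0 : ℂ) ∈ (comp0 (pull F U) : Set ℂ) := by
      rw [coe_comp0]
      refine mem_connectedComponentIn ?_
      rw [hP]
      exact ⟨zero_mem, show F 0 ∈ (U : Set ℂ) from hF0.symm ▸ h0U⟩
    have hpc : IsPreconnected (comp0 (pull F U) : Set ℂ) := by
      rw [coe_comp0]; exact isPreconnected_connectedComponentIn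
    have him : F '' (comp0 (pull F U) : Set ℂ) ⊆ (comp0 U : Set ℂ) := by
      rw [coe_comp0 U]
      refine (hpc.image _ (hF.1.continuousOn.mono fun w hw => (hsub hw).1)).subset_connectedComponentIn
        ⟨0, h0, hF0⟩ ?_
      rintro _ ⟨w, hw, rfl⟩
      exact (hsub hw).2
    obtain ⟨w, hw, hwz⟩ := hG.2.surjOn (him ⟨z, hz, rfl⟩)
    exact ⟨w, hw, by simp only [hwz]; exact hl z (hsub hz).1⟩
  · have hb : ball (0 : ℂ) 1 ∈ 𝓝 (0 : ℂ) := isOpen_ball.mem_nhds zero_mem
    have he : G =ᶠ[𝓝 0] F ∘ fun z => φ (G z) := by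
      filter_upwards [hb] with z hz
      exact ((hr _ (hGD hz)).2).symm
    have h1 : DifferentiableAt ℂ F ((fun z => φ (G z)) 0) := by
      simp only [hg0]; exact hF.1.differentiableAt hb
    rw [he.deriv_eq, deriv_comp 0 h1 (hgd.differentiableAt hb)]
    simp only [hg0]

theorem pull_mono (F : ℂ → ℂ) {U W : Opens ℂ} (h : U ≤ W) : pull F U ≤ pull F W :=
  interior_mono (inter_subset_inter_right _ (preimage_mono h))

end ChainAux

open ChainAux

variable {κ : ℝ} {Ω : Type} [MeasurableSpace Ω] {P : Measure Ω} {V : ℕ → Ω → Opens ℂ}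
  {i : ℕ → Ω → ℕ} {f : ℕ → Ω → ℂ → ℂ} {e : ℕ → ℕ → Ω → ℕ}

namespace ChainAux

theorem anti (h : Sk κ P V i f e) (ω : Ω) {m n : ℕ} (hmn : m ≤ n) :
    V (i n ω) ω ≤ V (i m ω) ω :=
  antitone_nat_of_succ_le (f := fun n => V (i n ω) ω)
    (fun n => (h.isub ω n).trans (comp0_le _)) hmn

theorem deriv_ne (h : Sk κ P V i f e) (ω : Ω) (n : ℕ) : deriv (f n ω) 0 ≠ 0 :=
  univ_deriv_ne_zero isOpen_ball (h.fconf ω n).1 (h.fconf ω n).2.injOn zero_mem

/-- The variables `Bb` are one measurable functional of the successive ensembles. -/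
theorem exists_phi (h : Sk κ P V i f e) : ∃ Φ : Ens → ℝ, Measurable Φ ∧
    (∀ ω, Bb f 0 ω = Φ fun k => V k ω) ∧
    ∀ n ω, Bb f (n + 1) ω = Φ fun k => pull (f n ω) (V (e n k ω) ω) := by
  obtain ⟨cr, hm, hmono, hz, hc⟩ := exists_cr
  refine ⟨fun v => -Real.log (⨆ k, cr (v k)).toReal, ?_, fun ω => ?_, fun n ω => ?_⟩
  · exact (Real.measurable_log.comp
      (Measurable.iSup fun k => hm.comp (measurable_pi_apply k)).ennreal_toReal).neg
  · have h1 : (⨆ k, cr (V k ω)) = ‖deriv (f 0 ω) 0‖ₑ := by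
      rw [← hc _ _ (h.fconf ω 0) (h.f0 ω 0)]
      refine le_antisymm (iSup_le fun k => ?_) (le_iSup (fun k => cr (V k ω)) _)
      by_cases hk : (0 : ℂ) ∈ V k ω
      · obtain ⟨m, rfl⟩ : k ∈ range fun n => i n ω := by rw [h.irange]; exact hk
        exact hmono (anti h ω (Nat.zero_le m))
      · rw [hz _ hk]; exact zero_le
    simp only [h1, toReal_enorm]
    rfl
  · obtain ⟨g, hg, hg0, hd⟩ := conf_pull (h.fconf ω n) (h.f0 ω n) (h.isub ω n)
      (h.fconf ω (n + 1)) (h.f0 ω (n + 1))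
    have h1 : (⨆ k, cr (pull (f n ω) (V (e n k ω) ω))) = ‖deriv g 0‖ₑ := by
      rw [← hc _ _ hg hg0]
      refine le_antisymm (iSup_le fun k => ?_) ?_
      · by_cases hk : (0 : ℂ) ∈ pull (f n ω) (V (e n k ω) ω)
        · have h0 : (0 : ℂ) ∈ V (e n k ω) ω := by
            have h2 : (0 : ℂ) ∈ (pull (f n ω) (V (e n k ω) ω) : Set ℂ) := hk
            rw [coe_pull (h.fconf ω n).1.continuousOn] at h2
            have h3 : f n ω 0 ∈ (V (e n k ω) ω : Set ℂ) := h2.2
            rwa [h.f0] at h3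
          obtain ⟨m, hm⟩ : e n k ω ∈ range fun n => i n ω := by rw [h.irange]; exact h0
          have h4 : e n k ω ∈ range fun k => e n k ω := ⟨k, rfl⟩
          rw [h.erange] at h4
          have h5 : n + 1 ≤ m := by
            by_contra h6
            exact h4.2 m (by omega) hm.symm
          rw [← hm]
          exact hmono (pull_mono _ (anti h ω h5))
        · rw [hz _ hk]; exact zero_le
      · obtain ⟨k, hk⟩ : i (n + 1) ω ∈ range fun k => e n k ω := by
          rw [h.erange]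
          exact ⟨h.isub ω n, fun m hm he => by have := h.iinj ω he; omega⟩
        rw [← hk]
        exact le_iSup (fun k => cr (pull (f n ω) (V (e n k ω) ω))) k
    have h2 := deriv_ne h ω (n + 1)
    rw [hd] at h2
    simp only [h1, toReal_enorm, Bb, Tt, hd, norm_mul]
    rw [Real.log_mul (norm_ne_zero_iff.2 (left_ne_zero_of_mul h2))
      (norm_ne_zero_iff.2 (right_ne_zero_of_mul h2))]
    ring

end ChainAux

theorem Sk.measurable_Tt_mY (h : Sk κ P V i f e) {m n : ℕ} (hmn : m ≤ n) :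
    Measurable[mY f n] (Tt f m) := by
  have hd := fun ω => (h.fconf ω m).1
  clear h
  let _ : MeasurableSpace Ω := mY f n
  have h0 : Measurable fun ω (m : Iic n) => f m ω := comap_measurable _
  have h1 := (measurable_eval (g := f m) hd fun z _ =>
    (measurable_pi_apply z).comp ((measurable_pi_apply (⟨m, hmn⟩ : Iic n)).comp h0)).2
  have h2 : Measurable fun ω => deriv (f m ω) 0 := by
    have := h1.comp (measurable_prodMk_right (y := (0 : ℂ)))
    simpa [Function.comp_def] using this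
  exact (Real.measurable_log.comp h2.norm).neg

theorem Sk.measurable_Bb_mY (h : Sk κ P V i f e) {m n : ℕ} (hmn : m ≤ n) :
    Measurable[mY f n] (Bb f m) := by
  cases m with
  | zero => exact h.measurable_Tt_mY hmn
  | succ m =>
    have h1 := h.measurable_Tt_mY hmn
    have h2 := h.measurable_Tt_mY (Nat.le_of_succ_le hmn)
    clear h
    let _ : MeasurableSpace Ω := mY f n
    exact h1.sub h2

theorem Sk.mY_le (h : Sk κ P V i f e) (n : ℕ) : mY f n ≤ ‹MeasurableSpace Ω› :=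
  Measurable.comap_le (measurable_pi_lambda _ fun m => measurable_pi_lambda _ fun z => h.fmeas m z)

theorem Sk.measurable_Bb (h : Sk κ P V i f e) (n : ℕ) : Measurable (Bb f n) :=
  (h.measurable_Bb_mY le_rfl).mono (h.mY_le n) le_rfl

theorem Sk.Bb_nonneg (h : Sk κ P V i f e) (n : ℕ) (ω : Ω) : 0 ≤ Bb f n ω := by
  obtain ⟨cr, -, hmono, -, hc⟩ := exists_cr
  have hcr := fun n => hc _ _ (h.fconf ω n) (h.f0 ω n)
  cases n with
  | zero =>
    have hid : Conf id ((⟨ball 0 1, isOpen_ball⟩ : Opens ℂ) : Set ℂ) :=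
      ⟨differentiableOn_id, bijOn_id _⟩
    have h1 := hc ⟨ball 0 1, isOpen_ball⟩ id (by rwa [comp0_eq hid rfl]) rfl
    have h2 : cr (V (i 0 ω) ω) ≤ cr ⟨ball 0 1, isOpen_ball⟩ := hmono ((h.good ω).1 _).2
    rw [hcr, h1, enorm_le_iff_norm_le, deriv_id, norm_one] at h2
    exact neg_nonneg.2 (Real.log_nonpos (norm_nonneg _) h2)
  | succ n =>
    have h2 := hmono (anti h ω (Nat.le_succ n))
    rw [hcr, hcr, enorm_le_iff_norm_le] at h2
    have h3 := Real.log_le_log (norm_pos_iff.2 (deriv_ne h ω (n + 1))) h2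
    simp only [Bb, Tt]
    linarith

theorem Sk.indep_B [IsProbabilityMeasure P] (h : Sk κ P V i f e) :
    iIndepFun (Bb f) P ∧ ∀ n, P.map (Bb f n) = P.map (Bb f 0) := by
  obtain ⟨Φ, hΦ, h0, h1⟩ := exists_phi h
  refine ⟨iIndep_of_past (M := mY f) (fun m n hmn => h.measurable_Bb_mY hmn)
    fun n s t hs ht => ?_, fun n => ?_⟩
  · refine (h.indep n).meas_inter hs ⟨Φ ⁻¹' t, hΦ ht, ?_⟩
    ext ω
    simp only [mem_preimage, h1]
  · cases n with
    | zero => rfl
    | succ n =>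
      rw [funext (h1 n), funext h0]
      exact ((h.law n).comp hΦ).map_eq

theorem Sk.ssw [IsProbabilityMeasure P] (h : Sk κ P V i f e) (h1 : 8 / 3 < κ) (h2 : κ < 8)
    (h4 : κ ≠ 4) : SSW κ (P.map (Bb f 0)) := by
  obtain ⟨Ω', m, Q, 𝓕, θ, W, hS, hI⟩ := h.sle
  obtain ⟨cr, hm, -, -, hc⟩ := exists_cr
  obtain ⟨hτ, -, hL⟩ := laplace_sle' h1 h2 h4 hS
  have hΨ : Measurable fun U : Opens ℂ => -Real.log (cr U).toReal :=
    (Real.measurable_log.comp hm.ennreal_toReal).neg
  have key : ∀ (U : Opens ℂ) (j : ℂ → ℂ), Conf j U → j 0 = 0 → (cr U).toReal = ‖deriv j 0‖ :=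
    fun U j hj h0 => by rw [hc U j (by rwa [comp0_eq hj h0]) h0, toReal_enorm]
  have e1 : Bb f 0 = (fun U : Opens ℂ => -Real.log (cr U).toReal) ∘
      fun ω => comp0 (V (i 0 ω) ω) := by
    funext ω
    simp only [Function.comp, key _ _ (h.fconf ω 0) (h.f0 ω 0)]
    rfl
  have e2 : (fun ω => hit fun t => θ t ω) = (fun U : Opens ℂ => -Real.log (cr U).toReal) ∘
      fun ω => loewner (fun t => W t ω) (hit fun t => θ t ω) := by
    funext ω
    obtain ⟨j, hj, hj0, hd⟩ := loewner_conf (fun t => W t ω) (hS.cont ω).2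
      (fun t => hS.circle t ω) (t := hit fun t => θ t ω) (Real.sInf_nonneg fun t ht => ht.1)
    simp only [Function.comp, key _ _ hj hj0, hd, Real.log_exp, neg_neg]
  have e3 : P.map (Bb f 0) = Q.map fun ω => hit fun t => θ t ω := by
    rw [e1, (hI.comp hΨ).map_eq, ← e2]
  rw [e3]
  filter_upwards [hL] with l hl
  rw [lintegral_map (by fun_prop) hτ, hl]

theorem Sk.indep_Z [IsProbabilityMeasure P] (h : Sk κ P V i f e) (μ : Measure ℝ)
    [IsProbabilityMeasure μ] :
    iIndepFun (fun n (p : Ω × (ℕ → ℝ)) => (Bb f n p.1, p.2 (i n p.1))) (PP P μ) ∧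
    ∀ n, (PP P μ).map (fun p : Ω × (ℕ → ℝ) => (Bb f n p.1, p.2 (i n p.1))) =
      (P.map (Bb f 0)).prod μ := by
  have hR := relabel_mp P μ i h.imeas h.iinj
  have hB := h.measurable_Bb
  have mY : ∀ n, Measurable fun q : Ω × (ℕ → ℝ) => (Bb f n q.1, q.2 n) := fun n =>
    ((hB n).comp measurable_fst).prodMk ((measurable_pi_apply n).comp measurable_snd)
  refine ⟨iIndep_comp_mp hR mY (iIndep_pair (Y := fun n (ξ : ℕ → ℝ) => ξ n) hB
    (fun n => measurable_pi_apply n) h.indep_B.1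
    (iIndepFun_infinitePi (X := fun _ x => x) fun _ => measurable_id)), fun n => ?_⟩
  have h1 : (fun p : Ω × (ℕ → ℝ) => (Bb f n p.1, p.2 (i n p.1))) =
      Prod.map (Bb f n) (fun ξ : ℕ → ℝ => ξ n) ∘
        fun p : Ω × (ℕ → ℝ) => (p.1, fun k => p.2 (i k p.1)) := rfl
  rw [h1, ← Measure.map_map ((hB n).prodMap (measurable_pi_apply n)) hR.measurable, hR.map_eq,
    ← Measure.map_prod_map _ _ (hB n) (measurable_pi_apply n), h.indep_B.2 n,
    Measure.infinitePi_map_eval]

end Pool.Agent.MP_ac6554_pr
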