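import Mathlib

/-!
# Step (10): the analytic endgame

If the moment generating function of a law `μ` is bounded near `0` by
`cos (√(r² - a t - c t²)) / cos r` with agreement of the first two moments, then `μ = δ₀`.
-/

namespace Pool.Agent.MP_ac6554_pr

open MeasureTheory ProbabilityTheory Filter Topology Set Real

namespace EndgameAux

lemma nonneg_of_deriv {f f' : ℝ → ℝ} (hf : ∀ x, HasDerivAt f (f' x) x) (h0 : f 0 = 0)
    (h' : ∀ x, 0 ≤ x → 0 ≤ f' x) {x : ℝ} (hx : 0 ≤ x) : 0 ≤ f x := by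
  rcases hx.eq_or_lt with rfl | hx
  · exact h0.ge
  obtain ⟨c, hc, hc'⟩ := exists_hasDerivAt_eq_slope f f' hx
    (fun y _ => (hf y).continuousAt.continuousWithinAt) (fun y _ => hf y)
  have h1 := h' c hc.1.le
  rw [hc', h0, sub_zero, sub_zero] at h1
  by_contra hneg
  have : f x / x < 0 := div_neg_of_neg_of_pos (not_le.1 hneg) hx
  linarith

lemma cos_le4 {x : ℝ} (hx : 0 ≤ x) : cos x ≤ 1 - x ^ 2 / 2 + x ^ 4 / 24 := by
  have := nonneg_of_deriv (f := fun y => 1 - y ^ 2 / 2 + y ^ 4 / 24 - cos y)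
    (f' := fun y => sin y - (y - y ^ 3 / 6)) (fun y => by
      have h1 := (((hasDerivAt_const y (1 : ℝ)).sub ((hasDerivAt_pow 2 y).div_const 2)).add
        ((hasDerivAt_pow 4 y).div_const 24)).sub (hasDerivAt_cos y)
      refine h1.congr_deriv ?_
      push_cast
      ring) (by simp) (fun y hy => sub_nonneg.2 (sin_ge_sub_cube hy)) hx
  linarith

lemma sin_le5 {x : ℝ} (hx : 0 ≤ x) : sin x ≤ x - x ^ 3 / 6 + x ^ 5 / 120 := by
  have := nonneg_of_deriv (f := fun y => y - y ^ 3 / 6 + y ^ 5 / 120 - sin y)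
    (f' := fun y => 1 - y ^ 2 / 2 + y ^ 4 / 24 - cos y) (fun y => by
      have h1 := (((hasDerivAt_id y).sub ((hasDerivAt_pow 3 y).div_const 6)).add
        ((hasDerivAt_pow 5 y).div_const 120)).sub (hasDerivAt_sin y)
      refine h1.congr_deriv ?_
      push_cast
      ring) (by simp) (fun y hy => sub_nonneg.2 (cos_le4 hy)) hx
  linarith

lemma cos_ge6 {x : ℝ} (hx : 0 ≤ x) : 1 - x ^ 2 / 2 + x ^ 4 / 24 - x ^ 6 / 720 ≤ cos x := by
  have := nonneg_of_deriv (f := fun y => cos y - (1 - y ^ 2 / 2 + y ^ 4 / 24 - y ^ 6 / 720))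
    (f' := fun y => y - y ^ 3 / 6 + y ^ 5 / 120 - sin y) (fun y => by
      have h1 := (hasDerivAt_cos y).sub
        ((((hasDerivAt_const y (1 : ℝ)).sub ((hasDerivAt_pow 2 y).div_const 2)).add
        ((hasDerivAt_pow 4 y).div_const 24)).sub ((hasDerivAt_pow 6 y).div_const 720))
      refine h1.congr_deriv ?_
      push_cast
      ring) (by simp) (fun y hy => sub_nonneg.2 (sin_le5 hy)) hx
  linarith

lemma exp_add_exp_ge (x : ℝ) : 2 + x ^ 2 + x ^ 4 / 12 ≤ exp x + exp (-x) := by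
  have h := sum_le_hasSum (Finset.range 3) (fun n _ => by
    have : 0 ≤ x ^ (2 * n) := by rw [pow_mul]; positivity
    positivity) (Real.hasSum_cosh x)
  rw [Real.cosh_eq] at h
  simp only [Finset.sum_range_succ, Finset.sum_range_zero, Nat.factorial] at h
  norm_num at h
  linarith

/-- `cos √u` and its first four derivatives. -/
noncomputable def g0 (u : ℝ) : ℝ := cos √u
noncomputable def g1 (u : ℝ) : ℝ := -sin √u / (2 * √u)
noncomputable def g2 (u : ℝ) : ℝ := (-g0 u - 2 * g1 u) / (4 * u)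
noncomputable def g3 (u : ℝ) : ℝ := (-g1 u - 6 * g2 u) / (4 * u)
noncomputable def g4 (u : ℝ) : ℝ := (-g2 u - 10 * g3 u) / (4 * u)

lemma d0 {u : ℝ} (hu : 0 < u) : HasDerivAt g0 (g1 u) u := by
  have h := (hasDerivAt_sqrt hu.ne').cos
  refine h.congr_deriv ?_
  unfold g1
  ring

lemma d1 {u : ℝ} (hu : 0 < u) : HasDerivAt g1 (g2 u) u := by
  have hs : 0 < √u := sqrt_pos.2 hu
  have h := (hasDerivAt_sqrt hu.ne').sin.neg.div ((hasDerivAt_sqrt hu.ne').const_mul 2)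
    (by positivity)
  refine h.congr_deriv ?_
  unfold g2 g1 g0
  have e : u = √u ^ 2 := (sq_sqrt hu.le).symm
  simp only [Pi.neg_apply]
  clear h
  generalize √u = s at *
  subst e
  field_simp
  ring

lemma d2 {u : ℝ} (hu : 0 < u) : HasDerivAt g2 (g3 u) u := by
  have h := ((d0 hu).neg.sub ((d1 hu).const_mul 2)).div ((hasDerivAt_id u).const_mul 4)
    (by simp only [id]; positivity)
  refine h.congr_deriv ?_
  have e : -g0 u - 2 * g1 u = 4 * u * g2 u := by unfold g2; field_simp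
  simp only [Pi.neg_apply, Pi.sub_apply, id, e]
  unfold g3
  field_simp
  ring

lemma d3 {u : ℝ} (hu : 0 < u) : HasDerivAt g3 (g4 u) u := by
  have h := ((d1 hu).neg.sub ((d2 hu).const_mul 6)).div ((hasDerivAt_id u).const_mul 4)
    (by simp only [id]; positivity)
  refine h.congr_deriv ?_
  have e : -g1 u - 6 * g2 u = 4 * u * g3 u := by unfold g3; field_simp
  simp only [Pi.neg_apply, Pi.sub_apply, id, e]
  unfold g4
  field_simp
  ring

lemma neg_step {f f' : ℝ → ℝ} (hf : ∀ᶠ t in 𝓝 (0 : ℝ), HasDerivAt f (f' t) t) (h0 : f 0 = 0)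
    (h' : ∀ᶠ t in 𝓝[>] (0 : ℝ), f' t < 0) : ∀ᶠ t in 𝓝[>] (0 : ℝ), f t < 0 := by
  obtain ⟨δ, hδ, h1⟩ := Metric.eventually_nhds_iff.1 hf
  obtain ⟨ε, hε, h2⟩ := Metric.eventually_nhds_iff.1 (eventually_nhdsWithin_iff.1 h')
  have : Ioo (0 : ℝ) (min δ ε) ∈ 𝓝[>] (0 : ℝ) := Ioo_mem_nhdsGT (lt_min hδ hε)
  filter_upwards [this] with t ht
  have hd : ∀ y ∈ Icc 0 t, HasDerivAt f (f' y) y := fun y hy => h1 (by
    rw [Real.dist_eq, sub_zero, abs_of_nonneg hy.1]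
    exact hy.2.trans_lt (ht.2.trans_le (min_le_left _ _)))
  obtain ⟨c, hc, hc'⟩ := exists_hasDerivAt_eq_slope f f' ht.1
    (fun y hy => (hd y hy).continuousAt.continuousWithinAt)
    (fun y hy => hd y (Ioo_subset_Icc_self hy))
  have h3 : f' c < 0 := h2 (by
    rw [Real.dist_eq, sub_zero, abs_of_nonneg hc.1.le]
    exact hc.2.trans (ht.2.trans_le (min_le_right _ _))) hc.1
  rw [hc', h0, sub_zero, sub_zero] at h3
  by_contra hneg
  have : 0 ≤ f t / t := div_nonneg (not_lt.1 hneg) ht.1.le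
  linarith

lemma fourth_nonneg {D0 D1 D2 D3 : ℝ → ℝ} {d : ℝ}
    (h0 : ∀ᶠ t in 𝓝 (0 : ℝ), HasDerivAt D0 (D1 t) t)
    (h1 : ∀ᶠ t in 𝓝 (0 : ℝ), HasDerivAt D1 (D2 t) t)
    (h2 : ∀ᶠ t in 𝓝 (0 : ℝ), HasDerivAt D2 (D3 t) t)
    (h3 : HasDerivAt D3 d 0) (z0 : D0 0 = 0) (z1 : D1 0 = 0) (z2 : D2 0 = 0) (z3 : D3 0 = 0)
    (hpos : ∀ᶠ t in 𝓝 (0 : ℝ), 0 ≤ D0 t) : 0 ≤ d := by
  by_contra hd
  have hd : d < 0 := not_le.1 hd
  have e3 : ∀ᶠ t in 𝓝[>] (0 : ℝ), D3 t < 0 := by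
    have h := (h3.tendsto_slope_zero_right).eventually (gt_mem_nhds hd)
    filter_upwards [h, self_mem_nhdsWithin] with t ht ht0
    rw [zero_add, z3, sub_zero, smul_eq_mul] at ht
    by_contra hneg
    have : 0 ≤ t⁻¹ * D3 t := mul_nonneg (inv_nonneg.2 (le_of_lt ht0)) (not_lt.1 hneg)
    linarith
  have e0 := neg_step h0 z0 (neg_step h1 z1 (neg_step h2 z2 e3))
  obtain ⟨t, ht, ht'⟩ := (e0.and (hpos.filter_mono nhdsWithin_le_nhds)).exists
  linarith

lemma g0_sq {r : ℝ} (hr : 0 < r) : g0 (r ^ 2) = cos r := by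
  unfold g0; rw [sqrt_sq hr.le]

lemma g1_sq {r : ℝ} (hr : 0 < r) : g1 (r ^ 2) = -sin r / (2 * r) := by
  unfold g1; rw [sqrt_sq hr.le]

lemma g2_sq {r : ℝ} (hr : 0 < r) : g2 (r ^ 2) = (sin r - r * cos r) / (4 * r ^ 3) := by
  unfold g2; rw [g0_sq hr, g1_sq hr]; field_simp; ring

lemma g3_sq {r : ℝ} (hr : 0 < r) :
    g3 (r ^ 2) = -(((3 - r ^ 2) * sin r - 3 * r * cos r) / (8 * r ^ 5)) := by
  unfold g3; rw [g1_sq hr, g2_sq hr]; field_simp; ring

lemma g4_sq {r : ℝ} (hr : 0 < r) :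
    g4 (r ^ 2) = ((15 - 6 * r ^ 2) * sin r - (15 * r - r ^ 3) * cos r) / (16 * r ^ 7) := by
  unfold g4; rw [g2_sq hr, g3_sq hr]; field_simp; ring

lemma sq_le {r : ℝ} (hr : 0 < r) (hr' : r < π / 2) : r ^ 2 ≤ 5 / 2 := by
  have := pi_lt_d2
  nlinarith

lemma g3_le {r : ℝ} (hr : 0 < r) (hr' : r < π / 2) : g3 (r ^ 2) ≤ -(1 / 192) := by
  have h2 := sq_le hr hr'
  rw [g3_sq hr, neg_le_neg_iff, le_div_iff₀ (by positivity)]
  have a1 := mul_le_mul_of_nonneg_left (sin_ge_sub_cube hr.le) (show 0 ≤ 3 - r ^ 2 by linarith)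
  have a2 := mul_le_mul_of_nonneg_left (cos_le4 hr.le) (show 0 ≤ 3 * r by positivity)
  nlinarith

lemma g4_le {r : ℝ} (hr : 0 < r) (hr' : r < π / 2) : g4 (r ^ 2) ≤ 1 / 1280 := by
  have h2 := sq_le hr hr'
  rw [g4_sq hr, div_le_iff₀ (by positivity)]
  have a1 := mul_le_mul_of_nonneg_left (sin_le5 hr.le) (show 0 ≤ 15 - 6 * r ^ 2 by linarith)
  have a2 := mul_le_mul_of_nonneg_left (cos_ge6 hr.le)
    (show 0 ≤ 15 * r - r ^ 3 by nlinarith)
  have a3 : 0 ≤ r ^ 9 := by positivity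
  nlinarith

/-- `g1² - g0 g2 ≥ 1/12` on the range. -/
lemma var_ge {r : ℝ} (hr : 0 < r) (hr' : r < π / 2) :
    1 / 12 ≤ g1 (r ^ 2) ^ 2 - g0 (r ^ 2) * g2 (r ^ 2) := by
  have h2 := sq_le hr hr'
  have e : g1 (r ^ 2) ^ 2 - g0 (r ^ 2) * g2 (r ^ 2) = (2 * r - sin (2 * r)) / (8 * r ^ 3) := by
    rw [g0_sq hr, g1_sq hr, g2_sq hr, sin_two_mul]
    have := sin_sq_add_cos_sq r
    field_simp
    linear_combination (32 * r) * this
  rw [e, le_div_iff₀ (by positivity)]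
  have a1 := sin_le5 (show 0 ≤ 2 * r by positivity)
  have a3 : 0 ≤ r ^ 3 * (5 / 2 - r ^ 2) := mul_nonneg (by positivity) (by linarith)
  nlinarith

lemma g1_neg {r : ℝ} (hr : 0 < r) (hr' : r < π / 2) : g1 (r ^ 2) < 0 := by
  rw [g1_sq hr]
  have : 0 < sin r := sin_pos_of_pos_of_lt_pi hr (by linarith [pi_pos])
  exact div_neg_of_neg_of_pos (by linarith) (by positivity)

lemma g0_pos {r : ℝ} (hr : 0 < r) (hr' : r < π / 2) : 0 < g0 (r ^ 2) := by
  rw [g0_sq hr]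
  exact cos_pos_of_mem_Ioo ⟨by linarith, hr'⟩

/-- The algebraic heart of the argument. -/
lemma alg {r a c m1 m2 m4 : ℝ} (hr : 0 < r) (hr' : r < π / 2)
    (h1 : m1 * g0 (r ^ 2) = -g1 (r ^ 2) * a)
    (h2 : m2 * g0 (r ^ 2) = g2 (r ^ 2) * a ^ 2 - 2 * c * g1 (r ^ 2))
    (h4 : m4 * g0 (r ^ 2) ≤
      g4 (r ^ 2) * a ^ 4 - 12 * c * g3 (r ^ 2) * a ^ 2 + 12 * c ^ 2 * g2 (r ^ 2))
    (hv : m1 ^ 2 ≤ m2) (hq : 0 ≤ m4 - 2 * c * m2 + c ^ 2) : m2 = 0 := by
  have p0 := g0_pos hr hr'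
  have p1 := g1_neg hr hr'
  have p3 := g3_le hr hr'
  have p4 := g4_le hr hr'
  have pv := var_ge hr hr'
  have hu : 0 < r ^ 2 := by positivity
  have o0 : g0 (r ^ 2) = -(4 * r ^ 2 * g2 (r ^ 2)) - 2 * g1 (r ^ 2) := by
    rw [g2]; field_simp; ring
  have o1 : g1 (r ^ 2) = -(4 * r ^ 2 * g3 (r ^ 2)) - 6 * g2 (r ^ 2) := by
    rw [g3]; field_simp; ring
  have o2 : g2 (r ^ 2) = -(4 * r ^ 2 * g4 (r ^ 2)) - 10 * g3 (r ^ 2) := by
    rw [g4]; field_simp; ring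
  have o3 : g0 (r ^ 2) ^ 2 + 4 * r ^ 2 * g1 (r ^ 2) ^ 2 = 1 := by
    rw [g0_sq hr, g1_sq hr]
    have := sin_sq_add_cos_sq r
    field_simp
    linear_combination 4 * this
  generalize g0 (r ^ 2) = G0 at *
  generalize g1 (r ^ 2) = G1 at *
  generalize g2 (r ^ 2) = G2 at *
  generalize g3 (r ^ 2) = G3 at *
  generalize g4 (r ^ 2) = G4 at *
  generalize r ^ 2 = u at *
  -- variance inequality
  have hV : a ^ 2 * (G1 ^ 2 - G0 * G2) ≤ 2 * c * (-G1 * G0) := by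
    have e1 : (m1 * G0) ^ 2 ≤ (m2 * G0) * G0 := by nlinarith [sq_nonneg G0]
    rw [h1, h2] at e1
    nlinarith
  have pp : 0 < -G1 * G0 := mul_pos (by linarith) p0
  have hc : 0 ≤ c := by
    by_contra hc
    have : 2 * c * (-G1 * G0) < 0 := mul_neg_of_neg_of_pos (by linarith) pp
    have : 0 ≤ a ^ 2 * (G1 ^ 2 - G0 * G2) := mul_nonneg (sq_nonneg _) (by linarith)
    linarith
  rcases hc.eq_or_lt with rfl | hc
  · have ha : a ^ 2 = 0 := by
      refine le_antisymm ?_ (sq_nonneg a)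
      by_contra ha
      have : 0 < a ^ 2 * (G1 ^ 2 - G0 * G2) := mul_pos (not_le.1 ha) (by linarith)
      linarith
    rw [ha] at h2
    have : m2 * G0 = 0 := by rw [h2]; ring
    exact (mul_eq_zero.1 this).resolve_right p0.ne'
  · exfalso
    obtain ⟨B, hB⟩ : ∃ B, a ^ 2 = 4 * c * (B - u) := ⟨a ^ 2 / (4 * c) + u, by field_simp; ring⟩
    have hBu : u ≤ B := by
      by_contra h
      have : 4 * c * (B - u) < 0 := mul_neg_of_pos_of_neg (by positivity) (by linarith)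
      nlinarith [sq_nonneg a]
    have hB0 : 0 < B := hu.trans_le hBu
    -- `B ≤ 3`
    have hV' : 4 * B * (G1 ^ 2 - G0 * G2) ≤ 1 := by
      rw [hB] at hV
      have e2 : 4 * (B - u) * (G1 ^ 2 - G0 * G2) ≤ 2 * (-G1 * G0) := by
        refine le_of_mul_le_mul_left ?_ hc
        nlinarith
      have e3 : 4 * u * (G0 * G2) = -G0 ^ 2 - 2 * (G1 * G0) := by
        linear_combination G0 * o0
      nlinarith
    have hB3 : B ≤ 3 := by nlinarith
    -- fourth order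
    have e4 : 0 ≤ (m4 - 2 * c * m2 + c ^ 2) * G0 := mul_nonneg hq p0.le
    have e5 : 0 ≤ c ^ 2 * (16 * B * (B * G4 + 2 * G3)) := by
      have e6 : a ^ 4 = (4 * c * (B - u)) ^ 2 := by rw [← hB]; ring
      have e7 : (m4 - 2 * c * m2 + c ^ 2) * G0 = m4 * G0 - 2 * c * (m2 * G0) + c ^ 2 * G0 := by
        ring
      rw [e7, h2] at e4
      rw [e6, hB] at h4
      rw [hB] at e4
      have e8 : G4 * (4 * c * (B - u)) ^ 2 - 12 * c * G3 * (4 * c * (B - u)) + 12 * c ^ 2 * G2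
          - 2 * c * (G2 * (4 * c * (B - u)) - 2 * c * G1) + c ^ 2 * G0
          = c ^ 2 * (16 * B * (B * G4 + 2 * G3)) := by
        rw [o0, o1, o2]; ring
      linarith
    have e9 : B * G4 + 2 * G3 < 0 := by nlinarith
    have : c ^ 2 * (16 * B * (B * G4 + 2 * G3)) < 0 :=
      mul_neg_of_pos_of_neg (by positivity) (mul_neg_of_pos_of_neg (by positivity) e9)
    linarith

/-- Finite exponential moments near `0`. -/
lemma mem_interior {μ : Measure ℝ} {f : ℝ → ℝ}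
    (h : ∀ᶠ t in 𝓝 (0 : ℝ), ∫⁻ x, ENNReal.ofReal (exp (t * x)) ∂μ ≤ ENNReal.ofReal (f t)) :
    (0 : ℝ) ∈ interior (integrableExpSet id μ) := by
  rw [mem_interior_iff_mem_nhds]
  filter_upwards [h] with t ht
  change Integrable (fun x => exp (t * x)) μ
  refine ⟨by fun_prop, ?_⟩
  rw [hasFiniteIntegral_iff_ofReal (Eventually.of_forall fun x => (exp_pos _).le)]
  exact ht.trans_lt ENNReal.ofReal_lt_top

lemma lintegral_eq_mgf {μ : Measure ℝ} {t : ℝ} (ht : t ∈ integrableExpSet id μ) :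
    ∫⁻ x, ENNReal.ofReal (exp (t * x)) ∂μ = ENNReal.ofReal (mgf id μ t) :=
  (ofReal_integral_eq_lintegral_ofReal ht (Eventually.of_forall fun _ => (exp_pos _).le)).symm

lemma eq_dirac {μ : Measure ℝ} [IsProbabilityMeasure μ] (hi : Integrable (fun x : ℝ => x ^ 2) μ)
    (h : ∫ x, x ^ 2 ∂μ = 0) : μ = Measure.dirac 0 := by
  have h1 : (fun x : ℝ => x ^ 2) =ᵐ[μ] 0 :=
    (integral_eq_zero_iff_of_nonneg (fun x => sq_nonneg x) hi).1 h
  have h2 : (id : ℝ → ℝ) =ᵐ[μ] fun _ => 0 := by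
    filter_upwards [h1] with x hx
    exact pow_eq_zero_iff (two_ne_zero) |>.1 hx
  have h3 : μ.map id = μ.map fun _ => (0 : ℝ) := Measure.map_congr h2
  rw [Measure.map_id, Measure.map_const] at h3
  simpa using h3

lemma int3 {μ : Measure ℝ} [IsProbabilityMeasure μ] {f g : ℝ → ℝ} (hf : Integrable f μ)
    (hg : Integrable g μ) (A B C : ℝ) :
    Integrable (fun x => A + B * f x + C * g x) μ ∧
      ∫ x, (A + B * f x + C * g x) ∂μ = A + B * ∫ x, f x ∂μ + C * ∫ x, g x ∂μ := by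
  have i1 : Integrable (fun x => A + B * f x) μ := (integrable_const A).add (hf.const_mul B)
  have i2 : Integrable (fun x => C * g x) μ := hg.const_mul C
  refine ⟨i1.add i2, ?_⟩
  rw [integral_add i1 i2, integral_add (integrable_const A) (hf.const_mul B), integral_const_mul,
    integral_const_mul]
  simp

theorem core {r a c : ℝ} (hr : 0 < r) (hr' : r < π / 2) (μ : Measure ℝ) [IsProbabilityMeasure μ]
    (hle : ∀ᶠ t in 𝓝 (0 : ℝ), ∫⁻ x, ENNReal.ofReal (exp (t * x)) ∂μ ≤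
      ENNReal.ofReal (g0 (r ^ 2 - a * t - c * t ^ 2) / g0 (r ^ 2)))
    (h1 : (∫ x, x ∂μ) * g0 (r ^ 2) = -g1 (r ^ 2) * a)
    (h2 : (∫ x, x ^ 2 ∂μ) * g0 (r ^ 2) = g2 (r ^ 2) * a ^ 2 - 2 * c * g1 (r ^ 2)) :
    μ = Measure.dirac 0 := by
  have hint := mem_interior hle
  have ip : ∀ n : ℕ, Integrable (fun x : ℝ => x ^ n) μ := fun n =>
    integrable_pow_of_mem_interior_integrableExpSet hint n
  have i1 : Integrable (fun x : ℝ => x) μ := by simpa using ip 1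
  have p0 := g0_pos hr hr'
  set m1 := ∫ x, x ∂μ with hm1
  set m2 := ∫ x, x ^ 2 ∂μ with hm2
  set m4 := ∫ x, x ^ 4 ∂μ with hm4
  refine eq_dirac (ip 2) (alg (m1 := m1) (m4 := m4) hr hr' h1 h2 ?_ ?_ ?_)
  · -- fourth order comparison
    set w : ℝ → ℝ := fun t => r ^ 2 - a * t - c * t ^ 2 with hw
    set w1 : ℝ → ℝ := fun t => -a - 2 * c * t with hw1
    have dw : ∀ t, HasDerivAt w (w1 t) t := fun t => by
      have h := ((hasDerivAt_const t (r ^ 2)).sub ((hasDerivAt_id t).const_mul a)).sub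
        ((hasDerivAt_pow 2 t).const_mul c)
      refine h.congr_deriv ?_
      simp only [hw1]
      push_cast
      ring
    have dw1 : ∀ t, HasDerivAt w1 (-(2 * c)) t := fun t => by
      have h := (hasDerivAt_const t (-a)).sub ((hasDerivAt_id t).const_mul (2 * c))
      refine h.congr_deriv ?_
      ring
    have w0 : w 0 = r ^ 2 := by simp [hw]
    have w10 : w1 0 = -a := by simp [hw1]
    have wpos : ∀ᶠ t in 𝓝 (0 : ℝ), 0 < w t :=
      (dw 0).continuousAt.eventually (lt_mem_nhds (by rw [w0]; positivity))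
    set F0 : ℝ → ℝ := fun t => g0 (w t) with hF0
    set F1 : ℝ → ℝ := fun t => g1 (w t) * w1 t with hF1
    set F2 : ℝ → ℝ := fun t => g2 (w t) * w1 t ^ 2 - 2 * c * g1 (w t) with hF2
    set F3 : ℝ → ℝ := fun t => g3 (w t) * w1 t ^ 3 - 6 * c * (g2 (w t) * w1 t) with hF3
    set F4 : ℝ → ℝ := fun t =>
      g4 (w t) * w1 t ^ 4 - 12 * c * g3 (w t) * w1 t ^ 2 + 12 * c ^ 2 * g2 (w t) with hF4
    have dF0 : ∀ t, 0 < w t → HasDerivAt F0 (F1 t) t := fun t ht => (d0 ht).comp t (dw t)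
    have dF1 : ∀ t, 0 < w t → HasDerivAt F1 (F2 t) t := fun t ht => by
      have h := ((d1 ht).comp t (dw t)).mul (dw1 t)
      refine h.congr_deriv ?_
      simp only [hF2, Function.comp]
      ring
    have dF2 : ∀ t, 0 < w t → HasDerivAt F2 (F3 t) t := fun t ht => by
      have h := (((d2 ht).comp t (dw t)).mul ((dw1 t).pow 2)).sub
        (((d1 ht).comp t (dw t)).const_mul (2 * c))
      refine h.congr_deriv ?_
      simp only [hF3, Function.comp, Pi.pow_apply]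
      push_cast
      ring
    have dF3 : ∀ t, 0 < w t → HasDerivAt F3 (F4 t) t := fun t ht => by
      have h := (((d3 ht).comp t (dw t)).mul ((dw1 t).pow 3)).sub
        ((((d2 ht).comp t (dw t)).mul (dw1 t)).const_mul (6 * c))
      refine h.congr_deriv ?_
      simp only [hF4, Function.comp, Pi.pow_apply]
      push_cast
      ring
    have tneg : Tendsto (fun t : ℝ => -t) (𝓝 0) (𝓝 0) := by
      simpa using (continuous_neg.tendsto (0 : ℝ))
    have wpos' : ∀ᶠ t in 𝓝 (0 : ℝ), 0 < w (-t) := tneg.eventually wpos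
    have key := fourth_nonneg
      (D0 := fun t => F0 t + F0 (-t) - g0 (r ^ 2) * (2 + m2 * t ^ 2 + m4 / 12 * t ^ 4))
      (D1 := fun t => F1 t - F1 (-t) - g0 (r ^ 2) * (2 * m2 * t + m4 / 3 * t ^ 3))
      (D2 := fun t => F2 t + F2 (-t) - g0 (r ^ 2) * (2 * m2 + m4 * t ^ 2))
      (D3 := fun t => F3 t - F3 (-t) - g0 (r ^ 2) * (2 * m4 * t))
      (d := 2 * F4 0 - 2 * (g0 (r ^ 2) * m4)) ?_ ?_ ?_ ?_ ?_ ?_ ?_ ?_ ?_
    · simp only [hF4, w0, w10] at key
      nlinarith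
    · filter_upwards [wpos, wpos'] with t ht ht'
      have h := ((dF0 t ht).add ((dF0 (-t) ht').comp t (hasDerivAt_neg t))).sub
        ((((hasDerivAt_const t (2 : ℝ)).add ((hasDerivAt_pow 2 t).const_mul m2)).add
          ((hasDerivAt_pow 4 t).const_mul (m4 / 12))).const_mul (g0 (r ^ 2)))
      refine h.congr_deriv ?_
      push_cast
      ring
    · filter_upwards [wpos, wpos'] with t ht ht'
      have h := ((dF1 t ht).sub ((dF1 (-t) ht').comp t (hasDerivAt_neg t))).sub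
        ((((hasDerivAt_id t).const_mul (2 * m2)).add
          ((hasDerivAt_pow 3 t).const_mul (m4 / 3))).const_mul (g0 (r ^ 2)))
      refine h.congr_deriv ?_
      push_cast
      ring
    · filter_upwards [wpos, wpos'] with t ht ht'
      have h := ((dF2 t ht).add ((dF2 (-t) ht').comp t (hasDerivAt_neg t))).sub
        (((hasDerivAt_const t (2 * m2)).add
          ((hasDerivAt_pow 2 t).const_mul m4)).const_mul (g0 (r ^ 2)))
      refine h.congr_deriv ?_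
      push_cast
      ring
    · have ht : 0 < w 0 := by rw [w0]; positivity
      have ht' : 0 < w (-0) := by rwa [neg_zero]
      have h := ((dF3 0 ht).sub ((dF3 (-0) ht').comp 0 (hasDerivAt_neg 0))).sub
        (((hasDerivAt_id (0 : ℝ)).const_mul (2 * m4)).const_mul (g0 (r ^ 2)))
      refine h.congr_deriv ?_
      rw [neg_zero]
      ring
    · simp only [neg_zero, hF0, w0]
      ring
    · simp
    · simp only [neg_zero, hF2, w0, w10]
      linear_combination (-2 : ℝ) * h2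
    · simp
    · have hle' : ∀ᶠ t in 𝓝 (0 : ℝ), t ∈ integrableExpSet id μ ∧
          mgf id μ t * g0 (r ^ 2) ≤ F0 t := by
        filter_upwards [hle, mem_interior_iff_mem_nhds.1 hint] with t ht hti
        refine ⟨hti, ?_⟩
        rw [lintegral_eq_mgf hti, ENNReal.ofReal_le_ofReal_iff'] at ht
        rcases ht with ht | ht
        · exact (le_div_iff₀ p0).1 ht
        · exact absurd ht (not_le.2 (mgf_pos hti))
      filter_upwards [hle', tneg.eventually hle'] with t ht ht'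
      have e1 : 2 + m2 * t ^ 2 + m4 / 12 * t ^ 4 ≤ mgf id μ t + mgf id μ (-t) := by
        obtain ⟨e2, e3⟩ := int3 (ip 2) (ip 4) 2 (t ^ 2) (t ^ 4 / 12)
        have e4 : 2 + m2 * t ^ 2 + m4 / 12 * t ^ 4
            = ∫ x, (2 + t ^ 2 * x ^ 2 + t ^ 4 / 12 * x ^ 4) ∂μ := by
          rw [e3]; ring
        rw [e4]
        unfold mgf
        rw [← integral_add ht.1 ht'.1]
        refine integral_mono e2 (ht.1.add ht'.1) fun x => ?_
        have := exp_add_exp_ge (t * x)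
        simp only [id, neg_mul]
        nlinarith
      have := mul_le_mul_of_nonneg_left e1 p0.le
      nlinarith [ht.2, ht'.2]
  · have e := (int3 i1 (ip 2) (m1 ^ 2) (-2 * m1) 1).2
    have : 0 ≤ ∫ x, (m1 ^ 2 + -2 * m1 * x + 1 * x ^ 2) ∂μ :=
      integral_nonneg fun x => by
        simp only [Pi.zero_apply]
        nlinarith [sq_nonneg (x - m1)]
    rw [e] at this
    nlinarith
  · have e := (int3 (ip 2) (ip 4) (c ^ 2) (-2 * c) 1).2
    have : 0 ≤ ∫ x, (c ^ 2 + -2 * c * x ^ 2 + 1 * x ^ 4) ∂μ :=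
      integral_nonneg fun x => by
        simp only [Pi.zero_apply]
        nlinarith [sq_nonneg (x ^ 2 - c)]
    rw [e] at this
    nlinarith

lemma sqrt_form (κ ν l : ℝ) :
    cos (π * √(ν ^ 2 - 8 * l / κ)) = g0 ((π * |ν|) ^ 2 - 8 * π ^ 2 / κ * l) := by
  have e : (π * |ν|) ^ 2 - 8 * π ^ 2 / κ * l = π ^ 2 * (ν ^ 2 - 8 * l / κ) := by
    rw [mul_pow, sq_abs]; ring
  rw [g0, e, sqrt_mul (sq_nonneg π), sqrt_sq pi_pos.le]

lemma cos_form (ν : ℝ) : cos (π * ν) = g0 ((π * |ν|) ^ 2) := by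
  rw [g0, sqrt_sq (by positivity), ← cos_abs (π * ν), abs_mul, abs_of_pos pi_pos]

lemma beta_facts {r α : ℝ} (hr : 0 < r) (hr' : r < π / 2) (β : Measure ℝ)
    (hβ : ∀ᶠ l in 𝓝 (0 : ℝ), ∫⁻ b, ENNReal.ofReal (exp (-(l * b))) ∂β =
      ENNReal.ofReal (g0 (r ^ 2) / g0 (r ^ 2 - α * l))) :
    (0 : ℝ) ∈ interior (integrableExpSet id β) ∧
      (∫ b, b ∂β) * g0 (r ^ 2) = -g1 (r ^ 2) * α ∧
      (∫ b, b ^ 2 ∂β) * g0 (r ^ 2) ^ 2 =
        α ^ 2 * (2 * g1 (r ^ 2) ^ 2 - g0 (r ^ 2) * g2 (r ^ 2)) := by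
  have p0 := g0_pos hr hr'
  have tneg : Tendsto (fun t : ℝ => -t) (𝓝 0) (𝓝 0) := by
    simpa using (continuous_neg.tendsto (0 : ℝ))
  set w : ℝ → ℝ := fun t => r ^ 2 + α * t with hw
  have hβ' : ∀ᶠ t in 𝓝 (0 : ℝ), ∫⁻ b, ENNReal.ofReal (exp (t * b)) ∂β =
      ENNReal.ofReal (g0 (r ^ 2) / g0 (w t)) := by
    filter_upwards [tneg.eventually hβ] with t ht
    simpa [hw] using ht
  have hint : (0 : ℝ) ∈ interior (integrableExpSet id β) :=
    mem_interior (f := fun t => g0 (r ^ 2) / g0 (w t)) (hβ'.mono fun t ht => ht.le)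
  have dw : ∀ t, HasDerivAt w α t := fun t => by
    have h := (hasDerivAt_const t (r ^ 2)).add ((hasDerivAt_id t).const_mul α)
    refine h.congr_deriv ?_
    ring
  have w0 : w 0 = r ^ 2 := by simp [hw]
  have hw0 : 0 < w 0 := by rw [w0]; positivity
  have wpos : ∀ᶠ t in 𝓝 (0 : ℝ), 0 < w t :=
    (dw 0).continuousAt.eventually (lt_mem_nhds hw0)
  have gpos : ∀ᶠ t in 𝓝 (0 : ℝ), 0 < g0 (w t) :=
    ((d0 hw0).comp 0 (dw 0)).continuousAt.eventually
      (lt_mem_nhds (show 0 < g0 (w 0) by rwa [w0]))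
  have hI : ∀ᶠ t in 𝓝 (0 : ℝ), t ∈ interior (integrableExpSet id β) :=
    isOpen_interior.eventually_mem hint
  have e0 : ∀ᶠ t in 𝓝 (0 : ℝ), mgf id β t = g0 (r ^ 2) / g0 (w t) := by
    filter_upwards [hβ', gpos, hI] with t ht hg hi
    rwa [lintegral_eq_mgf (interior_subset hi),
      ENNReal.ofReal_eq_ofReal_iff mgf_nonneg (by positivity)] at ht
  have e1 : ∀ᶠ t in 𝓝 (0 : ℝ), ∫ b, b ^ 1 * exp (t * b) ∂β =
      -(g0 (r ^ 2) * α) * (g1 (w t) / g0 (w t) ^ 2) := by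
    filter_upwards [e0.eventually_nhds, wpos, gpos, hI] with t ht hp hg hi
    have a1 := hasDerivAt_mgf hi
    have a2 := (hasDerivAt_const t (g0 (r ^ 2))).div ((d0 hp).comp t (dw t)) hg.ne'
    have a3 := a1.unique (a2.congr_of_eventuallyEq ht)
    simp only [id, Function.comp] at a3
    simp only [pow_one]
    rw [a3]
    field_simp
    ring
  have e2 : ∫ b, b ^ 2 ∂β = -(g0 (r ^ 2) * α) *
      ((g2 (r ^ 2) * α * g0 (r ^ 2) ^ 2 - g1 (r ^ 2) * (2 * g0 (r ^ 2) * (g1 (r ^ 2) * α)))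
        / (g0 (r ^ 2) ^ 2) ^ 2) := by
    have a1 := hasDerivAt_integral_pow_mul_exp_real hint 1
    have hg : 0 < g0 (w 0) := by rwa [w0]
    have a2 := (((d1 hw0).comp 0 (dw 0)).div (((d0 hw0).comp 0 (dw 0)).pow 2)
      (pow_pos hg 2).ne').const_mul (-(g0 (r ^ 2) * α))
    have a3 := a1.unique (a2.congr_of_eventuallyEq e1)
    simp only [id, Function.comp, Pi.pow_apply, w0] at a3
    simpa using a3
  refine ⟨hint, ?_, ?_⟩
  · have := e1.self_of_nhds
    simp only [pow_one, zero_mul, exp_zero, mul_one, w0] at this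
    rw [this]
    field_simp
  · rw [e2]
    field_simp
    ring

end EndgameAux

open EndgameAux

section
variable {κ ν : ℝ}

/-- Moments of the law with the Schramm-Sheffield-Wilson Laplace transform. -/
theorem ssw_moments (hκ : 0 < κ) (hν0 : ν ≠ 0) (hν : |ν| < 1 / 2)
    (β : Measure ℝ) [IsProbabilityMeasure β]
    (hβ : ∀ᶠ l in 𝓝 (0 : ℝ), ∫⁻ b, ENNReal.ofReal (exp (-(l * b))) ∂β =
      ENNReal.ofReal (cos (π * ν) / cos (π * √(ν ^ 2 - 8 * l / κ)))) :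
    (0 : ℝ) ∈ interior (integrableExpSet id β) ∧ (∀ p : NNReal, MemLp id p β) ∧
      0 < ∫ b, b ∂β ∧ 0 < Var[id; β] := by
  have hr : 0 < π * |ν| := mul_pos pi_pos (abs_pos.2 hν0)
  have hr' : π * |ν| < π / 2 := by nlinarith [pi_pos]
  have hα : 0 < 8 * π ^ 2 / κ := by have := pi_pos; positivity
  simp only [sqrt_form, cos_form ν] at hβ
  obtain ⟨hint, b1, b2⟩ := beta_facts hr hr' β hβ
  have p0 := g0_pos hr hr'
  have p1 := g1_neg hr hr'
  have pv := var_ge hr hr'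
  have hL := memLp_of_mem_interior_integrableExpSet hint
  refine ⟨hint, hL, ?_, ?_⟩
  · refine pos_of_mul_pos_left (b := g0 ((π * |ν|) ^ 2)) ?_ p0.le
    rw [b1]
    exact mul_pos (by linarith) hα
  · rw [variance_eq_sub (by simpa using hL 2)]
    refine pos_of_mul_pos_left (b := g0 ((π * |ν|) ^ 2) ^ 2) ?_ (sq_nonneg _)
    simp only [Pi.pow_apply, id]
    rw [sub_mul, b2, ← mul_pow, b1]
    nlinarith [sq_pos_of_pos hα]

/-- Step (10). -/
theorem endgame (hκ : 0 < κ) (hν0 : ν ≠ 0) (hν : |ν| < 1 / 2)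
    (β μ : Measure ℝ) [IsProbabilityMeasure β] [IsProbabilityMeasure μ]
    (hβ : ∀ᶠ l in 𝓝 (0 : ℝ), ∫⁻ b, ENNReal.ofReal (exp (-(l * b))) ∂β =
      ENNReal.ofReal (cos (π * ν) / cos (π * √(ν ^ 2 - 8 * l / κ))))
    (hμ : ∀ᶠ p : ℝ × ℝ in 𝓝 (0, 0),
      (∫ x, x ∂μ) * p.1 / (∫ b, b ∂β) +
          (Var[id; μ] + (∫ x, x ∂μ) ^ 2 * Var[id; β] / (∫ b, b ∂β) ^ 2) / (∫ b, b ∂β)
            * p.1 ^ 2 / 2 < p.2 →
        (∫⁻ x, ENNReal.ofReal (exp (p.1 * x)) ∂μ) *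
          (∫⁻ b, ENNReal.ofReal (exp (-(p.2 * b))) ∂β) ≤ 1) :
    μ = Measure.dirac 0 := by
  obtain ⟨-, hL, hE, -⟩ := ssw_moments hκ hν0 hν β hβ
  have hr : 0 < π * |ν| := mul_pos pi_pos (abs_pos.2 hν0)
  have hr' : π * |ν| < π / 2 := by nlinarith [pi_pos]
  simp only [sqrt_form, cos_form ν] at hβ
  obtain ⟨-, b1, b2⟩ := beta_facts hr hr' β hβ
  have p0 := g0_pos hr hr'
  have hvβ : Var[id; β] = ∫ b, b ^ 2 ∂β - (∫ b, b ∂β) ^ 2 :=
    variance_eq_sub (by simpa using hL 2)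
  set r := π * |ν|
  set α := 8 * π ^ 2 / κ
  set m := ∫ x, x ∂μ with hm
  set E := ∫ b, b ∂β
  set s := (Var[id; μ] + m ^ 2 * Var[id; β] / E ^ 2) / E with hs
  set L : ℝ → ℝ := fun t => m * t / E + s * t ^ 2 / 2 with hLd
  have cL : Continuous L := by fun_prop
  have L0 : L 0 = 0 := by simp [hLd]
  have hu : 0 < r ^ 2 := by positivity
  have cw : Continuous fun l : ℝ => g0 (r ^ 2 - α * l) := by unfold g0; fun_prop
  have gpos : ∀ᶠ l in 𝓝 (0 : ℝ), 0 < g0 (r ^ 2 - α * l) :=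
    cw.continuousAt.eventually (lt_mem_nhds (by simpa using p0))
  have hle : ∀ᶠ t in 𝓝 (0 : ℝ), ∫⁻ x, ENNReal.ofReal (exp (t * x)) ∂μ ≤
      ENNReal.ofReal (g0 (r ^ 2 - α * m / E * t - α * s / 2 * t ^ 2) / g0 (r ^ 2)) := by
    have t2 : Tendsto (fun p : ℝ × ℝ => p.2) (𝓝 (0, 0)) (𝓝 0) := continuous_snd.tendsto _
    have h1 := (hμ.and (t2.eventually (hβ.and gpos))).eventually_nhds
    have t3 : Tendsto (fun t => (t, L t)) (𝓝 0) (𝓝 (0, 0)) := by
      have : Continuous fun t => (t, L t) := by fun_prop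
      simpa [L0] using this.tendsto 0
    filter_upwards [t3.eventually h1] with t ht
    have t4 : Tendsto (fun l : ℝ => (t, l)) (𝓝[>] (L t)) (𝓝 (t, L t)) :=
      ((continuous_const.prodMk continuous_id).tendsto _).mono_left nhdsWithin_le_nhds
    have t5 : Tendsto (fun l => ENNReal.ofReal (g0 (r ^ 2 - α * l) / g0 (r ^ 2))) (𝓝[>] (L t))
        (𝓝 (ENNReal.ofReal (g0 (r ^ 2 - α * L t) / g0 (r ^ 2)))) :=
      ((ENNReal.continuous_ofReal.comp (cw.div_const _)).tendsto _).mono_left nhdsWithin_le_nhds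
    have e : r ^ 2 - α * m / E * t - α * s / 2 * t ^ 2 = r ^ 2 - α * L t := by
      simp only [hLd]; ring
    rw [e]
    refine ge_of_tendsto t5 ?_
    filter_upwards [t4.eventually ht, self_mem_nhdsWithin] with l hl hl'
    obtain ⟨a1, a2, a3⟩ := hl
    have a4 := a1 hl'
    rw [a2] at a4
    have a5 : ENNReal.ofReal (g0 (r ^ 2) / g0 (r ^ 2 - α * l)) *
        ENNReal.ofReal (g0 (r ^ 2 - α * l) / g0 (r ^ 2)) = 1 := by
      rw [← ENNReal.ofReal_mul (by positivity), ← ENNReal.ofReal_one]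
      congr 1
      field_simp
    calc _ = _ * (ENNReal.ofReal (g0 (r ^ 2) / g0 (r ^ 2 - α * l)) *
          ENNReal.ofReal (g0 (r ^ 2 - α * l) / g0 (r ^ 2))) := by rw [a5, mul_one]
      _ ≤ 1 * ENNReal.ofReal (g0 (r ^ 2 - α * l) / g0 (r ^ 2)) := by
          rw [← mul_assoc]; gcongr
      _ = _ := one_mul _
  have hint := mem_interior hle
  have hvμ : Var[id; μ] = ∫ b, b ^ 2 ∂μ - m ^ 2 :=
    variance_eq_sub (by simpa using memLp_of_mem_interior_integrableExpSet hint 2)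
  refine core hr hr' μ hle ?_ ?_
  · rw [← hm]
    field_simp
    linear_combination m * b1
  · have e1 : s * E = Var[id; μ] + m ^ 2 * Var[id; β] / E ^ 2 := by
      rw [hs]; field_simp
    have e2 : -(2 * (α * s / 2) * g1 (r ^ 2)) = s * E * g0 (r ^ 2) := by
      linear_combination (-s) * b1
    rw [sub_eq_add_neg, e2, e1, hvμ, hvβ]
    have e3 : (∫ b, b ^ 2 ∂β) * g0 (r ^ 2) = 2 * E ^ 2 * g0 (r ^ 2) - α ^ 2 * g2 (r ^ 2) := by
      refine mul_right_cancel₀ p0.ne' ?_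
      linear_combination b2 - 2 * (E * g0 (r ^ 2) - g1 (r ^ 2) * α) * b1
    field_simp
    linear_combination (-m ^ 2) * e3

end

/-- Euler's product for the cosine. -/
theorem tendsto_cos_prod {x : ℝ} (hx0 : 0 ≤ x) (hx1 : x < 1) :
    Tendsto (fun n : ℕ => ∏ k ∈ Finset.range n, (1 - x ^ 2 / ((k : ℝ) + 1 / 2) ^ 2)) atTop
      (𝓝 (cos (π * x))) := by
  rcases hx0.eq_or_lt with rfl | hx0
  · simp
  have hs : 0 < sin (π * x) :=
    sin_pos_of_pos_of_lt_pi (mul_pos pi_pos hx0) (by nlinarith [pi_pos])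
  have t2 : Tendsto (fun n : ℕ => 2 * n) atTop atTop :=
    tendsto_id.const_mul_atTop' (by norm_num)
  have h1 := (Real.tendsto_euler_sin_prod (2 * x)).comp t2
  have h2 := (Real.tendsto_euler_sin_prod x).const_mul 2
  have h3 := h1.div h2 (by positivity)
  have e : sin (π * (2 * x)) / (2 * sin (π * x)) = cos (π * x) := by
    rw [show π * (2 * x) = 2 * (π * x) by ring, sin_two_mul]
    field_simp
  rw [e] at h3
  refine h3.congr fun n => ?_
  have hpos : ∀ n : ℕ, 0 < ∏ j ∈ Finset.range n, ((1 : ℝ) - x ^ 2 / ((j : ℝ) + 1) ^ 2) :=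
    fun n => Finset.prod_pos fun j _ => by
      have : (0 : ℝ) ≤ j := Nat.cast_nonneg j
      rw [sub_pos, div_lt_one (by positivity)]
      nlinarith
  have key : ∀ n : ℕ, ∏ j ∈ Finset.range (2 * n), ((1 : ℝ) - (2 * x) ^ 2 / ((j : ℝ) + 1) ^ 2) =
      (∏ j ∈ Finset.range n, ((1 : ℝ) - x ^ 2 / ((j : ℝ) + 1) ^ 2)) *
        ∏ k ∈ Finset.range n, (1 - x ^ 2 / ((k : ℝ) + 1 / 2) ^ 2) := by
    intro n
    induction n with
    | zero => simp
    | succ n ih =>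
      rw [show 2 * (n + 1) = 2 * n + 1 + 1 by ring, Finset.prod_range_succ,
        Finset.prod_range_succ, ih, Finset.prod_range_succ, Finset.prod_range_succ]
      have : (0 : ℝ) ≤ n := Nat.cast_nonneg n
      have a1 : (2 * x) ^ 2 / (((2 * n : ℕ) : ℝ) + 1) ^ 2 = x ^ 2 / ((n : ℝ) + 1 / 2) ^ 2 := by
        push_cast; field_simp
      have a2 : (2 * x) ^ 2 / (((2 * n + 1 : ℕ) : ℝ) + 1) ^ 2 = x ^ 2 / ((n : ℝ) + 1) ^ 2 := by
        push_cast; field_simp; ring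
      rw [a1, a2]
      ring
  simp only [Pi.div_apply, Function.comp, key]
  have := (hpos n).ne'
  have := pi_pos.ne'
  generalize ∏ j ∈ Finset.range n, ((1 : ℝ) - x ^ 2 / ((j : ℝ) + 1) ^ 2) = P at *
  generalize ∏ k ∈ Finset.range n, (1 - x ^ 2 / ((k : ℝ) + 1 / 2) ^ 2) = Q at *
  field_simp

/-- The Gauss product of step (4) in closed form. -/
theorem tendsto_prod_cos {ν p : ℝ} (hν : |ν| < 1 / 2) (hp : p ≤ ν ^ 2) (hp' : ν ^ 2 - p < 1) :
    Tendsto (fun n : ℕ => ∏ k ∈ Finset.range n, (1 + p / (((k : ℝ) + 1 / 2) ^ 2 - ν ^ 2))) atTop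
      (𝓝 (cos (π * √(ν ^ 2 - p)) / cos (π * ν))) := by
  have h1 := tendsto_cos_prod (sqrt_nonneg (ν ^ 2 - p)) ((sqrt_lt' one_pos).2 (by linarith))
  have h2 := tendsto_cos_prod (abs_nonneg ν) (by linarith)
  have e : cos (π * |ν|) = cos (π * ν) := by
    rw [← cos_abs (π * ν), abs_mul, abs_of_pos pi_pos]
  have hc : 0 < cos (π * |ν|) := cos_pos_of_mem_Ioo
    ⟨by nlinarith [pi_pos, abs_nonneg ν], by nlinarith [pi_pos]⟩
  have h3 := h1.div h2 hc.ne'
  rw [e] at h3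
  refine h3.congr fun n => ?_
  simp only [Pi.div_apply, ← Finset.prod_div_distrib]
  refine Finset.prod_congr rfl fun k _ => ?_
  have hk : (0 : ℝ) ≤ k := Nat.cast_nonneg k
  have hν2 : ν ^ 2 < 1 / 4 := by
    rw [← sq_abs]; nlinarith [abs_nonneg ν]
  have a1 : 0 < ((k : ℝ) + 1 / 2) ^ 2 - ν ^ 2 := by nlinarith
  have a2 : 0 < ((k : ℝ) + 1 / 2) ^ 2 := by positivity
  rw [sq_sqrt (by linarith), sq_abs]
  generalize ((k : ℝ) + 1 / 2) ^ 2 = A at *
  have a3 : 1 - ν ^ 2 / A = (A - ν ^ 2) / A := by field_simp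
  rw [a3]
  field_simp
  ring

end Pool.Agent.MP_ac6554_pr
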