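import Pool.Agent.MP_ac6554_pr.Renewal
import Pool.Agent.MP_ac6554_pr.Endgame

/-!
# Steps (8) and (9): from the coupling with a renewal-reward walk to the bound on the transform
-/

namespace Pool.Agent.MP_ac6554_pr

open MeasureTheory ProbabilityTheory Filter Topology Set Real
open scoped ENNReal

namespace GaussAux

variable {Ω : Type*} [MeasurableSpace Ω] {P : Measure Ω}

lemma gauss_exp {X : Ω → ℝ} (hX : HasGaussianLaw X P) (t : ℝ) :
    Integrable (fun ω => exp (t * X ω)) P ∧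
      ∫ ω, exp (t * X ω) ∂P ≤
        exp (|t| * √(∫ ω, X ω ^ 2 ∂P) + (∫ ω, X ω ^ 2 ∂P) * t ^ 2 / 2) := by
  have := hX.isProbabilityMeasure
  have h1 := mgf_gaussianReal hX.map_eq_gaussianReal t
  refine ⟨mgf_pos_iff.1 (by rw [h1]; exact exp_pos _), ?_⟩
  change mgf X P t ≤ _
  rw [h1]
  have hv : Var[X; P] = ∫ ω, X ω ^ 2 ∂P - (∫ ω, X ω ∂P) ^ 2 := variance_eq_sub hX.memLp_two
  have h0 := variance_nonneg X P
  rw [Real.coe_toNNReal _ h0]
  refine exp_le_exp.2 (add_le_add ?_ ?_)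
  · have : |∫ ω, X ω ∂P| ≤ √(∫ ω, X ω ^ 2 ∂P) := abs_le_sqrt (by linarith)
    calc _ ≤ |(∫ ω, X ω ∂P) * t| := le_abs_self _
      _ = |t| * |∫ ω, X ω ∂P| := by rw [abs_mul, mul_comm]
      _ ≤ _ := by gcongr
  · have : Var[X; P] ≤ ∫ ω, X ω ^ 2 ∂P := by nlinarith [sq_nonneg (∫ ω, X ω ∂P)]
    gcongr

lemma gauss_pow {X : Ω → ℝ} (hX : HasGaussianLaw X P) (n : ℕ) :
    Integrable (fun ω => X ω ^ n) P := by
  refine integrable_pow_of_mem_interior_integrableExpSet ?_ n
  have : integrableExpSet X P = univ := eq_univ_of_forall fun t => (gauss_exp hX t).1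
  simp [this]

lemma gauss_fourth {X : Ω → ℝ} (hX : HasGaussianLaw X P) (hV : 0 < ∫ ω, X ω ^ 2 ∂P) :
    ∫ ω, X ω ^ 4 ∂P ≤ 24 * exp 2 * (∫ ω, X ω ^ 2 ∂P) ^ 2 := by
  set V := ∫ ω, X ω ^ 2 ∂P with hVd
  have hs : 0 < √V := sqrt_pos.2 hV
  have hs2 : √V ^ 2 = V := sq_sqrt hV.le
  have b : ∀ t : ℝ, |t| = (√V)⁻¹ → ∫ ω, exp (t * X ω) ∂P ≤ exp 2 := fun t ht => by
    refine (gauss_exp hX t).2.trans (exp_le_exp.2 ?_)
    rw [← hVd, ← sq_abs t, ht, inv_mul_cancel₀ hs.ne', inv_pow, hs2, mul_inv_cancel₀ hV.ne']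
    norm_num
  have b1 := b (√V)⁻¹ (abs_of_pos (by positivity))
  have b2 := b (-(√V)⁻¹) (by rw [abs_neg]; exact abs_of_pos (by positivity))
  have i1 := (gauss_exp hX (√V)⁻¹).1
  have i2 := (gauss_exp hX (-(√V)⁻¹)).1
  have e : ∫ ω, (V ^ 2)⁻¹ / 12 * X ω ^ 4 ∂P ≤
      ∫ ω, (exp ((√V)⁻¹ * X ω) + exp (-(√V)⁻¹ * X ω)) ∂P := by
    refine integral_mono ((gauss_pow hX 4).const_mul _) (i1.add i2) fun ω => ?_
    have h1 := EndgameAux.exp_add_exp_ge ((√V)⁻¹ * X ω)
    have h2 : ((√V)⁻¹ * X ω) ^ 4 = (V ^ 2)⁻¹ * X ω ^ 4 := by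
      rw [mul_pow, inv_pow, show √V ^ 4 = (√V ^ 2) ^ 2 by ring, hs2]
    simp only [neg_mul]
    nlinarith [sq_nonneg ((√V)⁻¹ * X ω)]
  rw [integral_const_mul, integral_add i1 i2] at e
  have e2 : (V ^ 2)⁻¹ / 12 * ∫ ω, X ω ^ 4 ∂P ≤ 2 * exp 2 := by linarith
  rw [div_mul_eq_mul_div, div_le_iff₀ (by norm_num), inv_mul_le_iff₀ (by positivity)] at e2
  linarith

lemma second_moment {X Z : Ω → ℝ} (hX : HasGaussianLaw X P) (hZ : MemLp Z 2 P) {Bad : Set Ω}
    (hB : MeasurableSet Bad) {θ C : ℝ} (hθ : 0 < θ) (hP : P.real Bad ≤ 3 * θ ^ 2)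
    (h : ∀ᵐ ω ∂P, ω ∉ Bad → |X ω - Z ω| ≤ C) :
    (1 - (24 * exp 2 + 1) * θ) * ∫ ω, X ω ^ 2 ∂P ≤
      (1 + θ) * ∫ ω, Z ω ^ 2 ∂P + (1 + θ⁻¹) * C ^ 2 := by
  have := hX.isProbabilityMeasure
  have z0 : 0 ≤ ∫ ω, Z ω ^ 2 ∂P := integral_nonneg fun ω => sq_nonneg _
  have v0 : 0 ≤ ∫ ω, X ω ^ 2 ∂P := integral_nonneg fun ω => sq_nonneg _
  rcases v0.eq_or_lt with v0 | v0
  · rw [← v0, mul_zero]; positivity
  have h4 := gauss_fourth hX v0
  set V := ∫ ω, X ω ^ 2 ∂P with hV
  have iZ : Integrable (fun ω => Z ω ^ 2) P := hZ.integrable_sq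
  have i1 : Integrable (fun ω => θ / V * X ω ^ 4) P := (gauss_pow hX 4).const_mul _
  have i2 : Integrable (fun ω => Bad.indicator (fun _ => V / (4 * θ)) ω) P :=
    (integrable_const _).indicator hB
  have i3 : Integrable (fun ω => (1 + θ) * Z ω ^ 2) P := iZ.const_mul _
  have i4 : Integrable (fun _ : Ω => (1 + θ⁻¹) * C ^ 2) P := integrable_const _
  have i12 : Integrable (fun ω => θ / V * X ω ^ 4 + Bad.indicator (fun _ => V / (4 * θ)) ω) P :=
    i1.add i2
  have i34 : Integrable (fun ω => (1 + θ) * Z ω ^ 2 + (1 + θ⁻¹) * C ^ 2) P := i3.add i4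
  have e : V ≤ ∫ ω, ((θ / V * X ω ^ 4 + Bad.indicator (fun _ => V / (4 * θ)) ω) +
      ((1 + θ) * Z ω ^ 2 + (1 + θ⁻¹) * C ^ 2)) ∂P := by
    refine integral_mono_ae (gauss_pow hX 2) (i12.add i34) ?_
    filter_upwards [h] with ω hω
    by_cases hb : ω ∈ Bad
    · rw [indicator_of_mem hb]
      have a1 : X ω ^ 2 ≤ θ / V * X ω ^ 4 + V / (4 * θ) := by
        have : θ / V * X ω ^ 4 + V / (4 * θ) - X ω ^ 2
            = (2 * θ * X ω ^ 2 - V) ^ 2 / (4 * θ * V) := by
          field_simp; ring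
        have h2 : 0 ≤ (2 * θ * X ω ^ 2 - V) ^ 2 / (4 * θ * V) := by positivity
        linarith
      have a2 : 0 ≤ (1 + θ) * Z ω ^ 2 + (1 + θ⁻¹) * C ^ 2 := by positivity
      linarith
    · rw [indicator_of_notMem hb]
      have a1 : (X ω - Z ω) ^ 2 ≤ C ^ 2 := by
        rw [← sq_abs]; exact pow_le_pow_left₀ (abs_nonneg _) (hω hb) 2
      have a2 : X ω ^ 2 ≤ (1 + θ) * Z ω ^ 2 + (1 + θ⁻¹) * (X ω - Z ω) ^ 2 := by
        have : (1 + θ) * Z ω ^ 2 + (1 + θ⁻¹) * (X ω - Z ω) ^ 2 - X ω ^ 2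
            = (θ * Z ω - (X ω - Z ω)) ^ 2 / θ := by
          field_simp; ring
        have h2 : 0 ≤ (θ * Z ω - (X ω - Z ω)) ^ 2 / θ := by positivity
        linarith
      have a3 : (1 + θ⁻¹) * (X ω - Z ω) ^ 2 ≤ (1 + θ⁻¹) * C ^ 2 := by gcongr
      have a4 : 0 ≤ θ / V * X ω ^ 4 := by positivity
      linarith
  rw [integral_add i12 i34, integral_add i1 i2, integral_add i3 i4, integral_const_mul,
    integral_const_mul, integral_indicator_const _ hB] at e
  simp only [integral_const, probReal_univ, smul_eq_mul, one_mul] at e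
  have a1 : θ / V * ∫ ω, X ω ^ 4 ∂P ≤ 24 * exp 2 * θ * V := by
    calc _ ≤ θ / V * (24 * exp 2 * V ^ 2) := by gcongr
      _ = _ := by field_simp
  have a2 : P.real Bad * (V / (4 * θ)) ≤ θ * V := by
    calc _ ≤ 3 * θ ^ 2 * (V / (4 * θ)) := by gcongr
      _ = 3 / 4 * (θ * V) := by field_simp
      _ ≤ _ := by nlinarith [mul_pos hθ v0]
  nlinarith

lemma indep_past {E : Type*} [MeasurableSpace E] [Inhabited E] {Y : ℕ → Ω → E}
    (hind : iIndepFun Y P) (hY : ∀ i, Measurable (Y i)) (M : ℕ) {F : (ℕ → E) → ℝ}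
    (hF : Measurable F) (hdep : ∀ x y : ℕ → E, (∀ i < M, x i = y i) → F x = F y) :
    IndepFun (fun ω => F fun i => Y i ω) (Y M) P := by
  have h := hind.indepFun_finset (Finset.range M) {M} (by simp) hY
  let ext : (Finset.range M → E) → ℕ → E := fun v i =>
    if hi : i ∈ Finset.range M then v ⟨i, hi⟩ else default
  have hext : Measurable ext := measurable_pi_lambda _ fun i => by
    by_cases hi : i ∈ Finset.range M
    · simp only [ext, dif_pos hi]; exact measurable_pi_apply _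
    · simp only [ext, dif_neg hi]; exact measurable_const
  have h2 := h.comp (hF.comp hext)
    (measurable_pi_apply (⟨M, Finset.mem_singleton_self M⟩ : ({M} : Finset ℕ)))
  have e : (fun ω => F fun i => Y i ω) =
      (F ∘ ext) ∘ fun a (i : Finset.range M) => Y i a := by
    funext ω
    refine hdep _ _ fun i hi => ?_
    simp only [ext, dif_pos (Finset.mem_range.2 hi)]
  rw [e]
  exact h2

/-- Stopped sum. -/
noncomputable def zs (B : ℕ → Ω → ℝ) (η : ℕ → Ω → ℝ) (a : ℝ) (M : ℕ) (ω : Ω) : ℝ :=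
  ∑ i ∈ Finset.range M, (if psum B i ω < a then 1 else 0) * η i ω

/-- Wald's second identity, for a truncated sum. -/
lemma wald2 [IsProbabilityMeasure P] {Y : ℕ → Ω → ℝ × ℝ} (hind : iIndepFun Y P)
    (hY : ∀ i, Measurable (Y i)) {ρ : Measure (ℝ × ℝ)} (hlaw : ∀ i, P.map (Y i) = ρ)
    {ζ : ℝ × ℝ → ℝ} (hζ : Measurable ζ) (hζ2 : MemLp ζ 2 ρ) (hζ0 : ∫ p, ζ p ∂ρ = 0) (a : ℝ)
    (M : ℕ) :
    MemLp (zs (fun i ω => (Y i ω).1) (fun i ω => ζ (Y i ω)) a M) 2 P ∧
      ∫ ω, zs (fun i ω => (Y i ω).1) (fun i ω => ζ (Y i ω)) a M ω ^ 2 ∂P =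
        (∫ p, ζ p ^ 2 ∂ρ) *
          ∑ i ∈ Finset.range M, P.real {ω | psum (fun i ω => (Y i ω).1) i ω < a} := by
  set B : ℕ → Ω → ℝ := fun i ω => (Y i ω).1 with hB
  set η : ℕ → Ω → ℝ := fun i ω => ζ (Y i ω) with hη
  have mB : ∀ n, Measurable (psum B n) := fun n => measurable_psum fun i _ => (hY i).fst
  have mη : ∀ i, Measurable (η i) := fun i => hζ.comp (hY i)
  have lη : ∀ i, MemLp (η i) 2 P := fun i =>
    MemLp.comp_of_map (f := Y i) (by rwa [hlaw i]) (hY i).aemeasurable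
  have η0 : ∀ i, ∫ ω, η i ω ∂P = 0 := fun i => by
    rw [← hζ0, ← hlaw i, integral_map (hY i).aemeasurable hζ.aestronglyMeasurable]
  have η2 : ∀ i, ∫ ω, η i ω ^ 2 ∂P = ∫ p, ζ p ^ 2 ∂ρ := fun i => by
    rw [← hlaw i, integral_map (hY i).aemeasurable (hζ.pow_const 2).aestronglyMeasurable]
  let I : ℕ → Ω → ℝ := fun i ω => if psum B i ω < a then 1 else 0
  have mI : ∀ i, Measurable (I i) := fun i =>
    Measurable.ite (mB i measurableSet_Iio) measurable_const measurable_const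
  have bI : ∀ i, MemLp (I i) ∞ P := fun i =>
    memLp_top_of_bound (mI i).aestronglyMeasurable 1 (Eventually.of_forall fun ω => by
      simp only [I]; split_ifs <;> simp)
  have iI : ∀ i, ∫ ω, I i ω ∂P = P.real {ω | psum B i ω < a} := fun i => by
    rw [← integral_indicator_one
      (show MeasurableSet {ω | psum B i ω < a} from mB i measurableSet_Iio)]
    rfl
  -- canonical versions
  let b : ℕ → (ℕ → ℝ × ℝ) → ℝ := fun i x => (x i).1
  have mb : ∀ n, Measurable (psum b n) := fun n =>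
    measurable_psum fun i _ => (measurable_pi_apply i).fst
  let J : ℕ → (ℕ → ℝ × ℝ) → ℝ := fun i x => if psum b i x < a then 1 else 0
  have mJ : ∀ i, Measurable (J i) := fun i =>
    Measurable.ite (mb i measurableSet_Iio) measurable_const measurable_const
  have dJ : ∀ (i M : ℕ), i ≤ M → ∀ x y : ℕ → ℝ × ℝ, (∀ j < M, x j = y j) → J i x = J i y := by
    intro i M hi x y hxy
    have : psum b i x = psum b i y :=
      Finset.sum_congr rfl fun j hj => by
        simp only [b, hxy j ((Finset.mem_range.1 hj).trans_le hi)]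
    simp only [J, this]
  induction M with
  | zero => exact ⟨by unfold zs; simp, by simp [zs]⟩
  | succ M ih =>
    obtain ⟨l1, l2⟩ := ih
    have es : ∀ ω, zs B η a (M + 1) ω = zs B η a M ω + I M ω * η M ω := fun ω =>
      Finset.sum_range_succ _ _
    have lI : MemLp (fun ω => I M ω * η M ω) 2 P := (lη M).mul' (bI M)
    refine ⟨(l1.add lI).congr_norm ?_ (Eventually.of_forall fun ω => by rw [es]; rfl), ?_⟩
    · have : zs B η a (M + 1) = zs B η a M + fun ω => I M ω * η M ω := funext es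
      rw [this]
      exact (l1.add lI).aestronglyMeasurable
    have c1 : ∫ ω, (zs B η a M ω * I M ω) * η M ω ∂P = 0 := by
      have hi := (indep_past hind hY M
        (F := fun x => (∑ i ∈ Finset.range M, J i x * ζ (x i)) * J M x)
        ((Finset.measurable_sum _ fun i _ =>
          (mJ i).mul (hζ.comp (measurable_pi_apply i))).mul (mJ M)) (fun x y hxy => by
          rw [dJ M M le_rfl x y hxy]
          congr 1
          refine Finset.sum_congr rfl fun i hi => ?_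
          rw [dJ i M (Finset.mem_range.1 hi).le x y hxy, hxy i (Finset.mem_range.1 hi)])).comp
        measurable_id hζ
      have := IndepFun.integral_fun_mul_eq_mul_integral
        (X := fun ω => zs B η a M ω * I M ω) (Y := η M) hi
        (l1.aestronglyMeasurable.mul (mI M).aestronglyMeasurable) (mη M).aestronglyMeasurable
      rw [this, η0, mul_zero]
    have c2 : ∫ ω, I M ω * η M ω ^ 2 ∂P = P.real {ω | psum B M ω < a} * ∫ p, ζ p ^ 2 ∂ρ := by
      have hi := (indep_past hind hY M (F := J M) (mJ M) (dJ M M le_rfl)).comp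
        measurable_id (hζ.pow_const 2)
      have := IndepFun.integral_fun_mul_eq_mul_integral
        (X := I M) (Y := fun ω => η M ω ^ 2) hi
        (mI M).aestronglyMeasurable ((mη M).pow_const 2).aestronglyMeasurable
      rw [this, iI, η2]
    have j1 : Integrable (fun ω => zs B η a M ω ^ 2) P := l1.integrable_sq
    have j2 : Integrable (fun ω => (zs B η a M ω * I M ω) * η M ω) P := by
      have := l1.integrable_mul lI
      refine this.congr (Eventually.of_forall fun ω => ?_)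
      simp only [Pi.mul_apply]; ring
    have j3 : Integrable (fun ω => I M ω * η M ω ^ 2) P := by
      refine lI.integrable_sq.congr (Eventually.of_forall fun ω => ?_)
      simp only [I]; split_ifs <;> simp
    have e : ∀ ω, zs B η a (M + 1) ω ^ 2 =
        zs B η a M ω ^ 2 + 2 * ((zs B η a M ω * I M ω) * η M ω) + I M ω * η M ω ^ 2 := by
      intro ω
      rw [es]
      simp only [I]; split_ifs <;> ring
    have j12 : Integrable
        (fun ω => zs B η a M ω ^ 2 + 2 * ((zs B η a M ω * I M ω) * η M ω)) P :=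
      j1.add (j2.const_mul 2)
    simp only [e]
    rw [integral_add j12 j3, integral_add j1 (j2.const_mul 2), integral_const_mul, c1, c2, l2,
      Finset.sum_range_succ]
    ring

/-- The standing hypotheses. -/
structure Setup (P : Measure Ω) (β μ : Measure ℝ) (B ξ X : ℕ → Ω → ℝ)
    (G : ℕ → MeasurableSpace Ω) (c0 : ℝ) : Prop where
  mB : ∀ i, Measurable (B i)
  mξ : ∀ i, Measurable (ξ i)
  mX : ∀ k, Measurable (X k)
  indep : iIndepFun (fun i ω => (B i ω, ξ i ω)) P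
  law : ∀ i, P.map (fun ω => (B i ω, ξ i ω)) = β.prod μ
  nonneg : ∀ᵐ b ∂β, 0 ≤ b
  expm : (0 : ℝ) ∈ interior (integrableExpSet id β)
  mean : 0 < ∫ b, b ∂β
  mom : MemLp id 2 μ
  gauss : ∀ k, HasGaussianLaw (X k) P
  adapted : ∀ n, ∀ i < n, Measurable[G n] (B i) ∧ Measurable[G n] (ξ i)
  coupling : ∀ A η : ℝ, 0 < η → ∃ C : ℝ, ∀ n k : ℕ, 1 ≤ n → c0 ≤ k → ∀ D : Set Ω,
    MeasurableSet[G n] D → (∀ ω ∈ D, k - A ≤ psum B n ω ∧ psum B n ω ≤ k - c0) →
      P (D ∩ {ω | C < |X k ω - psum ξ n ω + (∫ x, x ∂μ) * k / (∫ b, b ∂β)|}) ≤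
        ENNReal.ofReal η * P D

namespace Setup

variable {β μ : Measure ℝ} {B ξ X : ℕ → Ω → ℝ} {G : ℕ → MeasurableSpace Ω} {c0 : ℝ}
  [IsProbabilityMeasure β] [IsProbabilityMeasure μ]

omit [IsProbabilityMeasure β] in
lemma walk (h : Setup P β μ B ξ X G c0) : Walk P β B where
  meas := h.mB
  indep := h.indep.comp (fun _ => Prod.fst) fun _ => measurable_fst
  law i := by
    have : B i = Prod.fst ∘ fun ω => (B i ω, ξ i ω) := rfl
    rw [this, ← Measure.map_map measurable_fst ((h.mB i).prodMk (h.mξ i)), h.law i,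
      Measure.map_fst_prod]
    simp
  nonneg := h.nonneg
  expm := h.expm
  mean := h.mean

lemma wald (h : Setup P β μ B ξ X G c0) (a : ℝ) (M : ℕ) :
    MemLp (zs B (fun i ω => ξ i ω - (∫ x, x ∂μ) / (∫ b, b ∂β) * B i ω) a M) 2 P ∧
      ∫ ω, zs B (fun i ω => ξ i ω - (∫ x, x ∂μ) / (∫ b, b ∂β) * B i ω) a M ω ^ 2 ∂P =
        (Var[id; μ] + (∫ x, x ∂μ) ^ 2 * Var[id; β] / (∫ b, b ∂β) ^ 2) *
          ∑ i ∈ Finset.range M, P.real {ω | psum B i ω < a} := by
  have := h.indep.isProbabilityMeasure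
  set c := (∫ x, x ∂μ) / (∫ b, b ∂β) with hc
  have lβ : MemLp (fun b : ℝ => -c * b) 2 β :=
    MemLp.const_mul (f := id)
      (by simpa using memLp_of_mem_interior_integrableExpSet h.expm 2) _
  have l1 : MemLp (fun p : ℝ × ℝ => -c * p.1) 2 (β.prod μ) := lβ.comp_fst μ
  have l2 : MemLp (fun p : ℝ × ℝ => id p.2) 2 (β.prod μ) := h.mom.comp_snd β
  have e : (fun p : ℝ × ℝ => p.2 - c * p.1) = fun p : ℝ × ℝ => -c * p.1 + id p.2 := by
    funext p; simp only [id]; ring
  have l3 : MemLp (fun p : ℝ × ℝ => p.2 - c * p.1) 2 (β.prod μ) := by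
    rw [e]; exact l1.add l2
  have z0 : ∫ p : ℝ × ℝ, (p.2 - c * p.1) ∂β.prod μ = 0 := by
    rw [e, integral_add (l1.integrable one_le_two) (l2.integrable one_le_two),
      integral_fun_fst (fun b : ℝ => -c * b), integral_fun_snd (fun x : ℝ => id x),
      integral_const_mul]
    have := h.mean.ne'
    simp only [probReal_univ, smul_eq_mul, one_mul, id, hc]
    field_simp
    ring
  have z2 : ∫ p : ℝ × ℝ, (p.2 - c * p.1) ^ 2 ∂β.prod μ =
      Var[id; μ] + (∫ x, x ∂μ) ^ 2 * Var[id; β] / (∫ b, b ∂β) ^ 2 := by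
    rw [← variance_of_integral_eq_zero l3.aemeasurable z0, e, variance_add_prod lβ h.mom]
    have : Var[fun b : ℝ => -c * b; β] = (-c) ^ 2 * Var[id; β] := variance_const_mul _ id β
    rw [this, hc]
    ring
  have := wald2 h.indep (fun i => (h.mB i).prodMk (h.mξ i)) h.law
    (ζ := fun p => p.2 - c * p.1) (by fun_prop) l3 z0 a M
  rw [z2] at this
  exact this

omit [IsProbabilityMeasure β] in
/-- With high probability `X k` is close to a stopped centred sum. -/
lemma close (h : Setup P β μ B ξ X G c0) {η : ℝ} (hη : 0 < η) :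
    ∃ A C : ℝ, ∀ᶠ k : ℕ in atTop, 0 < (k : ℝ) - A ∧ ∃ (M : ℕ) (Bad : Set Ω), MeasurableSet Bad ∧
      P.real Bad ≤ 3 * η ∧ ∀ᵐ ω ∂P, ω ∉ Bad →
        |X k ω - zs B (fun i ω => ξ i ω - (∫ x, x ∂μ) / (∫ b, b ∂β) * B i ω) (k - A) M ω| ≤ C := by
  have := h.indep.isProbabilityMeasure
  obtain ⟨K, hK0, hK⟩ := h.walk.overshoot
  set L := K / η + 1 with hL
  have hL0 : 0 < L := by positivity
  set A := c0 + L with hA
  obtain ⟨C, hC⟩ := h.coupling A η hη
  set c := (∫ x, x ∂μ) / (∫ b, b ∂β) with hc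
  refine ⟨A, C + |c| * (|A| + |c0|), ?_⟩
  have t1 : Tendsto (fun k : ℕ => (k : ℝ)) atTop atTop := tendsto_natCast_atTop_atTop
  filter_upwards [t1.eventually_gt_atTop A, t1.eventually_ge_atTop c0] with k hk1 hk2
  refine ⟨by linarith, ?_⟩
  set a := (k : ℝ) - A with ha
  have ha0 : 0 < a := by linarith
  obtain ⟨M, hM⟩ := ((h.walk.tendsto_lt a).eventually
    (gt_mem_nhds (show (0 : ℝ≥0∞) < ENNReal.ofReal η by simpa using hη))).exists
  let D : ℕ → Set Ω := fun n => {ω | (∀ i ≤ n, psum B i ω < a) ∧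
    a ≤ psum B (n + 1) ω ∧ psum B (n + 1) ω ≤ k - c0}
  have mD : ∀ (m : MeasurableSpace Ω) (n : ℕ), (∀ i < n + 1, Measurable[m] (B i)) →
      MeasurableSet[m] (D n) := by
    intro m n hm
    have h1 : ∀ i ≤ n + 1, Measurable[m] (psum B i) := fun i hi =>
      measurable_psum fun j hj => hm j (hj.trans_le hi)
    have h2 : MeasurableSet[m] (⋂ i ∈ Iic n, psum B i ⁻¹' Iio a) :=
      MeasurableSet.biInter (to_countable _) fun i hi =>
        h1 i (le_trans hi (Nat.le_succ n)) measurableSet_Iio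
    have h3 : MeasurableSet[m] (psum B (n + 1) ⁻¹' Icc a (k - c0)) :=
      h1 _ le_rfl measurableSet_Icc
    convert h2.inter h3 using 1
    ext ω
    simp [D]
  let E : ℕ → Set Ω := fun n =>
    {ω | C < |X k ω - psum ξ n ω + (∫ x, x ∂μ) * k / (∫ b, b ∂β)|}
  have mE : ∀ n, MeasurableSet (E n) := fun n => by
    have h1 : Measurable (psum ξ n) := measurable_psum fun i _ => h.mξ i
    have h2 := h.mX k
    exact measurableSet_lt measurable_const (by fun_prop)
  have mD0 : ∀ n, MeasurableSet (D n) := fun n => mD _ n fun i _ => h.mB i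
  refine ⟨M, ({ω | psum B M ω < a} ∪ {ω | ENNReal.ofReal L ≤ osh B a ω}) ∪
    ⋃ n ∈ Finset.range M, D n ∩ E (n + 1), ?_, ?_, ?_⟩
  · exact ((h.walk.measurable_psum M measurableSet_Iio).union
      (h.walk.measurable_over a measurableSet_Ici)).union
      (Finset.measurableSet_biUnion _ fun n _ => (mD0 n).inter (mE _))
  · have b2 : P {ω | ENNReal.ofReal L ≤ osh B a ω} ≤ ENNReal.ofReal η := by
      refine (meas_ge_le_lintegral_div (h.walk.measurable_over a).aemeasurable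
        (by simpa using hL0) ENNReal.ofReal_ne_top).trans ?_
      refine (ENNReal.div_le_div_right (hK a) _).trans ?_
      rw [← ENNReal.ofReal_div_of_pos hL0]
      refine ENNReal.ofReal_le_ofReal ?_
      rw [div_le_iff₀ hL0, hL, mul_add, mul_div_cancel₀ _ hη.ne']
      linarith
    have b3 : P (⋃ n ∈ Finset.range M, D n ∩ E (n + 1)) ≤ ENNReal.ofReal η := by
      calc _ ≤ ∑ n ∈ Finset.range M, P (D n ∩ E (n + 1)) := measure_biUnion_finset_le _ _
        _ ≤ ∑ n ∈ Finset.range M, ENNReal.ofReal η * P (D n) :=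
            Finset.sum_le_sum fun n _ => hC (n + 1) k (by omega) hk2 (D n)
              (mD _ n fun i hi => (h.adapted _ i hi).1) fun ω hω => hω.2
        _ ≤ ENNReal.ofReal η * P univ := by
            rw [← Finset.mul_sum]
            gcongr
            refine sum_measure_le_measure_univ (fun n _ => (mD0 n).nullMeasurableSet) ?_
            intro n _ n' _ hne
            refine Disjoint.aedisjoint (disjoint_left.2 fun ω h1 h2 => ?_)
            rcases lt_or_gt_of_ne hne with hlt | hlt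
            · exact absurd (h2.1 (n + 1) hlt) (not_lt.2 h1.2.1)
            · exact absurd (h1.1 (n' + 1) hlt) (not_lt.2 h2.2.1)
        _ = _ := by simp
    refine ENNReal.toReal_le_of_le_ofReal (by positivity) ?_
    calc _ ≤ (ENNReal.ofReal η + ENNReal.ofReal η) + ENNReal.ofReal η :=
          (measure_union_le _ _).trans
            (add_le_add ((measure_union_le _ _).trans (add_le_add hM.le b2)) b3)
      _ = _ := by
          rw [← ENNReal.ofReal_add hη.le hη.le, ← ENNReal.ofReal_add (by positivity) hη.le]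
          congr 1; ring
  · filter_upwards [h.walk.ae_nonneg] with ω hω hb
    simp only [mem_union, mem_ofPred_eq, mem_iUnion, not_or, not_lt, not_le, not_exists] at hb
    obtain ⟨⟨b1, b2⟩, b3⟩ := hb
    have mono : Monotone fun n => psum B n ω :=
      monotone_nat_of_le_succ fun n => by rw [psum_succ]; linarith [hω n]
    have ex : ∃ n, a ≤ psum B (n + 1) ω := ⟨M, b1.trans (mono (Nat.le_succ M))⟩
    classical
    set n := Nat.find ex with hn
    have n1 : a ≤ psum B (n + 1) ω := Nat.find_spec ex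
    have n2 : ∀ i ≤ n, psum B i ω < a := by
      intro i hi
      rcases i with _ | i
      · simpa using ha0
      · exact not_le.1 (Nat.find_min ex (by omega))
    have n3 : n < M := by
      by_contra hM'
      exact absurd (n2 M (not_lt.1 hM')) (not_lt.2 b1)
    have n4 : psum B (n + 1) ω ≤ k - c0 := by
      have e1 := (ENNReal.le_tsum (f := fun n => ENNReal.ofReal
        (if psum B n ω < a then max (psum B n ω + B n ω - a) 0 else 0)) n).trans_lt b2
      rw [if_pos (n2 n le_rfl), ENNReal.ofReal_lt_ofReal_iff hL0, ← psum_succ] at e1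
      linarith [le_max_left (psum B (n + 1) ω - a) 0]
    have n5 : |X k ω - psum ξ (n + 1) ω + (∫ x, x ∂μ) * k / (∫ b, b ∂β)| ≤ C := by
      by_contra hC'
      exact b3 n (Finset.mem_range.2 n3) ⟨⟨n2, n1, n4⟩, not_le.1 hC'⟩
    have n6 : zs B (fun i ω => ξ i ω - c * B i ω) a M ω
        = psum ξ (n + 1) ω - c * psum B (n + 1) ω := by
      unfold zs
      rw [← Finset.sum_subset (Finset.range_mono (show n + 1 ≤ M from n3))]
      · unfold psum
        rw [Finset.mul_sum, ← Finset.sum_sub_distrib]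
        refine Finset.sum_congr rfl fun i hi => ?_
        have := n2 i (Nat.lt_succ_iff.1 (Finset.mem_range.1 hi))
        unfold psum at this
        rw [if_pos this, one_mul]
      · intro i _ hi
        have : a ≤ psum B i ω := n1.trans (mono (by simpa using hi))
        rw [if_neg (not_lt.2 this), zero_mul]
    rw [n6]
    have e : X k ω - (psum ξ (n + 1) ω - c * psum B (n + 1) ω) =
        (X k ω - psum ξ (n + 1) ω + (∫ x, x ∂μ) * k / (∫ b, b ∂β)) +
          c * (psum B (n + 1) ω - k) := by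
      rw [hc]; ring
    rw [e]
    refine (abs_add_le _ _).trans (add_le_add n5 ?_)
    rw [abs_mul]
    refine mul_le_mul_of_nonneg_left (abs_le.2 ⟨?_, ?_⟩) (abs_nonneg _)
    · linarith [le_abs_self A, abs_nonneg c0]
    · linarith [neg_abs_le c0, abs_nonneg A]

/-- Step (8). -/
lemma var_bound (h : Setup P β μ B ξ X G c0) {ε : ℝ} (hε : 0 < ε) :
    ∃ K : ℝ, ∀ᶠ k : ℕ in atTop, ∫ ω, X k ω ^ 2 ∂P ≤
      ((Var[id; μ] + (∫ x, x ∂μ) ^ 2 * Var[id; β] / (∫ b, b ∂β) ^ 2) / (∫ b, b ∂β) + ε) * k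
        + K := by
  have := h.indep.isProbabilityMeasure
  have hE := h.mean
  set v := Var[id; μ] + (∫ x, x ∂μ) ^ 2 * Var[id; β] / (∫ b, b ∂β) ^ 2 with hv
  have v0 : 0 ≤ v := by
    have := variance_nonneg id μ
    have := variance_nonneg id β
    positivity
  set E := ∫ b, b ∂β
  set s := v / E with hs
  have s0 : 0 ≤ s := by positivity
  obtain ⟨θ, hθ, h1, h2⟩ : ∃ θ : ℝ, 0 < θ ∧ 0 < 1 - (24 * exp 2 + 1) * θ ∧
      (1 + θ) * s < (s + ε) * (1 - (24 * exp 2 + 1) * θ) := by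
    have e1 : ∀ᶠ θ in 𝓝 (0 : ℝ), 0 < 1 - (24 * exp 2 + 1) * θ :=
      ContinuousAt.eventually_lt (by fun_prop) (by fun_prop) (by simp)
    have e2 : ∀ᶠ θ in 𝓝 (0 : ℝ), (1 + θ) * s < (s + ε) * (1 - (24 * exp 2 + 1) * θ) :=
      ContinuousAt.eventually_lt (by fun_prop) (by fun_prop) (by simpa using hε)
    exact (eventually_mem_nhdsWithin.and
      ((e1.and e2).filter_mono (nhdsWithin_le_nhds (s := Ioi 0)))).exists
  obtain ⟨A, C, hk⟩ := h.close (η := θ ^ 2) (by positivity)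
  obtain ⟨K, hK0, hK⟩ := h.walk.count_le
  set D := 1 - (24 * exp 2 + 1) * θ with hD
  refine ⟨((1 + θ) * (s * |A| + v * K) + (1 + θ⁻¹) * C ^ 2) / D, ?_⟩
  filter_upwards [hk] with k ⟨hk0, M, Bad, mBad, pBad, hcl⟩
  obtain ⟨w1, w2⟩ := h.wald (k - A) M
  have a1 := second_moment (h.gauss k) w1 mBad hθ pBad hcl
  rw [w2, ← hv, ← hD] at a1
  have a2 : ∑ i ∈ Finset.range M, P.real {ω | psum B i ω < k - A} ≤ (k - A) / E + K := by
    simp only [Measure.real]
    rw [← ENNReal.toReal_sum fun i _ => measure_ne_top _ _]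
    exact ENNReal.toReal_le_of_le_ofReal (by positivity)
      ((ENNReal.sum_le_tsum _).trans (hK _ hk0.le))
  have a3 : v * ∑ i ∈ Finset.range M, P.real {ω | psum B i ω < k - A}
      ≤ s * k + (s * |A| + v * K) := by
    calc _ ≤ v * ((k - A) / E + K) := by gcongr
      _ = s * k + (s * (-A) + v * K) := by rw [hs]; ring
      _ ≤ _ := by gcongr; exact neg_le_abs A
  have a4 : (1 + θ) * s * k ≤ (s + ε) * D * k :=
    mul_le_mul_of_nonneg_right h2.le (Nat.cast_nonneg k)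
  have a5 := mul_le_mul_of_nonneg_left a3 (show 0 ≤ 1 + θ by positivity)
  rw [← sub_le_iff_le_add', le_div_iff₀ h1]
  nlinarith

/-- The weighted sum of the Gaussian transforms converges. -/
lemma sum_ne_top (h : Setup P β μ B ξ X G c0) {t l : ℝ}
    (hl : (∫ x, x ∂μ) * t / (∫ b, b ∂β) +
      (Var[id; μ] + (∫ x, x ∂μ) ^ 2 * Var[id; β] / (∫ b, b ∂β) ^ 2) / (∫ b, b ∂β) * t ^ 2 / 2
        < l) :
    ∑' k : ℕ, ∫⁻ ω, ENNReal.ofReal
      (exp (t * X k ω + (t * (∫ x, x ∂μ) / (∫ b, b ∂β) - l) * k)) ∂P ≠ ∞ := by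
  set s := (Var[id; μ] + (∫ x, x ∂μ) ^ 2 * Var[id; β] / (∫ b, b ∂β) ^ 2) / (∫ b, b ∂β)
  set u := t * (∫ x, x ∂μ) / (∫ b, b ∂β) - l with hu
  obtain ⟨ε, hε, h1⟩ : ∃ ε : ℝ, 0 < ε ∧ u + (1 / 2 + ε) * t ^ 2 * (s + ε) < 0 := by
    have e1 : ∀ᶠ ε in 𝓝 (0 : ℝ), u + (1 / 2 + ε) * t ^ 2 * (s + ε) < 0 :=
      ContinuousAt.eventually_lt (by fun_prop) (by fun_prop) (by
        simp only [add_zero, hu]
        rw [mul_comm t]
        linarith)
    exact (eventually_mem_nhdsWithin.and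
      (e1.filter_mono (nhdsWithin_le_nhds (s := Ioi 0)))).exists
  obtain ⟨K, hK⟩ := h.var_bound hε
  have ik : ∀ k : ℕ, Integrable (fun ω => exp (t * X k ω + u * k)) P := fun k => by
    simp only [exp_add]
    exact (gauss_exp (h.gauss k) t).1.mul_const _
  have e : ∀ k : ℕ, ∫⁻ ω, ENNReal.ofReal (exp (t * X k ω + u * k)) ∂P =
      ENNReal.ofReal (∫ ω, exp (t * X k ω + u * k) ∂P) := fun k =>
    (ofReal_integral_eq_lintegral_ofReal (ik k)
      (Eventually.of_forall fun _ => (exp_pos _).le)).symm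
  have p0 : ∀ k : ℕ, 0 ≤ ∫ ω, exp (t * X k ω + u * k) ∂P := fun k =>
    integral_nonneg fun _ => (exp_pos _).le
  simp only [e]
  rw [← ENNReal.ofReal_tsum_of_nonneg p0]
  · exact ENNReal.ofReal_ne_top
  set γ := u + (1 / 2 + ε) * t ^ 2 * (s + ε) with hγ
  refine Summable.of_norm_bounded_eventually_nat
    (g := fun k : ℕ => exp (1 / (4 * ε) + (1 / 2 + ε) * t ^ 2 * K) * exp γ ^ k)
    ((summable_geometric_of_lt_one (exp_pos _).le (exp_lt_one_iff.2 h1)).mul_left _) ?_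
  filter_upwards [hK] with k hk
  rw [Real.norm_of_nonneg (p0 k)]
  simp only [exp_add (t * _)]
  rw [integral_mul_const]
  refine (mul_le_mul_of_nonneg_right (gauss_exp (h.gauss k) t).2 (exp_pos _).le).trans ?_
  rw [← exp_add, ← exp_nat_mul, ← exp_add]
  refine exp_le_exp.2 ?_
  have v0 : 0 ≤ ∫ ω, X k ω ^ 2 ∂P := integral_nonneg fun ω => sq_nonneg _
  set V := ∫ ω, X k ω ^ 2 ∂P
  have a1 : |t| * √V ≤ ε * t ^ 2 * V + 1 / (4 * ε) := by
    have : ε * (|t| * √V) ^ 2 + 1 / (4 * ε) - |t| * √V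
        = (2 * ε * (|t| * √V) - 1) ^ 2 / (4 * ε) := by
      field_simp; ring
    have h2 : 0 ≤ (2 * ε * (|t| * √V) - 1) ^ 2 / (4 * ε) := by positivity
    rw [mul_pow, sq_abs, sq_sqrt v0] at this
    linarith
  have a2 : (1 / 2 + ε) * t ^ 2 * V ≤ (1 / 2 + ε) * t ^ 2 * ((s + ε) * k + K) := by gcongr
  rw [hγ]
  linarith

omit [IsProbabilityMeasure β] in
lemma lintegral_exp (h : Setup P β μ B ξ X G c0) (t l : ℝ) (n : ℕ) :
    ∫⁻ ω, ENNReal.ofReal (exp (t * psum ξ n ω - l * psum B n ω)) ∂P =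
      ((∫⁻ x, ENNReal.ofReal (exp (t * x)) ∂μ) *
        ∫⁻ b, ENNReal.ofReal (exp (-(l * b))) ∂β) ^ n := by
  have mf : Measurable fun p : ℝ × ℝ =>
      ENNReal.ofReal (exp (-(l * p.1))) * ENNReal.ofReal (exp (t * p.2)) := by fun_prop
  have h1 := lintegral_prod_eq_prod_lintegral_of_indepFun (Finset.range n) _
    (h.indep.comp _ fun _ => mf) fun i => mf.comp ((h.mB i).prodMk (h.mξ i))
  have h2 : ∀ i, ∫⁻ ω, ((fun p : ℝ × ℝ =>
      ENNReal.ofReal (exp (-(l * p.1))) * ENNReal.ofReal (exp (t * p.2))) ∘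
        fun ω => (B i ω, ξ i ω)) ω ∂P = (∫⁻ x, ENNReal.ofReal (exp (t * x)) ∂μ) *
        ∫⁻ b, ENNReal.ofReal (exp (-(l * b))) ∂β := fun i => by
    rw [lintegral_comp mf ((h.mB i).prodMk (h.mξ i)), h.law i,
      lintegral_prod_mul (f := fun b => ENNReal.ofReal (exp (-(l * b))))
        (g := fun x => ENNReal.ofReal (exp (t * x))) (by fun_prop) (by fun_prop), mul_comm]
  simp only [h2, Finset.prod_const, Finset.card_range] at h1
  rw [← h1]
  refine lintegral_congr fun ω => ?_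
  simp only [Function.comp, ← ENNReal.ofReal_mul (exp_pos _).le, ← exp_add]
  rw [← ENNReal.ofReal_prod_of_nonneg fun _ _ => (exp_pos _).le, ← exp_sum]
  congr 2
  unfold psum
  rw [Finset.sum_add_distrib, Finset.sum_neg_distrib, Finset.mul_sum, Finset.mul_sum]
  ring

/-- Step (9). -/
theorem mgf_bound (h : Setup P β μ B ξ X G c0) {t l : ℝ}
    (hl : (∫ x, x ∂μ) * t / (∫ b, b ∂β) +
      (Var[id; μ] + (∫ x, x ∂μ) ^ 2 * Var[id; β] / (∫ b, b ∂β) ^ 2) / (∫ b, b ∂β) * t ^ 2 / 2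
        < l) :
    (∫⁻ x, ENNReal.ofReal (exp (t * x)) ∂μ) * ∫⁻ b, ENNReal.ofReal (exp (-(l * b))) ∂β ≤ 1 := by
  have := h.indep.isProbabilityMeasure
  have hfin := h.sum_ne_top hl
  obtain ⟨C, hC⟩ := h.coupling (|c0| + 1) (1 / 2) (by norm_num)
  set c' := |t| * C + |l| * (|c0| + 1) with hc'
  set R := ∑' k : ℕ, ∫⁻ ω, ENNReal.ofReal
      (exp (t * X k ω + (t * (∫ x, x ∂μ) / (∫ b, b ∂β) - l) * k)) ∂P with hR
  have key : ∀ n : ℕ, 1 ≤ n → ((∫⁻ x, ENNReal.ofReal (exp (t * x)) ∂μ) *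
      ∫⁻ b, ENNReal.ofReal (exp (-(l * b))) ∂β) ^ n ≤ 2 * ENNReal.ofReal (exp c') * R := by
    intro n hn
    rw [← h.lintegral_exp]
    let E : ℕ → Set Ω := fun k =>
      {ω | c0 ≤ k ∧ k - (|c0| + 1) ≤ psum B n ω ∧ psum B n ω ≤ k - c0}
    let Y : Ω → ℝ × ℝ := fun ω => (psum B n ω, psum ξ n ω)
    have mY : ∀ m : MeasurableSpace Ω, (∀ i < n, Measurable[m] (B i) ∧ Measurable[m] (ξ i)) →
        Measurable[m] Y := fun m hm =>
      (measurable_psum fun i hi => (hm i hi).1).prodMk (measurable_psum fun i hi => (hm i hi).2)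
    have mE : ∀ (m : MeasurableSpace Ω), (∀ i < n, Measurable[m] (B i)) → ∀ k,
        MeasurableSet[m] (E k) := fun m hm k =>
      (MeasurableSet.const _).inter (measurable_psum hm measurableSet_Icc)
    have mY0 : Measurable Y := mY _ fun i _ => ⟨h.mB i, h.mξ i⟩
    have mE0 : ∀ k, MeasurableSet (E k) := mE _ fun i _ => h.mB i
    let W : ℝ × ℝ → ℝ≥0∞ := fun p => ENNReal.ofReal (exp (t * p.2 - l * p.1))
    have mW : Measurable W := by fun_prop
    have cover : ∀ᵐ ω ∂P, ω ∈ ⋃ k, E k := by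
      filter_upwards [h.walk.ae_nonneg] with ω hω
      have t0 : 0 ≤ psum B n ω := Finset.sum_nonneg fun i _ => hω i
      have a1 := Nat.le_ceil (psum B n ω + |c0|)
      have a2 := Nat.ceil_lt_add_one (show 0 ≤ psum B n ω + |c0| by positivity)
      have a3 := le_abs_self c0
      exact mem_iUnion.2 ⟨⌈psum B n ω + |c0|⌉₊, by linarith, by linarith, by linarith⟩
    have step : ∀ k : ℕ, ∫⁻ ω in E k, W (Y ω) ∂P ≤ 2 * ENNReal.ofReal (exp c') *
        ∫⁻ ω, ENNReal.ofReal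
          (exp (t * X k ω + (t * (∫ x, x ∂μ) / (∫ b, b ∂β) - l) * k)) ∂P := by
      intro k
      set Bd := {ω | C < |X k ω - psum ξ n ω + (∫ x, x ∂μ) * k / (∫ b, b ∂β)|} with hBd
      have mBd : MeasurableSet Bd := by
        have h1 : Measurable (psum ξ n) := measurable_psum fun i _ => h.mξ i
        have h2 := h.mX k
        exact measurableSet_lt measurable_const (by fun_prop)
      have hle : (P.restrict (E k)).map Y ≤ (2 : ℝ≥0∞) • (P.restrict (E k \ Bd)).map Y := by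
        refine Measure.le_iff.2 fun s hs => ?_
        rw [Measure.smul_apply, Measure.map_apply mY0 hs, Measure.map_apply mY0 hs,
          Measure.restrict_apply (mY0 hs), Measure.restrict_apply (mY0 hs), smul_eq_mul,
          ← inter_sdiff_assoc]
        set D := Y ⁻¹' s ∩ E k with hD
        rcases D.eq_empty_or_nonempty with h0 | ⟨ω0, h0⟩
        · simp [h0]
        have h1 := hC n k hn h0.2.1 D
          ((mY _ (h.adapted n) hs).inter (mE _ (fun i hi => (h.adapted n i hi).1) k))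
          fun ω hω => hω.2.2
        have h2 : P D ≤ P (D ∩ Bd) + P (D \ Bd) := measure_le_inter_add_sdiff _ _ _
        have h3 : 2 * P (D ∩ Bd) ≤ P D := by
          refine (mul_le_mul_right h1 2).trans_eq ?_
          rw [← mul_assoc, ← ENNReal.ofReal_ofNat 2, ← ENNReal.ofReal_mul (by norm_num)]
          norm_num
        have h4 : P D + P D ≤ P D + 2 * P (D \ Bd) := by
          calc P D + P D = 2 * P D := (two_mul _).symm
            _ ≤ 2 * (P (D ∩ Bd) + P (D \ Bd)) := by gcongr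
            _ ≤ _ := by rw [mul_add]; gcongr
        exact (ENNReal.add_le_add_iff_left (measure_ne_top _ _)).1 h4
      have h5 := lintegral_mono' hle (le_refl W)
      rw [lintegral_smul_measure, lintegral_map mW mY0, lintegral_map mW mY0, smul_eq_mul] at h5
      refine h5.trans ?_
      rw [mul_assoc, ← lintegral_const_mul' _ _ ENNReal.ofReal_ne_top]
      gcongr 2 * ?_
      refine (setLIntegral_mono' ((mE0 k).diff mBd) fun ω hω => ?_).trans
        (setLIntegral_le_lintegral _ _)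
      rw [← ENNReal.ofReal_mul (exp_pos _).le, ← exp_add]
      refine ENNReal.ofReal_le_ofReal (exp_le_exp.2 ?_)
      obtain ⟨⟨-, e1, e2⟩, e3⟩ := hω
      have e4 : |X k ω - psum ξ n ω + (∫ x, x ∂μ) * k / (∫ b, b ∂β)| ≤ C := not_lt.1 e3
      have e5 : |psum B n ω - k| ≤ |c0| + 1 :=
        abs_le.2 ⟨by linarith, by linarith [neg_abs_le c0]⟩
      have e6 := (neg_le_abs _).trans ((abs_mul t _).trans_le
        (mul_le_mul_of_nonneg_left e4 (abs_nonneg t)))
      have e7 := (neg_le_abs _).trans ((abs_mul l _).trans_le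
        (mul_le_mul_of_nonneg_left e5 (abs_nonneg l)))
      simp only [Y, hc']
      have e8 : (t * (∫ x, x ∂μ) / (∫ b, b ∂β) - l) * k
          = t * ((∫ x, x ∂μ) * k / (∫ b, b ∂β)) - l * k := by ring
      rw [e8]
      linarith
    calc _ = ∫⁻ ω in ⋃ k, E k, W (Y ω) ∂P := by rw [Measure.restrict_eq_self_of_ae_mem cover]
      _ ≤ ∑' k, ∫⁻ ω in E k, W (Y ω) ∂P := lintegral_iUnion_le _ _
      _ ≤ _ := by
          rw [hR, ← ENNReal.tsum_mul_left]
          exact ENNReal.tsum_le_tsum step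
  by_contra hlt
  have t1 := ENNReal.tendsto_pow_atTop_nhds_top_iff.2 (not_le.1 hlt)
  have hK : 2 * ENNReal.ofReal (exp c') * R < ∞ :=
    ENNReal.mul_lt_top (ENNReal.mul_lt_top (by simp) ENNReal.ofReal_lt_top) hfin.lt_top
  obtain ⟨n, h1, h2⟩ := ((t1.eventually (lt_mem_nhds hK)).and (eventually_ge_atTop 1)).exists
  exact absurd (key n h2) (not_le.2 h1)

end Setup

end GaussAux

open GaussAux in
/-- Steps (8), (9), (10): Gaussian variables coupled to the renewal-reward walk force the weights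
to vanish. -/
theorem dirac_of_coupling {Ω : Type*} [MeasurableSpace Ω] {P : Measure Ω} {κ ν : ℝ}
    (hκ : 0 < κ) (hν0 : ν ≠ 0) (hν : |ν| < 1 / 2) {β μ : Measure ℝ}
    [IsProbabilityMeasure β] [IsProbabilityMeasure μ] {B ξ X : ℕ → Ω → ℝ}
    (hB : ∀ i, Measurable (B i)) (hξ : ∀ i, Measurable (ξ i))
    (hind : iIndepFun (fun i ω => (B i ω, ξ i ω)) P)
    (hlaw : ∀ i, P.map (fun ω => (B i ω, ξ i ω)) = β.prod μ)
    (hpos : ∀ᵐ b ∂β, 0 ≤ b)
    (hβ : ∀ᶠ l in 𝓝 (0 : ℝ), ∫⁻ b, ENNReal.ofReal (exp (-(l * b))) ∂β =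
      ENNReal.ofReal (cos (π * ν) / cos (π * √(ν ^ 2 - 8 * l / κ))))
    (hμ : MemLp id 2 μ) (hX : ∀ k, HasGaussianLaw (X k) P)
    (G : ℕ → MeasurableSpace Ω)
    (hG : ∀ n, ∀ i < n, Measurable[G n] (B i) ∧ Measurable[G n] (ξ i)) (c0 : ℝ)
    (hc : ∀ A η : ℝ, 0 < η → ∃ C : ℝ, ∀ n k : ℕ, 1 ≤ n → c0 ≤ k → ∀ D : Set Ω,
      MeasurableSet[G n] D → (∀ ω ∈ D, k - A ≤ psum B n ω ∧ psum B n ω ≤ k - c0) →
        P (D ∩ {ω | C < |X k ω - psum ξ n ω + (∫ x, x ∂μ) * k / (∫ b, b ∂β)|}) ≤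
          ENNReal.ofReal η * P D) :
    μ = Measure.dirac 0 := by
  obtain ⟨h1, -, h2, -⟩ := ssw_moments hκ hν0 hν β hβ
  have hS : Setup P β μ B ξ (fun k => (hX k).aemeasurable.mk _) G c0 :=
    { mB := hB
      mξ := hξ
      mX := fun k => (hX k).aemeasurable.measurable_mk
      indep := hind
      law := hlaw
      nonneg := hpos
      expm := h1
      mean := h2
      mom := hμ
      gauss := fun k => (hX k).congr (hX k).aemeasurable.ae_eq_mk
      adapted := hG
      coupling := fun A η hη => by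
        obtain ⟨C, hC⟩ := hc A η hη
        refine ⟨C, fun n k hn hk D hD hD' => le_trans (measure_mono_ae ?_) (hC n k hn hk D hD hD')⟩
        filter_upwards [(hX k).aemeasurable.ae_eq_mk] with ω hω hm
        refine ⟨hm.1, ?_⟩
        have := hm.2
        simp only [mem_ofPred_eq] at this ⊢
        rwa [hω] }
  exact endgame hκ hν0 hν β μ hβ (Eventually.of_forall fun p hp => hS.mgf_bound hp)

end Pool.Agent.MP_ac6554_pr
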