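import Pool.Agent.MP_ac6554_pr.Canon

set_option autoImplicit false

open MeasureTheory ProbabilityTheory TopologicalSpace Metric Set Filter Topology
open scoped NNReal ENNReal

namespace Pool.Agent.MP_ac6554_pr

namespace ReduceAux

variable {Ω : Type} [MeasurableSpace Ω] {P : Measure Ω} {S : Set Ω}

theorem mp_val (hS : MeasurableSet S) (hP : ∀ᵐ ω ∂P, ω ∈ S) :
    MeasurePreserving (Subtype.val : S → Ω) (P.comap Subtype.val) P := by
  have := measurePreserving_subtype_coe (μa := P) hS
  rwa [Measure.restrict_eq_self_of_ae_mem hP] at this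

theorem meas_val (hS : MeasurableSet S) (hP : ∀ᵐ ω ∂P, ω ∈ S) (A : Set Ω) :
    P.comap (Subtype.val : S → Ω) (Subtype.val ⁻¹' A) = P A := by
  rw [comap_subtype_coe_apply hS, Subtype.image_preimage_coe, Measure.measure_inter_eq_of_ae hP]

theorem ident_val (hS : MeasurableSet S) (hP : ∀ᵐ ω ∂P, ω ∈ S) {β : Type*} [MeasurableSpace β]
    {X : Ω → β} (hX : AEMeasurable X P) :
    IdentDistrib (fun ω : S => X ω) X (P.comap Subtype.val) P := by
  have h := mp_val hS hP
  refine ⟨hX.comp_quasiMeasurePreserving h.quasiMeasurePreserving, hX, ?_⟩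
  have h1 : AEMeasurable X ((P.comap (Subtype.val : S → Ω)).map Subtype.val) := by
    rwa [h.map_eq]
  have h2 := h1.map_map_of_aemeasurable h.measurable.aemeasurable
  rw [h.map_eq] at h2
  exact h2.symm

theorem ident_val2 (hS : MeasurableSet S) (hP : ∀ᵐ ω ∂P, ω ∈ S) {β : Type*} [MeasurableSpace β]
    {X Y : Ω → β} (h : IdentDistrib X Y P P) :
    IdentDistrib (fun ω : S => X ω) (fun ω : S => Y ω) (P.comap Subtype.val)
      (P.comap Subtype.val) :=
  ((ident_val hS hP h.aemeasurable_fst).trans h).trans (ident_val hS hP h.aemeasurable_snd).symm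

theorem indep_val (hS : MeasurableSet S) (hP : ∀ᵐ ω ∂P, ω ∈ S) {β γ : Type*} [MeasurableSpace β]
    [MeasurableSpace γ] {X : Ω → β} {Y : Ω → γ} (h : IndepFun X Y P) :
    IndepFun (fun ω : S => X ω) (fun ω : S => Y ω) (P.comap Subtype.val) := by
  rw [indepFun_iff_measure_inter_preimage_eq_mul] at h ⊢
  intro s t hs ht
  have := h s t hs ht
  rw [← meas_val hS hP, ← meas_val hS hP (X ⁻¹' s), ← meas_val hS hP (Y ⁻¹' t)] at this
  exact this

end ReduceAux

open ReduceAux CanonAux in
theorem reduce {κ : ℝ} {Ω : Type} [MeasurableSpace Ω] {P : Measure Ω} [IsProbabilityMeasure P]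
    {V : ℕ → Ω → Opens ℂ} (hV : IsCLE κ P V) (μ : Measure ℝ) [IsProbabilityMeasure μ] :
    ∃ (Ω₀ : Type) (_ : MeasurableSpace Ω₀) (P₀ : Measure Ω₀) (_ : IsProbabilityMeasure P₀)
      (V₀ : ℕ → Ω₀ → Opens ℂ) (i : ℕ → Ω₀ → ℕ) (f : ℕ → Ω₀ → ℂ → ℂ) (e : ℕ → ℕ → Ω₀ → ℕ)
      (T : Ω₀ × (ℕ → ℝ) → Ω × (ℕ → ℝ)), Sk κ P₀ V₀ i f e ∧
      MeasurePreserving T (PP P₀ μ) (PP P μ) ∧
      ∀ (F : ℂ → ℂ) (p : Ω₀ × (ℕ → ℝ)) (z : ℂ) (ε : ℝ),
        nestSum F (fun k => V₀ k p.1) p.2 z ε = nestSum F (fun k => V k (T p).1) (T p).2 z ε := by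
  obtain ⟨σ, can, hσ, hσ', hcan, hgood⟩ := exists_can
  obtain ⟨i, f, hi, hf, hae, he, hsle⟩ := hV.chain
  choose e hem heae hind hid using he
  obtain ⟨S, hP, hS, hA⟩ := (hV.basic.and (hV.locFin.and (hV.nested.and
    (hae.and (ae_all_iff.2 heae))))).exists_measurable_mem
  have hmp := mp_val hS hP
  have hprob : IsProbabilityMeasure (P.comap (Subtype.val : S → Ω)) :=
    ⟨by simpa using meas_val hS hP univ⟩
  have hval : Measurable (Subtype.val : S → Ω) := measurable_subtype_coe
  have hVm : ∀ k, Measurable fun ω : S => V k ω := fun k => (hV.meas k).comp hval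
  have hVp : Measurable fun (ω : S) k => V k ω := measurable_pi_lambda _ hVm
  have hG : ∀ ω : S, Good fun k => V k ω := fun ω => ⟨(hA ω ω.2).1, (hA ω ω.2).2.1⟩
  have hconf : ∀ (ω : S) n, Conf (f n ω) (comp0 (V (i n ω) ω)) := fun ω n =>
    ((hA ω ω.2).2.2.2.1.2.2 n).2.2
  set s : S → Equiv.Perm ℕ := fun ω => σ fun k => V k ω with hs
  set w : ℕ → S → Ens := fun n ω k => pull (f n ω) (V (e n k ω) ω) with hw
  have hsm : ∀ k, Measurable fun ω => s ω k := fun k => (hσ k).comp hVp
  have hsm' : ∀ k, Measurable fun ω => (s ω).symm k := fun k => (hσ' k).comp hVp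
  have hwm : ∀ n, Measurable (w n) := fun n => measurable_pi_lambda _ fun k =>
    measurable_pull (g := fun ω : S => f n ω) (fun ω => (hconf ω n).1.continuousOn)
      (fun z _ => (hf n z).comp hval)
      (meas_idx (X := fun k (ω : S) => V k ω) hVm ((hem n k).comp hval))
  have hwG : ∀ n ω, Good (w n ω) := fun n ω => by
    refine (hG ω).pull (hconf ω n).univ ((hA ω ω.2).2.2.2.2 n).1 fun k => ?_
    rw [(hconf ω n).2.image_eq]
    have : e n k ω ∈ range fun k => e n k ω := mem_range_self k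
    rw [((hA ω ω.2).2.2.2.2 n).2] at this
    exact this.1
  have hinner : ∀ n, (fun (ω : S) k => pull (f n ω)
      (V (s ω ((s ω).symm (e n (σ (w n ω) k) ω))) ω)) =
      can ∘ fun ω : S => Quotient.mk relabel fun k => pull (f n ω) (V (e n k ω) ω) := by
    intro n
    funext ω
    simp only [Equiv.apply_symm_apply, Function.comp]
    exact (hgood _ (hwG n ω)).symm
  have houter : (fun (ω : S) k => V (s ω k) ω) =
      can ∘ fun ω : S => Quotient.mk relabel fun k => V k ω := by
    funext ω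
    exact (hgood _ (hG ω)).symm
  refine ⟨S, inferInstance, P.comap Subtype.val, hprob, fun k ω => V (s ω k) ω,
    fun n ω => (s ω).symm (i n ω), fun n ω => f n ω,
    fun n k ω => (s ω).symm (e n (σ (w n ω) k) ω),
    fun p => (p.1.val, fun k => p.2 ((s p.1).symm k)), ?_, ?_, ?_⟩
  · refine
      { meas := fun k => meas_idx (X := fun k (ω : S) => V k ω) hVm (hsm k)
        imeas := fun n => meas_idx hsm' ((hi n).comp hval)
        fmeas := fun n z => (hf n z).comp hval
        emeas := fun n k => meas_idx hsm' (meas_idx (X := fun k (ω : S) => e n k ω)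
          (fun k => (hem n k).comp hval) ((hσ k).comp (hwm n)))
        good := fun ω => ⟨fun k => (hG ω).1 _, fun z r hr =>
          ((hG ω).2 z r hr).preimage (s ω).injective.injOn⟩
        nested := fun ω j k hjk => (hA ω ω.2).2.2.1 _ _ ((s ω).injective.ne hjk)
        moebius := fun w hw => ?_
        iinj := fun ω => (s ω).symm.injective.comp (hA ω ω.2).2.2.2.1.1
        irange := fun ω => ?_
        isub := fun ω n => ?_
        f0 := fun ω n => ((hA ω ω.2).2.2.2.1.2.2 n).2.1
        fconf := fun ω n => ?_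
        einj := fun ω n => (s ω).symm.injective.comp
          (((hA ω ω.2).2.2.2.2 n).1.comp (σ (w n ω)).injective)
        erange := fun ω n => ?_
        indep := fun n => ?_
        law := fun n => ?_
        sle := ?_ }
    · obtain ⟨φ, h1, h2, h3⟩ := hV.moebius w hw
      refine ⟨φ, h1, h2, ?_⟩
      have h4 := ident_val2 hS hP h3
      convert h4 using 2 with ω ω
      · exact (Quotient.sound (s := relabel) (a := fun k => pull φ (V k ω)) ⟨s ω, rfl⟩).symm
      · exact (Quotient.sound (s := relabel) (a := fun k => V k ω) ⟨s ω, rfl⟩).symm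
    · ext k
      have := Set.ext_iff.1 (hA ω ω.2).2.2.2.1.2.1 (s ω k)
      simp only [mem_range, mem_ofPred_eq] at this ⊢
      simp only [Equiv.symm_apply_eq]
      exact this
    · simp only [Equiv.apply_symm_apply]
      exact ((hA ω ω.2).2.2.2.1.2.2 n).1
    · simp only [Equiv.apply_symm_apply]
      exact hconf ω n
    · ext k
      have := Set.ext_iff.1 ((hA ω ω.2).2.2.2.2 n).2 (s ω k)
      simp only [mem_range, mem_ofPred_eq] at this ⊢
      simp only [Equiv.symm_apply_eq, Equiv.apply_symm_apply, ne_eq, Equiv.eq_symm_apply]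
      rw [← this]
      exact ⟨fun ⟨y, hy⟩ => ⟨_, hy⟩, fun ⟨y, hy⟩ => ⟨(σ (w n ω)).symm y, by simpa using hy⟩⟩
    · rw [hinner n]
      exact (indep_val hS hP (hind n)).comp measurable_id hcan
    · rw [hinner n, houter]
      exact (ident_val2 hS hP (hid n)).comp hcan
    · obtain ⟨Ω', m, Q, 𝓕, θ, W, h1, h2⟩ := hsle
      refine ⟨Ω', m, Q, 𝓕, θ, W, h1, ?_⟩
      simp only [Equiv.apply_symm_apply]
      exact (ident_val hS hP h2.aemeasurable_fst).trans h2
  · exact (hmp.prod (MeasurePreserving.id _)).comp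
      (relabel_mp _ μ (fun k ω => (s ω).symm k) hsm' fun ω => (s ω).symm.injective)
  · intro F p z ε
    simp only [nestSum]
    refine Eq.trans (tsum_congr fun k => ?_) ((s p.1).tsum_eq _)
    simp [indicator]

end Pool.Agent.MP_ac6554_pr
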