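import Pool.Agent.MP_ac6554_pr.Couple2
import Pool.Agent.MP_ac6554_pr.GaussStep
import Pool.Agent.MP_ac6554_pr.Reduce

set_option autoImplicit false

open MeasureTheory ProbabilityTheory TopologicalSpace Metric Set Filter Topology
open scoped NNReal ENNReal

namespace Pool.Agent.MP_ac6554_pr

attribute [local irreducible] nestSum err

variable {κ : ℝ} {Ω : Type} [MeasurableSpace Ω] {P : Measure Ω} {V : ℕ → Ω → Opens ℂ}
  {i : ℕ → Ω → ℕ} {f : ℕ → Ω → ℂ → ℂ} {e : ℕ → ℕ → Ω → ℕ}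

namespace CoupleAux

theorem exists_psi_bound {r : ℝ} (hr : 0 < r) {φ₀ : ℂ → ℝ} (hφ : Continuous φ₀)
    (hs : ∀ z, r ≤ ‖z‖ → φ₀ z = 0) (a₂ : ℝ) : ∃ M₀ : ℝ, 0 ≤ M₀ ∧ ∀ j, Univ j →
      ‖deriv j 0‖ ≤ a₂ → ball 0 (2 * r) ⊆ j '' ball 0 (1 / 4) →
      ∀ ζ ∈ ball (0 : ℂ) 1, psi φ₀ j ζ ≤ M₀ := by
  obtain ⟨C, hC1, hC⟩ := distort
  have hc : HasCompactSupport φ₀ := by
    refine HasCompactSupport.of_support_subset_isCompact (isCompact_closedBall (0 : ℂ) r) ?_
    intro z hz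
    by_contra hh
    rw [mem_closedBall_zero_iff, not_le] at hh
    exact hz (hs z hh.le)
  obtain ⟨B, hB⟩ := hφ.bounded_above_of_compact_support hc
  have B0 : 0 ≤ B := (norm_nonneg _).trans (hB 0)
  refine ⟨B * (C * a₂) ^ 2, by positivity, fun j hj ha hK ζ hζ => ?_⟩
  rcases eq_or_ne (psi φ₀ j ζ) 0 with h0 | h0
  · rw [h0]; positivity
  · obtain ⟨q1, -⟩ := mem_quarter hr hs hj hK hζ h0
    have h1 := hC j 0 1 one_pos hj.1 hj.2 ζ (by
      rw [mem_ball_zero_iff] at q1; rw [sub_zero]; linarith)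
    have h2 : ‖deriv j ζ‖ ≤ C * a₂ := h1.trans (mul_le_mul_of_nonneg_left ha (by linarith))
    exact mul_le_mul ((le_abs_self _).trans (hB _)) (pow_le_pow_left₀ (norm_nonneg _) h2 2)
      (by positivity) B0

theorem measurable_jh (h : Sk κ P V i f e) {F : ℂ → ℂ} (hF : Univ F) (n : ℕ) (s : ℝ) {z : ℂ}
    (hz : z ∈ ball (0 : ℂ) 1) :
    Measurable[mY f n] fun ω => resc s (F 0) (fun w => F (f n ω w)) z := by
  have m1 : Measurable[mY f n] fun ω => f n ω z :=
    (measurable_pi_apply z).comp ((measurable_pi_apply (⟨n, le_refl n⟩ : Iic n)).comp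
      (comap_measurable fun ω (m : Iic n) => f m ω))
  have e1 : (fun ω => resc s (F 0) (fun w => F (f n ω w)) z) =
      fun ω => (s : ℂ) * (ind F (f n ω z) - F 0) := by
    funext ω
    have : f n ω z ∈ ball (0 : ℂ) 1 :=
      ((h.good ω).1 _).2 (comp0_le _ ((h.fconf ω n).2.mapsTo hz))
    rw [ind_eq this]; rfl
  rw [e1]
  exact (((measurable_ind hF).comp m1).sub_const _).const_mul _

end CoupleAux

open CoupleAux

theorem Sk.couple [IsProbabilityMeasure P] (h : Sk κ P V i f e) (h1 : 8 / 3 < κ) (h2 : κ < 8)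
    (h4 : κ ≠ 4) {D : Opens ℂ} {F : ℂ → ℂ} (hF : Conf F D) (μ : Measure ℝ)
    [IsProbabilityMeasure μ] (hμ : MemLp id 2 μ) (H : Ω × (ℕ → ℝ) → Distribution D ℝ ⊤)
    (hlim : ∀ φ : TestFunction D ℝ ⊤, ∀ᵐ p ∂(PP P μ),
      Tendsto (fun ε => ∫ z, centred P V μ F p z ε * φ z) (𝓝[>] 0) (𝓝 (H p φ)))
    (hm : ∀ φ : TestFunction D ℝ ⊤, AEMeasurable (fun p => H p φ) (PP P μ)) :
    ∃ φ : ℕ → TestFunction D ℝ ⊤, ∀ A η : ℝ, 0 < η → ∃ C : ℝ, ∀ (n k : ℕ)
      (E : Set (Ω × (Iic n → ℝ))), MeasurableSet[(mY f n).prod MeasurableSpace.pi] E →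
      (∀ p : Ω × (ℕ → ℝ), (p.1, fun m : Iic n => p.2 (i m p.1)) ∈ E →
        k - A ≤ Tt f n p.1 ∧ Tt f n p.1 ≤ k) →
      PP P μ ({p | (p.1, fun m : Iic n => p.2 (i m p.1)) ∈ E} ∩
        {p | C < |H p (φ k) - ∑ l ∈ Finset.range (n + 1), p.2 (i l p.1) +
          (∫ x, x ∂μ) * k / ∫ b, b ∂(P.map (Bb f 0))|}) ≤
        ENNReal.ofReal η * PP P μ {p | (p.1, fun m : Iic n => p.2 (i m p.1)) ∈ E} := by
  have Fu := hF.univ
  have a0 : 0 < ‖deriv F 0‖ :=
    norm_pos_iff.mpr (univ_deriv_ne_zero isOpen_ball Fu.1 Fu.2 (mem_ball_self one_pos))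
  obtain ⟨r, φ₀, hr, hφ, φ0, hs, φ1, hK⟩ := exists_bump a0
  have hKF : ball (F 0) (2 * r) ⊆ F '' ball 0 (1 / 4) := by
    have := hK (resc 1 (F 0) F) (univ_resc one_pos _ Fu) (by simp [resc])
      (by rw [deriv_resc]; simp)
    have k := (surr_resc one_pos (F 0) F (ball 0 (1 / 4)) (F 0) (2 * r)).mpr (by simpa using this)
    simpa using k
  choose φ hφk using fun k : ℕ =>
    exists_test hF hr (Real.one_le_exp (Nat.cast_nonneg k)) hφ hs hKF
  refine ⟨φ, fun A η hη => ?_⟩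
  set m := (∫ x, x ∂μ) / ∫ b, b ∂(P.map (Bb f 0)) with hmdef
  obtain ⟨C₀, hmean⟩ := h.mean_bound h1 h2 h4 Fu μ hμ
  set a₂ := ‖deriv F 0‖ * Real.exp A with ha₂
  obtain ⟨c, C, δ₀, hc, hc1, hC, hδ₀, hCδ, hsw⟩ := sandwich Fu a0 a₂
  obtain ⟨C₂, hC₂⟩ := psi_tight hF μ H hlim hm hr hφ hs hK a₂ (half_pos hη)
  obtain ⟨C₃, C30, hC₃⟩ := err_tight h h1 h2 h4 Fu μ hμ hc (hc1.trans hC) (half_pos hη)
  obtain ⟨M₀, hM, hψ⟩ := exists_psi_bound hr hφ.continuous hs a₂
  refine ⟨2 * C₀ + M₀ * C₃ + C₂, fun n k E hE hT => ?_⟩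
  set jh : Ω → ℂ → ℂ := fun ω => resc (Real.exp k) (F 0) fun w => F (f n ω w) with hjh
  have ju : ∀ ω, Univ (jh ω) := fun ω => univ_resc (Real.exp_pos _) _ (h.univ_comp Fu n ω).1
  have j0 : ∀ ω, jh ω 0 = 0 := fun ω => by simp [hjh, resc, h.f0 ω n]
  have jd : ∀ ω, (k - A ≤ Tt f n ω ∧ Tt f n ω ≤ k) →
      ‖deriv F 0‖ ≤ ‖deriv (jh ω) 0‖ ∧ ‖deriv (jh ω) 0‖ ≤ a₂ := by
    intro ω hω
    have : ‖deriv (jh ω) 0‖ = ‖deriv F 0‖ * Real.exp (k - Tt f n ω) := by
      rw [hjh]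
      simp only
      rw [deriv_resc, norm_mul, (h.univ_comp Fu n ω).2, Complex.norm_real,
        Real.norm_of_nonneg (Real.exp_pos _).le, sub_eq_add_neg, Real.exp_add]
      ring
    rw [this]
    exact ⟨le_mul_of_one_le_right a0.le (Real.one_le_exp (by linarith [hω.2])),
      mul_le_mul_of_nonneg_left (Real.exp_le_exp.mpr (by linarith [hω.1])) a0.le⟩
  set Bad : Set ((Ω × (Iic n → ℝ)) × (Ens × (ℕ → ℝ))) := {x | x.1 ∈ E ∧
    ((∀ L, ∃ l, L ≤ l ∧ C₂ < |Psi F (EE P V μ F (rad l)) φ₀ (rad l) (jh x.1.1) x.2|) ∨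
      ∃ L, ∀ l, L ≤ l → ENNReal.ofReal C₃ < Err F (c * rad l) (C * rad l) x.2)} with hBad
  have mBad : MeasurableSet[((mY f n).prod MeasurableSpace.pi).prod inferInstance] Bad := by
    have key : ∀ l : ℕ, Measurable[((mY f n).prod MeasurableSpace.pi).prod inferInstance]
        fun x : (Ω × (Iic n → ℝ)) × (Ens × (ℕ → ℝ)) =>
          Psi F (EE P V μ F (rad l)) φ₀ (rad l) (jh x.1.1) x.2 := fun l =>
      @measurable_Psi (Ω × (Iic n → ℝ)) ((mY f n).prod MeasurableSpace.pi) F Fu _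
        (measurable_EE h μ Fu _) φ₀ hφ.continuous (rad l) (fun y => jh y.1)
        (fun y => (ju y.1).1) fun z hz =>
          (measurable_jh h Fu n _ hz).comp (@measurable_fst Ω (Iic n → ℝ) (mY f n) _)
    let _ : MeasurableSpace (Ω × (Iic n → ℝ)) := (mY f n).prod MeasurableSpace.pi
    have s1 : MeasurableSet {x : (Ω × (Iic n → ℝ)) × (Ens × (ℕ → ℝ)) | x.1 ∈ E} :=
      measurable_fst hE
    have s2 : MeasurableSet {x : (Ω × (Iic n → ℝ)) × (Ens × (ℕ → ℝ)) | ∀ L, ∃ l, L ≤ l ∧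
        C₂ < |Psi F (EE P V μ F (rad l)) φ₀ (rad l) (jh x.1.1) x.2|} := by
      simp only [ofPred_forall, ofPred_exists, ofPred_and]
      exact MeasurableSet.iInter fun L => MeasurableSet.iUnion fun l =>
        (MeasurableSet.const _).inter (measurableSet_lt measurable_const (key l).abs)
    have s3 : MeasurableSet {x : (Ω × (Iic n → ℝ)) × (Ens × (ℕ → ℝ)) | ∃ L, ∀ l, L ≤ l →
        ENNReal.ofReal C₃ < Err F (c * rad l) (C * rad l) x.2} := by
      simp only [ofPred_forall, ofPred_exists]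
      exact MeasurableSet.iUnion fun L => MeasurableSet.iInter fun l => MeasurableSet.iInter
        fun _ => measurableSet_lt measurable_const ((measurable_Err Fu _ _).comp measurable_snd)
    exact s1.inter (s2.union s3)
  have mI : Measurable[((mY f n).prod MeasurableSpace.pi).prod inferInstance]
      (Bad.indicator (1 : (Ω × (Iic n → ℝ)) × (Ens × (ℕ → ℝ)) → ℝ≥0∞)) := by
    let _ : MeasurableSpace (Ω × (Iic n → ℝ)) := (mY f n).prod MeasurableSpace.pi
    exact measurable_one.indicator mBad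
  have fr := h.freeze μ n (Bad.indicator 1) mI
  have mξ : ∀ a : Ω → ℕ, Measurable a → Measurable fun p : Ω × (ℕ → ℝ) => p.2 (a p.1) :=
    fun a ha => (measurable_from_prod_countable_left (f := fun q : (ℕ → ℝ) × ℕ => q.1 q.2)
      fun l => measurable_pi_apply l).comp (measurable_snd.prodMk (ha.comp measurable_fst))
  have mY1 : Measurable[_, (mY f n).prod MeasurableSpace.pi]
      fun p : Ω × (ℕ → ℝ) => (p.1, fun m : Iic n => p.2 (i m p.1)) :=
    (measurable_fst.prodMk (measurable_pi_lambda _ fun m : Iic n => mξ _ (h.imeas m))).mono le_rfl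
      (sup_le_sup (MeasurableSpace.comap_mono (h.mY_le n)) le_rfl)
  have mE : MeasurableSet {p : Ω × (ℕ → ℝ) | (p.1, fun m : Iic n => p.2 (i m p.1)) ∈ E} := mY1 hE
  have mB : MeasurableSet {p : Ω × (ℕ → ℝ) | ((p.1, fun m : Iic n => p.2 (i m p.1)),
      ((fun l => pull (f n p.1) (V (e n l p.1) p.1) : Ens), fun l => p.2 (e n l p.1))) ∈ Bad} := by
    let _ : MeasurableSpace (Ω × (Iic n → ℝ)) := (mY f n).prod MeasurableSpace.pi
    exact (mY1.prodMk (((h.measurable_inner n).comp measurable_fst).prodMk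
      (measurable_pi_lambda _ fun l => mξ _ (h.emeas n l)))) mBad
  calc PP P μ ({p | (p.1, fun m : Iic n => p.2 (i m p.1)) ∈ E} ∩
        {p | 2 * C₀ + M₀ * C₃ + C₂ < |H p (φ k) - ∑ l ∈ Finset.range (n + 1), p.2 (i l p.1) +
          (∫ x, x ∂μ) * k / ∫ b, b ∂(P.map (Bb f 0))|})
      ≤ PP P μ {p | ((p.1, fun m : Iic n => p.2 (i m p.1)),
          ((fun l => pull (f n p.1) (V (e n l p.1) p.1) : Ens), fun l => p.2 (e n l p.1))) ∈
            Bad} := by
        refine measure_mono_ae ?_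
        filter_upwards [hlim (φ k)] with p hp hb
        obtain ⟨hpE, hb⟩ := hb
        refine ⟨hpE, ?_⟩
        by_contra hh
        push Not at hh
        obtain ⟨⟨L, hL⟩, hE3⟩ := hh
        obtain ⟨d1, d2⟩ := jd p.1 (hT p hpE)
        have hKj := hK _ (ju p.1) (j0 p.1) d1
        have t1 := hp.comp (tendsto_rad (inv_pos.mpr (Real.exp_pos k)))
        have t2 := (t1.sub_const (∑ l ∈ Finset.range (n + 1), p.2 (i l p.1) - m * k)).abs
        have hb' : 2 * C₀ + M₀ * C₃ + C₂ <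
            |H p (φ k) - (∑ l ∈ Finset.range (n + 1), p.2 (i l p.1) - m * k)| := by
          have hb2 : 2 * C₀ + M₀ * C₃ + C₂ < |H p (φ k) -
            ∑ l ∈ Finset.range (n + 1), p.2 (i l p.1) +
              (∫ x, x ∂μ) * k / ∫ b, b ∂(P.map (Bb f 0))| := hb
          convert hb2 using 2
          rw [hmdef]; ring
        obtain ⟨L₁, hL₁⟩ := eventually_atTop.mp (((t2.eventually (lt_mem_nhds hb')).and
          (ev_rad_le hδ₀)).and (ev_rad_le hr))
        obtain ⟨l, hl, hl3⟩ := hE3 (max L L₁)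
        obtain ⟨⟨b1, b2⟩, b3⟩ := hL₁ l ((le_max_right _ _).trans hl)
        have b4 := hL l ((le_max_left _ _).trans hl)
        have b5 : rad l ≤ 1 := by nlinarith [rad_pos l]
        have db := det_bound h Fu μ (m := m) hmean hr hφ.continuous φ0 hs φ1 hKF n k p hKj hM
          (hψ _ (ju p.1) d2 hKj) hc hc1 hC (rad_pos l) b5 b3
          (fun ζ hζ => hsw _ (ju p.1) d1 d2 ζ hζ _ (rad_pos l) b2) C30 hl3
        simp only [Function.comp, hφk] at b1
        have tri := abs_sub_abs_le_abs_sub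
          ((∫ z, centred P V μ F p z ((Real.exp k)⁻¹ * rad l) *
            (Real.exp k ^ 2 * φ₀ ((Real.exp k : ℝ) * (z - F 0)))) -
            (∑ l ∈ Finset.range (n + 1), p.2 (i l p.1) - m * k))
          (Psi F (EE P V μ F (rad l)) φ₀ (rad l) (jh p.1)
            (fun l => pull (f n p.1) (V (e n l p.1) p.1), fun l => p.2 (e n l p.1)))
        linarith
    _ ≤ ∫⁻ p, Bad.indicator 1 ((p.1, fun m : Iic n => p.2 (i m p.1)),
          ((fun l => pull (f n p.1) (V (e n l p.1) p.1) : Ens), fun l => p.2 (e n l p.1)))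
          ∂(PP P μ) := (lintegral_indicator_one mB).symm.le
    _ = _ := fr
    _ ≤ ∫⁻ p, {p : Ω × (ℕ → ℝ) | (p.1, fun m : Iic n => p.2 (i m p.1)) ∈ E}.indicator
          (fun _ => ENNReal.ofReal η) p ∂(PP P μ) := by
        refine lintegral_mono fun p => ?_
        by_cases hpE : (p.1, fun m : Iic n => p.2 (i m p.1)) ∈ E
        · rw [indicator_of_mem (show p ∈ {p : Ω × (ℕ → ℝ) |
            (p.1, fun m : Iic n => p.2 (i m p.1)) ∈ E} from hpE)]
          obtain ⟨d1, d2⟩ := jd p.1 (hT p hpE)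
          refine le_trans (lintegral_indicator_one_le (μ := PP P μ)
            {q : Ω × (ℕ → ℝ) | ((p.1, fun m : Iic n => p.2 (i m p.1)),
              ((fun k => V k q.1 : Ens), q.2)) ∈ Bad}) ?_
          refine le_trans (measure_mono fun q hq => hq.2) ?_
          refine (measure_union_le _ _).trans ?_
          rw [← add_halves η, ENNReal.ofReal_add (half_pos hη).le (half_pos hη).le]
          exact add_le_add (hC₂ _ (ju p.1) (j0 p.1) d1 d2) hC₃
        · rw [indicator_of_notMem (show p ∉ {p : Ω × (ℕ → ℝ) |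
            (p.1, fun m : Iic n => p.2 (i m p.1)) ∈ E} from hpE)]
          refine le_of_eq (lintegral_eq_zero_of_ae_eq_zero (ae_of_all _ fun q => ?_))
          exact indicator_of_notMem (fun hq => hpE hq.1) _
    _ = _ := lintegral_indicator_const mE _

end Pool.Agent.MP_ac6554_pr
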