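import Pool.Agent.MP_ac6554_pr.Koebe

set_option autoImplicit false

open MeasureTheory ProbabilityTheory TopologicalSpace Metric Set Filter Topology
open scoped NNReal ENNReal

namespace Pool.Agent.MP_ac6554_pr

theorem exists_bump {a : ℝ} (ha : 0 < a) : ∃ (r : ℝ) (φ₀ : ℂ → ℝ), 0 < r ∧
    ContDiff ℝ (⊤ : ℕ∞) φ₀ ∧ (∀ z, 0 ≤ φ₀ z) ∧ (∀ z, r ≤ ‖z‖ → φ₀ z = 0) ∧ ∫ z, φ₀ z = 1 ∧
    ∀ j, Univ j → j 0 = 0 → a ≤ ‖deriv j 0‖ → ball 0 (2 * r) ⊆ j '' ball 0 (1 / 4) := by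
  obtain ⟨c, hc, -, hk⟩ := koebe
  have hr : 0 < c * a / 8 := by positivity
  let b : ContDiffBump (0 : ℂ) := ⟨c * a / 16, c * a / 8, by positivity, by linarith⟩
  refine ⟨c * a / 8, b.normed volume, hr, b.contDiff_normed, b.nonneg_normed, ?_,
    b.integral_normed, ?_⟩
  · intro z hz
    by_contra h
    have h1 : z ∈ Function.support (b.normed volume) := h
    rw [b.support_normed_eq, mem_ball_zero_iff] at h1
    exact absurd hz (not_le.2 h1)
  · intro j hj h0 hd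
    have hsub : ball (0 : ℂ) (1 / 4) ⊆ ball 0 1 := ball_subset_ball (by norm_num)
    have h1 := hk j 0 (1 / 4) (by norm_num) (hj.1.mono hsub) (hj.2.mono hsub)
    rw [h0] at h1
    refine subset_trans (ball_subset_ball ?_) h1
    nlinarith [mul_le_mul_of_nonneg_left hd hc.le]

namespace TestAux

/-- Cauchy estimates for the real iterated derivatives of a holomorphic map. -/
theorem cauchy_real {γ : ℂ → ℂ × ℂ} {U : Set ℂ} (hU : IsOpen U) (hγ : DifferentiableOn ℂ γ U)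
    {x : ℂ} {ρ C : ℝ} (hρ : 0 < ρ) (hx : closedBall x ρ ⊆ U)
    (hC : ∀ z ∈ closedBall x ρ, ‖γ z‖ ≤ C) (m : ℕ) :
    ‖iteratedFDerivWithin ℝ m γ U x‖ ≤ m.factorial * C / ρ ^ m := by
  have hxU : x ∈ U := hx (mem_closedBall_self hρ.le)
  have h1 : ContDiffAt ℂ m γ x := (hγ.contDiffOn hU).contDiffAt (hU.mem_nhds hxU)
  rw [iteratedFDerivWithin_of_isOpen m hU hxU, ← h1.restrictScalars_iteratedFDeriv (𝕜 := ℝ),
    Function.comp_apply, ContinuousMultilinearMap.norm_restrictScalars,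
    norm_iteratedFDeriv_eq_norm_iteratedDeriv]
  refine Complex.norm_iteratedDeriv_le_of_forall_mem_sphere_norm_le m hρ ?_
    fun z hz => hC z (sphere_subset_closedBall hz)
  exact (hγ.mono hx).diffContOnCl_ball subset_rfl

/-- Uniform bounds for a fixed smooth function composed with a bounded family of holomorphic
maps. -/
theorem comp_bound {H : ℂ × ℂ → ℝ} (hH : ContDiff ℝ (⊤ : ℕ∞) H) {ρ : ℝ} (hρ : 0 < ρ) (C : ℝ) :
    ∃ M : ℕ → ℝ, (∀ m, 0 ≤ M m) ∧ ∀ (γ : ℂ → ℂ × ℂ) (U : Set ℂ) (x : ℂ), IsOpen U →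
      DifferentiableOn ℂ γ U → closedBall x ρ ⊆ U → (∀ z ∈ closedBall x ρ, ‖γ z‖ ≤ C) →
      ∀ m, ‖iteratedFDerivWithin ℝ m (H ∘ γ) U x‖ ≤ M m := by
  have h1 : ∀ i : ℕ, ∃ B : ℝ, ∀ y ∈ closedBall (0 : ℂ × ℂ) C, ‖iteratedFDeriv ℝ i H y‖ ≤ B := by
    intro i
    exact (isCompact_closedBall _ _).exists_bound_of_continuousOn
      (hH.continuous_iteratedFDeriv (by exact_mod_cast le_top)).continuousOn
  choose B hB using h1
  let B' : ℕ → ℝ := fun m => ∑ i ∈ Finset.range (m + 1), |B i|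
  let A' : ℕ → ℝ := fun m => 1 + ∑ i ∈ Finset.range (m + 1), |(i.factorial : ℝ) * C / ρ ^ i|
  have hB' : ∀ m, 0 ≤ B' m := fun m => Finset.sum_nonneg fun i _ => abs_nonneg _
  have hA' : ∀ m, 1 ≤ A' m := fun m =>
    le_add_of_nonneg_right (Finset.sum_nonneg fun i _ => abs_nonneg _)
  refine ⟨fun m => m.factorial * B' m * A' m ^ m, fun m => ?_, ?_⟩
  · have := hB' m
    have := (hA' m).trans' zero_le_one
    positivity
  intro γ U x hU hγ hx hC m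
  have hxU : x ∈ U := hx (mem_closedBall_self hρ.le)
  have hγ' : ContDiffOn ℝ (⊤ : ℕ∞) γ U := (hγ.contDiffOn hU).restrict_scalars ℝ
  refine norm_iteratedFDerivWithin_comp_le (t := univ) hH.contDiffOn hγ' (by exact_mod_cast le_top)
    uniqueDiffOn_univ hU.uniqueDiffOn (mapsTo_univ _ _) hxU ?_ ?_
  · intro i hi
    rw [iteratedFDerivWithin_univ]
    refine (hB i _ (mem_closedBall_zero_iff.2 (hC x (mem_closedBall_self hρ.le)))).trans
      ((le_abs_self _).trans ?_)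
    exact Finset.single_le_sum (f := fun i => |B i|) (fun i _ => abs_nonneg _)
      (Finset.mem_range.2 (Nat.lt_succ_of_le hi))
  · intro i hi1 hi
    refine (cauchy_real hU hγ hρ hx hC i).trans ((le_abs_self _).trans ?_)
    refine le_trans ?_ (le_self_pow₀ (hA' m) (by omega))
    refine le_trans ?_ (le_add_of_nonneg_left zero_le_one)
    exact Finset.single_le_sum (f := fun i => |(i.factorial : ℝ) * C / ρ ^ i|)
      (fun i _ => abs_nonneg _) (Finset.mem_range.2 (Nat.lt_succ_of_le hi))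

/-- Bounds for a univalent map and its derivative on the disc of radius one half. -/
theorem univ_bound (a₂ : ℝ) : ∃ C : ℝ, ∀ j, Univ j → j 0 = 0 → ‖deriv j 0‖ ≤ a₂ →
    ∀ ζ ∈ ball (0 : ℂ) (1 / 2), ‖j ζ‖ ≤ C ∧ ‖deriv j ζ‖ ≤ C := by
  obtain ⟨C, hC, hd⟩ := distort
  refine ⟨C * a₂, fun j hj h0 ha => ?_⟩
  have h1 : ∀ ζ ∈ ball (0 : ℂ) (1 / 2), ‖deriv j ζ‖ ≤ C * a₂ := by
    intro ζ hζ
    rw [mem_ball_zero_iff] at hζ
    refine (hd j 0 1 one_pos hj.1 hj.2 ζ (by rw [sub_zero]; linarith)).trans ?_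
    exact mul_le_mul_of_nonneg_left ha (by linarith)
  have hsub : ball (0 : ℂ) (1 / 2) ⊆ ball 0 1 := ball_subset_ball (by norm_num)
  intro ζ hζ
  refine ⟨?_, h1 ζ hζ⟩
  have h2 := (convex_ball (0 : ℂ) (1 / 2)).norm_image_sub_le_of_norm_deriv_le
    (fun z hz => hj.1.differentiableAt (isOpen_ball.mem_nhds (hsub hz))) h1
    (mem_ball_self (by norm_num)) hζ
  rw [h0, sub_zero, sub_zero] at h2
  have h3 : 0 ≤ C * a₂ := (norm_nonneg _).trans (h1 ζ hζ)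
  rw [mem_ball_zero_iff] at hζ
  nlinarith

end TestAux

open TestAux in
theorem test_family {F : ℂ → ℂ} {D : Opens ℂ} (hF : Conf F D) {a r : ℝ} (hr : 0 < r) {φ₀ : ℂ → ℝ}
    (hφ : ContDiff ℝ (⊤ : ℕ∞) φ₀) (hs : ∀ z, r ≤ ‖z‖ → φ₀ z = 0)
    (hK : ∀ j, Univ j → j 0 = 0 → a ≤ ‖deriv j 0‖ → ball 0 (2 * r) ⊆ j '' ball 0 (1 / 4))
    (a₂ : ℝ) : ∃ (K : Compacts ℂ) (M : ℕ → ℝ), (K : Set ℂ) ⊆ D ∧
      ∀ j, Univ j → j 0 = 0 → a ≤ ‖deriv j 0‖ → ‖deriv j 0‖ ≤ a₂ →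
        ∃ φ : TestFunction D ℝ ⊤, Function.support φ ⊆ K ∧
          (∀ m z, ‖iteratedFDeriv ℝ m φ z‖ ≤ M m) ∧
          ∀ ζ ∈ ball (0 : ℂ) 1, φ (F ζ) * ‖deriv F ζ‖ ^ 2 = φ₀ (j ζ) * ‖deriv j ζ‖ ^ 2 := by
  have hD : F '' ball 0 1 = D := hF.2.image_eq
  have hDo : IsOpen (D : Set ℂ) := D.isOpen
  set G := Function.invFunOn F (ball 0 1) with hG
  have hGd : DifferentiableOn ℂ G D := hD ▸ univ_inv_diff isOpen_ball hF.1 hF.2.injOn
  have hGF : ∀ ζ ∈ ball (0 : ℂ) 1, G (F ζ) = ζ := fun ζ hζ => hF.2.injOn.leftInvOn_invFunOn hζ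
  have hGm : MapsTo G D (ball 0 1) := by
    intro w hw
    rw [← hD] at hw
    obtain ⟨ζ, hζ, rfl⟩ := hw
    rw [hGF ζ hζ]
    exact hζ
  have hs4 : closedBall (0 : ℂ) (1 / 4) ⊆ ball 0 1 := closedBall_subset_ball (by norm_num)
  have hs2 : ball (0 : ℂ) (1 / 2) ⊆ ball 0 1 := ball_subset_ball (by norm_num)
  have hKc : IsCompact (F '' closedBall 0 (1 / 4)) :=
    (isCompact_closedBall _ _).image_of_continuousOn (hF.1.continuousOn.mono hs4)
  have hKD : F '' closedBall 0 (1 / 4) ⊆ D := hD ▸ image_mono hs4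
  have hW : IsOpen (F '' ball 0 (1 / 2)) :=
    univ_isOpen_image isOpen_ball hF.1 hF.2.injOn isOpen_ball hs2
  have hWD : F '' ball 0 (1 / 2) ⊆ D := hD ▸ image_mono hs2
  obtain ⟨ρ, hρ, hρK⟩ := hKc.exists_cthickening_subset_open hW
    (image_mono (closedBall_subset_ball (by norm_num)))
  obtain ⟨CG, hCG⟩ := (hKc.cthickening (r := ρ)).exists_bound_of_continuousOn
    ((hGd.deriv hDo).continuousOn.mono (hρK.trans hWD))
  obtain ⟨C, hC⟩ := univ_bound a₂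
  let H : ℂ × ℂ → ℝ := fun p => φ₀ p.1 * ‖p.2‖ ^ 2
  have hH : ContDiff ℝ (⊤ : ℕ∞) H :=
    (hφ.comp contDiff_fst).mul ((contDiff_norm_sq ℝ).comp contDiff_snd)
  obtain ⟨M, hM0, hM⟩ := comp_bound hH hρ (max C (C * CG))
  refine ⟨⟨_, hKc⟩, M, hKD, fun j hj h0 ha ha₂ => ?_⟩
  have hgd : DifferentiableOn ℂ (j ∘ G) D := hj.1.comp hGd hGm
  let γ : ℂ → ℂ × ℂ := fun w => ((j ∘ G) w, deriv (j ∘ G) w)
  have hγ : DifferentiableOn ℂ γ D := hgd.prodMk (hgd.deriv hDo)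
  have hder : ∀ w ∈ (D : Set ℂ), deriv (j ∘ G) w = deriv j (G w) * deriv G w := fun w hw =>
    deriv_comp w (hj.1.differentiableAt (isOpen_ball.mem_nhds (hGm hw)))
      (hGd.differentiableAt (hDo.mem_nhds hw))
  let φ : ℂ → ℝ := (D : Set ℂ).indicator (H ∘ γ)
  have hsupp : Function.support φ ⊆ F '' closedBall 0 (1 / 4) := by
    intro w hw
    have hwD : w ∈ (D : Set ℂ) := by
      by_contra h
      exact hw (indicator_of_notMem h _)
    have h1 : H (γ w) ≠ 0 := by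
      have : φ w = H (γ w) := indicator_of_mem hwD _
      rw [← this]
      exact hw
    have h2 : φ₀ (j (G w)) ≠ 0 := left_ne_zero_of_mul h1
    have h3 : ‖j (G w)‖ < r := by
      by_contra h
      exact h2 (hs _ (not_lt.1 h))
    obtain ⟨ζ, hζ, hζe⟩ := hK j hj h0 ha (mem_ball_zero_iff.2 (h3.trans (by linarith)))
    have hζ1 : ζ ∈ ball (0 : ℂ) 1 := hs4 (ball_subset_closedBall hζ)
    have h4 : ζ = G w := hj.2 hζ1 (hGm hwD) hζe
    refine ⟨ζ, ball_subset_closedBall hζ, ?_⟩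
    rw [h4, hG]
    exact Function.invFunOn_eq (by rw [← hD] at hwD; exact hwD)
  have hts : tsupport φ ⊆ F '' closedBall 0 (1 / 4) := closure_minimal hsupp hKc.isClosed
  have heq : EqOn φ (H ∘ γ) D := fun w hw => indicator_of_mem hw _
  have hγ' : ContDiffOn ℝ (⊤ : ℕ∞) γ D := (hγ.contDiffOn hDo).restrict_scalars ℝ
  have hφD : ContDiffOn ℝ (⊤ : ℕ∞) φ D := (hH.comp_contDiffOn hγ').congr heq
  have hsm : ContDiff ℝ (⊤ : ℕ∞) φ := by
    rw [contDiff_iff_contDiffAt]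
    intro w
    by_cases hw : w ∈ tsupport φ
    · exact hφD.contDiffAt (hDo.mem_nhds (hKD (hts hw)))
    · exact contDiffAt_const.congr_of_eventuallyEq (notMem_tsupport_iff_eventuallyEq.1 hw)
  refine ⟨⟨φ, hsm, hKc.of_isClosed_subset (isClosed_tsupport _) hts, hts.trans hKD⟩, hsupp,
    fun m z => ?_, fun ζ hζ => ?_⟩
  · change ‖iteratedFDeriv ℝ m φ z‖ ≤ M m
    by_cases hz : z ∈ F '' closedBall 0 (1 / 4)
    · have hb : closedBall z ρ ⊆ cthickening ρ (F '' closedBall 0 (1 / 4)) :=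
        closedBall_subset_cthickening hz ρ
      rw [← iteratedFDerivWithin_of_isOpen m hDo (hKD hz),
        iteratedFDerivWithin_congr heq (hKD hz)]
      refine hM γ D z hDo hγ (hb.trans (hρK.trans hWD)) (fun w hw => ?_) m
      obtain ⟨ζ, hζ, rfl⟩ := hρK (hb hw)
      obtain ⟨h1, h2⟩ := hC j hj h0 ha₂ ζ hζ
      rw [Prod.norm_def]
      refine max_le_max ?_ ?_
      · change ‖j (G (F ζ))‖ ≤ C
        rwa [hGF ζ (hs2 hζ)]
      · change ‖deriv (j ∘ G) (F ζ)‖ ≤ C * CG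
        rw [hder _ (hWD ⟨ζ, hζ, rfl⟩), norm_mul, hGF ζ (hs2 hζ)]
        exact mul_le_mul h2 (hCG _ (hb hw)) (norm_nonneg _) ((norm_nonneg _).trans h2)
    · have : iteratedFDeriv ℝ m φ z = 0 := by
        by_contra h
        exact hz (hts (support_iteratedFDeriv_subset m h))
      rw [this, norm_zero]
      exact hM0 m
  · have hw : F ζ ∈ (D : Set ℂ) := hF.2.mapsTo hζ
    change φ (F ζ) * _ = _
    have h1 : (j ∘ G) ∘ F =ᶠ[𝓝 ζ] j := by
      filter_upwards [isOpen_ball.mem_nhds hζ] with x hx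
      simp only [Function.comp_apply, hGF x hx]
    have h2 : deriv j ζ = deriv (j ∘ G) (F ζ) * deriv F ζ := by
      rw [← h1.deriv_eq]
      exact deriv_comp ζ (hgd.differentiableAt (hDo.mem_nhds hw))
        (hF.1.differentiableAt (isOpen_ball.mem_nhds hζ))
    rw [heq hw, h2, norm_mul, mul_pow]
    change φ₀ (j (G (F ζ))) * ‖deriv (j ∘ G) (F ζ)‖ ^ 2 * _ = _
    rw [hGF ζ hζ]
    ring

end Pool.Agent.MP_ac6554_pr
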