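import Pool.Agent.MP_ac6554_pr.Tight
import Pool.Agent.MP_ac6554_pr.Test

set_option autoImplicit false

open MeasureTheory ProbabilityTheory TopologicalSpace Metric Set Filter Topology
open scoped NNReal ENNReal

namespace Pool.Agent.MP_ac6554_pr

namespace CoupleAux

/-- Rescaled map. -/
noncomputable def resc (s : ℝ) (z₀ : ℂ) (j : ℂ → ℂ) : ℂ → ℂ := fun w => (s : ℂ) * (j w - z₀)

/-- The density on the disc. -/
noncomputable def psi (φ₀ : ℂ → ℝ) (j : ℂ → ℂ) (ζ : ℂ) : ℝ := φ₀ (j ζ) * ‖deriv j ζ‖ ^ 2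

theorem deriv_resc (s : ℝ) (z₀ : ℂ) (j : ℂ → ℂ) (ζ : ℂ) :
    deriv (resc s z₀ j) ζ = (s : ℂ) * deriv j ζ := by
  unfold resc
  rw [deriv_const_mul_field, deriv_sub_const]

theorem univ_resc {s : ℝ} (hs : 0 < s) (z₀ : ℂ) {j : ℂ → ℂ} (hj : Univ j) :
    Univ (resc s z₀ j) := by
  refine ⟨(hj.1.sub_const z₀).const_mul _, fun a ha b hb hab => hj.2 ha hb ?_⟩
  have h0 : (s : ℂ) ≠ 0 := by exact_mod_cast hs.ne'
  have := mul_left_cancel₀ h0 hab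
  exact sub_left_inj.mp this

theorem surr_resc {s : ℝ} (hs : 0 < s) (z₀ : ℂ) (j : ℂ → ℂ) (A : Set ℂ) (z : ℂ) (δ : ℝ) :
    ball z (s⁻¹ * δ) ⊆ j '' A ↔ ball ((s : ℂ) * (z - z₀)) δ ⊆ resc s z₀ j '' A := by
  have h0 : (s : ℂ) ≠ 0 := by exact_mod_cast hs.ne'
  constructor
  · intro h u hu
    have : z₀ + (s : ℂ)⁻¹ * u ∈ ball z (s⁻¹ * δ) := by
      rw [mem_ball, dist_eq_norm] at hu ⊢
      have e : z₀ + (s : ℂ)⁻¹ * u - z = (s : ℂ)⁻¹ * (u - (s : ℂ) * (z - z₀)) := by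
        field_simp; ring
      rw [e, norm_mul, norm_inv, Complex.norm_real, Real.norm_of_nonneg hs.le]
      exact mul_lt_mul_of_pos_left hu (inv_pos.mpr hs)
    obtain ⟨w, hw, hw'⟩ := h this
    refine ⟨w, hw, ?_⟩
    unfold resc
    rw [hw']; field_simp; ring
  · intro h u hu
    have : (s : ℂ) * (u - z₀) ∈ ball ((s : ℂ) * (z - z₀)) δ := by
      rw [mem_ball, dist_eq_norm] at hu ⊢
      have e : (s : ℂ) * (u - z₀) - (s : ℂ) * (z - z₀) = (s : ℂ) * (u - z) := by ring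
      rw [e, norm_mul, Complex.norm_real, Real.norm_of_nonneg hs.le]
      have := mul_lt_mul_of_pos_left hu hs
      rwa [← mul_assoc, mul_inv_cancel₀ hs.ne', one_mul] at this
    obtain ⟨w, hw, hw'⟩ := h this
    refine ⟨w, hw, ?_⟩
    unfold resc at hw'
    exact sub_left_inj.mp (mul_left_cancel₀ h0 hw')

theorem nestSum_resc {s : ℝ} (hs : 0 < s) (z₀ : ℂ) (j : ℂ → ℂ) (v : Ens) (ξ : ℕ → ℝ) (ζ : ℂ)
    (δ : ℝ) : nestSum j v ξ (j ζ) (s⁻¹ * δ) = nestSum (resc s z₀ j) v ξ (resc s z₀ j ζ) δ := by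
  unfold nestSum
  simp only [surr_resc hs z₀ j]
  rfl

theorem mem_quarter {r : ℝ} (hr : 0 < r) {φ₀ : ℂ → ℝ} (hs : ∀ z, r ≤ ‖z‖ → φ₀ z = 0)
    {j : ℂ → ℂ} (hj : Univ j) (hK : ball 0 (2 * r) ⊆ j '' ball 0 (1 / 4)) {ζ : ℂ}
    (hζ : ζ ∈ ball (0 : ℂ) 1) (h : psi φ₀ j ζ ≠ 0) : ζ ∈ ball (0 : ℂ) (1 / 4) ∧ ‖j ζ‖ < r := by
  have h1 : ‖j ζ‖ < r := by
    by_contra hh
    exact h (by unfold psi; rw [hs _ (not_lt.mp hh), zero_mul])
  obtain ⟨w, hw, hw'⟩ := hK (mem_ball_zero_iff.mpr (by linarith : ‖j ζ‖ < 2 * r))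
  have := hj.2 (ball_subset_ball (by norm_num) hw) hζ hw'
  exact ⟨this ▸ hw, h1⟩

theorem psi_int {r : ℝ} (hr : 0 < r) {φ₀ : ℂ → ℝ} (hs : ∀ z, r ≤ ‖z‖ → φ₀ z = 0)
    (h1 : ∫ z, φ₀ z = 1) {j : ℂ → ℂ} (hj : Univ j) (hK : ball 0 (2 * r) ⊆ j '' ball 0 (1 / 4)) :
    ∫ ζ in ball (0 : ℂ) 1, psi φ₀ j ζ = 1 := by
  refine Eq.trans ?_ h1
  rw [← setIntegral_eq_integral_of_forall_compl_eq_zero (f := φ₀) (s := j '' ball 0 1),
    integral_conf hj]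
  · exact setIntegral_congr_fun measurableSet_ball fun ζ _ => mul_comm _ _
  · intro z hz
    refine hs z (not_lt.mp fun hh => hz ?_)
    exact image_mono (ball_subset_ball (by norm_num))
      (hK (mem_ball_zero_iff.mpr (by linarith : ‖z‖ < 2 * r)))

theorem pair_scaled {r s : ℝ} (hr : 0 < r) (hs0 : 0 < s) {φ₀ : ℂ → ℝ}
    (hs : ∀ z, r ≤ ‖z‖ → φ₀ z = 0) (z₀ : ℂ) {j : ℂ → ℂ} (hj : Univ j)
    (hK : ball 0 (2 * r) ⊆ resc s z₀ j '' ball 0 (1 / 4)) (g : ℂ → ℝ) :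
    ∫ z, g z * (s ^ 2 * φ₀ ((s : ℂ) * (z - z₀))) =
      ∫ ζ in ball (0 : ℂ) 1, g (j ζ) * psi φ₀ (resc s z₀ j) ζ := by
  have h0 : (s : ℂ) ≠ 0 := by exact_mod_cast hs0.ne'
  rw [← setIntegral_eq_integral_of_forall_compl_eq_zero (s := j '' ball 0 1), integral_conf hj]
  · refine setIntegral_congr_fun measurableSet_ball fun ζ _ => ?_
    simp only [psi, deriv_resc, norm_mul, Complex.norm_real, Real.norm_of_nonneg hs0.le]
    unfold resc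
    ring
  · intro z hz
    rw [hs, mul_zero, mul_zero]
    refine not_lt.mp fun hh => hz ?_
    obtain ⟨w, hw, hw'⟩ := hK (mem_ball_zero_iff.mpr
      (by linarith : ‖(s : ℂ) * (z - z₀)‖ < 2 * r))
    refine ⟨w, ball_subset_ball (by norm_num) hw, ?_⟩
    unfold resc at hw'
    exact sub_left_inj.mp (mul_left_cancel₀ h0 hw')

theorem pair_test {F : ℂ → ℂ} {D : Opens ℂ} (hF : Conf F D) (φ : TestFunction D ℝ ⊤)
    {ψ : ℂ → ℝ} (h : ∀ ζ ∈ ball (0 : ℂ) 1, φ (F ζ) * ‖deriv F ζ‖ ^ 2 = ψ ζ) (g : ℂ → ℝ) :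
    ∫ z, g z * φ z = ∫ ζ in ball (0 : ℂ) 1, g (F ζ) * ψ ζ := by
  rw [← setIntegral_eq_integral_of_forall_compl_eq_zero (s := F '' ball 0 1),
    integral_conf hF.univ]
  · refine setIntegral_congr_fun measurableSet_ball fun ζ hζ => ?_
    rw [← h ζ hζ]; ring
  · intro z hz
    rw [hF.2.image_eq] at hz
    rw [image_eq_zero_of_notMem_tsupport fun hh => hz (φ.tsupport_subset hh), mul_zero]

theorem exists_test {F : ℂ → ℂ} {D : Opens ℂ} (hF : Conf F D) {r s : ℝ} (hr : 0 < r) (hs1 : 1 ≤ s)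
    {φ₀ : ℂ → ℝ} (hφ : ContDiff ℝ (⊤ : ℕ∞) φ₀) (hs : ∀ z, r ≤ ‖z‖ → φ₀ z = 0)
    (hK : ball (F 0) (2 * r) ⊆ F '' ball 0 (1 / 4)) :
    ∃ φ : TestFunction D ℝ ⊤, ∀ z, φ z = s ^ 2 * φ₀ ((s : ℂ) * (z - F 0)) := by
  have hsup : Function.support (fun z => s ^ 2 * φ₀ ((s : ℂ) * (z - F 0))) ⊆
      closedBall (F 0) r := by
    intro z hz
    by_contra hh
    refine hz ?_
    rw [mem_closedBall, dist_eq_norm, not_le] at hh
    simp only
    rw [hs, mul_zero]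
    rw [norm_mul, Complex.norm_real, Real.norm_of_nonneg (by linarith)]
    nlinarith
  refine ⟨⟨fun z => s ^ 2 * φ₀ ((s : ℂ) * (z - F 0)), ?_, ?_, ?_⟩, fun z => rfl⟩
  · exact contDiff_const.mul (hφ.comp (contDiff_const.mul (contDiff_id.sub contDiff_const)))
  · exact HasCompactSupport.of_support_subset_isCompact (isCompact_closedBall _ _) hsup
  · refine (closure_minimal hsup isClosed_closedBall).trans ?_
    refine (closedBall_subset_ball (by linarith)).trans (hK.trans ?_)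
    rw [← hF.2.image_eq]
    exact image_mono (ball_subset_ball (by norm_num))

theorem aem_psi {φ₀ : ℂ → ℝ} (hφ : Continuous φ₀) {j : ℂ → ℂ} (hj : Univ j) :
    AEMeasurable (psi φ₀ j) (volume.restrict (ball (0 : ℂ) 1)) := by
  have h1 : ContinuousOn j (ball 0 1) := hj.1.continuousOn
  have h2 : ContinuousOn (deriv j) (ball 0 1) := (hj.1.deriv isOpen_ball).continuousOn
  exact ((hφ.comp_continuousOn h1).mul (h2.norm.pow 2)).aemeasurable measurableSet_ball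

theorem nestSum_bdd {v : Ens} (hv : Good v) (ξ : ℕ → ℝ) {F : ℂ → ℂ} (hF : Univ F) {δ : ℝ}
    (hδ : 0 < δ) : ∃ B : ℝ, ∀ ζ ∈ closedBall (0 : ℂ) (1 / 2), |nestSum F v ξ (F ζ) δ| ≤ B := by
  have hfin := hv.finite_surr hF hδ (by norm_num : (1 / 2 : ℝ) < 1)
  refine ⟨∑ k ∈ hfin.toFinset, |ξ k|, fun ζ hζ => ?_⟩
  unfold nestSum
  rw [tsum_eq_sum (s := hfin.toFinset)]
  · refine (Finset.abs_sum_le_sum_abs _ _).trans (Finset.sum_le_sum fun k _ => ?_)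
    exact norm_indicator_le_norm_self ξ k
  · intro k hk
    refine indicator_of_notMem (fun hh => hk ?_) _
    exact hfin.mem_toFinset.mpr ⟨ζ, hζ, hh⟩

/-- The elementary estimate. -/
theorem pair_bound {ψ a b : ℂ → ℝ} {er : ℂ → ℝ≥0∞} {s C₁ M₀ C₃ : ℝ} (hC₁ : 0 ≤ C₁) (hM : 0 ≤ M₀)
    (hC₃ : 0 ≤ C₃) (ψm : AEMeasurable ψ (volume.restrict (ball (0 : ℂ) 1)))
    (ψ0 : ∀ ζ, 0 ≤ ψ ζ) (ψ1 : ∫ ζ in ball (0 : ℂ) 1, ψ ζ = 1)
    (ψM : ∀ ζ ∈ ball (0 : ℂ) 1, ψ ζ ≤ M₀)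
    (ψs : ∀ ζ ∈ ball (0 : ℂ) 1, ψ ζ ≠ 0 → ζ ∈ ball (0 : ℂ) (1 / 4))
    (am : AEMeasurable a (volume.restrict (ball (0 : ℂ) 1)))
    (bm : AEMeasurable b (volume.restrict (ball (0 : ℂ) 1))) {B : ℝ}
    (bb : ∀ ζ ∈ ball (0 : ℂ) (1 / 4), |b ζ| ≤ B)
    (h : ∀ ζ ∈ ball (0 : ℂ) 1, ψ ζ ≠ 0 → ‖a ζ - s - b ζ‖ₑ ≤ ENNReal.ofReal C₁ + er ζ)
    (he : ∫⁻ ζ in ball (0 : ℂ) (1 / 4), er ζ ≤ ENNReal.ofReal C₃) :
    |(∫ ζ in ball (0 : ℂ) 1, a ζ * ψ ζ) - s - ∫ ζ in ball (0 : ℂ) 1, b ζ * ψ ζ| ≤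
      C₁ + M₀ * C₃ := by
  have ψi : Integrable ψ (volume.restrict (ball (0 : ℂ) 1)) :=
    Integrable.of_integral_ne_zero (by rw [ψ1]; exact one_ne_zero)
  have bi : Integrable (fun ζ => b ζ * ψ ζ) (volume.restrict (ball (0 : ℂ) 1)) := by
    refine Integrable.mono' (ψi.const_mul |B|) (bm.mul ψm).aestronglyMeasurable ?_
    filter_upwards [ae_restrict_mem measurableSet_ball] with ζ hζ
    rcases eq_or_ne (ψ ζ) 0 with h0 | h0
    · simp [h0]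
    · rw [Real.norm_eq_abs, abs_mul, abs_of_nonneg (ψ0 ζ)]
      exact mul_le_mul_of_nonneg_right ((bb ζ (ψs ζ hζ h0)).trans (le_abs_self _)) (ψ0 ζ)
  have key : ∫⁻ ζ in ball (0 : ℂ) 1, ‖(a ζ - s - b ζ) * ψ ζ‖ₑ ≤ ENNReal.ofReal (C₁ + M₀ * C₃) := by
    calc ∫⁻ ζ in ball (0 : ℂ) 1, ‖(a ζ - s - b ζ) * ψ ζ‖ₑ
        ≤ ∫⁻ ζ in ball (0 : ℂ) 1, (ENNReal.ofReal C₁ * ENNReal.ofReal (ψ ζ) +
            ENNReal.ofReal M₀ * (ball (0 : ℂ) (1 / 4)).indicator er ζ) := by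
          refine lintegral_mono_ae ?_
          filter_upwards [ae_restrict_mem measurableSet_ball] with ζ hζ
          rcases eq_or_ne (ψ ζ) 0 with h0 | h0
          · simp [h0]
          · rw [enorm_mul, Real.enorm_of_nonneg (ψ0 ζ), indicator_of_mem (ψs ζ hζ h0)]
            refine (mul_le_mul_left (h ζ hζ h0) _).trans ?_
            rw [add_mul, mul_comm (er ζ)]
            exact add_le_add le_rfl (mul_le_mul_left (ENNReal.ofReal_le_ofReal (ψM ζ hζ)) _)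
      _ = ENNReal.ofReal C₁ * ENNReal.ofReal 1 + ENNReal.ofReal M₀ *
            ∫⁻ ζ in ball (0 : ℂ) 1, (ball (0 : ℂ) (1 / 4)).indicator er ζ := by
          rw [lintegral_add_left' (ψm.ennreal_ofReal.const_mul _),
            lintegral_const_mul' _ _ ENNReal.ofReal_ne_top,
            lintegral_const_mul' _ _ ENNReal.ofReal_ne_top,
            ← ofReal_integral_eq_lintegral_ofReal ψi (ae_of_all _ ψ0), ψ1]
      _ ≤ ENNReal.ofReal C₁ * ENNReal.ofReal 1 + ENNReal.ofReal M₀ * ENNReal.ofReal C₃ := by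
          refine add_le_add le_rfl (mul_le_mul_right ?_ _)
          refine (setLIntegral_le_lintegral _ _).trans ?_
          rwa [lintegral_indicator measurableSet_ball]
      _ = ENNReal.ofReal (C₁ + M₀ * C₃) := by
          rw [ENNReal.ofReal_one, mul_one, ← ENNReal.ofReal_mul hM,
            ← ENNReal.ofReal_add hC₁ (mul_nonneg hM hC₃)]
  have di : Integrable (fun ζ => (a ζ - s - b ζ) * ψ ζ) (volume.restrict (ball (0 : ℂ) 1)) :=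
    ⟨(((am.sub_const s).sub bm).mul ψm).aestronglyMeasurable,
      key.trans_lt ENNReal.ofReal_lt_top⟩
  have e : ∫ ζ in ball (0 : ℂ) 1, a ζ * ψ ζ = (∫ ζ in ball (0 : ℂ) 1, (a ζ - s - b ζ) * ψ ζ) +
      s + ∫ ζ in ball (0 : ℂ) 1, b ζ * ψ ζ := by
    have h1 : ∫ ζ in ball (0 : ℂ) 1, s * ψ ζ = s := by rw [integral_const_mul, ψ1, mul_one]
    have h2 := integral_add di (ψi.const_mul s)
    have h3 := integral_add (di.add (ψi.const_mul s)) bi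
    simp only [Pi.add_apply] at h3
    rw [h2, h1] at h3
    rw [← h3]
    refine integral_congr_ae (ae_of_all _ fun ζ => ?_)
    ring
  rw [e]
  have h2 := (enorm_integral_le_lintegral_enorm _).trans key
  rw [Real.enorm_eq_ofReal_abs, ENNReal.ofReal_le_ofReal_iff (by positivity)] at h2
  convert h2 using 2; ring

end CoupleAux

end Pool.Agent.MP_ac6554_pr
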