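import Pool.Agent.MP_ac6554_pr.Meas

set_option autoImplicit false

open MeasureTheory ProbabilityTheory TopologicalSpace Metric Set Filter Topology
open scoped NNReal ENNReal

namespace Pool.Agent.MP_ac6554_pr

namespace FreezeAux

theorem glue_mp (μ : Measure ℝ) [IsProbabilityMeasure μ] (α β : Type) :
    MeasurePreserving (fun p : (α → ℝ) × (β → ℝ) => (Sum.elim p.1 p.2 : α ⊕ β → ℝ))
      ((Measure.infinitePi fun _ : α => μ).prod (Measure.infinitePi fun _ : β => μ))
      (Measure.infinitePi fun _ : α ⊕ β => μ) := by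
  classical
  have hm : Measurable (fun p : (α → ℝ) × (β → ℝ) => (Sum.elim p.1 p.2 : α ⊕ β → ℝ)) := by
    refine measurable_pi_lambda _ fun k => ?_
    rcases k with a | b
    · exact (measurable_pi_apply a).comp measurable_fst
    · exact (measurable_pi_apply b).comp measurable_snd
  refine ⟨hm, Measure.eq_infinitePi _ fun s t ht => ?_⟩
  rw [Measure.map_apply hm (MeasurableSet.pi s.countable_toSet fun k _ => ht k)]
  have : (fun p : (α → ℝ) × (β → ℝ) => (Sum.elim p.1 p.2 : α ⊕ β → ℝ)) ⁻¹' Set.pi s t =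
      Set.pi s.toLeft (fun a => t (Sum.inl a)) ×ˢ Set.pi s.toRight (fun b => t (Sum.inr b)) := by
    ext p
    simp only [mem_preimage, Set.mem_pi, Finset.mem_coe, mem_prod, Finset.mem_toLeft,
      Finset.mem_toRight]
    constructor
    · exact fun h => ⟨fun a ha => h _ ha, fun b hb => h _ hb⟩
    · rintro ⟨h1, h2⟩ (a | b) hk
      · exact h1 a hk
      · exact h2 b hk
  rw [this, Measure.prod_prod, Measure.infinitePi_pi _ fun a _ => ht _,
    Measure.infinitePi_pi _ fun b _ => ht _, Finset.prod_sum_eq_prod_toLeft_mul_prod_toRight]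

theorem core {Ω S E : Type} [MeasurableSpace Ω] {mS : MeasurableSpace S} [MeasurableSpace E]
    (P : Measure Ω) [IsProbabilityMeasure P] {Y : Ω → S} {A : Ω → E} (hY : Measurable Y)
    (hA : Measurable A) (hind : IndepFun Y A P) {g : S × E → ℝ≥0∞} (hg : Measurable g) :
    ∫⁻ ω, g (Y ω, A ω) ∂P = ∫⁻ ω, ∫⁻ v, g (Y ω, v) ∂(P.map A) ∂P := by
  have h1 := (indepFun_iff_map_prod_eq_prod_map_map hY.aemeasurable hA.aemeasurable).1 hind
  rw [← lintegral_map hg (hY.prodMk hA), h1, lintegral_prod _ hg.aemeasurable,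
    lintegral_map hg.lintegral_prod_right' hY]

end FreezeAux

variable {κ : ℝ} {Ω : Type} [MeasurableSpace Ω] {P : Measure Ω} {V : ℕ → Ω → Opens ℂ}
  {i : ℕ → Ω → ℕ} {f : ℕ → Ω → ℂ → ℂ} {e : ℕ → ℕ → Ω → ℕ}

namespace FreezeAux

theorem meas_label (h : Sk κ P V i f e) {a : Ω → ℕ} (ha : Measurable a) :
    Measurable fun ω => V (a ω) ω :=
  (measurable_from_prod_countable_right (f := fun p : ℕ × Ω => V p.1 p.2) h.meas).comp
    (ha.prodMk measurable_id)

theorem mY_le (h : Sk κ P V i f e) (n : ℕ) : mY f n ≤ ‹MeasurableSpace Ω› :=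
  Measurable.comap_le
    (measurable_pi_lambda _ fun m => measurable_pi_lambda _ fun z => h.fmeas m z)

theorem chain (h : Sk κ P V i f e) (ω : Ω) {m n : ℕ} (hmn : m < n) :
    (V (i n ω) ω : Set ℂ) ⊆ comp0 (V (i m ω) ω) := by
  induction n, hmn using Nat.le_induction with
  | base => exact h.isub ω m
  | succ k _ ih =>
    have h1 : (V (i (k + 1) ω) ω : Set ℂ) ⊆ comp0 (V (i k ω) ω) := h.isub ω k
    exact h1.trans ((comp0_le _).trans ih)

theorem chain' (h : Sk κ P V i f e) (ω : Ω) {m n : ℕ} (hmn : m ≤ n) :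
    (V (i n ω) ω : Set ℂ) ⊆ V (i m ω) ω := by
  rcases hmn.eq_or_lt with rfl | hlt
  · exact subset_rfl
  · exact (chain h ω hlt).trans (comp0_le _)

theorem e_sub (h : Sk κ P V i f e) (ω : Ω) (n k : ℕ) :
    (V (e n k ω) ω : Set ℂ) ⊆ f n ω '' ball 0 1 := by
  have : e n k ω ∈ range fun k => e n k ω := ⟨k, rfl⟩
  rw [h.erange] at this
  rw [(h.fconf ω n).2.image_eq]
  exact this.1

theorem e_ne (h : Sk κ P V i f e) (ω : Ω) (n k : ℕ) {m : ℕ} (hm : m ≤ n) : e n k ω ≠ i m ω := by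
  have : e n k ω ∈ range fun k => e n k ω := ⟨k, rfl⟩
  rw [h.erange] at this
  exact this.2 m hm

theorem dom_sub (h : Sk κ P V i f e) (ω : Ω) (n : ℕ) :
    (comp0 (V (i n ω) ω) : Set ℂ) ⊆ ball 0 1 :=
  (comp0_le _).trans ((h.good ω).1 (i n ω)).2

end FreezeAux

open FreezeAux

theorem Sk.measurable_inner (h : Sk κ P V i f e) (n : ℕ) :
    Measurable fun ω k => pull (f n ω) (V (e n k ω) ω) :=
  measurable_pi_lambda _ fun k => measurable_pull (fun ω => (h.fconf ω n).1.continuousOn)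
    (fun z _ => h.fmeas n z) (meas_label h (h.emeas n k))

theorem Sk.freeze [IsProbabilityMeasure P] (h : Sk κ P V i f e) (μ : Measure ℝ)
    [IsProbabilityMeasure μ] (n : ℕ) (Θ : (Ω × (Iic n → ℝ)) × (Ens × (ℕ → ℝ)) → ℝ≥0∞)
    (hΘ : Measurable[((mY f n).prod MeasurableSpace.pi).prod inferInstance] Θ) :
    ∫⁻ p, Θ ((p.1, fun m : Iic n => p.2 (i m p.1)),
        (fun k => pull (f n p.1) (V (e n k p.1) p.1), fun k => p.2 (e n k p.1))) ∂(PP P μ) =
      ∫⁻ p, ∫⁻ q, Θ ((p.1, fun m : Iic n => p.2 (i m p.1)), (fun k => V k q.1, q.2))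
        ∂(PP P μ) ∂(PP P μ) := by
  set ν1 : Measure (Iic n → ℝ) := Measure.infinitePi fun _ : Iic n => μ with hν1
  set ν2 : Measure (ℕ → ℝ) := Measure.infinitePi fun _ : ℕ => μ with hν2
  set A : Ω → Ens := fun ω k => pull (f n ω) (V (e n k ω) ω) with hAdef
  have hA : Measurable A := h.measurable_inner n
  have hV : Measurable fun ω k => V k ω := measurable_pi_lambda _ h.meas
  have hid : @Measurable Ω Ω _ (mY f n) id := measurable_id'' (mY_le h n)
  have hΘ0 : Measurable Θ := by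
    have : @Measurable _ _ _ (((mY f n).prod MeasurableSpace.pi).prod inferInstance)
        (fun x : (Ω × (Iic n → ℝ)) × (Ens × (ℕ → ℝ)) => ((id x.1.1, x.1.2), x.2)) :=
      @Measurable.prodMk _ _ _ _ ((mY f n).prod MeasurableSpace.pi) _ _ _
        (@Measurable.prodMk _ _ _ _ (mY f n) _ _ _ (hid.comp measurable_fst.fst)
          measurable_fst.snd) measurable_snd
    exact hΘ.comp this
  -- the averaged integrand
  set g : Ω × Ens → ℝ≥0∞ := fun x => ∫⁻ r, Θ ((x.1, r.1), (x.2, r.2)) ∂(ν1.prod ν2) with hg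
  have hgm : @Measurable _ _ ((mY f n).prod inferInstance) _ g := by
    let _ : MeasurableSpace Ω := mY f n
    have : Measurable fun y : (Ω × Ens) × ((Iic n → ℝ) × (ℕ → ℝ)) =>
        Θ ((y.1.1, y.2.1), (y.1.2, y.2.2)) := hΘ.comp (by fun_prop)
    exact this.lintegral_prod_right'
  -- left side
  let a : Iic n ⊕ ℕ → Ω → ℕ := Sum.elim (fun m => i m) (fun k => e n k)
  have ha : ∀ k, Measurable (a k) := by
    rintro (m | k)
    · exact h.imeas m
    · exact h.emeas n k
  have hainj : ∀ ω, Function.Injective fun k => a k ω := by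
    rintro ω (m | k) (m' | k') hk
    · exact congrArg _ (Subtype.ext (h.iinj ω hk))
    · exact absurd (Eq.symm hk) (e_ne h ω n k' m.2)
    · exact absurd hk (e_ne h ω n k m'.2)
    · exact congrArg _ (h.einj ω n hk)
  have hmp := relabel_mp P μ a ha hainj
  have hH : Measurable fun y : Ω × (Iic n ⊕ ℕ → ℝ) =>
      Θ ((y.1, fun m : Iic n => y.2 (Sum.inl m)), (A y.1, fun k => y.2 (Sum.inr k))) :=
    hΘ0.comp (by fun_prop)
  have L1 := hmp.lintegral_comp hH
  have L2 := ((MeasurePreserving.id P).prod (glue_mp μ (Iic n) ℕ)).lintegral_comp hH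
  have hK : Measurable fun y : Ω × ((Iic n → ℝ) × (ℕ → ℝ)) => Θ ((y.1, y.2.1), (A y.1, y.2.2)) :=
    hΘ0.comp (by fun_prop)
  have L3 : ∫⁻ y, Θ ((y.1, y.2.1), (A y.1, y.2.2)) ∂(P.prod (ν1.prod ν2)) =
      ∫⁻ ω, g (ω, A ω) ∂P := lintegral_prod _ hK.aemeasurable
  have hind : @IndepFun Ω Ω Ens _ (mY f n) _ id A P := by
    have := h.indep n
    rw [IndepFun_iff_Indep] at this
    rw [@IndepFun_iff_Indep Ω Ω Ens _ (mY f n) _ id A P, MeasurableSpace.comap_id]
    exact this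
  have L4 := core (mS := mY f n) P hid hA hind hgm
  have hlaw : P.map A = P.map fun ω k => V k ω := (h.law n).map_eq
  -- right side
  have hmp' := relabel_mp P μ (fun m : Iic n => i m) (fun m => h.imeas m)
    (fun ω m m' hk => Subtype.ext (h.iinj ω hk))
  have hG0 : Measurable fun y : (Ω × (Iic n → ℝ)) × (Ω × (ℕ → ℝ)) =>
      Θ (y.1, (fun k => V k y.2.1, y.2.2)) :=
    hΘ0.comp (measurable_fst.prodMk ((hV.comp measurable_snd.fst).prodMk measurable_snd.snd))
  have hG : Measurable fun x : Ω × (Iic n → ℝ) =>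
      ∫⁻ q, Θ (x, (fun k => V k q.1, q.2)) ∂(PP P μ) := hG0.lintegral_prod_right'
  have R1 := hmp'.lintegral_comp hG
  refine L1.trans (L2.symm.trans (L3.trans (L4.trans (Eq.symm (R1.trans ?_)))))
  rw [lintegral_prod _ hG.aemeasurable]
  refine lintegral_congr fun ω => ?_
  have hgω : Measurable fun v : Ens => g (ω, v) := by
    have : Measurable fun y : Ens × ((Iic n → ℝ) × (ℕ → ℝ)) => Θ ((ω, y.2.1), (y.1, y.2.2)) :=
      hΘ0.comp (by fun_prop)
    exact this.lintegral_prod_right'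
  rw [hlaw]
  refine Eq.trans ?_ (lintegral_map hgω hV).symm
  have hT : Measurable fun y : (Iic n → ℝ) × (Ω × (ℕ → ℝ)) =>
      Θ ((ω, y.1), (fun k => V k y.2.1, y.2.2)) := hG0.comp
        ((measurable_const.prodMk measurable_fst).prodMk measurable_snd)
  have hT' : Measurable fun y : ((Iic n → ℝ) × Ω) × (ℕ → ℝ) =>
      Θ ((ω, y.1.1), (fun k => V k y.1.2, y.2)) :=
    hT.comp (measurable_fst.fst.prodMk (measurable_fst.snd.prodMk measurable_snd))
  calc ∫⁻ η, ∫⁻ q, Θ ((ω, η), (fun k => V k q.1, q.2)) ∂(PP P μ) ∂ν1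
      = ∫⁻ η, ∫⁻ ω', ∫⁻ ξ, Θ ((ω, η), (fun k => V k ω', ξ)) ∂ν2 ∂P ∂ν1 := by
        refine lintegral_congr fun η => ?_
        exact lintegral_prod _ (hT.comp (measurable_const.prodMk measurable_id)).aemeasurable
    _ = ∫⁻ ω', ∫⁻ η, ∫⁻ ξ, Θ ((ω, η), (fun k => V k ω', ξ)) ∂ν2 ∂ν1 ∂P :=
        lintegral_lintegral_swap hT'.lintegral_prod_right'.aemeasurable
    _ = _ := by
        refine lintegral_congr fun ω' => ?_
        have : Measurable fun r : (Iic n → ℝ) × (ℕ → ℝ) =>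
            Θ ((ω, r.1), (fun k => V k ω', r.2)) := hΘ0.comp (by fun_prop)
        exact (lintegral_prod _ this.aemeasurable).symm

theorem Sk.nest_split (h : Sk κ P V i f e) {F : ℂ → ℂ} (hF : Univ F) (n : ℕ) (ω : Ω)
    (ξ : ℕ → ℝ) {z : ℂ} {ε : ℝ} (hε : 0 < ε) (hz : ball z ε ⊆ (fun w => F (f n ω w)) '' ball 0 1) :
    nestSum F (fun k => V k ω) ξ z ε = ∑ m ∈ Finset.range (n + 1), ξ (i m ω) +
      nestSum (fun w => F (f n ω w)) (fun k => pull (f n ω) (V (e n k ω) ω))
        (fun k => ξ (e n k ω)) z ε := by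
  classical
  have hc := h.fconf ω n
  have hVb : ∀ k, (V k ω : Set ℂ) ⊆ ball 0 1 := fun k => ((h.good ω).1 k).2
  obtain ⟨u, hu, huz⟩ := hz (mem_ball_self hε)
  have hw : f n ω u ∈ (comp0 (V (i n ω) ω) : Set ℂ) := hc.2.mapsTo hu
  have hwb : f n ω u ∈ ball (0 : ℂ) 1 := dom_sub h ω n hw
  set S : Set ℕ := {k | ball z ε ⊆ F '' (ball 0 1 ∩ V k ω)} with hS
  have hfin : S.Finite := by
    refine ((h.good ω).finite_surr hF hε (R := ‖f n ω u‖) (by simpa using hwb)).subset ?_
    intro k hk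
    refine ⟨f n ω u, by simp, ?_⟩
    have : F (f n ω u) = z := huz
    rw [this]; exact hk
  have h1 : ∀ m ≤ n, i m ω ∈ S := by
    intro m hm y hy
    obtain ⟨x, hx, rfl⟩ := hz hy
    have hx' := hc.2.mapsTo hx
    exact ⟨f n ω x, ⟨dom_sub h ω n hx', chain' h ω hm (comp0_le _ hx')⟩, rfl⟩
  have h2 : ∀ k, (fun w => F (f n ω w)) '' (ball 0 1 ∩ pull (f n ω) (V (e n k ω) ω)) =
      F '' (ball 0 1 ∩ V (e n k ω) ω) := by
    intro k
    rw [← image_image, image_pull hc.univ (e_sub h ω n k), inter_eq_right.2 (hVb _)]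
  have h3 : ∀ k ∈ S, (∀ m ≤ n, k ≠ i m ω) → k ∈ range fun j => e n j ω := by
    intro k hk hne
    rw [h.erange]
    refine ⟨?_, hne⟩
    obtain ⟨w, hw', hwz⟩ := hk (mem_ball_self hε)
    have hww : w = f n ω u := hF.2 hw'.1 hwb (hwz.trans huz.symm)
    have hwk : f n ω u ∈ (V k ω : Set ℂ) := hww ▸ hw'.2
    show (V k ω : Set ℂ) ⊆ comp0 (V (i n ω) ω)
    rcases h.nested ω k (i n ω) (hne n le_rfl) with hd | ⟨x, hx⟩ | ⟨x, hx⟩
    · exact absurd (comp0_le _ hw) (disjoint_left.1 hd hwk)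
    · rw [coe_comp0] at hw ⊢
      rw [connectedComponentIn_eq hw, ← connectedComponentIn_eq (hx hwk)]
      exact hx
    · have h0 : i n ω ∈ range fun n => i n ω := ⟨n, rfl⟩
      rw [h.irange] at h0
      have h0' : k ∈ {k | (0 : ℂ) ∈ V k ω} :=
        connectedComponentIn_subset (V k ω : Set ℂ) x (hx h0)
      rw [← h.irange] at h0'
      obtain ⟨m, rfl⟩ := h0'
      have hm : n < m := by
        by_contra hcon
        exact hne m (not_lt.1 hcon) rfl
      exact chain h ω hm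
  set T : Finset ℕ := (Finset.range (n + 1)).image fun m => i m ω with hT
  have hmemT : ∀ k, k ∈ T ↔ ∃ m ≤ n, i m ω = k := by
    intro k; simp [hT]
  have hsplit : S.indicator ξ = fun k => (T : Set ℕ).indicator ξ k + (S \ T).indicator ξ k := by
    funext k
    by_cases hk : k ∈ T
    · obtain ⟨m, hm, rfl⟩ := (hmemT k).1 hk
      rw [indicator_of_mem (h1 m hm), indicator_of_mem (Finset.mem_coe.2 hk),
        indicator_of_notMem (fun h => h.2 hk), add_zero]
    · rw [indicator_of_notMem (s := (T : Set ℕ)) hk, zero_add]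
      by_cases hk' : k ∈ S
      · rw [indicator_of_mem hk', indicator_of_mem (show k ∈ S \ T from ⟨hk', hk⟩)]
      · rw [indicator_of_notMem hk', indicator_of_notMem (fun h => hk' h.1)]
  have s1 : Summable ((T : Set ℕ).indicator ξ) :=
    summable_of_hasFiniteSupport (T.finite_toSet.subset support_indicator_subset)
  have s2 : Summable ((S \ T).indicator ξ) :=
    summable_of_hasFiniteSupport ((hfin.subset sdiff_subset).subset support_indicator_subset)
  have e1 : ∑' k, (T : Set ℕ).indicator ξ k = ∑ m ∈ Finset.range (n + 1), ξ (i m ω) := by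
    rw [tsum_eq_sum (s := T) fun k hk => indicator_of_notMem hk _, hT,
      Finset.sum_image fun a _ b _ hab => h.iinj ω hab]
    refine Finset.sum_congr rfl fun m hm => indicator_of_mem ?_ _
    exact Finset.mem_coe.2 (Finset.mem_image_of_mem _ hm)
  have e2 : ∑' k, (S \ T).indicator ξ (e n k ω) = ∑' k, (S \ T).indicator ξ k := by
    refine (h.einj ω n).tsum_eq (f := (S \ T).indicator ξ) fun k hk => ?_
    have hk' := support_indicator_subset hk
    exact h3 k hk'.1 fun m hm hkm => hk'.2 ((hmemT k).2 ⟨m, hm, hkm.symm⟩)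
  unfold nestSum
  change ∑' k, S.indicator ξ k = _
  rw [hsplit, s1.tsum_add s2, e1, ← e2]
  congr 1
  refine tsum_congr fun k => ?_
  have hkT : e n k ω ∉ T := fun hk => by
    obtain ⟨m, hm, hmk⟩ := (hmemT _).1 hk
    exact e_ne h ω n k hm hmk.symm
  by_cases hk : e n k ω ∈ S
  · rw [indicator_of_mem (show e n k ω ∈ S \ T from ⟨hk, hkT⟩), indicator_of_mem]
    rw [mem_ofPred_eq, h2]; exact hk
  · rw [indicator_of_notMem (fun h => hk h.1), indicator_of_notMem]
    rw [mem_ofPred_eq, h2]; exact hk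

theorem Sk.good_inner (h : Sk κ P V i f e) (n : ℕ) (ω : Ω) :
    Good fun k => pull (f n ω) (V (e n k ω) ω) :=
  (h.good ω).pull (h.fconf ω n).univ (h.einj ω n) (e_sub h ω n)

theorem Sk.univ_comp (h : Sk κ P V i f e) {F : ℂ → ℂ} (hF : Univ F) (n : ℕ) (ω : Ω) :
    Univ (fun w => F (f n ω w)) ∧
      ‖deriv (fun w => F (f n ω w)) 0‖ = ‖deriv F 0‖ * Real.exp (-Tt f n ω) := by
  have hc := h.fconf ω n
  have hm : MapsTo (f n ω) (ball 0 1) (ball 0 1) := hc.2.mapsTo.mono_right (dom_sub h ω n)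
  have h0 : (0 : ℂ) ∈ ball (0 : ℂ) 1 := mem_ball_self one_pos
  refine ⟨⟨hF.1.comp hc.1 hm, hF.2.comp hc.2.injOn hm⟩, ?_⟩
  have d1 : DifferentiableAt ℂ (f n ω) 0 := hc.1.differentiableAt (isOpen_ball.mem_nhds h0)
  have d2 : DifferentiableAt ℂ F (f n ω 0) := by
    rw [h.f0]; exact hF.1.differentiableAt (isOpen_ball.mem_nhds h0)
  have d3 := (d2.hasDerivAt.comp 0 d1.hasDerivAt).deriv
  have hne := univ_deriv_ne_zero isOpen_ball hc.1 hc.2.injOn h0
  rw [h.f0] at d3
  change ‖deriv (F ∘ f n ω) 0‖ = _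
  rw [d3, norm_mul, Tt, neg_neg, Real.exp_log (norm_pos_iff.2 hne)]

end Pool.Agent.MP_ac6554_pr
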