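import Mathlib

/-!
# Renewal estimates for a walk with nonnegative i.i.d. steps having an exponential moment
-/

namespace Pool.Agent.MP_ac6554_pr

open MeasureTheory ProbabilityTheory Filter Topology Set Real
open scoped ENNReal

/-- Sum of the first `n` steps. -/
def psum {Ω : Type*} (B : ℕ → Ω → ℝ) (n : ℕ) (ω : Ω) : ℝ := ∑ i ∈ Finset.range n, B i ω

/-- Independent nonnegative steps of law `β`, with an exponential moment and positive mean. -/
structure Walk {Ω : Type*} [MeasurableSpace Ω] (P : Measure Ω) (β : Measure ℝ)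
    (B : ℕ → Ω → ℝ) : Prop where
  meas : ∀ i, Measurable (B i)
  indep : iIndepFun B P
  law : ∀ i, P.map (B i) = β
  nonneg : ∀ᵐ b ∂β, 0 ≤ b
  expm : (0 : ℝ) ∈ interior (integrableExpSet id β)
  mean : 0 < ∫ b, b ∂β

/-- The overshoot over the level `a` (at most one term is nonzero). -/
noncomputable def osh {Ω : Type*} (B : ℕ → Ω → ℝ) (a : ℝ) (ω : Ω) : ℝ≥0∞ :=
  ∑' n, ENNReal.ofReal (if psum B n ω < a then max (psum B n ω + B n ω - a) 0 else 0)

lemma psum_succ {Ω : Type*} (B : ℕ → Ω → ℝ) (n : ℕ) (ω : Ω) :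
    psum B (n + 1) ω = psum B n ω + B n ω := Finset.sum_range_succ _ _

@[simp] lemma psum_zero {Ω : Type*} (B : ℕ → Ω → ℝ) (ω : Ω) : psum B 0 ω = 0 := rfl

lemma measurable_psum {Ω : Type*} {m : MeasurableSpace Ω} {B : ℕ → Ω → ℝ} {n : ℕ}
    (h : ∀ i < n, Measurable (B i)) : Measurable (psum B n) :=
  Finset.measurable_sum _ fun i hi => h i (Finset.mem_range.1 hi)

namespace RenewalAux

variable {Ω : Type*} {B : ℕ → Ω → ℝ} {ω : Ω}

lemma det1 (hb : ∀ i, 0 ≤ B i ω) {l : ℝ} (hl : 0 < l) (a : ℝ) (M : ℕ) :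
    ∑ n ∈ Finset.range M, (if psum B n ω < a then exp (l * (psum B n ω - a)) else 0) *
      (exp (l * min (B n ω) 1) - 1) ≤ exp (l * (min (psum B M ω) (a + 1) - a)) := by
  induction M with
  | zero => simpa using (exp_pos _).le
  | succ M ih =>
    rw [Finset.sum_range_succ, psum_succ]
    have hb' := hb M
    split_ifs with h
    · rw [min_eq_left (by linarith : psum B M ω ≤ a + 1)] at ih
      have e : exp (l * (psum B M ω - a)) * exp (l * min (B M ω) 1)
          ≤ exp (l * (min (psum B M ω + B M ω) (a + 1) - a)) := by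
        rw [← exp_add, ← mul_add]
        refine exp_le_exp.2 (mul_le_mul_of_nonneg_left ?_ hl.le)
        have h1 := min_le_left (B M ω) 1
        have h2 := min_le_right (B M ω) 1
        have h3 : psum B M ω + min (B M ω) 1 ≤ min (psum B M ω + B M ω) (a + 1) :=
          le_min (by linarith) (by linarith)
        linarith
      nlinarith
    · rw [zero_mul, add_zero]
      refine ih.trans (exp_le_exp.2 (mul_le_mul_of_nonneg_left ?_ hl.le))
      have : min (psum B M ω) (a + 1) ≤ min (psum B M ω + B M ω) (a + 1) :=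
        min_le_min_right _ (by linarith)
      linarith

lemma det2 (hb : ∀ i, 0 ≤ B i ω) (a : ℝ) (M : ℕ) (h : psum B M ω < a) :
    ∑ n ∈ Finset.range M, (if psum B n ω < a then B n ω else 0) = psum B M ω := by
  induction M with
  | zero => simp
  | succ M ih =>
    rw [psum_succ] at h
    have h' : psum B M ω < a := by linarith [hb M]
    rw [Finset.sum_range_succ, ih h', if_pos h', psum_succ]

lemma det3 (hb : ∀ i, 0 ≤ B i ω) {a : ℝ} (ha : 0 ≤ a) (M : ℕ) :
    ∑ n ∈ Finset.range M, (if psum B n ω < a then B n ω else 0) ≤ a +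
      ∑ n ∈ Finset.range M, (if psum B n ω < a then max (psum B n ω + B n ω - a) 0 else 0) := by
  induction M with
  | zero => simpa using ha
  | succ M ih =>
    rw [Finset.sum_range_succ, Finset.sum_range_succ]
    split_ifs with h
    · rw [det2 hb a M h]
      have h1 : 0 ≤ ∑ n ∈ Finset.range M,
          (if psum B n ω < a then max (psum B n ω + B n ω - a) 0 else 0) :=
        Finset.sum_nonneg fun n _ => by split_ifs <;> simp
      linarith [le_max_left (psum B M ω + B M ω - a) 0]
    · linarith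

lemma det4 (hb : ∀ i, 0 ≤ B i ω) (a : ℝ) (M : ℕ) :
    min (psum B M ω) a ≤ ∑ n ∈ Finset.range M, (if psum B n ω < a then B n ω else 0) := by
  induction M with
  | zero => simp
  | succ M ih =>
    rw [Finset.sum_range_succ, psum_succ]
    split_ifs with h
    · rw [det2 hb a M h]
      exact min_le_left _ _
    · rw [min_eq_right (not_lt.1 h)] at ih
      linarith [min_le_right (psum B M ω + B M ω) a]

end RenewalAux

namespace Walk

open RenewalAux

variable {Ω : Type*} [MeasurableSpace Ω] {P : Measure Ω} {β : Measure ℝ} {B : ℕ → Ω → ℝ}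

lemma measurable_psum (h : Walk P β B) (n : ℕ) : Measurable (psum B n) :=
  MP_ac6554_pr.measurable_psum fun i _ => h.meas i

lemma prob (h : Walk P β B) : IsProbabilityMeasure β := by
  have := h.indep.isProbabilityMeasure
  rw [← h.law 0]
  exact Measure.isProbabilityMeasure_map (h.meas 0).aemeasurable

lemma ae_nonneg (h : Walk P β B) : ∀ᵐ ω ∂P, ∀ i, 0 ≤ B i ω := by
  rw [ae_all_iff]
  intro i
  have := h.nonneg
  rw [← h.law i] at this
  exact ae_of_ae_map (h.meas i).aemeasurable this

lemma lintegral_mul (h : Walk P β B) (n : ℕ) {f g : ℝ → ℝ≥0∞} (hf : Measurable f)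
    (hg : Measurable g) :
    ∫⁻ ω, f (psum B n ω) * g (B n ω) ∂P = (∫⁻ ω, f (psum B n ω) ∂P) * ∫⁻ b, g b ∂β := by
  have h1 : IndepFun (psum B n) (B n) P := by
    have := h.indep.indepFun_sum_range_succ h.meas n
    have e : psum B n = ∑ j ∈ Finset.range n, B j := by
      funext ω; simp [psum]
    rwa [e]
  rw [← h.law n, lintegral_map hg (h.meas n)]
  exact lintegral_mul_eq_lintegral_mul_lintegral_of_indepFun''
    (hf.comp (h.measurable_psum n)).aemeasurable (hg.comp (h.meas n)).aemeasurable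
    (h1.comp hf hg)

lemma lintegral_id (h : Walk P β B) :
    ∫⁻ b, ENNReal.ofReal b ∂β = ENNReal.ofReal (∫ b, b ∂β) :=
  (ofReal_integral_eq_lintegral_ofReal (integrable_of_mem_interior_integrableExpSet h.expm)
    h.nonneg).symm

/-- Exponentially weighted renewal measure. -/
lemma weight (h : Walk P β B) {l : ℝ} (hl : 0 < l) : ∃ K : ℝ≥0∞, K ≠ ∞ ∧ ∀ a : ℝ,
    ∑' n, ∫⁻ ω, ENNReal.ofReal (if psum B n ω < a then exp (l * (psum B n ω - a)) else 0) ∂P
      ≤ K := by
  have := h.indep.isProbabilityMeasure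
  set q := ∫⁻ b, ENNReal.ofReal (exp (l * min b 1) - 1) ∂β with hq
  have mg : Measurable fun b : ℝ => ENNReal.ofReal (exp (l * min b 1) - 1) := by fun_prop
  have q0 : q ≠ 0 := by
    intro h0
    rw [hq, lintegral_eq_zero_iff mg] at h0
    have : ∫ b, b ∂β ≤ 0 := by
      refine integral_nonpos_of_ae ?_
      filter_upwards [h0] with b hb
      simp only [Pi.zero_apply, ENNReal.ofReal_eq_zero, sub_nonpos, exp_le_one_iff] at hb ⊢
      by_contra hb'
      have : 0 < l * min b 1 := mul_pos hl (lt_min (not_le.1 hb') one_pos)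
      linarith
    linarith [h.mean]
  refine ⟨ENNReal.ofReal (exp l) / q, (ENNReal.div_lt_top ENNReal.ofReal_ne_top q0).ne,
    fun a => ?_⟩
  have mf : Measurable fun x : ℝ => ENNReal.ofReal (if x < a then exp (l * (x - a)) else 0) :=
    (Measurable.ite measurableSet_Iio (by fun_prop) measurable_const).ennreal_ofReal
  rw [ENNReal.le_div_iff_mul_le (Or.inl q0) (Or.inr ENNReal.ofReal_ne_top),
    ← ENNReal.tsum_mul_right]
  refine ENNReal.tsum_le_of_sum_range_le fun M => ?_
  simp only [hq, ← h.lintegral_mul _ mf mg]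
  rw [← lintegral_finsetSum]
  swap
  · exact fun n _ => (mf.comp (h.measurable_psum n)).mul (mg.comp (h.meas n))
  calc _ ≤ ∫⁻ _, ENNReal.ofReal (exp l) ∂P := by
        refine lintegral_mono_ae ?_
        filter_upwards [h.ae_nonneg] with ω hω
        have e0 : ∀ n, 0 ≤ (if psum B n ω < a then exp (l * (psum B n ω - a)) else 0) :=
          fun n => by split_ifs <;> positivity
        have e1 : ∀ n, 0 ≤ exp (l * min (B n ω) 1) - 1 := fun n =>
          sub_nonneg.2 (one_le_exp (mul_nonneg hl.le (le_min (hω n) zero_le_one)))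
        simp only [← ENNReal.ofReal_mul (e0 _)]
        rw [← ENNReal.ofReal_sum_of_nonneg fun n _ => mul_nonneg (e0 n) (e1 n)]
        refine ENNReal.ofReal_le_ofReal ((det1 hω hl a M).trans (exp_le_exp.2 ?_))
        nlinarith [min_le_right (psum B M ω) (a + 1)]
    _ = _ := by simp

lemma measurable_over_term (h : Walk P β B) (a : ℝ) (n : ℕ) : Measurable fun ω =>
    ENNReal.ofReal (if psum B n ω < a then max (psum B n ω + B n ω - a) 0 else 0) := by
  have := h.measurable_psum n
  have := h.meas n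
  exact (Measurable.ite (measurableSet_lt (by fun_prop) measurable_const) (by fun_prop)
    measurable_const).ennreal_ofReal

lemma measurable_over (h : Walk P β B) (a : ℝ) : Measurable (osh B a) :=
  Measurable.tsum fun n => h.measurable_over_term a n

/-- The overshoot has bounded mean. -/
theorem overshoot (h : Walk P β B) : ∃ K : ℝ, 0 ≤ K ∧ ∀ a : ℝ,
    ∫⁻ ω, osh B a ω ∂P ≤ ENNReal.ofReal K := by
  obtain ⟨l, hl, hl0⟩ : ∃ l ∈ integrableExpSet id β, 0 < l := by
    have h1 : ∀ᶠ l in 𝓝[>] (0 : ℝ), l ∈ integrableExpSet id β :=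
      mem_nhdsWithin_of_mem_nhds (mem_interior_iff_mem_nhds.1 h.expm)
    exact (h1.and self_mem_nhdsWithin).exists
  obtain ⟨K, hK, hw⟩ := h.weight hl0
  have mg : Measurable fun b : ℝ => ENNReal.ofReal (exp (l * b) / l) := by fun_prop
  have hfin : ∫⁻ b, ENNReal.ofReal (exp (l * b) / l) ∂β ≠ ∞ :=
    (Integrable.lintegral_lt_top (Integrable.div_const hl l)).ne
  refine ⟨(K * ∫⁻ b, ENNReal.ofReal (exp (l * b) / l) ∂β).toReal, ENNReal.toReal_nonneg,
    fun a => ?_⟩
  have mf : Measurable fun x : ℝ => ENNReal.ofReal (if x < a then exp (l * (x - a)) else 0) :=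
    (Measurable.ite measurableSet_Iio (by fun_prop) measurable_const).ennreal_ofReal
  rw [ENNReal.ofReal_toReal (ENNReal.mul_ne_top hK hfin)]
  refine le_trans ?_ (mul_le_mul_left (hw a) _)
  rw [← ENNReal.tsum_mul_right]
  unfold osh
  rw [lintegral_tsum fun n => (h.measurable_over_term a n).aemeasurable]
  refine ENNReal.tsum_le_tsum fun n => ?_
  rw [← h.lintegral_mul _ mf mg]
  refine lintegral_mono fun ω => ?_
  simp only
  split_ifs with hn
  · rw [← ENNReal.ofReal_mul (exp_pos _).le]
    refine ENNReal.ofReal_le_ofReal (max_le ?_ (by positivity))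
    rw [← mul_div_assoc, ← exp_add, le_div_iff₀ hl0]
    have := add_one_le_exp (l * (psum B n ω - a) + l * B n ω)
    nlinarith
  · simp

lemma wald (h : Walk P β B) (a : ℝ) (M : ℕ) :
    (∑ n ∈ Finset.range M, P {ω | psum B n ω < a}) * ENNReal.ofReal (∫ b, b ∂β) =
      ∫⁻ ω, ENNReal.ofReal (∑ n ∈ Finset.range M, if psum B n ω < a then B n ω else 0) ∂P := by
  have mf : Measurable fun x : ℝ => (Iio a).indicator (fun _ => (1 : ℝ≥0∞)) x :=
    measurable_const.indicator measurableSet_Iio
  have e1 : ∀ n, P {ω | psum B n ω < a} =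
      ∫⁻ ω, (Iio a).indicator (fun _ => (1 : ℝ≥0∞)) (psum B n ω) ∂P := fun n => by
    have := lintegral_indicator_one (μ := P) (h.measurable_psum n (measurableSet_Iio (a := a)))
    exact this.symm
  simp only [Finset.sum_mul, e1, ← h.lintegral_id,
    ← h.lintegral_mul _ mf ENNReal.measurable_ofReal]
  rw [← lintegral_finsetSum]
  swap
  · exact fun n _ =>
      (mf.comp (h.measurable_psum n)).mul (ENNReal.measurable_ofReal.comp (h.meas n))
  refine lintegral_congr_ae ?_
  filter_upwards [h.ae_nonneg] with ω hω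
  rw [ENNReal.ofReal_sum_of_nonneg fun n _ => by split_ifs; exacts [hω n, le_rfl]]
  refine Finset.sum_congr rfl fun n _ => ?_
  by_cases hn : psum B n ω < a <;> simp [hn]

/-- Upper bound for the renewal function. -/
theorem count_le (h : Walk P β B) : ∃ K : ℝ, 0 ≤ K ∧ ∀ a : ℝ, 0 ≤ a →
    ∑' n, P {ω | psum B n ω < a} ≤ ENNReal.ofReal (a / (∫ b, b ∂β) + K) := by
  have := h.indep.isProbabilityMeasure
  obtain ⟨K, hK, ho⟩ := h.overshoot
  have hE := h.mean
  refine ⟨K / ∫ b, b ∂β, by positivity, fun a ha => ?_⟩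
  rw [← add_div, ENNReal.ofReal_div_of_pos hE,
    ENNReal.le_div_iff_mul_le (Or.inl (by simpa using hE)) (Or.inl ENNReal.ofReal_ne_top),
    ← ENNReal.tsum_mul_right]
  refine ENNReal.tsum_le_of_sum_range_le fun M => ?_
  rw [← Finset.sum_mul, h.wald]
  calc _ ≤ ∫⁻ ω, (ENNReal.ofReal a + osh B a ω) ∂P := by
        refine lintegral_mono_ae ?_
        filter_upwards [h.ae_nonneg] with ω hω
        have e0 : ∀ n, 0 ≤ (if psum B n ω < a then max (psum B n ω + B n ω - a) 0 else 0) :=
          fun n => by split_ifs <;> simp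
        refine (ENNReal.ofReal_le_ofReal (det3 hω ha M)).trans ?_
        rw [ENNReal.ofReal_add ha (Finset.sum_nonneg fun n _ => e0 n),
          ENNReal.ofReal_sum_of_nonneg fun n _ => e0 n]
        exact add_le_add_right (ENNReal.sum_le_tsum _) _
    _ ≤ _ := by
        rw [lintegral_add_left measurable_const, lintegral_const, measure_univ, mul_one,
          ENNReal.ofReal_add ha hK]
        exact add_le_add_right (ho a) _

lemma tendsto_lt (h : Walk P β B) (a : ℝ) :
    Tendsto (fun n => P {ω | psum B n ω < a}) atTop (𝓝 0) := by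
  obtain ⟨K, -, hK⟩ := h.count_le
  refine ENNReal.tendsto_atTop_zero_of_tsum_ne_top (ne_top_of_le_ne_top ENNReal.ofReal_ne_top
    (le_trans (ENNReal.tsum_le_tsum fun n => measure_mono fun ω hω => ?_)
      (hK (max a 0) (le_max_right _ _))))
  exact lt_max_of_lt_left (show psum B n ω < a from hω)

/-- Lower bound for the renewal function. -/
theorem le_count (h : Walk P β B) (a : ℝ) :
    ENNReal.ofReal (a / ∫ b, b ∂β) ≤ ∑' n, P {ω | psum B n ω < a} := by
  have := h.indep.isProbabilityMeasure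
  have hE := h.mean
  rw [ENNReal.ofReal_div_of_pos hE,
    ENNReal.div_le_iff (by simpa using hE) ENNReal.ofReal_ne_top]
  have t1 : Tendsto (fun M => (∑' n, P {ω | psum B n ω < a}) * ENNReal.ofReal (∫ b, b ∂β) +
      ENNReal.ofReal a * P {ω | psum B M ω < a}) atTop
      (𝓝 ((∑' n, P {ω | psum B n ω < a}) * ENNReal.ofReal (∫ b, b ∂β) + ENNReal.ofReal a * 0)) :=
    tendsto_const_nhds.add (ENNReal.Tendsto.const_mul (h.tendsto_lt a)
      (Or.inr ENNReal.ofReal_ne_top))
  rw [mul_zero, add_zero] at t1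
  refine ge_of_tendsto' t1 fun M => ?_
  have ms : MeasurableSet {ω | psum B M ω < a} := h.measurable_psum M measurableSet_Iio
  calc ENNReal.ofReal a = ∫⁻ _, ENNReal.ofReal a ∂P := by simp
    _ ≤ ∫⁻ ω, (ENNReal.ofReal (∑ n ∈ Finset.range M, if psum B n ω < a then B n ω else 0) +
          {ω | psum B M ω < a}.indicator (fun _ => ENNReal.ofReal a) ω) ∂P := by
        refine lintegral_mono_ae ?_
        filter_upwards [h.ae_nonneg] with ω hω
        by_cases hM : psum B M ω < a
        · rw [indicator_of_mem (show ω ∈ {ω | psum B M ω < a} from hM)]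
          exact le_add_self
        · have := det4 hω a M
          rw [min_eq_right (not_lt.1 hM)] at this
          exact (ENNReal.ofReal_le_ofReal this).trans le_self_add
    _ ≤ _ := by
        rw [lintegral_add_right _ (measurable_const.indicator ms), ← h.wald,
          lintegral_indicator_const ms]
        gcongr
        exact ENNReal.sum_le_tsum _

/-- The renewal measure of a window of length `d` is bounded. -/
theorem window (h : Walk P β B) (d : ℝ) : ∃ K : ℝ, 0 ≤ K ∧ ∀ x : ℝ,
    ∑' n, P {ω | x ≤ psum B n ω ∧ psum B n ω ≤ x + d} ≤ ENNReal.ofReal K := by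
  obtain ⟨K, hK, hw⟩ := h.weight one_pos
  refine ⟨(ENNReal.ofReal (exp (d + 1)) * K).toReal, ENNReal.toReal_nonneg, fun x => ?_⟩
  rw [ENNReal.ofReal_toReal (ENNReal.mul_ne_top ENNReal.ofReal_ne_top hK)]
  refine le_trans ?_ (mul_le_mul_right (hw (x + d + 1)) _)
  rw [← ENNReal.tsum_mul_left]
  refine ENNReal.tsum_le_tsum fun n => ?_
  have ms : MeasurableSet {ω | x ≤ psum B n ω ∧ psum B n ω ≤ x + d} :=
    h.measurable_psum n measurableSet_Icc
  rw [← lintegral_const_mul' _ _ ENNReal.ofReal_ne_top, ← lintegral_indicator_one ms]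
  refine lintegral_mono fun ω => ?_
  by_cases hω : ω ∈ {ω | x ≤ psum B n ω ∧ psum B n ω ≤ x + d}
  · rw [indicator_of_mem hω]
    simp only [Pi.one_apply]
    rw [if_pos (by linarith [hω.2]), ← ENNReal.ofReal_mul (exp_pos _).le, ← exp_add,
      ENNReal.one_le_ofReal]
    exact one_le_exp (by linarith [hω.1])
  · rw [indicator_of_notMem hω]
    exact zero_le

/-- The renewal function is `a / E B + O(1)`. -/
theorem count_abs (h : Walk P β B) : ∃ K : ℝ, ∀ a : ℝ, 0 ≤ a →
    ∑' n, P {ω | psum B n ω < a} ≠ ∞ ∧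
      |(∑' n, P {ω | psum B n ω < a}).toReal - a / ∫ b, b ∂β| ≤ K := by
  obtain ⟨K, hK0, hK⟩ := h.count_le
  refine ⟨K, fun a ha => ?_⟩
  have hE := h.mean
  have hfin := ne_top_of_le_ne_top ENNReal.ofReal_ne_top (hK a ha)
  have h1 := ENNReal.toReal_le_of_le_ofReal (by positivity) (hK a ha)
  have h2 := (ENNReal.ofReal_le_iff_le_toReal hfin).1 (h.le_count a)
  exact ⟨hfin, abs_le.2 ⟨by linarith, by linarith⟩⟩

/-- The same count with closed inequalities, without the index `0`, for every real level. -/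
theorem count_abs_le (h : Walk P β B) : ∃ K : ℝ, ∀ a : ℝ,
    ∑' n, P {ω | psum B (n + 1) ω ≤ a} ≠ ∞ ∧
      |(∑' n, P {ω | psum B (n + 1) ω ≤ a}).toReal - max a 0 / ∫ b, b ∂β| ≤ K := by
  have := h.indep.isProbabilityMeasure
  obtain ⟨K, hK0, hK⟩ := h.count_le
  have hE := h.mean
  refine ⟨1 / (∫ b, b ∂β) + K + 1, fun a => ?_⟩
  have ha : 0 ≤ max a 0 := le_max_right _ _
  have hup : ∑' n, P {ω | psum B (n + 1) ω ≤ a} ≤
      ENNReal.ofReal ((max a 0 + 1) / (∫ b, b ∂β) + K) := by
    refine le_trans ?_ (hK _ (by positivity))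
    refine le_trans (ENNReal.tsum_le_tsum fun n => measure_mono fun ω hω => ?_)
      (ENNReal.tsum_comp_le_tsum_of_injective Nat.succ_injective
        fun n => P {ω | psum B n ω < max a 0 + 1})
    have : psum B (n + 1) ω ≤ a := hω
    change psum B (n + 1) ω < max a 0 + 1
    linarith [le_max_left a 0]
  have hfin := ne_top_of_le_ne_top ENNReal.ofReal_ne_top hup
  have h1 := ENNReal.toReal_le_of_le_ofReal (by positivity) hup
  rw [add_div] at h1
  have hE' : 0 < 1 / ∫ b, b ∂β := by positivity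
  refine ⟨hfin, abs_le.2 ⟨?_, by linarith⟩⟩
  rcases le_total a 0 with ha0 | ha0
  · rw [max_eq_right ha0, zero_div]
    linarith [ENNReal.toReal_nonneg (a := ∑' n, P {ω | psum B (n + 1) ω ≤ a})]
  · rw [max_eq_left ha0]
    have h2 : ENNReal.ofReal (a / ∫ b, b ∂β) ≤ 1 + ∑' n, P {ω | psum B (n + 1) ω ≤ a} := by
      refine (h.le_count a).trans ?_
      rw [tsum_eq_zero_add' ENNReal.summable]
      exact add_le_add prob_le_one
        (ENNReal.tsum_le_tsum fun n => measure_mono fun ω hω =>
          le_of_lt (show psum B (n + 1) ω < a from hω))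
    rw [ENNReal.ofReal_le_iff_le_toReal (ENNReal.add_ne_top.2 ⟨ENNReal.one_ne_top, hfin⟩),
      ENNReal.toReal_add ENNReal.one_ne_top hfin, ENNReal.toReal_one] at h2
    linarith

end Walk

end Pool.Agent.MP_ac6554_pr
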