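import Pool.Agent.MP_ac6554_pr.Chain
import Pool.Agent.MP_ac6554_pr.Endgame
import Pool.Agent.MP_ac6554_pr.Renewal
import Pool.Agent.MP_ac6554_pr.Freeze

set_option autoImplicit false

open MeasureTheory ProbabilityTheory TopologicalSpace Metric Set Filter Topology
open scoped NNReal ENNReal

namespace Pool.Agent.MP_ac6554_pr

variable {κ : ℝ} {Ω : Type} [MeasurableSpace Ω] {P : Measure Ω} {V : ℕ → Ω → Opens ℂ}
  {i : ℕ → Ω → ℕ} {f : ℕ → Ω → ℂ → ℂ} {e : ℕ → ℕ → Ω → ℕ}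

namespace MeanAux

/-- The event that the `k`-th loop surrounds the disc. -/
def ev (F : ℂ → ℂ) (V : ℕ → Ω → Opens ℂ) (z : ℂ) (δ : ℝ) (k : ℕ) : Set Ω :=
  {ω | ball z δ ⊆ F '' (ball 0 1 ∩ V k ω)}

theorem measurableSet_ev (h : Sk κ P V i f e) {F : ℂ → ℂ} (hF : Univ F) (z : ℂ) (δ : ℝ) (k : ℕ) :
    MeasurableSet (ev F V z δ k) :=
  ((h.meas k).prodMk (measurable_const (a := z))) (measurableSet_surr hF δ)

theorem lint_cnt (h : Sk κ P V i f e) {F : ℂ → ℂ} (hF : Univ F) (z : ℂ) (δ : ℝ) :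
    ∫⁻ ω, cnt F (fun k => V k ω) z δ ∂P = ∑' k, P (ev F V z δ k) := by
  have e1 : ∀ ω, cnt F (fun k => V k ω) z δ = ∑' k, (ev F V z δ k).indicator 1 ω := by
    intro ω
    refine tsum_congr fun k => ?_
    by_cases hk : ball z δ ⊆ F '' (ball 0 1 ∩ V k ω)
    · rw [indicator_of_mem (show k ∈ {k | ball z δ ⊆ F '' (ball 0 1 ∩ V k ω)} from hk),
        indicator_of_mem (show ω ∈ ev F V z δ k from hk)]
      rfl
    · rw [indicator_of_notMem (show k ∉ {k | ball z δ ⊆ F '' (ball 0 1 ∩ V k ω)} from hk),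
        indicator_of_notMem (show ω ∉ ev F V z δ k from hk)]
  simp_rw [e1]
  rw [lintegral_tsum fun k =>
    (measurable_one.indicator (measurableSet_ev h hF z δ k)).aemeasurable]
  exact tsum_congr fun k => lintegral_indicator_one (measurableSet_ev h hF z δ k)

theorem zero_mem {G : ℂ → ℂ} (hG : Univ G) {δ : ℝ} (hδ : 0 < δ) {U : Set ℂ}
    (hU : ball (G 0) δ ⊆ G '' (ball 0 1 ∩ U)) : (0 : ℂ) ∈ U := by
  obtain ⟨y, hy, hy0⟩ := hU (mem_ball_self hδ)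
  rw [hG.2 hy.1 (mem_ball_self one_pos) hy0] at hy
  exact hy.2

theorem sub_comp {G : ℂ → ℂ} (hG : Univ G) {δ : ℝ} (hδ : 0 < δ) {U : Set ℂ}
    (hU : ball (G 0) δ ⊆ G '' (ball 0 1 ∩ U)) :
    ball (G 0) δ ⊆ G '' connectedComponentIn U 0 := by
  have hsub : ball (G 0) δ ⊆ G '' ball 0 1 := hU.trans (image_mono inter_subset_left)
  have hc : ContinuousOn (Function.invFunOn G (ball 0 1)) (ball (G 0) δ) :=
    (univ_inv_diff isOpen_ball hG.1 hG.2).continuousOn.mono hsub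
  have hpre : IsPreconnected (Function.invFunOn G (ball 0 1) '' ball (G 0) δ) :=
    (convex_ball _ _).isPreconnected.image _ hc
  have h0 : (0 : ℂ) ∈ Function.invFunOn G (ball 0 1) '' ball (G 0) δ :=
    ⟨G 0, mem_ball_self hδ, hG.2.leftInvOn_invFunOn (mem_ball_self one_pos)⟩
  have hU' : Function.invFunOn G (ball 0 1) '' ball (G 0) δ ⊆ U := by
    rintro _ ⟨w, hw, rfl⟩
    obtain ⟨y, hy, rfl⟩ := hU hw
    rw [hG.2.leftInvOn_invFunOn hy.1]
    exact hy.2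
  have hcc := hpre.subset_connectedComponentIn h0 hU'
  intro w hw
  obtain ⟨y, hy, rfl⟩ := hsub hw
  exact ⟨y, hcc ⟨G y, hw, hG.2.leftInvOn_invFunOn hy⟩, rfl⟩

theorem cnt_eq (h : Sk κ P V i f e) {G : ℂ → ℂ} (hG : Univ G) {δ : ℝ} (hδ : 0 < δ) (ω : Ω) :
    cnt G (fun k => V k ω) (G 0) δ =
      ∑' n, {n | ball (G 0) δ ⊆ (fun w => G (f n ω w)) '' ball 0 1}.indicator 1 n := by
  unfold cnt
  rw [← (h.iinj ω).tsum_eq]
  · refine tsum_congr fun n => ?_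
    have him : (fun w => G (f n ω w)) '' ball 0 1 =
        G '' connectedComponentIn (V (i n ω) ω : Set ℂ) 0 := by
      rw [← coe_comp0, ← (h.fconf ω n).2.image_eq, image_image]
    have hiff : ball (G 0) δ ⊆ G '' (ball 0 1 ∩ V (i n ω) ω) ↔
        ball (G 0) δ ⊆ (fun w => G (f n ω w)) '' ball 0 1 := by
      rw [him]
      refine ⟨sub_comp hG hδ, fun hh => hh.trans (image_mono fun y hy => ?_)⟩
      have hy' := connectedComponentIn_subset _ _ hy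
      exact ⟨((h.good ω).1 _).2 hy', hy'⟩
    by_cases hk : ball (G 0) δ ⊆ G '' (ball 0 1 ∩ V (i n ω) ω)
    · rw [indicator_of_mem (show i n ω ∈ {k | ball (G 0) δ ⊆ G '' (ball 0 1 ∩ V k ω)} from hk),
        indicator_of_mem (show n ∈ {n | ball (G 0) δ ⊆ (fun w => G (f n ω w)) '' ball 0 1} from
          hiff.1 hk)]
      rfl
    · rw [indicator_of_notMem
          (show i n ω ∉ {k | ball (G 0) δ ⊆ G '' (ball 0 1 ∩ V k ω)} from hk),
        indicator_of_notMem (show n ∉ {n | ball (G 0) δ ⊆ (fun w => G (f n ω w)) '' ball 0 1} from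
          fun hh => hk (hiff.2 hh))]
  · intro k hk
    rw [h.irange ω]
    exact zero_mem hG hδ (mem_of_indicator_ne_zero hk)

omit [MeasurableSpace Ω] in
theorem psum_eq (n : ℕ) (ω : Ω) : psum (Bb f) (n + 1) ω = Tt f n ω := sum_Bb f n ω

theorem ms (h : Sk κ P V i f e) (n : ℕ) (a : ℝ) :
    MeasurableSet {ω | psum (Bb f) (n + 1) ω ≤ a} :=
  measurableSet_le (measurable_psum fun j _ => h.measurable_Bb j) measurable_const

theorem lint_ind (h : Sk κ P V i f e) (a : ℝ) :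
    ∫⁻ ω, ∑' n, {ω | psum (Bb f) (n + 1) ω ≤ a}.indicator 1 ω ∂P =
      ∑' n, P {ω | psum (Bb f) (n + 1) ω ≤ a} := by
  rw [lintegral_tsum fun n => (measurable_one.indicator (ms h n a)).aemeasurable]
  exact tsum_congr fun n => lintegral_indicator_one (ms h n a)

theorem upper (h : Sk κ P V i f e) {G : ℂ → ℂ} (hG : Univ G) {δ : ℝ} (hδ : 0 < δ) :
    ∫⁻ ω, cnt G (fun k => V k ω) (G 0) δ ∂P ≤
      ∑' n, P {ω | psum (Bb f) (n + 1) ω ≤ Real.log ‖deriv G 0‖ + Real.log (1 / δ)} := by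
  rw [← lint_ind h]
  refine lintegral_mono fun ω => ?_
  rw [cnt_eq h hG hδ]
  refine ENNReal.tsum_le_tsum fun n => ?_
  by_cases hn : n ∈ {n | ball (G 0) δ ⊆ (fun w => G (f n ω w)) '' ball 0 1}
  · obtain ⟨hu, hd⟩ := h.univ_comp hG n ω
    have h1 := schwarz_cover one_pos hu.1 hu.2 (by simpa [h.f0 ω n] using hn)
    rw [hd, one_mul] at h1
    have hg : 0 < ‖deriv G 0‖ :=
      norm_pos_iff.2 (univ_deriv_ne_zero isOpen_ball hG.1 hG.2 (mem_ball_self one_pos))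
    have h2 := Real.log_le_log hδ h1
    rw [Real.log_mul hg.ne' (Real.exp_pos _).ne', Real.log_exp] at h2
    rw [indicator_of_mem hn, indicator_of_mem]
    · rfl
    · change psum (Bb f) (n + 1) ω ≤ _
      rw [psum_eq, one_div, Real.log_inv]
      linarith
  · rw [indicator_of_notMem hn]
    exact zero_le

theorem lower (h : Sk κ P V i f e) : ∃ c : ℝ, ∀ {G : ℂ → ℂ}, Univ G → ∀ {δ : ℝ}, 0 < δ →
    ∑' n, P {ω | psum (Bb f) (n + 1) ω ≤ c + Real.log ‖deriv G 0‖ + Real.log (1 / δ)} ≤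
      ∫⁻ ω, cnt G (fun k => V k ω) (G 0) δ ∂P := by
  obtain ⟨c, hc, -, hk⟩ := koebe
  refine ⟨Real.log c, fun {G} hG {δ} hδ => ?_⟩
  rw [← lint_ind h]
  refine lintegral_mono fun ω => ?_
  rw [cnt_eq h hG hδ]
  refine ENNReal.tsum_le_tsum fun n => ?_
  by_cases hn : ω ∈ {ω | psum (Bb f) (n + 1) ω ≤
      Real.log c + Real.log ‖deriv G 0‖ + Real.log (1 / δ)}
  · obtain ⟨hu, hd⟩ := h.univ_comp hG n ω
    have h1 := hk _ 0 1 one_pos hu.1 hu.2
    have hg : 0 < ‖deriv G 0‖ :=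
      norm_pos_iff.2 (univ_deriv_ne_zero isOpen_ball hG.1 hG.2 (mem_ball_self one_pos))
    have h2 : δ ≤ c * 1 * ‖deriv (fun w => G (f n ω w)) 0‖ := by
      rw [hd, mul_one, ← Real.log_le_log_iff hδ (by positivity),
        Real.log_mul hc.ne' (by positivity), Real.log_mul hg.ne' (Real.exp_pos _).ne',
        Real.log_exp]
      have h3 : psum (Bb f) (n + 1) ω ≤ _ := hn
      rw [psum_eq, one_div, Real.log_inv] at h3
      linarith
    rw [indicator_of_mem hn, indicator_of_mem]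
    · rfl
    · refine subset_trans ?_ h1
      simp only [h.f0 ω n]
      exact ball_subset_ball h2
  · rw [indicator_of_notMem hn]
    exact zero_le

theorem cnt_perm (G : ℂ → ℂ) (z : ℂ) (δ : ℝ) (v w : Ens) (hvw : relabel.r v w) :
    cnt G v z δ = cnt G w z δ := by
  obtain ⟨σ, rfl⟩ := hvw
  unfold cnt
  rw [← σ.tsum_eq]
  rfl

theorem transfer (h : Sk κ P V i f e) {F : ℂ → ℂ} (hF : Univ F) {ζ : ℂ}
    (hζ : ζ ∈ closedBall (0 : ℂ) (1 / 2)) : ∃ G : ℂ → ℂ, Univ G ∧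
      ‖deriv F ζ‖ / 2 ≤ ‖deriv G 0‖ ∧ ‖deriv G 0‖ ≤ 2 * ‖deriv F ζ‖ ∧ ∀ δ : ℝ,
      ∫⁻ ω, cnt F (fun k => V k ω) (F ζ) δ ∂P = ∫⁻ ω, cnt G (fun k => V k ω) (G 0) δ ∂P := by
  have hζ' : ‖ζ‖ ≤ 1 / 2 := by simpa using hζ
  have hζ1 : ζ ∈ ball (0 : ℂ) 1 := by rw [mem_ball_zero_iff]; linarith
  obtain ⟨φ, hφ, hφ0, hid⟩ := h.moebius ζ hζ1
  have hG : Univ (fun w => F (φ w)) :=
    ⟨hF.1.comp hφ.1 hφ.2.mapsTo, hF.2.comp hφ.2.injOn hφ.2.mapsTo⟩
  have hder : deriv (fun w => F (φ w)) 0 = deriv F ζ * deriv φ 0 := by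
    have a1 : DifferentiableAt ℂ φ 0 := hφ.1.differentiableAt (ball_mem_nhds _ one_pos)
    have a2 : DifferentiableAt ℂ F (φ 0) := by
      rw [hφ0]; exact hF.1.differentiableAt (isOpen_ball.mem_nhds hζ1)
    rw [← hφ0]
    exact deriv_comp 0 a2 a1
  have hlo : 1 / 2 ≤ ‖deriv φ 0‖ := by
    have := schwarz_cover (ρ := 1 / 2) one_pos hφ.1 hφ.2.injOn (by
      rw [hφ.2.image_eq, hφ0]
      intro w hw
      rw [mem_ball_zero_iff]
      rw [mem_ball, dist_eq_norm] at hw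
      calc ‖w‖ = ‖(w - ζ) + ζ‖ := by ring_nf
        _ ≤ ‖w - ζ‖ + ‖ζ‖ := norm_add_le _ _
        _ < 1 := by linarith)
    simpa using this
  have hhi : ‖deriv φ 0‖ ≤ 2 := by
    have := Complex.norm_deriv_le_div_of_mapsTo_ball (R₂ := 2) hφ.1 (fun w hw => by
      have h1 := hφ.2.mapsTo hw
      rw [mem_ball_zero_iff] at h1
      rw [hφ0, mem_closedBall, dist_eq_norm]
      calc ‖φ w - ζ‖ ≤ ‖φ w‖ + ‖ζ‖ := norm_sub_le _ _
        _ ≤ 2 := by linarith) one_pos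
    simpa using this
  refine ⟨fun w => F (φ w), hG, ?_, ?_, fun δ => ?_⟩
  · rw [hder, norm_mul]
    nlinarith [norm_nonneg (deriv F ζ)]
  · rw [hder, norm_mul]
    nlinarith [norm_nonneg (deriv F ζ)]
  · let u : Quotient relabel → ℝ≥0∞ :=
      Quotient.lift (fun v => cnt (fun w => F (φ w)) v (F ζ) δ) (cnt_perm _ _ _)
    have hu : Measurable u := by
      rw [measurable_from_quotient]
      exact (measurable_cnt hG δ).comp (measurable_id.prodMk (measurable_const (a := F ζ)))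
    have h1 := (hid.comp hu).lintegral_eq
    simp only [hφ0]
    refine Eq.trans (lintegral_congr fun ω => ?_) h1
    change _ = cnt (fun w => F (φ w)) (fun k => pull φ (V k ω)) (F ζ) δ
    unfold cnt
    have e1 : ∀ k, (fun w => F (φ w)) '' (ball 0 1 ∩ pull φ (V k ω)) =
        F '' (ball 0 1 ∩ V k ω) := by
      intro k
      have hb := ((h.good ω).1 k).2
      rw [← image_image F φ, image_pull hφ.univ (by rw [hφ.2.image_eq]; exact hb),
        inter_eq_right.2 hb]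
    simp only [e1]

theorem walk [IsProbabilityMeasure P] (h : Sk κ P V i f e) (h1 : 8 / 3 < κ) (h2 : κ < 8)
    (h4 : κ ≠ 4) : Walk P (P.map (Bb f 0)) (Bb f) := by
  have hκ : 0 < κ := by linarith
  have hp : IsProbabilityMeasure (P.map (Bb f 0)) :=
    Measure.isProbabilityMeasure_map (h.measurable_Bb 0).aemeasurable
  have hν0 : 1 - 4 / κ ≠ 0 := by
    intro h0
    apply h4
    field_simp at h0
    linarith
  have hν : |1 - 4 / κ| < 1 / 2 := by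
    have a1 : 4 / κ < 3 / 2 := by rw [div_lt_iff₀ hκ]; linarith
    have a2 : 1 / 2 < 4 / κ := by rw [lt_div_iff₀ hκ]; linarith
    rw [abs_lt]
    constructor <;> linarith
  obtain ⟨b1, -, b2, -⟩ := ssw_moments hκ hν0 hν _ (h.ssw h1 h2 h4)
  refine ⟨h.measurable_Bb, h.indep_B.1, h.indep_B.2, ?_, b1, b2⟩
  rw [ae_map_iff (h.measurable_Bb 0).aemeasurable measurableSet_Ici]
  exact ae_of_all _ fun ω => h.Bb_nonneg 0 ω

theorem deriv_bounds {F : ℂ → ℂ} (hF : Univ F) :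
    ∃ M : ℝ, ∀ ζ ∈ closedBall (0 : ℂ) (1 / 2), 0 < ‖deriv F ζ‖ ∧ |Real.log ‖deriv F ζ‖| ≤ M := by
  have hsub : closedBall (0 : ℂ) (1 / 2) ⊆ ball 0 1 := closedBall_subset_ball (by norm_num)
  have hne : ∀ ζ ∈ closedBall (0 : ℂ) (1 / 2), 0 < ‖deriv F ζ‖ := fun ζ hζ =>
    norm_pos_iff.2 (univ_deriv_ne_zero isOpen_ball hF.1 hF.2 (hsub hζ))
  have hc : ContinuousOn (fun ζ => Real.log ‖deriv F ζ‖) (closedBall (0 : ℂ) (1 / 2)) :=
    (((hF.1.deriv isOpen_ball).continuousOn.mono hsub).norm).log fun ζ hζ => (hne ζ hζ).ne'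
  obtain ⟨M, hM⟩ := (isCompact_closedBall (0 : ℂ) (1 / 2)).exists_bound_of_continuousOn hc
  exact ⟨M, fun ζ hζ => ⟨hne ζ hζ, hM ζ hζ⟩⟩

theorem main [IsProbabilityMeasure P] (h : Sk κ P V i f e) (h1 : 8 / 3 < κ) (h2 : κ < 8)
    (h4 : κ ≠ 4) {F : ℂ → ℂ} (hF : Univ F) :
    ∃ C : ℝ, ∀ ζ ∈ closedBall (0 : ℂ) (1 / 2), ∀ δ : ℝ, 0 < δ → δ ≤ 1 →
      ∑' k, P (ev F V (F ζ) δ k) ≠ ∞ ∧
      |(∑' k, P (ev F V (F ζ) δ k)).toReal - Real.log (1 / δ) / ∫ b, b ∂(P.map (Bb f 0))| ≤ C := by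
  have hw := walk h h1 h2 h4
  obtain ⟨K, hK⟩ := hw.count_abs_le
  obtain ⟨c, hc⟩ := lower h
  obtain ⟨M, hM⟩ := deriv_bounds hF
  have hE := hw.mean
  set E := ∫ b, b ∂(P.map (Bb f 0))
  refine ⟨K + (|c| + M + Real.log 2) / E, fun ζ hζ δ hδ hδ1 => ?_⟩
  obtain ⟨G, hG, g1, g2, hL⟩ := transfer h hF hζ
  obtain ⟨m0, m1⟩ := hM ζ hζ
  rw [← lint_cnt h hF, hL]
  have hup := upper h hG hδ
  have hlo := hc hG hδ
  obtain ⟨u1, u2⟩ := hK (Real.log ‖deriv G 0‖ + Real.log (1 / δ))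
  obtain ⟨l1, l2⟩ := hK (c + Real.log ‖deriv G 0‖ + Real.log (1 / δ))
  have hfin := ne_top_of_le_ne_top u1 hup
  refine ⟨hfin, ?_⟩
  have hup' := ENNReal.toReal_mono u1 hup
  have hlo' := ENNReal.toReal_mono hfin hlo
  have ht : 0 ≤ Real.log (1 / δ) := Real.log_nonneg (by rw [le_div_iff₀ hδ]; linarith)
  have lg1 := Real.log_le_log (by positivity) g1
  have lg2 := Real.log_le_log (lt_of_lt_of_le (by positivity) g1) g2
  rw [Real.log_div m0.ne' two_ne_zero] at lg1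
  rw [Real.log_mul two_ne_zero m0.ne'] at lg2
  have l2' : 0 ≤ Real.log 2 := Real.log_nonneg one_le_two
  obtain ⟨m2, m3⟩ := abs_le.1 m1
  have c1 := le_abs_self c
  have c2 := neg_abs_le c
  have c3 := abs_nonneg c
  have x1 : max (Real.log ‖deriv G 0‖ + Real.log (1 / δ)) 0 / E ≤
      Real.log (1 / δ) / E + (|c| + M + Real.log 2) / E := by
    rw [← add_div]
    exact div_le_div_of_nonneg_right (max_le (by linarith) (by linarith)) hE.le
  have x2 : Real.log (1 / δ) / E - (|c| + M + Real.log 2) / E ≤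
      max (c + Real.log ‖deriv G 0‖ + Real.log (1 / δ)) 0 / E := by
    rw [← sub_div]
    exact div_le_div_of_nonneg_right (le_max_of_le_left (by linarith)) hE.le
  obtain ⟨u3, u4⟩ := abs_le.1 u2
  obtain ⟨l3, l4⟩ := abs_le.1 l2
  exact abs_le.2 ⟨by linarith, by linarith⟩

theorem lint_w (μ : Measure ℝ) [IsProbabilityMeasure μ] [IsProbabilityMeasure P] {S : Set Ω}
    (hS : MeasurableSet S) (k : ℕ) :
    ∫⁻ q, S.indicator 1 q.1 * ‖q.2 k‖ₑ ∂(PP P μ) = P S * ∫⁻ x, ‖x‖ₑ ∂μ := by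
  rw [lintegral_prod_mul (f := S.indicator 1) (g := fun ξ : ℕ → ℝ => ‖ξ k‖ₑ)
    (measurable_one.indicator hS).aemeasurable (measurable_pi_apply k).enorm.aemeasurable,
    lintegral_indicator_one hS]
  congr 1
  exact (measurePreserving_eval_infinitePi (fun _ : ℕ => μ) k).lintegral_comp
    (f := fun x : ℝ => ‖x‖ₑ) (by fun_prop)

theorem int_w (μ : Measure ℝ) [IsProbabilityMeasure μ] [IsProbabilityMeasure P] {S : Set Ω}
    (hS : MeasurableSet S) (k : ℕ) :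
    ∫ q, S.indicator (1 : Ω → ℝ) q.1 * q.2 k ∂(PP P μ) = (P S).toReal * ∫ x, x ∂μ := by
  rw [integral_prod_mul (f := S.indicator (1 : Ω → ℝ)) (g := fun ξ : ℕ → ℝ => ξ k),
    integral_indicator_one hS]
  congr 1
  have := integral_map (μ := Measure.infinitePi fun _ : ℕ => μ) (φ := fun ξ : ℕ → ℝ => ξ k)
    (f := fun x : ℝ => x) (measurable_pi_apply k).aemeasurable (by fun_prop)
  rw [Measure.infinitePi_map_eval] at this
  exact this.symm

theorem int_nest [IsProbabilityMeasure P] (h : Sk κ P V i f e) {F : ℂ → ℂ} (hF : Univ F)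
    (μ : Measure ℝ) [IsProbabilityMeasure μ] (hμ : MemLp id 2 μ) (z : ℂ) (δ : ℝ)
    (hfin : ∑' k, P (ev F V z δ k) ≠ ∞) :
    ∫ q, nestSum F (fun k => V k q.1) q.2 z δ ∂(PP P μ) =
      (∑' k, P (ev F V z δ k)).toReal * ∫ x, x ∂μ := by
  have e1 : ∀ q : Ω × (ℕ → ℝ), nestSum F (fun k => V k q.1) q.2 z δ =
      ∑' k, (ev F V z δ k).indicator (1 : Ω → ℝ) q.1 * q.2 k := by
    intro q
    refine tsum_congr fun k => ?_
    by_cases hk : ball z δ ⊆ F '' (ball 0 1 ∩ V k q.1)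
    · rw [indicator_of_mem (show k ∈ {k | ball z δ ⊆ F '' (ball 0 1 ∩ V k q.1)} from hk),
        indicator_of_mem (show q.1 ∈ ev F V z δ k from hk)]
      simp
    · rw [indicator_of_notMem (show k ∉ {k | ball z δ ⊆ F '' (ball 0 1 ∩ V k q.1)} from hk),
        indicator_of_notMem (show q.1 ∉ ev F V z δ k from hk), zero_mul]
  simp_rw [e1]
  have hA : ∫⁻ x, ‖x‖ₑ ∂μ ≠ ∞ := (hμ.integrable one_le_two).2.ne
  rw [integral_tsum]
  · simp_rw [int_w μ (measurableSet_ev h hF z δ _)]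
    rw [tsum_mul_right, ENNReal.tsum_toReal_eq fun k => measure_ne_top _ _]
  · intro k
    exact (((measurable_one.indicator (measurableSet_ev h hF z δ k)).comp measurable_fst).mul
      ((measurable_pi_apply k).comp measurable_snd)).aestronglyMeasurable
  · have e2 : ∀ (k : ℕ) (q : Ω × (ℕ → ℝ)),
        ‖(ev F V z δ k).indicator (1 : Ω → ℝ) q.1 * q.2 k‖ₑ =
          (ev F V z δ k).indicator 1 q.1 * ‖q.2 k‖ₑ := by
      intro k q
      by_cases hk : q.1 ∈ ev F V z δ k <;> simp [hk]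
    simp_rw [e2, lint_w μ (measurableSet_ev h hF z δ _)]
    rw [ENNReal.tsum_mul_right]
    exact ENNReal.mul_ne_top hfin hA

theorem lint_err [IsProbabilityMeasure P] (h : Sk κ P V i f e) {F : ℂ → ℂ} (hF : Univ F)
    (μ : Measure ℝ) [IsProbabilityMeasure μ] (z : ℂ) (a b : ℝ) :
    ∫⁻ q, err F (fun k => V k q.1) q.2 z a b ∂(PP P μ) =
      (∑' k, P (ev F V z a k \ ev F V z b k)) * ∫⁻ x, ‖x‖ₑ ∂μ := by
  have e1 : ∀ q : Ω × (ℕ → ℝ), err F (fun k => V k q.1) q.2 z a b =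
      ∑' k, (ev F V z a k \ ev F V z b k).indicator 1 q.1 * ‖q.2 k‖ₑ := by
    intro q
    refine tsum_congr fun k => ?_
    by_cases hk : ball z a ⊆ F '' (ball 0 1 ∩ V k q.1) ∧ ¬ ball z b ⊆ F '' (ball 0 1 ∩ V k q.1)
    · rw [indicator_of_mem (show k ∈ {k | ball z a ⊆ F '' (ball 0 1 ∩ V k q.1) ∧
          ¬ ball z b ⊆ F '' (ball 0 1 ∩ V k q.1)} from hk),
        indicator_of_mem (show q.1 ∈ ev F V z a k \ ev F V z b k from hk)]
      simp
    · rw [indicator_of_notMem (show k ∉ {k | ball z a ⊆ F '' (ball 0 1 ∩ V k q.1) ∧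
          ¬ ball z b ⊆ F '' (ball 0 1 ∩ V k q.1)} from hk),
        indicator_of_notMem (show q.1 ∉ ev F V z a k \ ev F V z b k from hk), zero_mul]
  have hm : ∀ k, MeasurableSet (ev F V z a k \ ev F V z b k) := fun k =>
    (measurableSet_ev h hF z a k).diff (measurableSet_ev h hF z b k)
  simp_rw [e1]
  rw [lintegral_tsum]
  · simp_rw [lint_w μ (hm _)]
    rw [ENNReal.tsum_mul_right]
  · intro k
    exact (((measurable_one.indicator (hm k)).comp measurable_fst).mul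
      ((measurable_pi_apply k).comp measurable_snd).enorm).aemeasurable

end MeanAux

open MeanAux

theorem Sk.mean_bound [IsProbabilityMeasure P] (h : Sk κ P V i f e) (h1 : 8 / 3 < κ) (h2 : κ < 8)
    (h4 : κ ≠ 4) {F : ℂ → ℂ} (hF : Univ F) (μ : Measure ℝ) [IsProbabilityMeasure μ]
    (hμ : MemLp id 2 μ) : ∃ C₀ : ℝ, ∀ ζ ∈ closedBall (0 : ℂ) (1 / 2), ∀ δ : ℝ, 0 < δ → δ ≤ 1 →
      |∫ q, nestSum F (fun k => V k q.1) q.2 (F ζ) δ ∂(PP P μ) -
        (∫ x, x ∂μ) / (∫ b, b ∂(P.map (Bb f 0))) * Real.log (1 / δ)| ≤ C₀ := by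
  obtain ⟨C, hC⟩ := main h h1 h2 h4 hF
  refine ⟨C * |∫ x, x ∂μ|, fun ζ hζ δ hδ hδ1 => ?_⟩
  obtain ⟨a1, a2⟩ := hC ζ hζ δ hδ hδ1
  rw [int_nest h hF μ hμ _ _ a1]
  calc _ = |((∑' k, P (ev F V (F ζ) δ k)).toReal -
        Real.log (1 / δ) / ∫ b, b ∂(P.map (Bb f 0))) * ∫ x, x ∂μ| := by congr 1; ring
    _ ≤ _ := by rw [abs_mul]; exact mul_le_mul_of_nonneg_right a2 (abs_nonneg _)

theorem Sk.err_bound [IsProbabilityMeasure P] (h : Sk κ P V i f e) (h1 : 8 / 3 < κ) (h2 : κ < 8)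
    (h4 : κ ≠ 4) {F : ℂ → ℂ} (hF : Univ F) (μ : Measure ℝ) [IsProbabilityMeasure μ]
    (hμ : MemLp id 2 μ) {c C : ℝ} (hc : 0 < c) (hcC : c ≤ C) :
    ∃ C₄ : ℝ≥0, ∀ ζ ∈ closedBall (0 : ℂ) (1 / 2), ∀ δ : ℝ, 0 < δ → C * δ ≤ 1 →
      ∫⁻ q, err F (fun k => V k q.1) q.2 (F ζ) (c * δ) (C * δ) ∂(PP P μ) ≤ C₄ := by
  obtain ⟨K, hK⟩ := main h h1 h2 h4 hF
  have hA : ∫⁻ x, ‖x‖ₑ ∂μ ≠ ∞ := (hμ.integrable one_le_two).2.ne
  set E := ∫ b, b ∂(P.map (Bb f 0))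
  refine ⟨(ENNReal.ofReal (2 * K + (Real.log C - Real.log c) / E) * ∫⁻ x, ‖x‖ₑ ∂μ).toNNReal,
    fun ζ hζ δ hδ hδ1 => ?_⟩
  rw [ENNReal.coe_toNNReal (ENNReal.mul_ne_top ENNReal.ofReal_ne_top hA), lint_err h hF]
  refine mul_le_mul_left ?_ _
  have hC : 0 < C := lt_of_lt_of_le hc hcC
  have hle : c * δ ≤ C * δ := mul_le_mul_of_nonneg_right hcC hδ.le
  obtain ⟨a1, a2⟩ := hK ζ hζ (c * δ) (by positivity) (hle.trans hδ1)
  obtain ⟨b1, b2⟩ := hK ζ hζ (C * δ) (by positivity) hδ1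
  have hsum : ∑' k, P (ev F V (F ζ) (c * δ) k \ ev F V (F ζ) (C * δ) k) +
      ∑' k, P (ev F V (F ζ) (C * δ) k) = ∑' k, P (ev F V (F ζ) (c * δ) k) := by
    rw [← ENNReal.tsum_add]
    refine tsum_congr fun k => ?_
    have hsub : ev F V (F ζ) (C * δ) k ⊆ ev F V (F ζ) (c * δ) k := fun ω hω =>
      (ball_subset_ball hle).trans hω
    rw [← measure_sdiff_add_inter (ev F V (F ζ) (c * δ) k) (measurableSet_ev h hF (F ζ) (C * δ) k),
      inter_eq_right.2 hsub]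
  have hfin : ∑' k, P (ev F V (F ζ) (c * δ) k \ ev F V (F ζ) (C * δ) k) ≠ ∞ :=
    ne_top_of_le_ne_top a1 (hsum ▸ le_self_add)
  have hsum' := congrArg ENNReal.toReal hsum
  rw [ENNReal.toReal_add hfin b1] at hsum'
  rw [← ENNReal.ofReal_toReal hfin]
  refine ENNReal.ofReal_le_ofReal ?_
  have e1 : Real.log (1 / (c * δ)) / E - Real.log (1 / (C * δ)) / E =
      (Real.log C - Real.log c) / E := by
    rw [← sub_div, one_div, one_div, Real.log_inv, Real.log_inv, Real.log_mul hc.ne' hδ.ne',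
      Real.log_mul hC.ne' hδ.ne']
    ring
  obtain ⟨a3, a4⟩ := abs_le.1 a2
  obtain ⟨b3, b4⟩ := abs_le.1 b2
  linarith

end Pool.Agent.MP_ac6554_pr
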