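import Pool.Agent.MP_ac6554_pr.Couple1
import Pool.Agent.MP_ac6554_pr.Mean

set_option autoImplicit false

open MeasureTheory ProbabilityTheory TopologicalSpace Metric Set Filter Topology
open scoped NNReal ENNReal

namespace Pool.Agent.MP_ac6554_pr

namespace CoupleAux

attribute [local irreducible] nestSum err

/-- Measurable version of a map defined on the disc. -/
noncomputable def ind (F : ℂ → ℂ) : ℂ → ℂ := (ball (0 : ℂ) 1).indicator F

theorem ind_eq {F : ℂ → ℂ} {ζ : ℂ} (h : ζ ∈ ball (0 : ℂ) 1) : ind F ζ = F ζ := indicator_of_mem h _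

theorem measurable_ind {F : ℂ → ℂ} (hF : Univ F) : Measurable (ind F) :=
  (measurable_eval (Ω := Unit) (g := fun _ => F) (fun _ => hF.1)
    (fun _ _ => measurable_const)).1.comp (measurable_prodMk_left (x := ()))

/-- The pairing of the centred field with a transported bump, written on the disc. -/
noncomputable def Psi (F : ℂ → ℂ) (E : ℂ → ℝ) (φ₀ : ℂ → ℝ) (δ : ℝ) (j : ℂ → ℂ)
    (x : Ens × (ℕ → ℝ)) : ℝ :=
  ∫ ζ in ball (0 : ℂ) 1, (nestSum F x.1 x.2 (F ζ) δ - E (F ζ)) * psi φ₀ j ζ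

/-- The error functional. -/
noncomputable def Err (F : ℂ → ℂ) (a b : ℝ) (x : Ens × (ℕ → ℝ)) : ℝ≥0∞ :=
  ∫⁻ ζ in ball (0 : ℂ) (1 / 4), err F x.1 x.2 (ind F ζ) a b

theorem measurable_Psi {Y : Type} [MeasurableSpace Y] {F : ℂ → ℂ} (hF : Univ F) {E : ℂ → ℝ}
    (hE : Measurable E) {φ₀ : ℂ → ℝ} (hφ : Continuous φ₀) (δ : ℝ) {g : Y → ℂ → ℂ}
    (hd : ∀ y, DifferentiableOn ℂ (g y) (ball 0 1))
    (hm : ∀ z ∈ ball (0 : ℂ) 1, Measurable fun y => g y z) :
    Measurable fun x : Y × (Ens × (ℕ → ℝ)) => Psi F E φ₀ δ (g x.1) x.2 := by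
  obtain ⟨m1, m2⟩ := measurable_eval hd hm
  have e : (fun x : Y × (Ens × (ℕ → ℝ)) => Psi F E φ₀ δ (g x.1) x.2) = fun x =>
      ∫ ζ in ball (0 : ℂ) 1, (nestSum F x.2.1 x.2.2 (ind F ζ) δ - E (ind F ζ)) *
        (φ₀ ((ball (0 : ℂ) 1).indicator (g x.1) ζ) *
          ‖(ball (0 : ℂ) 1).indicator (deriv (g x.1)) ζ‖ ^ 2) := by
    funext x
    refine setIntegral_congr_fun measurableSet_ball fun ζ hζ => ?_
    simp only [ind_eq hζ, indicator_of_mem hζ, psi]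
  rw [e]
  have hi := measurable_ind hF
  have k : Measurable fun q : (Y × (Ens × (ℕ → ℝ))) × ℂ =>
      (nestSum F q.1.2.1 q.1.2.2 (ind F q.2) δ - E (ind F q.2)) *
        (φ₀ ((ball (0 : ℂ) 1).indicator (g q.1.1) q.2) *
          ‖(ball (0 : ℂ) 1).indicator (deriv (g q.1.1)) q.2‖ ^ 2) := by
    have a1 : Measurable fun q : (Y × (Ens × (ℕ → ℝ))) × ℂ => (q.1.2, ind F q.2) :=
      measurable_fst.snd.prodMk (hi.comp measurable_snd)
    have a2 : Measurable fun q : (Y × (Ens × (ℕ → ℝ))) × ℂ => (q.1.1, q.2) :=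
      measurable_fst.fst.prodMk measurable_snd
    exact (((measurable_nestSum hF δ).comp a1).sub (hE.comp (hi.comp measurable_snd))).mul
      ((hφ.measurable.comp (m1.comp a2)).mul ((m2.comp a2).norm.pow_const 2))
  exact (k.stronglyMeasurable.integral_prod_right').measurable

theorem measurable_errInd {F : ℂ → ℂ} (hF : Univ F) (a b : ℝ) :
    Measurable fun q : (Ens × (ℕ → ℝ)) × ℂ => err F q.1.1 q.1.2 (ind F q.2) a b :=
  (measurable_err hF a b).comp (measurable_fst.prodMk ((measurable_ind hF).comp measurable_snd))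

theorem measurable_Err {F : ℂ → ℂ} (hF : Univ F) (a b : ℝ) : Measurable (Err F a b) :=
  (measurable_errInd hF a b).lintegral_prod_right'

variable {κ : ℝ} {Ω : Type} [MeasurableSpace Ω] {P : Measure Ω} {V : ℕ → Ω → Opens ℂ}
  {i : ℕ → Ω → ℕ} {f : ℕ → Ω → ℂ → ℂ} {e : ℕ → ℕ → Ω → ℕ}

/-- The mean of the nesting sum. -/
noncomputable def EE (P : Measure Ω) (V : ℕ → Ω → Opens ℂ) (μ : Measure ℝ) (F : ℂ → ℂ) (δ : ℝ)
    (z : ℂ) : ℝ := ∫ q, nestSum F (fun k => V k q.1) q.2 z δ ∂(PP P μ)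

theorem measurable_lab (h : Sk κ P V i f e) :
    Measurable fun q : Ω × (ℕ → ℝ) => ((fun k => V k q.1 : Ens), q.2) :=
  (measurable_pi_lambda _ fun k => (h.meas k).comp measurable_fst).prodMk measurable_snd

theorem measurable_EE [IsProbabilityMeasure P] (h : Sk κ P V i f e) (μ : Measure ℝ)
    [IsProbabilityMeasure μ] {F : ℂ → ℂ} (hF : Univ F) (δ : ℝ) : Measurable (EE P V μ F δ) := by
  have k : Measurable fun q : (Ω × (ℕ → ℝ)) × ℂ => nestSum F (fun k => V k q.1.1) q.1.2 q.2 δ :=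
    (measurable_nestSum hF δ).comp (((measurable_lab h).comp measurable_fst).prodMk measurable_snd)
  exact (k.stronglyMeasurable.integral_prod_left').measurable

/-- The radii. -/
noncomputable def rad (l : ℕ) : ℝ := 1 / ((l : ℝ) + 1)

theorem rad_pos (l : ℕ) : 0 < rad l := by unfold rad; positivity

theorem tendsto_rad {s : ℝ} (hs : 0 < s) : Tendsto (fun l => s * rad l) atTop (𝓝[>] 0) := by
  refine tendsto_nhdsWithin_iff.mpr ⟨?_, Eventually.of_forall fun l => mul_pos hs (rad_pos l)⟩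
  have := (tendsto_one_div_add_atTop_nhds_zero_nat (𝕜 := ℝ)).const_mul s
  rw [mul_zero] at this
  exact this

theorem ev_rad_le {δ : ℝ} (hδ : 0 < δ) : ∀ᶠ l in atTop, rad l ≤ δ :=
  (tendsto_one_div_add_atTop_nhds_zero_nat.eventually (gt_mem_nhds hδ)).mono fun _ h => h.le

theorem err_tight [IsProbabilityMeasure P] (h : Sk κ P V i f e) (h1 : 8 / 3 < κ) (h2 : κ < 8)
    (h4 : κ ≠ 4) {F : ℂ → ℂ} (hF : Univ F) (μ : Measure ℝ) [IsProbabilityMeasure μ]
    (hμ : MemLp id 2 μ) {c C : ℝ} (hc : 0 < c) (hcC : c ≤ C) {η : ℝ} (hη : 0 < η) :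
    ∃ C₃ : ℝ, 0 ≤ C₃ ∧ PP P μ {q | ∃ L, ∀ l, L ≤ l → ENNReal.ofReal C₃ <
      Err F (c * rad l) (C * rad l) (fun k => V k q.1, q.2)} ≤ ENNReal.ofReal η := by
  obtain ⟨C₄, hC₄⟩ := h.err_bound h1 h2 h4 hF μ hμ hc hcC
  have hCpos : 0 < C := hc.trans_le hcC
  set K : ℝ≥0∞ := C₄ * volume (ball (0 : ℂ) (1 / 4)) with hK
  have Kt : K ≠ ⊤ := ENNReal.mul_ne_top ENNReal.coe_ne_top measure_ball_lt_top.ne
  have key : ∀ δ, 0 < δ → C * δ ≤ 1 →
      ∫⁻ q, Err F (c * δ) (C * δ) (fun k => V k q.1, q.2) ∂(PP P μ) ≤ K := by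
    intro δ hδ hδ1
    unfold Err
    have m : Measurable fun q : (Ω × (ℕ → ℝ)) × ℂ =>
        err F (fun k => V k q.1.1) q.1.2 (ind F q.2) (c * δ) (C * δ) :=
      Measurable.comp (g := fun q : (Ens × (ℕ → ℝ)) × ℂ =>
          err F q.1.1 q.1.2 (ind F q.2) (c * δ) (C * δ))
        (f := fun q : (Ω × (ℕ → ℝ)) × ℂ => (((fun k => V k q.1.1 : Ens), q.1.2), q.2))
        (measurable_errInd hF (c * δ) (C * δ))
        (((measurable_lab h).comp measurable_fst).prodMk measurable_snd)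
    rw [lintegral_lintegral_swap (f := fun (q : Ω × (ℕ → ℝ)) (ζ : ℂ) =>
      err F (fun k => V k q.1) q.2 (ind F ζ) (c * δ) (C * δ)) m.aemeasurable, hK,
      ← setLIntegral_const]
    refine setLIntegral_mono' measurableSet_ball fun ζ hζ => ?_
    rw [ind_eq (ball_subset_ball (by norm_num) hζ)]
    exact hC₄ ζ (ball_subset_closedBall (ball_subset_ball (by norm_num) hζ)) δ hδ hδ1
  refine ⟨K.toReal / η + 1, by positivity, ?_⟩
  set C₃ := K.toReal / η + 1 with hC₃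
  have C3pos : 0 < C₃ := by positivity
  obtain ⟨L₀, hL₀⟩ := eventually_atTop.mp (ev_rad_le (δ := 1 / C) (by positivity))
  have hU : {q : Ω × (ℕ → ℝ) | ∃ L, ∀ l, L ≤ l → ENNReal.ofReal C₃ <
      Err F (c * rad l) (C * rad l) (fun k => V k q.1, q.2)} = ⋃ L, {q | ∀ l, L ≤ l →
      ENNReal.ofReal C₃ < Err F (c * rad l) (C * rad l) (fun k => V k q.1, q.2)} := by
    ext q; simp
  have hmono : Monotone fun L : ℕ => {q : Ω × (ℕ → ℝ) | ∀ l, L ≤ l →
      ENNReal.ofReal C₃ < Err F (c * rad l) (C * rad l) (fun k => V k q.1, q.2)} :=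
    fun a b hab q hq l hl => hq l (hab.trans hl)
  rw [hU, hmono.measure_iUnion]
  refine iSup_le fun L => ?_
  set l := max L L₀
  have hl : C * rad l ≤ 1 := by
    have := hL₀ l (le_max_right _ _)
    rwa [le_div_iff₀' hCpos] at this
  have m := (measurable_Err hF (c * rad l) (C * rad l)).comp (measurable_lab h)
  have mk := mul_meas_ge_le_lintegral₀ (μ := PP P μ) m.aemeasurable (ENNReal.ofReal C₃)
  have h3 : ENNReal.ofReal C₃ * PP P μ {q | ∀ l, L ≤ l →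
      ENNReal.ofReal C₃ < Err F (c * rad l) (C * rad l) (fun k => V k q.1, q.2)} ≤
      ENNReal.ofReal C₃ * ENNReal.ofReal η := by
    refine (mul_le_mul_right (measure_mono fun q hq => (hq l (le_max_left _ _)).le) _).trans
      (mk.trans ((key _ (rad_pos l) hl).trans ?_))
    rw [← ENNReal.ofReal_mul C3pos.le, ← ENNReal.ofReal_toReal Kt]
    refine ENNReal.ofReal_le_ofReal ?_
    rw [hC₃, add_mul, div_mul_cancel₀ _ hη.ne']
    linarith
  exact (ENNReal.mul_le_mul_iff_right (by simpa using C3pos) ENNReal.ofReal_ne_top).mp h3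

theorem psi_tight [IsProbabilityMeasure P] {D : Opens ℂ} {F : ℂ → ℂ} (hF : Conf F D)
    (μ : Measure ℝ) [IsProbabilityMeasure μ] (H : Ω × (ℕ → ℝ) → Distribution D ℝ ⊤)
    (hlim : ∀ φ : TestFunction D ℝ ⊤, ∀ᵐ p ∂(PP P μ),
      Tendsto (fun ε => ∫ z, centred P V μ F p z ε * φ z) (𝓝[>] 0) (𝓝 (H p φ)))
    (hm : ∀ φ : TestFunction D ℝ ⊤, AEMeasurable (fun p => H p φ) (PP P μ))
    {a r : ℝ} (hr : 0 < r) {φ₀ : ℂ → ℝ} (hφ : ContDiff ℝ (⊤ : ℕ∞) φ₀)
    (hs : ∀ z, r ≤ ‖z‖ → φ₀ z = 0)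
    (hK : ∀ j, Univ j → j 0 = 0 → a ≤ ‖deriv j 0‖ → ball 0 (2 * r) ⊆ j '' ball 0 (1 / 4))
    (a₂ : ℝ) {η : ℝ} (hη : 0 < η) :
    ∃ C₂ : ℝ, ∀ j, Univ j → j 0 = 0 → a ≤ ‖deriv j 0‖ → ‖deriv j 0‖ ≤ a₂ →
      PP P μ {q | ∀ L, ∃ l, L ≤ l ∧
        C₂ < |Psi F (EE P V μ F (rad l)) φ₀ (rad l) j (fun k => V k q.1, q.2)|} ≤
        ENNReal.ofReal η := by
  obtain ⟨K, M, hKD, hfam⟩ := test_family hF hr hφ hs hK a₂
  obtain ⟨C, hC⟩ := tight (PP P μ) H hm K hKD M hη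
  refine ⟨C + 1, fun j hj j0 ha ha2 => ?_⟩
  obtain ⟨φ, s1, s2, s3⟩ := hfam j hj j0 ha ha2
  refine le_trans (measure_mono_ae ?_) (hC φ s1 s2)
  filter_upwards [hlim φ] with q hq hb
  have t1 := (hq.comp (tendsto_rad one_pos)).abs
  have e : ∀ l, Psi F (EE P V μ F (rad l)) φ₀ (rad l) j (fun k => V k q.1, q.2) =
      ∫ z, centred P V μ F q z (1 * rad l) * φ z := by
    intro l
    rw [pair_test hF φ (ψ := psi φ₀ j) s3, one_mul]
    rfl
  by_contra hh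
  have h2 : |H q φ| < C + 1 := by
    have : |H q φ| ≤ C := not_lt.mp hh
    linarith
  obtain ⟨L, hL⟩ := eventually_atTop.mp (t1.eventually (gt_mem_nhds h2))
  obtain ⟨l, hl, hl'⟩ := hb L
  rw [e] at hl'
  exact absurd (hL l hl) (not_lt.mpr hl'.le)

/-- The deterministic comparison at a fixed radius. -/
theorem det_bound [IsProbabilityMeasure P] (h : Sk κ P V i f e) {F : ℂ → ℂ} (hF : Univ F)
    (μ : Measure ℝ) [IsProbabilityMeasure μ] {m C₀ : ℝ}
    (hmean : ∀ ζ ∈ closedBall (0 : ℂ) (1 / 2), ∀ δ : ℝ, 0 < δ → δ ≤ 1 →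
      |EE P V μ F δ (F ζ) - m * Real.log (1 / δ)| ≤ C₀)
    {r : ℝ} (hr : 0 < r) {φ₀ : ℂ → ℝ} (hφ : Continuous φ₀) (φ0 : ∀ z, 0 ≤ φ₀ z)
    (hs : ∀ z, r ≤ ‖z‖ → φ₀ z = 0) (φ1 : ∫ z, φ₀ z = 1)
    (hKF : ball (F 0) (2 * r) ⊆ F '' ball 0 (1 / 4)) (n k : ℕ) (p : Ω × (ℕ → ℝ))
    (hKj : ball 0 (2 * r) ⊆
      resc (Real.exp k) (F 0) (fun w => F (f n p.1 w)) '' ball 0 (1 / 4))
    {M₀ : ℝ} (hM : 0 ≤ M₀) (ψM : ∀ ζ ∈ ball (0 : ℂ) 1,
      psi φ₀ (resc (Real.exp k) (F 0) fun w => F (f n p.1 w)) ζ ≤ M₀)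
    {c C δ : ℝ} (hc : 0 < c) (hc1 : c ≤ 1) (hC : 1 ≤ C) (hδ : 0 < δ) (hδ1 : δ ≤ 1) (hδr : δ ≤ r)
    (hsw : ∀ ζ ∈ ball (0 : ℂ) (1 / 4), ∀ A ⊆ ball (0 : ℂ) 1,
      (ball (F ζ) (C * δ) ⊆ F '' A →
        ball (resc (Real.exp k) (F 0) (fun w => F (f n p.1 w)) ζ) δ ⊆
          resc (Real.exp k) (F 0) (fun w => F (f n p.1 w)) '' A) ∧
      (ball (resc (Real.exp k) (F 0) (fun w => F (f n p.1 w)) ζ) δ ⊆
          resc (Real.exp k) (F 0) (fun w => F (f n p.1 w)) '' A → ball (F ζ) (c * δ) ⊆ F '' A))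
    {C₃ : ℝ} (hC₃ : 0 ≤ C₃)
    (he : Err F (c * δ) (C * δ) (fun l => pull (f n p.1) (V (e n l p.1) p.1),
      fun l => p.2 (e n l p.1)) ≤ ENNReal.ofReal C₃) :
    |(∫ z, centred P V μ F p z ((Real.exp k)⁻¹ * δ) *
        (Real.exp k ^ 2 * φ₀ ((Real.exp k : ℝ) * (z - F 0)))) -
      (∑ l ∈ Finset.range (n + 1), p.2 (i l p.1) - m * k) -
      Psi F (EE P V μ F δ) φ₀ δ (resc (Real.exp k) (F 0) fun w => F (f n p.1 w))
        (fun l => pull (f n p.1) (V (e n l p.1) p.1), fun l => p.2 (e n l p.1))| ≤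
      2 * C₀ + M₀ * C₃ := by
  set s := Real.exp k with hsdef
  have s0 : 0 < s := Real.exp_pos _
  have s1 : 1 ≤ s := Real.one_le_exp (Nat.cast_nonneg k)
  set j : ℂ → ℂ := fun w => F (f n p.1 w) with hj
  have ju : Univ j := (h.univ_comp hF n p.1).1
  have jh : Univ (resc s (F 0) j) := univ_resc s0 _ ju
  set v' : Ens := fun l => pull (f n p.1) (V (e n l p.1) p.1) with hv'
  set ξ' : ℕ → ℝ := fun l => p.2 (e n l p.1) with hξ'
  have gv : Good v' := h.good_inner n p.1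
  have C0 : 0 ≤ C₀ := (abs_nonneg _).trans (hmean 0 (by simp) 1 one_pos le_rfl)
  have sδ : 0 < s⁻¹ * δ := by positivity
  have sδ1 : s⁻¹ * δ ≤ 1 := mul_le_one₀ (inv_le_one_of_one_le₀ s1) hδ.le hδ1
  rw [pair_scaled hr s0 hs (F 0) ju hKj]
  obtain ⟨B, hB⟩ := nestSum_bdd gv ξ' hF hδ
  have aF : AEMeasurable F (volume.restrict (ball (0 : ℂ) 1)) :=
    hF.1.continuousOn.aemeasurable measurableSet_ball
  have aj : AEMeasurable j (volume.restrict (ball (0 : ℂ) 1)) :=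
    ju.1.continuousOn.aemeasurable measurableSet_ball
  have mS : ∀ (x : Ens × (ℕ → ℝ)) (t : ℝ), Measurable fun z => nestSum F x.1 x.2 z t :=
    fun x t => (measurable_nestSum hF t).comp measurable_prodMk_left
  refine pair_bound (a := fun ζ => centred P V μ F p (j ζ) (s⁻¹ * δ))
    (b := fun ζ => nestSum F v' ξ' (F ζ) δ - EE P V μ F δ (F ζ))
    (er := fun ζ => err F v' ξ' (ind F ζ) (c * δ) (C * δ)) (B := B + (|m * Real.log (1 / δ)| + C₀))
    (by positivity) hM hC₃ (aem_psi hφ jh) (fun ζ => mul_nonneg (φ0 _) (by positivity))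
    (psi_int hr hs φ1 jh hKj) ψM (fun ζ hζ hψ => (mem_quarter hr hs jh hKj hζ hψ).1) ?_ ?_ ?_ ?_ he
  · exact (((mS (fun k => V k p.1, p.2) _).sub (measurable_EE h μ hF _)).comp_aemeasurable aj)
  · exact (((mS (v', ξ') _).sub (measurable_EE h μ hF _)).comp_aemeasurable aF)
  · intro ζ hζ
    have hζ' : ζ ∈ closedBall (0 : ℂ) (1 / 2) :=
      ball_subset_closedBall (ball_subset_ball (by norm_num) hζ)
    have b1 := hB ζ hζ'
    have b2 := hmean ζ hζ' δ hδ hδ1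
    have b3 := abs_sub_abs_le_abs_sub (EE P V μ F δ (F ζ)) (m * Real.log (1 / δ))
    have b4 := abs_sub (nestSum F v' ξ' (F ζ) δ) (EE P V μ F δ (F ζ))
    linarith
  · intro ζ hζ hψ
    obtain ⟨q1, q2⟩ := mem_quarter hr hs jh hKj hζ hψ
    have hζ' : ζ ∈ closedBall (0 : ℂ) (1 / 2) :=
      ball_subset_closedBall (ball_subset_ball (by norm_num) q1)
    have hb : ball (j ζ) (s⁻¹ * δ) ⊆ j '' ball 0 1 := by
      rw [surr_resc s0 (F 0)]
      refine Subset.trans ?_ (hKj.trans (image_mono (ball_subset_ball (by norm_num))))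
      refine ball_subset_ball' ?_
      rw [dist_zero_right]
      change δ + ‖resc s (F 0) j ζ‖ ≤ 2 * r
      linarith
    have sp := h.nest_split hF n p.1 p.2 sδ hb
    have hjF : j ζ ∈ ball (F 0) (2 * r) := by
      rw [mem_ball, dist_eq_norm]
      have : ‖resc s (F 0) j ζ‖ = s * ‖j ζ - F 0‖ := by
        unfold resc
        rw [norm_mul, Complex.norm_real, Real.norm_of_nonneg s0.le]
      nlinarith [norm_nonneg (j ζ - F 0)]
    obtain ⟨ζ', hζ'1, hζ'2⟩ := hKF hjF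
    have m1 := hmean ζ' (ball_subset_closedBall (ball_subset_ball (by norm_num) hζ'1)) _ sδ sδ1
    rw [hζ'2] at m1
    have m2 := hmean ζ hζ' δ hδ hδ1
    have lg : Real.log (1 / (s⁻¹ * δ)) = k + Real.log (1 / δ) := by
      rw [one_div, mul_inv, inv_inv, Real.log_mul s0.ne' (inv_pos.mpr hδ).ne', hsdef,
        Real.log_exp, one_div]
    rw [lg] at m1
    have nd := nest_diff_le gv ξ' (j := resc s (F 0) j) hF hζ (a := c * δ) (b := δ) (c := C * δ)
      (d := δ) (by positivity) (by nlinarith) (by nlinarith) (hsw ζ q1)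
    rw [← nestSum_resc s0] at nd
    rw [ind_eq hζ]
    have eq : centred P V μ F p (j ζ) (s⁻¹ * δ) -
        (∑ l ∈ Finset.range (n + 1), p.2 (i l p.1) - m * k) -
        (nestSum F v' ξ' (F ζ) δ - EE P V μ F δ (F ζ)) =
        ((EE P V μ F δ (F ζ) - m * Real.log (1 / δ)) -
          (EE P V μ F (s⁻¹ * δ) (j ζ) - m * (k + Real.log (1 / δ)))) +
        (nestSum j v' ξ' (j ζ) (s⁻¹ * δ) - nestSum F v' ξ' (F ζ) δ) := by
      unfold centred
      rw [sp]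
      unfold EE
      ring
    rw [eq]
    refine (enorm_add_le _ _).trans (add_le_add ?_ nd)
    rw [Real.enorm_eq_ofReal_abs]
    refine ENNReal.ofReal_le_ofReal ((abs_sub _ _).trans ?_)
    linarith

end CoupleAux

end Pool.Agent.MP_ac6554_pr
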