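import Mathlib

set_option autoImplicit false

open MeasureTheory ProbabilityTheory TopologicalSpace Metric Set Filter Topology
open scoped NNReal ENNReal

namespace Pool.Agent.MP_ac6554_pr

/-- The usual sigma-algebra of random open sets: generated by the events `K ⊆ U`, `K` compact. -/
instance opensSigma : MeasurableSpace (Opens ℂ) :=
  MeasurableSpace.generateFrom {S | ∃ K : Set ℂ, IsCompact K ∧ S = {U : Opens ℂ | K ⊆ U}}

/-- Two sequences of open sets list the same ensemble if they differ by a relabelling. -/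
def relabel : Setoid (ℕ → Opens ℂ) where
  r v w := ∃ σ : Equiv.Perm ℕ, w = v ∘ σ
  iseqv :=
    ⟨fun _ => ⟨1, rfl⟩,
     fun ⟨σ, h⟩ => ⟨σ⁻¹, by rw [h]; funext k; simp⟩,
     fun ⟨σ, h⟩ ⟨τ, h'⟩ => ⟨σ * τ, by rw [h', h]; rfl⟩⟩

/-- `f` maps the unit disc conformally onto `U`. -/
def Conf (f : ℂ → ℂ) (U : Set ℂ) : Prop :=
  DifferentiableOn ℂ f (ball 0 1) ∧ BijOn f (ball 0 1) U

/-- The preimage of `U` under `f` in the unit disc. -/
noncomputable def pull (f : ℂ → ℂ) (U : Opens ℂ) : Opens ℂ := Opens.interior (ball 0 1 ∩ f ⁻¹' U)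

/-- The connected component of `U` containing the origin. -/
noncomputable def comp0 (U : Opens ℂ) : Opens ℂ := Opens.interior (connectedComponentIn (U : Set ℂ) 0)

/-- The radial Loewner domain at time `t` for the driving function `W`: the points whose Loewner
flow lives in the unit disc up to time `t`. -/
noncomputable def loewner (W : ℝ → ℂ) (t : ℝ) : Opens ℂ := Opens.interior
  {z | ∃ g : ℝ → ℂ, g 0 = z ∧ ∀ s ∈ Icc 0 t, g s ∈ ball (0 : ℂ) 1 ∧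
    HasDerivWithinAt g (g s * (W s + g s) / (W s - g s)) (Icc 0 t) s}

/-- The generator of `x = cos (θ / 2)` when `dθ = (κ - 4) / 2 * cot (θ / 2) dt + √κ dB`. -/
noncomputable def gen (κ : ℝ) (f : ℝ → ℝ) (x : ℝ) : ℝ :=
  κ / 8 * (1 - x ^ 2) * deriv (deriv f) x - (3 * κ - 8) / 8 * x * deriv f x

/-- The first time at which `θ` reaches `2π` modulo `4π`. -/
noncomputable def hit (θ : ℝ → ℝ) : ℝ := sInf {t | 0 ≤ t ∧ Real.cos (θ t / 2) = -1}

/-- Radial SLE_κ(κ-6): driving point `W`, force point `W * exp (-i θ)`. -/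
structure IsSLE (κ : ℝ) {Ω : Type} {m : MeasurableSpace Ω} (Q : Measure Ω)
    (𝓕 : Filtration ℝ≥0 m) (θ : ℝ → Ω → ℝ) (W : ℝ → Ω → ℂ) : Prop where
  prob : IsProbabilityMeasure Q
  adapted : Adapted 𝓕 (fun t : ℝ≥0 => θ t)
  start : ∀ ω, θ 0 ω = 0
  cont : ∀ ω, Continuous (fun t => θ t ω) ∧ Continuous (fun t => W t ω)
  circle : ∀ t ω, ‖W t ω‖ = 1
  force : ∀ ω t, 0 < t → Real.sin (θ t ω / 2) ≠ 0 →
    HasDerivAt (fun s => W s ω * Complex.exp (-(θ s ω * Complex.I)))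
      (W t ω * Complex.exp (-(θ t ω * Complex.I)) *
        (W t ω + W t ω * Complex.exp (-(θ t ω * Complex.I))) /
        (W t ω - W t ω * Complex.exp (-(θ t ω * Complex.I)))) t
  mart : ∀ f : ℝ → ℝ, ContDiff ℝ 2 f → Martingale (fun (t : ℝ≥0) ω =>
    f (Real.cos (θ t ω / 2)) - ∫ s in (0 : ℝ)..t, gen κ f (Real.cos (θ s ω / 2))) 𝓕 Q

/-- `V k` is the region surrounded by the `k`-th loop of a nested CLE_κ in the unit disc. -/
structure IsCLE (κ : ℝ) {Ω : Type} [MeasurableSpace Ω] (P : Measure Ω)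
    (V : ℕ → Ω → Opens ℂ) : Prop where
  meas : ∀ k, Measurable (V k)
  basic : ∀ᵐ ω ∂P, ∀ k, (V k ω : Set ℂ).Nonempty ∧ (V k ω : Set ℂ) ⊆ ball 0 1
  locFin : ∀ᵐ ω ∂P, ∀ (z : ℂ) (r : ℝ), 0 < r → {k | ball z r ⊆ V k ω}.Finite
  nested : ∀ᵐ ω ∂P, ∀ j k, j ≠ k → Disjoint (V j ω : Set ℂ) (V k ω) ∨
    (∃ z, (V j ω : Set ℂ) ⊆ connectedComponentIn (V k ω : Set ℂ) z) ∨
    (∃ z, (V k ω : Set ℂ) ⊆ connectedComponentIn (V j ω : Set ℂ) z)
  moebius : ∀ w ∈ ball (0 : ℂ) 1, ∃ φ : ℂ → ℂ, Conf φ (ball 0 1) ∧ φ 0 = w ∧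
    IdentDistrib (fun ω => Quotient.mk relabel fun k => pull φ (V k ω))
      (fun ω => Quotient.mk relabel fun k => V k ω) P P
  chain : ∃ (i : ℕ → Ω → ℕ) (f : ℕ → Ω → ℂ → ℂ),
    (∀ n, Measurable (i n)) ∧ (∀ n z, Measurable fun ω => f n ω z) ∧
    (∀ᵐ ω ∂P, Function.Injective (fun n => i n ω) ∧
      range (fun n => i n ω) = {k | (0 : ℂ) ∈ V k ω} ∧
      ∀ n, V (i (n + 1) ω) ω ≤ comp0 (V (i n ω) ω) ∧ f n ω 0 = 0 ∧
        Conf (f n ω) (comp0 (V (i n ω) ω))) ∧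
    (∀ n, ∃ e : ℕ → Ω → ℕ, (∀ k, Measurable (e k)) ∧
      (∀ᵐ ω ∂P, Function.Injective (fun k => e k ω) ∧
        range (fun k => e k ω) = {k | V k ω ≤ comp0 (V (i n ω) ω) ∧ ∀ m ≤ n, k ≠ i m ω}) ∧
      IndepFun (fun ω (m : Iic n) => f m ω)
        (fun ω => Quotient.mk relabel fun k => pull (f n ω) (V (e k ω) ω)) P ∧
      IdentDistrib (fun ω => Quotient.mk relabel fun k => pull (f n ω) (V (e k ω) ω))
        (fun ω => Quotient.mk relabel fun k => V k ω) P P) ∧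
    ∃ (Ω' : Type) (m : MeasurableSpace Ω') (Q : Measure Ω') (𝓕 : Filtration ℝ≥0 m)
      (θ : ℝ → Ω' → ℝ) (W : ℝ → Ω' → ℂ), IsSLE κ Q 𝓕 θ W ∧
      IdentDistrib (fun ω => comp0 (V (i 0 ω) ω))
        (fun ω => loewner (fun t => W t ω) (hit fun t => θ t ω)) P Q

/-- The sum of the weights of the loops, mapped by `F`, that surround the disc `B(z,ε)`. -/
noncomputable def nestSum (F : ℂ → ℂ) (v : ℕ → Opens ℂ) (ξ : ℕ → ℝ) (z : ℂ) (ε : ℝ) : ℝ :=
  ∑' k, {k | ball z ε ⊆ F '' (ball 0 1 ∩ v k)}.indicator ξ k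

/-- The centred field `h_ε(z)`; the weights are i.i.d. of law `μ`, independent of the loops. -/
noncomputable def centred {Ω : Type} [MeasurableSpace Ω] (P : Measure Ω) (V : ℕ → Ω → Opens ℂ)
    (μ : Measure ℝ) (F : ℂ → ℂ) (p : Ω × (ℕ → ℝ)) (z : ℂ) (ε : ℝ) : ℝ :=
  nestSum F (fun k => V k p.1) p.2 z ε -
    ∫ q, nestSum F (fun k => V k q.1) q.2 z ε ∂(P.prod (Measure.infinitePi fun _ : ℕ => μ))

end Pool.Agent.MP_ac6554_pr
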