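import Pool.Agent.MP_ac6554_pr.Defs

set_option autoImplicit false

open MeasureTheory ProbabilityTheory TopologicalSpace Metric Set Filter Topology
open scoped NNReal ENNReal

namespace Pool.Agent.MP_ac6554_pr

/-- Univalent on the unit disc. -/
def Univ (j : ℂ → ℂ) : Prop := DifferentiableOn ℂ j (ball 0 1) ∧ InjOn j (ball 0 1)

theorem Conf.univ {f : ℂ → ℂ} {U : Set ℂ} (h : Conf f U) : Univ f := ⟨h.1, h.2.injOn⟩

/-- Labelled ensembles. -/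
abbrev Ens := ℕ → Opens ℂ

/-- Nonempty regions in the disc, locally finite. -/
def Good (v : Ens) : Prop :=
  (∀ k, (v k : Set ℂ).Nonempty ∧ (v k : Set ℂ) ⊆ ball 0 1) ∧
    ∀ (z : ℂ) (r : ℝ), 0 < r → {k | ball z r ⊆ v k}.Finite

/-- Number of loops surrounding a disc. -/
noncomputable def cnt (F : ℂ → ℂ) (v : Ens) (z : ℂ) (ε : ℝ) : ℝ≥0∞ :=
  ∑' k, {k | ball z ε ⊆ F '' (ball 0 1 ∩ v k)}.indicator 1 k

/-- Total absolute weight of the loops surrounding `B(z,a)` but not `B(z,b)`. -/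
noncomputable def err (F : ℂ → ℂ) (v : Ens) (ξ : ℕ → ℝ) (z : ℂ) (a b : ℝ) : ℝ≥0∞ :=
  ∑' k, {k | ball z a ⊆ F '' (ball 0 1 ∩ v k) ∧ ¬ ball z b ⊆ F '' (ball 0 1 ∩ v k)}.indicator
    (fun k => ‖ξ k‖ₑ) k

/-- Loops and weights. -/
noncomputable abbrev PP {Ω : Type} [MeasurableSpace Ω] (P : Measure Ω) (μ : Measure ℝ) :
    Measure (Ω × (ℕ → ℝ)) := P.prod (Measure.infinitePi fun _ : ℕ => μ)

/-- Minus the logarithm of the conformal radius of the `n`-th domain. -/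
noncomputable def Tt {Ω : Type} (f : ℕ → Ω → ℂ → ℂ) (n : ℕ) (ω : Ω) : ℝ :=
  -Real.log ‖deriv (f n ω) 0‖

/-- Its increments. -/
noncomputable def Bb {Ω : Type} (f : ℕ → Ω → ℂ → ℂ) : ℕ → Ω → ℝ
  | 0 => Tt f 0
  | n + 1 => fun ω => Tt f (n + 1) ω - Tt f n ω

theorem sum_Bb {Ω : Type} (f : ℕ → Ω → ℂ → ℂ) (n : ℕ) (ω : Ω) :
    ∑ j ∈ Finset.range (n + 1), Bb f j ω = Tt f n ω := by
  induction n with
  | zero => simp [Bb]
  | succ n ih => rw [Finset.sum_range_succ, ih]; simp [Bb]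

/-- The sigma-algebra generated by the first `n + 1` conformal maps. -/
@[reducible] noncomputable def mY {Ω : Type} (f : ℕ → Ω → ℂ → ℂ) (n : ℕ) : MeasurableSpace Ω :=
  MeasurableSpace.comap (fun ω (m : Iic n) => f m ω) inferInstance

/-- The Laplace transform of Schramm, Sheffield and Wilson, near the origin. -/
def SSW (κ : ℝ) (β : Measure ℝ) : Prop :=
  ∀ᶠ l in 𝓝 (0 : ℝ), ∫⁻ b, ENNReal.ofReal (Real.exp (-(l * b))) ∂β =
    ENNReal.ofReal (Real.cos (Real.pi * (1 - 4 / κ)) /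
      Real.cos (Real.pi * √((1 - 4 / κ) ^ 2 - 8 * l / κ)))

/-- The working form of `IsCLE`: sure statements, canonical labels. -/
structure Sk (κ : ℝ) {Ω : Type} [MeasurableSpace Ω] (P : Measure Ω) (V : ℕ → Ω → Opens ℂ)
    (i : ℕ → Ω → ℕ) (f : ℕ → Ω → ℂ → ℂ) (e : ℕ → ℕ → Ω → ℕ) : Prop where
  meas : ∀ k, Measurable (V k)
  imeas : ∀ n, Measurable (i n)
  fmeas : ∀ n z, Measurable fun ω => f n ω z
  emeas : ∀ n k, Measurable (e n k)
  good : ∀ ω, Good fun k => V k ω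
  nested : ∀ ω j k, j ≠ k → Disjoint (V j ω : Set ℂ) (V k ω) ∨
    (∃ z, (V j ω : Set ℂ) ⊆ connectedComponentIn (V k ω : Set ℂ) z) ∨
    (∃ z, (V k ω : Set ℂ) ⊆ connectedComponentIn (V j ω : Set ℂ) z)
  moebius : ∀ w ∈ ball (0 : ℂ) 1, ∃ φ : ℂ → ℂ, Conf φ (ball 0 1) ∧ φ 0 = w ∧
    IdentDistrib (fun ω => Quotient.mk relabel fun k => pull φ (V k ω))
      (fun ω => Quotient.mk relabel fun k => V k ω) P P
  iinj : ∀ ω, Function.Injective fun n => i n ω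
  irange : ∀ ω, range (fun n => i n ω) = {k | (0 : ℂ) ∈ V k ω}
  isub : ∀ ω n, V (i (n + 1) ω) ω ≤ comp0 (V (i n ω) ω)
  f0 : ∀ ω n, f n ω 0 = 0
  fconf : ∀ ω n, Conf (f n ω) (comp0 (V (i n ω) ω))
  einj : ∀ ω n, Function.Injective fun k => e n k ω
  erange : ∀ ω n, range (fun k => e n k ω) =
    {k | V k ω ≤ comp0 (V (i n ω) ω) ∧ ∀ m ≤ n, k ≠ i m ω}
  indep : ∀ n, IndepFun (fun ω (m : Iic n) => f m ω)
    (fun ω k => pull (f n ω) (V (e n k ω) ω)) P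
  law : ∀ n, IdentDistrib (fun ω k => pull (f n ω) (V (e n k ω) ω)) (fun ω k => V k ω) P P
  sle : ∃ (Ω' : Type) (m : MeasurableSpace Ω') (Q : Measure Ω') (𝓕 : Filtration ℝ≥0 m)
    (θ : ℝ → Ω' → ℝ) (W : ℝ → Ω' → ℂ), IsSLE κ Q 𝓕 θ W ∧
    IdentDistrib (fun ω => comp0 (V (i 0 ω) ω))
      (fun ω => loewner (fun t => W t ω) (hit fun t => θ t ω)) P Q

theorem coe_comp0 (U : Opens ℂ) : (comp0 U : Set ℂ) = connectedComponentIn (U : Set ℂ) 0 :=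
  U.isOpen.connectedComponentIn.interior_eq

theorem comp0_le (U : Opens ℂ) : (comp0 U : Set ℂ) ⊆ U := by
  rw [coe_comp0]; exact connectedComponentIn_subset _ _

theorem coe_pull {f : ℂ → ℂ} (hf : ContinuousOn f (ball 0 1)) (U : Opens ℂ) :
    (pull f U : Set ℂ) = ball 0 1 ∩ f ⁻¹' U :=
  (hf.isOpen_inter_preimage isOpen_ball U.isOpen).interior_eq

end Pool.Agent.MP_ac6554_pr
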