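import Pool.Agent.MP_ac6554_pr.Int

set_option autoImplicit false

open MeasureTheory ProbabilityTheory TopologicalSpace Metric Set Filter Topology
open scoped NNReal ENNReal

namespace Pool.Agent.MP_ac6554_pr

namespace KoebeAux

lemma not_const {U : Set ℂ} (hU : IsOpen U) {f : ℂ → ℂ} (hi : InjOn f U)
    {z₀ : ℂ} (hz₀ : z₀ ∈ U) : ¬ ∀ᶠ z in 𝓝 z₀, f z = f z₀ := by
  intro h
  have h1 : ∀ᶠ z in 𝓝[≠] z₀, z = z₀ := by
    apply Eventually.filter_mono nhdsWithin_le_nhds
    filter_upwards [h, hU.mem_nhds hz₀] with z hz hzU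
    exact hi hzU hz₀ hz
  obtain ⟨z, hz1, hz2⟩ := (h1.and self_mem_nhdsWithin).exists
  exact hz2 hz1

lemma nhds_le_map {U : Set ℂ} (hU : IsOpen U) {f : ℂ → ℂ} (hf : DifferentiableOn ℂ f U)
    (hi : InjOn f U) {z₀ : ℂ} (hz₀ : z₀ ∈ U) : 𝓝 (f z₀) ≤ map f (𝓝 z₀) :=
  ((hf.analyticAt (hU.mem_nhds hz₀)).eventually_constant_or_nhds_le_map_nhds).resolve_left
    (not_const hU hi hz₀)

lemma isOpen_image {U : Set ℂ} (hU : IsOpen U) {f : ℂ → ℂ} (hf : DifferentiableOn ℂ f U)
    (hi : InjOn f U) : IsOpen (f '' U) := by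
  rw [isOpen_iff_mem_nhds]
  rintro _ ⟨z, hz, rfl⟩
  exact nhds_le_map hU hf hi hz (image_mem_map (hU.mem_nhds hz))

lemma inv_diff {U : Set ℂ} (hU : IsOpen U) {f : ℂ → ℂ} (hf : DifferentiableOn ℂ f U)
    (hi : InjOn f U) : DifferentiableOn ℂ (Function.invFunOn f U) (f '' U) := by
  set g := Function.invFunOn f U with hg
  have hgf : ∀ z ∈ U, g (f z) = z := fun z hz => hi.leftInvOn_invFunOn hz
  have hV := isOpen_image hU hf hi
  have hcont : ∀ z ∈ U, ContinuousAt g (f z) := by
    intro z hz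
    rw [ContinuousAt, hgf z hz]
    refine Tendsto.mono_left ?_ (nhds_le_map hU hf hi hz)
    rw [tendsto_map'_iff]
    apply tendsto_id.congr'
    filter_upwards [hU.mem_nhds hz] with w hw
    exact (hgf w hw).symm
  have hfg : ∀ w ∈ f '' U, f (g w) = w := by
    rintro _ ⟨z, hz, rfl⟩; rw [hgf z hz]
  rintro _ ⟨z, hz, rfl⟩
  apply DifferentiableAt.differentiableWithinAt
  apply AnalyticAt.differentiableAt
  apply Complex.analyticAt_of_differentiable_on_punctured_nhds_of_continuousAt _ (hcont z hz)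
  have han : AnalyticAt ℂ (deriv f) z := (hf.analyticAt (hU.mem_nhds hz)).deriv
  have hne : ∀ᶠ u in 𝓝[≠] z, deriv f u ≠ 0 := by
    refine han.eventually_eq_zero_or_eventually_ne_zero.resolve_left fun h => ?_
    apply not_const hU hi hz
    obtain ⟨r, hr, hsub⟩ := Metric.nhds_basis_ball.mem_iff.1 (inter_mem h (hU.mem_nhds hz))
    filter_upwards [ball_mem_nhds z hr] with u hu
    exact isOpen_ball.is_const_of_deriv_eq_zero (convex_ball z r).isPreconnected
      (hf.mono fun v hv => (hsub hv).2) (fun v hv => (hsub hv).1) hu (mem_ball_self hr)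
  rw [eventually_nhdsWithin_iff] at hne ⊢
  have ht : Tendsto g (𝓝 (f z)) (𝓝 z) := by simpa [ContinuousAt, hgf z hz] using hcont z hz
  filter_upwards [ht.eventually hne, hV.mem_nhds (mem_image_of_mem f hz)] with w hw hwV hwne
  obtain ⟨u, hu, rfl⟩ := hwV
  have hu' : u ≠ z := fun h => hwne (by simp [h])
  rw [hgf u hu] at hw
  refine (HasDerivAt.of_local_left_inverse (f := f) (f' := deriv f u) (hcont u hu) ?_ (hw hu')
    ?_).differentiableAt
  · rw [hgf u hu]
    exact (hf.differentiableAt (hU.mem_nhds hu)).hasDerivAt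
  · filter_upwards [hV.mem_nhds (mem_image_of_mem f hu)] with y hy using hfg y hy

lemma deriv_inv_mul {U : Set ℂ} (hU : IsOpen U) {f : ℂ → ℂ}
    (hf : DifferentiableOn ℂ f U) (hi : InjOn f U) {z : ℂ} (hz : z ∈ U) :
    deriv (Function.invFunOn f U) (f z) * deriv f z = 1 := by
  have hg := inv_diff hU hf hi
  have hV := isOpen_image hU hf hi
  have h1 := (hg.differentiableAt (hV.mem_nhds (mem_image_of_mem f hz))).hasDerivAt.comp z
    (hf.differentiableAt (hU.mem_nhds hz)).hasDerivAt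
  have h2 : HasDerivAt (Function.invFunOn f U ∘ f) 1 z := by
    apply (hasDerivAt_id z).congr_of_eventuallyEq
    filter_upwards [hU.mem_nhds hz] with w hw using hi.leftInvOn_invFunOn hw
  exact h1.unique h2

/-- The Bloch-Landau theorem with a crude constant. -/
lemma bloch {L : ℂ → ℂ} {z : ℂ} {R : ℝ} (hR : 0 < R) (hd : DifferentiableOn ℂ L (ball z R)) :
    ∃ b, ball b (R * ‖deriv L z‖ / 96) ⊆ L '' ball z R := by
  by_cases h0 : deriv L z = 0
  · exact ⟨0, by simp [h0]⟩
  have hd' : DifferentiableOn ℂ (deriv L) (ball z R) := hd.deriv isOpen_ball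
  have hsub : closedBall z (R / 2) ⊆ ball z R := closedBall_subset_ball (by linarith)
  have hc : ContinuousOn (fun x => (R / 2 - ‖x - z‖) * ‖deriv L x‖) (closedBall z (R / 2)) :=
    ContinuousOn.mul (by fun_prop) (hd'.continuousOn.mono hsub).norm
  obtain ⟨a, ha, hmax⟩ := (isCompact_closedBall z (R / 2)).exists_isMaxOn
    ⟨z, mem_closedBall_self (by linarith)⟩ hc
  set d := R / 2 - ‖a - z‖ with hdd
  set M := ‖deriv L a‖ with hM
  have hz : R / 2 * ‖deriv L z‖ ≤ d * M := by
    have := hmax (mem_closedBall_self (by linarith : (0 : ℝ) ≤ R / 2))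
    simpa using this
  have hp : 0 < ‖deriv L z‖ := norm_pos_iff.2 h0
  have hdM : 0 < d * M := lt_of_lt_of_le (by positivity) hz
  have hd0 : 0 ≤ d := by
    have := mem_closedBall_iff_norm.1 ha
    linarith
  have hM0 : 0 ≤ M := norm_nonneg _
  have hdp : 0 < d := lt_of_le_of_ne hd0 fun h => by simp [← h] at hdM
  have hMp : 0 < M := lt_of_le_of_ne hM0 fun h => by simp [← h] at hdM
  have hin : ∀ x ∈ ball a (d / 2), ‖x - z‖ < ‖a - z‖ + d / 2 := by
    intro x hx
    have h1 := mem_ball_iff_norm.1 hx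
    have h2 : ‖x - z‖ ≤ ‖x - a‖ + ‖a - z‖ := norm_sub_le_norm_sub_add_norm_sub x a z
    linarith
  have hb : ball a (d / 2) ⊆ closedBall z (R / 2) := fun x hx => by
    have := hin x hx
    rw [mem_closedBall_iff_norm]; linarith
  have hbd : ∀ x ∈ ball a (d / 2), ‖deriv L x‖ ≤ 2 * M := by
    intro x hx
    have h1 := hin x hx
    have h2 : (R / 2 - ‖x - z‖) * ‖deriv L x‖ ≤ d * M := hmax (hb hx)
    have h3 : d / 2 * ‖deriv L x‖ ≤ (R / 2 - ‖x - z‖) * ‖deriv L x‖ :=
      mul_le_mul_of_nonneg_right (by linarith) (norm_nonneg _)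
    have h4 : d / 2 * ‖deriv L x‖ ≤ d / 2 * (2 * M) := by linarith
    exact le_of_mul_le_mul_left h4 (by linarith)
  have hmaps : MapsTo (deriv L) (ball a (d / 2)) (closedBall (deriv L a) (3 * M)) := by
    intro x hx
    rw [mem_closedBall_iff_norm]
    have := norm_sub_le (deriv L x) (deriv L a)
    have := hbd x hx
    linarith
  have hs : closedBall a (d / 12) ⊆ ball a (d / 2) := closedBall_subset_ball (by linarith)
  have hsR : closedBall a (d / 12) ⊆ ball z R := hs.trans (hb.trans hsub)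
  have hnear : ∀ x ∈ closedBall a (d / 12), ‖deriv L x - deriv L a‖ ≤ M / 2 := by
    intro x hx
    have h1 := Complex.dist_le_div_mul_dist_of_mapsTo_ball (hd'.mono (hb.trans hsub)) hmaps (hs hx)
    rw [dist_eq_norm] at h1
    have h2 : dist x a ≤ d / 12 := hx
    calc _ ≤ _ := h1
      _ ≤ 3 * M / (d / 2) * (d / 12) := mul_le_mul_of_nonneg_left h2 (by positivity)
      _ = M / 2 := by field_simp; ring
  have hlow : ∀ x ∈ closedBall a (d / 12), M / 2 * ‖x - a‖ ≤ ‖L x - L a‖ := by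
    intro x hx
    have h1 : ‖(L x - deriv L a * x) - (L a - deriv L a * a)‖ ≤ M / 2 * ‖x - a‖ := by
      refine (convex_closedBall a (d / 12)).norm_image_sub_le_of_norm_hasDerivWithin_le
        (f := fun x => L x - deriv L a * x) (f' := fun x => deriv L x - deriv L a) ?_ hnear
        (mem_closedBall_self (by linarith)) hx
      intro y hy
      have h2 := (hd.differentiableAt (isOpen_ball.mem_nhds (hsR hy))).hasDerivAt
      have h3 := (hasDerivAt_id y).const_mul (deriv L a)
      simpa using (h2.fun_sub h3).hasDerivWithinAt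
    have h2 : deriv L a * (x - a) =
        (L x - L a) - ((L x - deriv L a * x) - (L a - deriv L a * a)) := by ring
    have h3 : M * ‖x - a‖ = ‖deriv L a * (x - a)‖ := by rw [norm_mul]
    have h4 := norm_sub_le (L x - L a) ((L x - deriv L a * x) - (L a - deriv L a * a))
    rw [← h2, ← h3] at h4
    linarith
  have hdc : DiffContOnCl ℂ L (ball a (d / 12)) := by
    apply DifferentiableOn.diffContOnCl
    rw [closure_ball a (by positivity)]
    exact hd.mono hsR
  have hfin := hdc.ball_subset_image_closedBall (ε := M / 2 * (d / 12)) (by positivity)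
    (fun x hx => by
      have h1 := hlow x (sphere_subset_closedBall hx)
      rwa [mem_sphere_iff_norm.1 hx] at h1)
    (by
      apply Eventually.frequently (f := 𝓝[≠] a) ?_ |>.filter_mono nhdsWithin_le_nhds
      filter_upwards [self_mem_nhdsWithin,
        mem_nhdsWithin_of_mem_nhds (closedBall_mem_nhds a (by positivity : 0 < d / 12))] with x hx hx'
      intro e
      have h1 := hlow x hx'
      rw [e, sub_self, norm_zero] at h1
      have h2 : 0 < ‖x - a‖ := norm_pos_iff.2 (sub_ne_zero.2 hx)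
      nlinarith)
  refine ⟨L a, (ball_subset_ball ?_).trans (hfin.trans (image_mono hsR))⟩
  linarith

lemma omit_bound {j : ℂ → ℂ} {z w : ℂ} {R : ℝ} (hR : 0 < R)
    (hd : DifferentiableOn ℂ j (ball z R)) (hi : InjOn j (ball z R)) (hw : w ∉ j '' ball z R) :
    1 / 384 * R * ‖deriv j z‖ ≤ ‖j z - w‖ := by
  have hne : ∀ x ∈ ball z R, j x - w ≠ 0 := fun x hx h => hw ⟨x, hx, sub_eq_zero.1 h⟩
  have hq : DifferentiableOn ℂ (fun x => deriv j x / (j x - w)) (ball z R) :=
    (hd.deriv isOpen_ball).div (hd.sub_const w) hne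
  obtain ⟨L, hL0, hL⟩ := hq.isExactOn_ball.with_val_at z (Complex.log (j z - w))
  have hLd : DifferentiableOn ℂ L (ball z R) := fun x hx =>
    (hL x hx).differentiableAt.differentiableWithinAt
  have hexp : ∀ x ∈ ball z R, Complex.exp (L x) = j x - w := by
    have h1 : ∀ x ∈ ball z R, HasDerivAt (fun x => (j x - w) * Complex.exp (-L x)) 0 x := by
      intro x hx
      have h2 := ((hd.differentiableAt (isOpen_ball.mem_nhds hx)).hasDerivAt.sub_const w).fun_mul
        (hL x hx).fun_neg.cexp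
      refine h2.congr_deriv ?_
      have := hne x hx
      field_simp
      ring
    intro x hx
    have h2 := isOpen_ball.is_const_of_deriv_eq_zero (convex_ball z R).isPreconnected
      (fun x hx => (h1 x hx).differentiableAt.differentiableWithinAt)
      (fun x hx => (h1 x hx).deriv) hx (mem_ball_self hR)
    simp only [hL0, Complex.exp_neg, Complex.exp_log (hne z (mem_ball_self hR))] at h2
    rw [mul_inv_cancel₀ (hne z (mem_ball_self hR)),
      mul_inv_eq_one₀ (Complex.exp_ne_zero _)] at h2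
    exact h2.symm
  obtain ⟨b, hb⟩ := bloch hR hLd
  rw [(hL z (mem_ball_self hR)).deriv, norm_div] at hb
  have hp : 0 < ‖j z - w‖ := norm_pos_iff.2 (hne z (mem_ball_self hR))
  have hle : R * (‖deriv j z‖ / ‖j z - w‖) / 96 ≤ 4 := by
    by_contra hlt
    push Not at hlt
    have hpi : ‖(Real.pi : ℂ) * Complex.I‖ < 4 := by
      simpa [abs_of_pos Real.pi_pos] using Real.pi_lt_four
    obtain ⟨x, hx, ex⟩ := hb (show b + Real.pi * Complex.I ∈ _ by
      rw [mem_ball_iff_norm, add_sub_cancel_left]; linarith)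
    obtain ⟨y, hy, ey⟩ := hb (show b - Real.pi * Complex.I ∈ _ by
      rw [mem_ball_iff_norm, sub_sub_cancel_left, norm_neg]; linarith)
    have h1 : j x - w = j y - w := by
      rw [← hexp x hx, ← hexp y hy, ex, ey, Complex.exp_add, Complex.exp_sub, Complex.exp_pi_mul_I]
      ring
    have h2 : x = y := hi hx hy (sub_left_injective h1)
    rw [h2, ey] at ex
    have h3 : (Real.pi : ℂ) * Complex.I = 0 := by linear_combination (-1 / 2 : ℂ) * ex
    simp [Real.pi_ne_zero] at h3
  rw [← mul_div_assoc, div_div, div_le_iff₀ (by positivity)] at hle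
  linarith

end KoebeAux

theorem univ_deriv_ne_zero {j : ℂ → ℂ} {U : Set ℂ} (hU : IsOpen U) (hd : DifferentiableOn ℂ j U)
    (hi : InjOn j U) {z : ℂ} (hz : z ∈ U) : deriv j z ≠ 0 := by
  intro h
  simpa [h] using KoebeAux.deriv_inv_mul hU hd hi hz

theorem univ_isOpen_image {j : ℂ → ℂ} {U : Set ℂ} (hU : IsOpen U) (hd : DifferentiableOn ℂ j U)
    (hi : InjOn j U) {A : Set ℂ} (hA : IsOpen A) (hAU : A ⊆ U) : IsOpen (j '' A) :=
  KoebeAux.isOpen_image hA (hd.mono hAU) (hi.mono hAU)

theorem univ_inv_diff {j : ℂ → ℂ} {U : Set ℂ} (hU : IsOpen U) (hd : DifferentiableOn ℂ j U)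
    (hi : InjOn j U) : DifferentiableOn ℂ (Function.invFunOn j U) (j '' U) :=
  KoebeAux.inv_diff hU hd hi

theorem schwarz_cover {j : ℂ → ℂ} {z : ℂ} {R ρ : ℝ} (hR : 0 < R)
    (hd : DifferentiableOn ℂ j (ball z R)) (hi : InjOn j (ball z R))
    (h : ball (j z) ρ ⊆ j '' ball z R) : ρ ≤ R * ‖deriv j z‖ := by
  rcases le_or_gt ρ 0 with hρ | hρ
  · exact hρ.trans (by positivity)
  have hz : z ∈ ball z R := mem_ball_self hR
  have hg := (KoebeAux.inv_diff isOpen_ball hd hi).mono h
  have h1 := Complex.norm_deriv_le_div_of_mapsTo_ball (R₂ := R) hg (by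
    intro w hw
    obtain ⟨x, hx, rfl⟩ := h hw
    rw [hi.leftInvOn_invFunOn hz, hi.leftInvOn_invFunOn hx]
    exact ball_subset_closedBall hx) hρ
  have h2 := congrArg norm (KoebeAux.deriv_inv_mul isOpen_ball hd hi hz)
  rw [norm_mul, norm_one] at h2
  have h3 := mul_le_mul_of_nonneg_right h1 (norm_nonneg (deriv j z))
  rw [h2, div_mul_eq_mul_div, le_div_iff₀ hρ, one_mul] at h3
  exact h3

theorem koebe : ∃ c : ℝ, 0 < c ∧ c ≤ 1 ∧ ∀ (j : ℂ → ℂ) (z : ℂ) (R : ℝ), 0 < R →
    DifferentiableOn ℂ j (ball z R) → InjOn j (ball z R) →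
    ball (j z) (c * R * ‖deriv j z‖) ⊆ j '' ball z R := by
  refine ⟨1 / 384, by norm_num, by norm_num, fun j z R hR hd hi w hw => ?_⟩
  by_contra hn
  have h1 := KoebeAux.omit_bound hR hd hi hn
  rw [mem_ball_iff_norm, norm_sub_rev] at hw
  linarith

theorem distort : ∃ C : ℝ, 1 ≤ C ∧ ∀ (j : ℂ → ℂ) (z : ℂ) (R : ℝ), 0 < R →
    DifferentiableOn ℂ j (ball z R) → InjOn j (ball z R) →
    ∀ ζ, ‖ζ - z‖ ≤ 3 / 4 * R → ‖deriv j ζ‖ ≤ C * ‖deriv j z‖ := by
  refine ⟨3072 * Real.exp 1152, ?_, fun j z R hR hd hi ζ hζ => ?_⟩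
  · have := Real.add_one_le_exp 1152
    linarith
  have hp : 0 < ‖deriv j z‖ :=
    norm_pos_iff.2 (univ_deriv_ne_zero isOpen_ball hd hi (mem_ball_self hR))
  obtain ⟨w, hw, hwn⟩ : ∃ w ∈ ball (j z) (2 * R * ‖deriv j z‖), w ∉ j '' ball z R := by
    by_contra hn
    push Not at hn
    have := schwarz_cover hR hd hi hn
    nlinarith [mul_pos hR hp]
  have hloc : ∀ x, ‖x - z‖ ≤ 3 / 4 * R → R * ‖deriv j x‖ ≤ 1536 * ‖j x - w‖ := by
    intro x hx
    have hs : ball x (R / 4) ⊆ ball z R := by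
      apply ball_subset_ball'
      rw [dist_eq_norm]; linarith
    have := KoebeAux.omit_bound (by positivity) (hd.mono hs) (hi.mono hs)
      (fun h => hwn (image_mono hs h))
    linarith
  have hseg : ∀ t ∈ Icc (0 : ℝ) 1, ‖(z + t * (ζ - z)) - z‖ ≤ 3 / 4 * R := by
    intro t ht
    rw [add_sub_cancel_left, norm_mul, Complex.norm_real, Real.norm_of_nonneg ht.1]
    nlinarith [norm_nonneg (ζ - z), ht.1, ht.2]
  have hder : ∀ t ∈ Icc (0 : ℝ) 1, HasDerivAt (fun s : ℝ => j (z + s * (ζ - z)) - w)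
      (deriv j (z + t * (ζ - z)) * (ζ - z)) t := by
    intro t ht
    have hm : z + t * (ζ - z) ∈ ball z R := by
      rw [mem_ball_iff_norm]; linarith [hseg t ht]
    have h1 := (hd.differentiableAt (isOpen_ball.mem_nhds hm)).hasDerivAt
    have h2 : HasDerivAt (fun s : ℂ => z + s * (ζ - z)) (ζ - z) t := by
      simpa using ((hasDerivAt_id (t : ℂ)).mul_const (ζ - z)).const_add z
    exact ((h1.comp (t : ℂ) h2).comp_ofReal).sub_const w
  have hg := norm_le_gronwallBound_of_norm_deriv_right_le (δ := 2 * R * ‖deriv j z‖) (K := 1152)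
    (ε := 0) (a := 0) (b := 1) (f := fun s : ℝ => j (z + s * (ζ - z)) - w)
    (f' := fun t => deriv j (z + t * (ζ - z)) * (ζ - z))
    (fun t ht => (hder t ht).continuousAt.continuousWithinAt)
    (fun t ht => (hder t (Ico_subset_Icc_self ht)).hasDerivWithinAt)
    (by
      rw [mem_ball_iff_norm, norm_sub_rev] at hw
      simpa using hw.le)
    (fun t ht => by
      have h1 := hloc _ (hseg t (Ico_subset_Icc_self ht))
      rw [norm_mul]
      have h2 := mul_le_mul_of_nonneg_left hζ (norm_nonneg (deriv j (z + t * (ζ - z))))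
      linarith) 1 (right_mem_Icc.2 zero_le_one)
  rw [gronwallBound_ε0] at hg
  simp only [Complex.ofReal_one, one_mul, add_sub_cancel, sub_zero, mul_one] at hg
  have h1 := hloc ζ hζ
  have h2 : R * ‖deriv j ζ‖ ≤ R * (3072 * Real.exp 1152 * ‖deriv j z‖) := by linarith
  exact le_of_mul_le_mul_left h2 hR

end Pool.Agent.MP_ac6554_pr
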