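import Pool.Agent.MP_ac6554_pr.LaplaceSer
import Pool.Agent.MP_ac6554_pr.Defs

set_option autoImplicit false

open Filter Topology Set Real MeasureTheory
open scoped NNReal ENNReal

namespace Pool.Agent.MP_ac6554_pr

/-- The minimum of `t` and the first time at which `y` is at most `a`. -/
noncomputable def stopAt (y : ℝ≥0 → ℝ) (a : ℝ) (t : ℝ≥0) : ℝ≥0 := sInf {s | s = t ∨ y s ≤ a}

namespace Lap

section path

variable {y : ℝ≥0 → ℝ} {a : ℝ}

lemma stop_le (t : ℝ≥0) : stopAt y a t ≤ t := csInf_le' (Or.inl rfl)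

lemma stop_le_of {r : ℝ≥0} (h : y r ≤ a) (t : ℝ≥0) : stopAt y a t ≤ r := csInf_le' (Or.inr h)

lemma stop_mem (hy : Continuous y) (t : ℝ≥0) : stopAt y a t = t ∨ y (stopAt y a t) ≤ a := by
  have hc : IsClosed {s : ℝ≥0 | s = t ∨ y s ≤ a} :=
    (isClosed_eq continuous_id continuous_const).union (isClosed_le hy continuous_const)
  exact hc.csInf_mem ⟨t, Or.inl rfl⟩ (OrderBot.bddBelow _)

lemma hit_mem (hy : Continuous y) (h : ∃ r, y r ≤ a) : y (sInf {r | y r ≤ a}) ≤ a :=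
  (isClosed_le hy continuous_const).csInf_mem h (OrderBot.bddBelow _)

lemma stop_eq_min (hy : Continuous y) (h : ∃ r, y r ≤ a) (t : ℝ≥0) :
    stopAt y a t = min t (sInf {r | y r ≤ a}) := by
  refine le_antisymm (le_min (stop_le t) (stop_le_of (hit_mem hy h) t)) ?_
  rcases stop_mem (a := a) hy t with h1 | h1
  · rw [h1]; exact min_le_left _ _
  · exact (min_le_right _ _).trans (csInf_le' h1)

lemma stop_eq_self (hy : Continuous y) (h : ¬∃ r, y r ≤ a) (t : ℝ≥0) : stopAt y a t = t :=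
  (stop_mem hy t).resolve_right fun h1 => h ⟨_, h1⟩

lemma continuous_stop (hy : Continuous y) : Continuous (stopAt y a) := by
  by_cases h : ∃ r, y r ≤ a
  · rw [show stopAt y a = fun t => min t (sInf {r | y r ≤ a}) from funext (stop_eq_min hy h)]
    fun_prop
  · rw [show stopAt y a = fun t => t from funext (stop_eq_self hy h)]
    fun_prop

lemma stop_of_le (hy : Continuous y) {s t : ℝ≥0} (h : s ≤ stopAt y a t) : stopAt y a s = s := by
  rcases stop_mem (a := a) hy s with h1 | h1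
  · exact h1
  · exact le_antisymm (stop_le s) (h.trans (stop_le_of h1 t))

lemma stop_of_ge (hy : Continuous y) {s t : ℝ≥0} (h : stopAt y a t ≤ s) (hst : s ≤ t) :
    stopAt y a s = stopAt y a t := by
  by_cases h0 : ∃ r, y r ≤ a
  · rw [stop_eq_min hy h0] at h ⊢
    rw [stop_eq_min hy h0]
    refine le_antisymm (min_le_min_right _ hst) (le_min h (min_le_right _ _))
  · rw [stop_eq_self hy h0] at h ⊢
    rw [stop_eq_self hy h0]
    exact le_antisymm hst h

lemma le_of_le_stop (hy : Continuous y) (h0 : a ≤ y 0) {r t : ℝ≥0} (h : r ≤ stopAt y a t) :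
    a ≤ y r := by
  by_contra hlt
  push Not at hlt
  obtain ⟨r', hr', he⟩ := intermediate_value_Icc' (zero_le (a := r)) hy.continuousOn
    (show a ∈ Icc (y r) (y 0) from ⟨hlt.le, h0⟩)
  have h1 : stopAt y a t ≤ r' := stop_le_of he.le t
  have h2 : r' = r := le_antisymm hr'.2 (h.trans h1)
  rw [h2] at he
  exact hlt.ne he

lemma lt_stop_iff (hy : Continuous y) {s t : ℝ≥0} :
    s < stopAt y a t ↔ s < t ∧ ¬∃ r ≤ s, y r ≤ a := by
  constructor
  · intro h
    refine ⟨h.trans_le (stop_le t), ?_⟩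
    rintro ⟨r, hr, h1⟩
    exact absurd (h.trans_le ((stop_le_of h1 t).trans hr)) (lt_irrefl _)
  · rintro ⟨h1, h2⟩
    rcases stop_mem (a := a) hy t with h | h
    · rwa [h]
    · by_contra h3
      exact h2 ⟨_, not_lt.1 h3, h⟩

lemma tendsto_stop (hy : Continuous y) (t : ℝ≥0) :
    Tendsto (fun k : ℕ => stopAt y (a + 1 / ((k : ℝ) + 1)) t) atTop (𝓝 (stopAt y a t)) := by
  refine tendsto_order.2 ⟨fun b hb => ?_, fun b hb => Eventually.of_forall fun k => ?_⟩
  · rw [lt_stop_iff hy] at hb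
    obtain ⟨r0, hr0, hmin⟩ := (isCompact_Icc (a := (0 : ℝ≥0)) (b := b)).exists_isMinOn
      ⟨0, le_rfl, zero_le⟩ hy.continuousOn
    have h1 : a < y r0 := by
      by_contra h
      exact hb.2 ⟨r0, hr0.2, not_lt.1 h⟩
    have h2 : Tendsto (fun k : ℕ => a + 1 / ((k : ℝ) + 1)) atTop (𝓝 (a + 0)) :=
      tendsto_one_div_add_atTop_nhds_zero_nat.const_add a
    rw [add_zero] at h2
    filter_upwards [h2.eventually (gt_mem_nhds h1)] with k hk
    rw [lt_stop_iff hy]
    refine ⟨hb.1, ?_⟩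
    rintro ⟨r, hr, h3⟩
    have : y r0 ≤ y r := hmin ⟨zero_le, hr⟩
    linarith
  · refine lt_of_le_of_lt ?_ hb
    rcases stop_mem (a := a) hy t with h | h
    · rw [h]; exact stop_le t
    · refine stop_le_of (h.trans ?_) t
      have : (0 : ℝ) ≤ 1 / ((k : ℝ) + 1) := by positivity
      linarith

/-- Pathwise integration by parts. -/
lemma discount (hy : Continuous y) {f h : ℝ → ℝ} (hf : Continuous f) (hh : Continuous h)
    (l : ℝ) (t : ℝ≥0) (M : ℝ≥0 → ℝ)
    (hM : M = fun t => f (y (stopAt y a t)) - ∫ s in (0 : ℝ)..(stopAt y a t), h (y s.toNNReal)) :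
    exp (-(l * t)) * M t + ∫ s in (0 : ℝ)..t, l * exp (-(l * s)) * M s.toNNReal
      = exp (-(l * stopAt y a t)) * f (y (stopAt y a t))
        - ∫ s in (0 : ℝ)..(stopAt y a t),
          exp (-(l * s)) * (h (y s.toNNReal) - l * f (y s.toNNReal)) := by
  have hX : Continuous fun s : ℝ => y s.toNNReal := hy.comp continuous_real_toNNReal
  have hhX : Continuous fun s : ℝ => h (y s.toNNReal) := hh.comp hX
  have hfX : Continuous fun s : ℝ => f (y s.toNNReal) := hf.comp hX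
  set H : ℝ → ℝ := fun r => ∫ s in (0 : ℝ)..r, h (y s.toNNReal) with hH
  have hHd : ∀ r, HasDerivAt H (h (y r.toNNReal)) r := fun r =>
    intervalIntegral.integral_hasDerivAt_right (hhX.intervalIntegrable _ _)
      (hhX.stronglyMeasurableAtFilter _ _) hhX.continuousAt
  have hHc : Continuous H := continuous_iff_continuousAt.2 fun r => (hHd r).continuousAt
  have hσc := continuous_stop (a := a) hy
  have hMc : Continuous M := by
    rw [hM]
    exact (hf.comp (hy.comp hσc)).sub (hHc.comp (NNReal.continuous_coe.comp hσc))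
  have hg : Continuous fun s : ℝ => l * exp (-(l * s)) * M s.toNNReal := by
    have := hMc.comp continuous_real_toNNReal
    fun_prop
  set σ := stopAt y a t with hσ
  have hσt : (σ : ℝ) ≤ t := by exact_mod_cast stop_le t
  have hσ0 : (0 : ℝ) ≤ σ := σ.2
  rw [← intervalIntegral.integral_add_adjacent_intervals (b := (σ : ℝ))
    (hg.intervalIntegrable _ _) (hg.intervalIntegrable _ _)]
  have hE : ∀ s : ℝ, HasDerivAt (fun s : ℝ => exp (-(l * s))) (-(l * exp (-(l * s)))) s := by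
    intro s
    have := (((hasDerivAt_id s).const_mul l).neg).exp
    simpa [mul_comm] using this
  have e2 : ∫ s in (σ : ℝ)..t, l * exp (-(l * s)) * M s.toNNReal
      = (exp (-(l * σ)) - exp (-(l * t))) * M t := by
    rw [intervalIntegral.integral_congr (g := fun s => l * exp (-(l * s)) * M t)]
    · rw [intervalIntegral.integral_mul_const,
        intervalIntegral.integral_eq_sub_of_hasDerivAt (f := fun s => -exp (-(l * s)))]
      · ring
      · intro s _
        simpa using (hE s).fun_neg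
      · exact Continuous.intervalIntegrable (by fun_prop) _ _
    · intro s hs
      rw [uIcc_of_le hσt] at hs
      have h1 : σ ≤ s.toNNReal := Real.le_toNNReal_iff_coe_le (hσ0.trans hs.1) |>.2 hs.1
      have h2 : s.toNNReal ≤ t := Real.toNNReal_le_iff_le_coe.2 hs.2
      simp only [hM, stop_of_ge hy h1 h2]
  have e1 : ∫ s in (0 : ℝ)..σ, l * exp (-(l * s)) * M s.toNNReal
      = exp (-(l * σ)) * H σ - ∫ s in (0 : ℝ)..σ,
          exp (-(l * s)) * (h (y s.toNNReal) - l * f (y s.toNNReal)) := by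
    rw [eq_sub_iff_add_eq, ← intervalIntegral.integral_add (hg.intervalIntegrable _ _)
      (Continuous.intervalIntegrable (by fun_prop) _ _),
      intervalIntegral.integral_congr (g := fun s =>
        -(l * exp (-(l * s))) * H s + exp (-(l * s)) * h (y s.toNNReal)),
      intervalIntegral.integral_eq_sub_of_hasDerivAt (f := fun s => exp (-(l * s)) * H s)]
    · simp [hH]
    · intro s _
      exact (hE s).mul (hHd s)
    · exact Continuous.intervalIntegrable (by fun_prop) _ _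
    · intro s hs
      rw [uIcc_of_le hσ0] at hs
      have h2 : s.toNNReal ≤ σ := Real.toNNReal_le_iff_le_coe.2 hs.2
      simp only [hM, stop_of_le hy h2, Real.coe_toNNReal s hs.1]
      ring
  rw [e1, e2]
  have : M t = f (y σ) - H σ := by rw [hM]
  rw [this]
  ring

end path

variable {Ω : Type*} [MeasurableSpace Ω] {P : Measure Ω} [IsProbabilityMeasure P]

lemma fubini {M : ℝ≥0 → Ω → ℝ} (hc : ∀ ω, Continuous fun t => M t ω)
    (hm : ∀ t, Measurable (M t)) (t : ℝ≥0) {B c0 : ℝ} (hB : ∀ s ≤ t, ∀ ω, |M s ω| ≤ B)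
    (hE : ∀ s, ∫ ω, M s ω ∂P = c0) (l : ℝ) :
    Integrable (fun ω => exp (-(l * t)) * M t ω
      + ∫ s in (0 : ℝ)..t, l * exp (-(l * s)) * M s.toNNReal ω) P ∧
    ∫ ω, (exp (-(l * t)) * M t ω
      + ∫ s in (0 : ℝ)..t, l * exp (-(l * s)) * M s.toNNReal ω) ∂P = c0 := by
  have ht : (0 : ℝ) ≤ t := t.2
  have hmeas : Measurable (Function.uncurry fun (s : ℝ) (ω : Ω) =>
      l * exp (-(l * s)) * M s.toNNReal ω) := by
    refine measurable_uncurry_of_continuous_of_measurable (fun ω => ?_) fun s => ?_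
    · have := (hc ω).comp continuous_real_toNNReal
      fun_prop
    · exact (hm _).const_mul _
  have hint : Integrable (Function.uncurry fun (s : ℝ) (ω : Ω) =>
      l * exp (-(l * s)) * M s.toNNReal ω) ((volume.restrict (uIoc (0 : ℝ) t)).prod P) := by
    have : IsFiniteMeasure (volume.restrict (uIoc (0 : ℝ) t)) := by
      rw [uIoc_of_le ht]; infer_instance
    refine Integrable.of_bound hmeas.aestronglyMeasurable (|l| * exp (|l| * t) * B) ?_
    filter_upwards [Measure.quasiMeasurePreserving_fst.ae (ae_restrict_mem measurableSet_uIoc)]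
      with q hq
    rw [uIoc_of_le ht] at hq
    have h2 : q.1.toNNReal ≤ t := Real.toNNReal_le_iff_le_coe.2 hq.2
    have h3 := hB _ h2 q.2
    have h4 : -(l * q.1) ≤ |l| * t := by
      have := neg_abs_le l
      have := abs_nonneg l
      have := hq.1
      have := hq.2
      nlinarith
    simp only [Function.uncurry, Real.norm_eq_abs, abs_mul, abs_exp]
    gcongr
  have h1 : Integrable (fun ω => exp (-(l * t)) * M t ω) P :=
    (Integrable.of_bound (hm t).aestronglyMeasurable B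
      (Eventually.of_forall fun ω => hB t le_rfl ω)).const_mul _
  have h2 : Integrable (fun ω => ∫ s in (0 : ℝ)..t, l * exp (-(l * s)) * M s.toNNReal ω) P := by
    have := hint.integral_prod_right
    simp only [intervalIntegral.integral_of_le ht]
    rw [uIoc_of_le ht] at this
    exact this
  refine ⟨h1.add h2, ?_⟩
  rw [integral_add h1 h2, ← intervalIntegral_integral_swap hint]
  simp only [integral_const_mul, hE]
  rw [intervalIntegral.integral_mul_const,
    intervalIntegral.integral_eq_sub_of_hasDerivAt (f := fun s => -exp (-(l * s)))]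
  · simp; ring
  · intro s _
    have := (((hasDerivAt_id s).const_mul l).neg).exp.fun_neg
    simpa [mul_comm] using this
  · exact Continuous.intervalIntegrable (by fun_prop) _ _

variable {x : ℝ≥0 → Ω → ℝ}

lemma measurableSet_hit (hc : ∀ ω, Continuous fun t => x t ω) (hm : ∀ t, Measurable (x t))
    (a : ℝ) (s : ℝ≥0) : MeasurableSet {ω | ∃ r ≤ s, x r ω ≤ a} := by
  have e : {ω | ∃ r ≤ s, x r ω ≤ a} = ⋂ n : ℕ, ⋃ k : ℕ,
      {ω | x (min (TopologicalSpace.denseSeq ℝ≥0 k) s) ω < a + 1 / ((n : ℝ) + 1)} := by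
    ext ω
    simp only [mem_ofPred_eq, mem_iInter, mem_iUnion]
    constructor
    · rintro ⟨r, hr, h⟩ n
      have ho : IsOpen {r : ℝ≥0 | x (min r s) ω < a + 1 / ((n : ℝ) + 1)} :=
        isOpen_lt ((hc ω).comp (by fun_prop)) continuous_const
      have hn : (0 : ℝ) < 1 / ((n : ℝ) + 1) := by positivity
      exact (TopologicalSpace.denseRange_denseSeq ℝ≥0).exists_mem_open ho
        ⟨r, by simp only [mem_ofPred_eq, min_eq_left hr]; linarith⟩
    · intro h
      obtain ⟨r0, hr0, hmin⟩ := (isCompact_Icc (a := (0 : ℝ≥0)) (b := s)).exists_isMinOn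
        ⟨0, le_rfl, zero_le⟩ (hc ω).continuousOn
      refine ⟨r0, hr0.2, ?_⟩
      have h2 : Tendsto (fun k : ℕ => a + 1 / ((k : ℝ) + 1)) atTop (𝓝 (a + 0)) :=
        tendsto_one_div_add_atTop_nhds_zero_nat.const_add a
      rw [add_zero] at h2
      refine ge_of_tendsto' h2 fun n => ?_
      obtain ⟨k, hk⟩ := h n
      have : x r0 ω ≤ x (min (TopologicalSpace.denseSeq ℝ≥0 k) s) ω :=
        hmin ⟨zero_le, min_le_right _ _⟩
      linarith
  rw [e]
  exact MeasurableSet.iInter fun n => MeasurableSet.iUnion fun k =>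
    measurableSet_lt (hm _) measurable_const

lemma measurable_stop (hc : ∀ ω, Continuous fun t => x t ω) (hm : ∀ t, Measurable (x t))
    (a : ℝ) (t : ℝ≥0) : Measurable fun ω => stopAt (x · ω) a t := by
  refine measurable_of_Ioi fun s => ?_
  have e : (fun ω => stopAt (x · ω) a t) ⁻¹' Ioi s
      = {_ω | s < t} ∩ {ω | ∃ r ≤ s, x r ω ≤ a}ᶜ := by
    ext ω
    exact lt_stop_iff (hc ω)
  rw [e]
  exact (MeasurableSet.const _).inter (measurableSet_hit hc hm a s).compl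

lemma measurable_hitT (hc : ∀ ω, Continuous fun t => x t ω) (hm : ∀ t, Measurable (x t))
    (a : ℝ) : Measurable fun ω => sInf {t | x t ω ≤ a} := by
  refine measurable_of_Iic fun s => ?_
  have e : (fun ω => sInf {t | x t ω ≤ a}) ⁻¹' Iic s
      = {ω | ∃ r ≤ s, x r ω ≤ a} ∪ ⋂ n : ℕ, {ω | ∃ r ≤ (n : ℝ≥0), x r ω ≤ a}ᶜ := by
    ext ω
    simp only [mem_preimage, mem_Iic, mem_union, mem_ofPred_eq, mem_iInter, mem_compl_iff]
    by_cases h : ∃ r, x r ω ≤ a
    · constructor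
      · intro h1
        exact Or.inl ⟨_, h1, hit_mem (hc ω) h⟩
      · rintro (⟨r, hr, h1⟩ | h1)
        · exact (csInf_le' (s := {t | x t ω ≤ a}) h1).trans hr
        · obtain ⟨r, hr⟩ := h
          obtain ⟨n, hn⟩ := exists_nat_ge r
          exact absurd ⟨r, hn, hr⟩ (h1 n)
    · have : {t | x t ω ≤ a} = ∅ := eq_empty_of_forall_notMem fun r hr => h ⟨r, hr⟩
      rw [this]
      refine ⟨fun _ => Or.inr fun n ⟨r, _, hr⟩ => h ⟨r, hr⟩, fun _ => ?_⟩
      simp
  rw [e]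
  exact (measurableSet_hit hc hm a s).union
    (MeasurableSet.iInter fun n => (measurableSet_hit hc hm a n).compl)

/-- The stopped Dynkin process. -/
noncomputable def dyn (κ : ℝ) (x : ℝ≥0 → Ω → ℝ) (a : ℝ) (f : ℝ → ℝ) (t : ℝ≥0) (ω : Ω) : ℝ :=
  f (x (stopAt (x · ω) a t) ω)
    - ∫ s in (0 : ℝ)..(stopAt (x · ω) a t), gen κ f (x s.toNNReal ω)

lemma continuous_gen (κ : ℝ) {f : ℝ → ℝ} (hf : ContDiff ℝ 2 f) : Continuous (gen κ f) := by
  have h1 : ContDiff ℝ 1 (deriv f) := hf.deriv'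
  have h2 : Continuous (deriv (deriv f)) := h1.continuous_deriv le_rfl
  have h3 := h1.continuous
  unfold gen
  fun_prop

lemma exp_le {l : ℝ} {s t : ℝ} (hs : 0 ≤ s) (hst : s ≤ t) : exp (-(l * s)) ≤ exp (|l| * t) := by
  have := neg_abs_le l
  have := abs_nonneg l
  exact exp_le_exp.2 (by nlinarith)

lemma dynkin {κ : ℝ} (hc : ∀ ω, Continuous fun t => x t ω) (hb : ∀ t ω, |x t ω| ≤ 1)
    {a : ℝ} {f : ℝ → ℝ} (hf : ContDiff ℝ 2 f) (hm : ∀ t, Measurable (dyn κ x a f t))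
    (hE : ∀ t, ∫ ω, dyn κ x a f t ω ∂P = f 1) (l : ℝ) (t : ℝ≥0) (W : Ω → ℝ)
    (hW : W = fun ω => exp (-(l * stopAt (x · ω) a t)) * f (x (stopAt (x · ω) a t) ω)
        - ∫ s in (0 : ℝ)..(stopAt (x · ω) a t),
          exp (-(l * s)) * (gen κ f (x s.toNNReal ω) - l * f (x s.toNNReal ω))) :
    Integrable W P ∧ ∫ ω, W ω ∂P = f 1 := by
  have hg := continuous_gen κ hf
  obtain ⟨B1, hB1⟩ := (isCompact_Icc (a := (-1 : ℝ)) (b := 1)).exists_bound_of_continuousOn
    hf.continuous.continuousOn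
  obtain ⟨B2, hB2⟩ := (isCompact_Icc (a := (-1 : ℝ)) (b := 1)).exists_bound_of_continuousOn
    hg.continuousOn
  have hB : ∀ s ≤ t, ∀ ω, |dyn κ x a f s ω| ≤ B1 + B2 * t := by
    intro s hs ω
    refine (abs_sub _ _).trans (add_le_add (hB1 _ (abs_le.1 (hb _ _))) ?_)
    refine (intervalIntegral.norm_integral_le_of_norm_le_const (C := B2)
      fun r _ => hB2 _ (abs_le.1 (hb _ _))).trans ?_
    have h0 : 0 ≤ B2 := (norm_nonneg _).trans (hB2 0 (by simp))
    have h1 : ((stopAt (x · ω) a s : ℝ≥0) : ℝ) ≤ t := by exact_mod_cast (stop_le s).trans hs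
    rw [sub_zero, abs_of_nonneg (NNReal.coe_nonneg _)]
    gcongr
  have hcont : ∀ ω, Continuous fun t => dyn κ x a f t ω := by
    intro ω
    have hσ := continuous_stop (a := a) (hc ω)
    have hX : Continuous fun s : ℝ => gen κ f (x s.toNNReal ω) :=
      hg.comp ((hc ω).comp continuous_real_toNNReal)
    exact (hf.continuous.comp ((hc ω).comp hσ)).sub
      ((intervalIntegral.continuous_primitive (fun _ _ => hX.intervalIntegrable _ _) 0).comp
        (NNReal.continuous_coe.comp hσ))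
  have key := fubini (P := P) hcont hm t hB hE l
  have e : (fun ω => exp (-(l * t)) * dyn κ x a f t ω
      + ∫ s in (0 : ℝ)..t, l * exp (-(l * s)) * dyn κ x a f s.toNNReal ω) = W := by
    rw [hW]
    funext ω
    exact discount (hc ω) hf.continuous hg l t (fun t => dyn κ x a f t ω) rfl
  rw [e] at key
  exact key

/-- The value process. -/
noncomputable def val (κ l : ℝ) (x : ℝ≥0 → Ω → ℝ) (a : ℝ) (t : ℝ≥0) (ω : Ω) : ℝ :=
  exp (-(l * stopAt (x · ω) a t)) *
    uu (2 * (1 - 4 / κ)) (8 * l / κ) (1 - 4 / κ + 1 / 2) (x (stopAt (x · ω) a t) ω)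

lemma nu_bound {κ : ℝ} (h1 : 8 / 3 < κ) (h2 : κ < 8) : |1 - 4 / κ| < 1 / 2 := by
  have h0 : 0 < κ := by linarith
  have h3 : 4 / κ < 3 / 2 := by rw [div_lt_iff₀ h0]; linarith
  have h4 : 1 / 2 < 4 / κ := by rw [lt_div_iff₀ h0]; linarith
  rw [abs_lt]; constructor <;> linarith

omit [MeasurableSpace Ω] in
lemma abs_val_le {κ : ℝ} (h1 : 8 / 3 < κ) (h2 : κ < 8) (hb : ∀ t ω, |x t ω| ≤ 1) (l a : ℝ)
    (t : ℝ≥0) (ω : Ω) : |val κ l x a t ω| ≤ exp (-(l * stopAt (x · ω) a t)) *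
      ∑' n, |co (2 * (1 - 4 / κ)) (8 * l / κ) (1 - 4 / κ + 1 / 2) n| := by
  have hν := abs_lt.1 (nu_bound h1 h2)
  rw [val, abs_mul, abs_exp]
  gcongr
  exact abs_uu_le (by linarith) (by linarith) (hb _ _)

lemma val_a {κ : ℝ} (h1 : 8 / 3 < κ) (h2 : κ < 8) (hc : ∀ ω, Continuous fun t => x t ω)
    (hb : ∀ t ω, |x t ω| ≤ 1) (h0 : ∀ ω, x 0 ω = 1) {a : ℝ} (ha : a ∈ Ioo (-1 : ℝ) 1)
    (hm : ∀ f, ContDiff ℝ 2 f → ∀ t, Measurable (dyn κ x a f t))
    (hE : ∀ f, ContDiff ℝ 2 f → ∀ t, ∫ ω, dyn κ x a f t ω ∂P = f 1) (l : ℝ) (t : ℝ≥0) :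
    AEStronglyMeasurable (val κ l x a t) P ∧ ∫ ω, val κ l x a t ω ∂P = 1 := by
  have hν := abs_lt.1 (nu_bound h1 h2)
  have hκ : 0 < κ := by linarith
  set c := 1 - 4 / κ + 1 / 2 with hcdef
  set p := 8 * l / κ with hp
  have hbc : 2 * (1 - 4 / κ) = 2 * c - 1 := by rw [hcdef]; ring
  have hc0 : 0 < c := by linarith
  have hb0 : 2 * c - 1 < c := by linarith
  set W : ℕ → Ω → ℝ := fun N ω =>
    exp (-(l * stopAt (x · ω) a t)) * ff (2 * c - 1) p c N (x (stopAt (x · ω) a t) ω)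
      - ∫ s in (0 : ℝ)..(stopAt (x · ω) a t), exp (-(l * s)) *
        (gen κ (ff (2 * c - 1) p c N) (x s.toNNReal ω)
          - l * ff (2 * c - 1) p c N (x s.toNNReal ω)) with hW
  have hWi : ∀ N, Integrable (W N) P ∧ ∫ ω, W N ω ∂P = 1 := by
    intro N
    have := dynkin (P := P) hc hb (contDiff_ff (2 * c - 1) p c N) (hm _ (contDiff_ff _ _ _ _))
      (hE _ (contDiff_ff _ _ _ _)) l t (W N) rfl
    rwa [ff_one] at this
  set ρ : ℕ → ℝ := fun N =>
    |co (2 * c - 1) p c N * ((N : ℝ) ^ 2 + (2 * c - 1) * N + p)| * ((1 - a) / 2) ^ N with hρ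
  have hρ0 : Tendsto ρ atTop (𝓝 0) :=
    tendsto_rem hc0 hb0 (by linarith [ha.2]) (by linarith [ha.1])
  have herr : ∀ N ω, |∫ s in (0 : ℝ)..(stopAt (x · ω) a t), exp (-(l * s)) *
      (gen κ (ff (2 * c - 1) p c N) (x s.toNNReal ω)
        - l * ff (2 * c - 1) p c N (x s.toNNReal ω))| ≤ exp (|l| * t) * (κ / 8) * t * ρ N := by
    intro N ω
    have hσt : ((stopAt (x · ω) a t : ℝ≥0) : ℝ) ≤ t := by exact_mod_cast stop_le t
    have hρn : 0 ≤ ρ N := mul_nonneg (abs_nonneg _) (pow_nonneg (by linarith [ha.2]) _)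
    rw [← Real.norm_eq_abs]
    refine (intervalIntegral.norm_integral_le_of_norm_le_const
      (C := exp (|l| * t) * (κ / 8 * ρ N)) fun s hs => ?_).trans ?_
    · rw [uIoc_of_le (NNReal.coe_nonneg _)] at hs
      have hs2 : s.toNNReal ≤ stopAt (x · ω) a t := Real.toNNReal_le_iff_le_coe.2 hs.2
      have hz : a ≤ x s.toNNReal ω :=
        le_of_le_stop (y := (x · ω)) (hc ω) (by simp only [h0]; exact ha.2.le) hs2
      have hz1 := (abs_le.1 (hb s.toNNReal ω)).2
      set z := x s.toNNReal ω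
      have e : gen κ (ff (2 * c - 1) p c N) z - l * ff (2 * c - 1) p c N z
          = κ / 8 * -(co (2 * c - 1) p c N * ((N : ℝ) ^ 2 + (2 * c - 1) * N + p)
            * ((1 - z) / 2) ^ N) := by
        rw [← ode_ff hc0, gen, hcdef, hp]
        field_simp
        ring
      rw [e, Real.norm_eq_abs, abs_mul, abs_exp, abs_mul, abs_neg, abs_mul,
        abs_of_pos (by positivity : 0 < κ / 8), abs_pow,
        abs_of_nonneg (by linarith : 0 ≤ (1 - z) / 2)]
      have := exp_le (l := l) hs.1.le (hs.2.trans hσt)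
      have h5 : 0 ≤ (1 - z) / 2 := by linarith
      simp only [hρ]
      gcongr
    · rw [sub_zero, abs_of_nonneg (NNReal.coe_nonneg _)]
      calc exp (|l| * t) * (κ / 8 * ρ N) * (stopAt (x · ω) a t : ℝ≥0)
          ≤ exp (|l| * t) * (κ / 8 * ρ N) * t := by gcongr
        _ = _ := by ring
  have hlim : ∀ ω, Tendsto (fun N => W N ω) atTop (𝓝 (val κ l x a t ω)) := by
    intro ω
    have e1 := (tendsto_ff (p := p) hc0 hb0 (hb (stopAt (x · ω) a t) ω)).const_mul
      (exp (-(l * stopAt (x · ω) a t)))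
    have e2 := hρ0.const_mul (exp (|l| * t) * (κ / 8) * t)
    rw [mul_zero] at e2
    have e3 := e1.sub (squeeze_zero_norm (fun N => herr N ω) e2)
    rw [sub_zero] at e3
    rw [val, hbc]
    exact e3
  refine ⟨aestronglyMeasurable_of_tendsto_ae atTop (fun N => (hWi N).1.aestronglyMeasurable)
    (Eventually.of_forall hlim), ?_⟩
  have hd := tendsto_integral_filter_of_dominated_convergence (μ := P) (l := atTop) (F := W)
    (f := val κ l x a t)
    (fun _ => exp (|l| * t) * ∑' n, |co (2 * c - 1) p c n| + exp (|l| * t) * (κ / 8) * t * 1)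
    (Eventually.of_forall fun N => (hWi N).1.aestronglyMeasurable) ?_ (integrable_const _)
    (Eventually.of_forall hlim)
  · simp only [fun N => (hWi N).2] at hd
    exact tendsto_nhds_unique hd tendsto_const_nhds
  · filter_upwards [hρ0.eventually (ge_mem_nhds one_pos)] with N hN
    refine Eventually.of_forall fun ω => (abs_sub _ _).trans (add_le_add ?_ ((herr N ω).trans ?_))
    · rw [abs_mul, abs_exp]
      have hσt : ((stopAt (x · ω) a t : ℝ≥0) : ℝ) ≤ t := by exact_mod_cast stop_le t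
      have := exp_le (l := l) (NNReal.coe_nonneg _) hσt
      have := abs_ff_le (p := p) hc0 hb0 (hb (stopAt (x · ω) a t) ω) N
      gcongr
    · gcongr

lemma val_end {κ : ℝ} (h1 : 8 / 3 < κ) (h2 : κ < 8) (hc : ∀ ω, Continuous fun t => x t ω)
    (hb : ∀ t ω, |x t ω| ≤ 1) (h0 : ∀ ω, x 0 ω = 1)
    (hm : ∀ a ∈ Ioo (-1 : ℝ) 1, ∀ f, ContDiff ℝ 2 f → ∀ t, Measurable (dyn κ x a f t))
    (hE : ∀ a ∈ Ioo (-1 : ℝ) 1, ∀ f, ContDiff ℝ 2 f → ∀ t, ∫ ω, dyn κ x a f t ω ∂P = f 1)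
    (l : ℝ) (t : ℝ≥0) :
    AEStronglyMeasurable (val κ l x (-1) t) P ∧ ∫ ω, val κ l x (-1) t ω ∂P = 1 := by
  have hν := abs_lt.1 (nu_bound h1 h2)
  have ha : ∀ k : ℕ, -1 + 1 / ((k : ℝ) + 1) ∈ Ioo (-1 : ℝ) 1 := by
    intro k
    have h3 : (0 : ℝ) < 1 / ((k : ℝ) + 1) := by positivity
    have h4 : 1 / ((k : ℝ) + 1) ≤ 1 := by
      rw [div_le_one (by positivity)]; linarith [(Nat.cast_nonneg k : (0 : ℝ) ≤ k)]
    constructor <;> linarith
  have hV := fun k : ℕ => val_a (P := P) h1 h2 hc hb h0 (ha k) (hm _ (ha k)) (hE _ (ha k)) l t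
  have hlim : ∀ ω, Tendsto (fun k : ℕ => val κ l x (-1 + 1 / ((k : ℝ) + 1)) t ω) atTop
      (𝓝 (val κ l x (-1) t ω)) := by
    intro ω
    have e1 := tendsto_stop (a := -1) (hc ω) t
    have e2 := ((hc ω).tendsto _).comp e1
    have e3 := (continuousOn_uu (b := 2 * (1 - 4 / κ)) (p := 8 * l / κ) (c := 1 - 4 / κ + 1 / 2)
      (by linarith) (by linarith) _ (hb (stopAt (x · ω) (-1) t) ω)).tendsto.comp
      (tendsto_nhdsWithin_iff.2 ⟨e2, Eventually.of_forall fun k => hb _ ω⟩)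
    have e4 : Continuous fun s : ℝ≥0 => exp (-(l * s)) := by fun_prop
    exact ((e4.tendsto _).comp e1).mul e3
  refine ⟨aestronglyMeasurable_of_tendsto_ae atTop (fun k => (hV k).1)
    (Eventually.of_forall hlim), ?_⟩
  have hd := tendsto_integral_of_dominated_convergence (μ := P)
    (fun _ => exp (|l| * t) * ∑' n, |co (2 * (1 - 4 / κ)) (8 * l / κ) (1 - 4 / κ + 1 / 2) n|)
    (fun k => (hV k).1) (integrable_const _) (fun k => Eventually.of_forall fun ω => ?_)
    (Eventually.of_forall hlim)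
  · simp only [fun k => (hV k).2] at hd
    exact tendsto_nhds_unique hd tendsto_const_nhds
  · refine (abs_val_le h1 h2 hb l _ t ω).trans ?_
    have hσt : ((stopAt (x · ω) (-1 + 1 / ((k : ℝ) + 1)) t : ℝ≥0) : ℝ) ≤ t := by
      exact_mod_cast stop_le t
    have := exp_le (l := l) (NNReal.coe_nonneg _) hσt
    have : 0 ≤ ∑' n, |co (2 * (1 - 4 / κ)) (8 * l / κ) (1 - 4 / κ + 1 / 2) n| :=
      tsum_nonneg fun n => abs_nonneg _
    gcongr

lemma cos_ratio_pos {ν p : ℝ} (hν : |ν| < 1 / 2) (hp' : ν ^ 2 - p < 1 / 4) :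
    0 < cos (π * √(ν ^ 2 - p)) / cos (π * ν) := by
  have hν' := abs_lt.1 hν
  have h1 : √(ν ^ 2 - p) < 1 / 2 := by
    rw [Real.sqrt_lt' (by norm_num)]; linarith
  have h2 := Real.sqrt_nonneg (ν ^ 2 - p)
  refine div_pos (Real.cos_pos_of_mem_Ioo ⟨?_, ?_⟩) (Real.cos_pos_of_mem_Ioo ⟨?_, ?_⟩) <;>
    nlinarith [Real.pi_pos]

omit [IsProbabilityMeasure P] in
lemma exp_moment {κ : ℝ} (h1 : 8 / 3 < κ) (h2 : κ < 8) (hc : ∀ ω, Continuous fun t => x t ω)
    (hx : ∀ t, Measurable (x t)) (hb : ∀ t ω, |x t ω| ≤ 1) {l : ℝ} (hl : l < 0)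
    (hl' : (1 - 4 / κ) ^ 2 - 8 * l / κ < 1 / 4)
    (hV : ∀ t, AEStronglyMeasurable (val κ l x (-1) t) P ∧ ∫ ω, val κ l x (-1) t ω ∂P = 1) :
    (∀ᵐ ω ∂P, ∃ t, x t ω ≤ -1) ∧
      Integrable (fun ω => exp (-(l * (sInf {t | x t ω ≤ -1} : ℝ≥0)))) P := by
  have hν := nu_bound h1 h2
  have hκ : 0 < κ := by linarith
  have hp : 8 * l / κ ≤ 0 := div_nonpos_of_nonpos_of_nonneg (by linarith) hκ.le
  set F := ∑' n, co (2 * (1 - 4 / κ)) (8 * l / κ) (1 - 4 / κ + 1 / 2) n with hF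
  have hF0 : 0 < F := by
    rw [hF, tsum_co hν (hp.trans (sq_nonneg _)) hl']
    exact cos_ratio_pos hν hl'
  set g : ℕ → Ω → ℝ≥0∞ := fun n ω => ENNReal.ofReal (exp (-(l * stopAt (x · ω) (-1) n))) with hg
  have hgm : ∀ n, Measurable (g n) := fun n => by
    have := measurable_stop hc hx (-1) n
    simp only [hg]
    fun_prop
  have hgb : ∀ n, ∫⁻ ω, g n ω ∂P ≤ ENNReal.ofReal F⁻¹ := by
    intro n
    have hi : Integrable (val κ l x (-1) n) P := by
      by_contra h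
      have := (hV n).2
      rw [integral_undef h] at this
      exact zero_ne_one this
    have hle : ∀ ω, exp (-(l * stopAt (x · ω) (-1) n)) ≤ F⁻¹ * val κ l x (-1) n ω := by
      intro ω
      have := le_uu hν hp hl' (hb (stopAt (x · ω) (-1) n) ω)
      rw [le_inv_mul_iff₀ hF0, val, mul_comm]
      gcongr
    calc ∫⁻ ω, g n ω ∂P ≤ ∫⁻ ω, ENNReal.ofReal (F⁻¹ * val κ l x (-1) n ω) ∂P :=
          lintegral_mono fun ω => ENNReal.ofReal_le_ofReal (hle ω)
      _ = ENNReal.ofReal (∫ ω, F⁻¹ * val κ l x (-1) n ω ∂P) :=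
          (ofReal_integral_eq_lintegral_ofReal (hi.const_mul _)
            (Eventually.of_forall fun ω => (exp_pos _).le.trans (hle ω))).symm
      _ = _ := by rw [integral_const_mul, (hV n).2, mul_one]
  have hfin : ∫⁻ ω, liminf (fun n => g n ω) atTop ∂P < ⊤ := by
    refine (lintegral_liminf_le hgm).trans_lt (lt_of_le_of_lt ?_ (ENNReal.ofReal_lt_top (r := F⁻¹)))
    exact liminf_le_of_frequently_le' (Frequently.of_forall hgb)
  have hhit : ∀ᵐ ω ∂P, ∃ t, x t ω ≤ -1 := by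
    filter_upwards [ae_lt_top (Measurable.liminf hgm) hfin.ne] with ω hω
    by_contra h
    refine hω.ne (Tendsto.liminf_eq ?_)
    simp only [hg, stop_eq_self (hc ω) h]
    refine ENNReal.tendsto_ofReal_atTop.comp (tendsto_exp_atTop.comp ?_)
    have := tendsto_natCast_atTop_atTop (R := ℝ).const_mul_atTop (neg_pos.2 hl)
    simpa using this
  refine ⟨hhit, ?_, ?_⟩
  · have := measurable_hitT hc hx (-1)
    exact Measurable.aestronglyMeasurable (by fun_prop)
  · rw [hasFiniteIntegral_iff_ofReal (Eventually.of_forall fun ω => (exp_pos _).le)]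
    refine lt_of_eq_of_lt (lintegral_congr_ae ?_) hfin
    filter_upwards [hhit] with ω hω
    refine (Tendsto.liminf_eq (tendsto_const_nhds.congr' ?_)).symm
    obtain ⟨n0, hn0⟩ := exists_nat_ge (sInf {t | x t ω ≤ -1})
    filter_upwards [eventually_ge_atTop n0] with n hn
    simp only [hg]
    rw [stop_eq_min (hc ω) hω, min_eq_right (hn0.trans (by exact_mod_cast hn))]

theorem laplace_dyn {κ : ℝ} (h1 : 8 / 3 < κ) (h2 : κ < 8) (hc : ∀ ω, Continuous fun t => x t ω)
    (hx : ∀ t, Measurable (x t)) (hb : ∀ t ω, |x t ω| ≤ 1) (h0 : ∀ ω, x 0 ω = 1)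
    (hm : ∀ a ∈ Ioo (-1 : ℝ) 1, ∀ f, ContDiff ℝ 2 f → ∀ t, Measurable (dyn κ x a f t))
    (hE : ∀ a ∈ Ioo (-1 : ℝ) 1, ∀ f, ContDiff ℝ 2 f → ∀ t, ∫ ω, dyn κ x a f t ω ∂P = f 1) :
    (∀ᵐ ω ∂P, ∃ t, x t ω ≤ -1) ∧ ∀ l : ℝ, 8 * l / κ ≤ (1 - 4 / κ) ^ 2 →
      (1 - 4 / κ) ^ 2 - 8 * l / κ < 1 / 4 →
      Integrable (fun ω => exp (-(l * (sInf {t | x t ω ≤ -1} : ℝ≥0)))) P ∧
      ∫ ω, exp (-(l * (sInf {t | x t ω ≤ -1} : ℝ≥0))) ∂P
        = cos (π * (1 - 4 / κ)) / cos (π * √((1 - 4 / κ) ^ 2 - 8 * l / κ)) := by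
  have hν := nu_bound h1 h2
  have hν' := abs_lt.1 hν
  have hκ : 0 < κ := by linarith
  have hV := val_end (P := P) h1 h2 hc hb h0 hm hE
  have hsq : (1 - 4 / κ) ^ 2 < 1 / 4 := by nlinarith
  obtain ⟨l1, hl1, hl1'⟩ : ∃ l1 < 0, (1 - 4 / κ) ^ 2 - 8 * l1 / κ < 1 / 4 := by
    refine ⟨-(κ / 16 * (1 / 4 - (1 - 4 / κ) ^ 2)), by nlinarith, ?_⟩
    have : 8 * -(κ / 16 * (1 / 4 - (1 - 4 / κ) ^ 2)) / κ = -((1 / 4 - (1 - 4 / κ) ^ 2) / 2) := by
      field_simp; ring
    rw [this]; linarith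
  have hhit := (exp_moment h1 h2 hc hx hb hl1 hl1' (hV l1)).1
  refine ⟨hhit, fun l hl hl' => ?_⟩
  have hl0 : min l l1 < 0 := (min_le_right _ _).trans_lt hl1
  have hl0' : (1 - 4 / κ) ^ 2 - 8 * min l l1 / κ < 1 / 4 := by
    rcases min_choice l l1 with h | h <;> rw [h] <;> assumption
  have hI := (exp_moment h1 h2 hc hx hb hl0 hl0' (hV _)).2
  have hcmp : ∀ s τ : ℝ≥0, s ≤ τ → exp (-(l * s)) ≤ exp (-(min l l1 * τ)) := by
    intro s τ h
    have h3 : (s : ℝ) ≤ τ := h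
    have h4 := min_le_left l l1
    have h5 : (0 : ℝ) ≤ s := s.2
    exact exp_le_exp.2 (by nlinarith)
  have hτm := measurable_hitT hc hx (-1)
  have hI2 : Integrable (fun ω => exp (-(l * (sInf {t | x t ω ≤ -1} : ℝ≥0)))) P := by
    refine hI.mono' (Measurable.aestronglyMeasurable (by fun_prop))
      (Eventually.of_forall fun ω => ?_)
    rw [Real.norm_eq_abs, abs_exp]
    exact hcmp _ _ le_rfl
  refine ⟨hI2, ?_⟩
  set F := ∑' n, co (2 * (1 - 4 / κ)) (8 * l / κ) (1 - 4 / κ + 1 / 2) n with hF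
  have hFe := tsum_co hν hl hl'
  have hF0 := cos_ratio_pos hν hl'
  set S := ∑' n, |co (2 * (1 - 4 / κ)) (8 * l / κ) (1 - 4 / κ + 1 / 2) n| with hS
  have hS0 : 0 ≤ S := tsum_nonneg fun n => abs_nonneg _
  have hd := tendsto_integral_of_dominated_convergence (μ := P)
    (F := fun n : ℕ => val κ l x (-1) n)
    (f := fun ω => exp (-(l * (sInf {t | x t ω ≤ -1} : ℝ≥0))) * F)
    (fun ω => exp (-(min l l1 * (sInf {t | x t ω ≤ -1} : ℝ≥0))) * S)
    (fun n => (hV l n).1) (hI.mul_const _) (fun n => ?_) ?_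
  · simp only [fun n : ℕ => (hV l n).2] at hd
    have h3 := tendsto_nhds_unique hd tendsto_const_nhds
    rw [integral_mul_const, hF, hFe] at h3
    rw [eq_inv_of_mul_eq_one_left h3, inv_div]
  · filter_upwards [hhit] with ω hω
    refine (abs_val_le h1 h2 hb l _ _ ω).trans ?_
    have := hcmp _ _ (stop_le_of (y := (x · ω)) (hit_mem (hc ω) hω) n)
    gcongr
  · filter_upwards [hhit] with ω hω
    refine tendsto_const_nhds.congr' ?_
    obtain ⟨n0, hn0⟩ := exists_nat_ge (sInf {t | x t ω ≤ -1})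
    filter_upwards [eventually_ge_atTop n0] with n hn
    have h3 : x (sInf {t | x t ω ≤ -1}) ω = -1 :=
      le_antisymm (hit_mem (hc ω) hω) (abs_le.1 (hb _ _)).1
    rw [val, stop_eq_min (hc ω) hω, min_eq_right (hn0.trans (by exact_mod_cast hn)), h3,
      uu_neg_one]

lemma optional_stop {Ω : Type*} {m0 : MeasurableSpace Ω} {P : Measure Ω} [IsProbabilityMeasure P]
    {ℱ : Filtration ℝ≥0 m0} {x : ℝ≥0 → Ω → ℝ} (hc : ∀ ω, Continuous fun t => x t ω)
    (hx : ∀ t, Measurable[ℱ t] (x t)) {N : ℝ≥0 → Ω → ℝ} (hN : Martingale N ℱ P)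
    (hNc : ∀ ω, Continuous fun t => N t ω) (a : ℝ) (t : ℝ≥0) {B : ℝ}
    (hB : ∀ s ≤ t, ∀ ω, |N s ω| ≤ B) :
    Measurable (fun ω => N (stopAt (x · ω) a t) ω) ∧
      ∫ ω, N (stopAt (x · ω) a t) ω ∂P = ∫ ω, N 0 ω ∂P := by
  have hA : ∀ s, MeasurableSet[ℱ s] {ω | ∃ r ≤ s, x r ω ≤ a}ᶜ := by
    intro s
    have := @measurableSet_hit Ω (ℱ s) (fun r => x (min r s))
      (fun ω => (hc ω).comp (by fun_prop))
      (fun r => (hx _).mono (ℱ.mono (min_le_right r s)) le_rfl) a s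
    refine MeasurableSet.compl ?_
    convert this using 3 with ω
    refine exists_congr fun r => and_congr_right fun hr => ?_
    rw [min_eq_left hr]
  have hNm : ∀ s, Measurable (N s) := fun s =>
    ((hN.stronglyMeasurable s).mono (ℱ.le s)).measurable
  have key : ∀ (h : ℝ≥0) (m : ℕ), ∃ R : Ω → ℝ, Measurable R ∧ Integrable R P ∧
      ∫ ω, R ω ∂P = ∫ ω, N 0 ω ∂P ∧ ∀ ω, ∃ r ≤ m * h, R ω = N r ω ∧
        stopAt (x · ω) a (m * h) ≤ r ∧ r ≤ stopAt (x · ω) a (m * h) + h := by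
    intro h m
    induction m with
    | zero =>
      refine ⟨N 0, hNm 0, hN.integrable 0, rfl, fun ω => ⟨0, zero_le, rfl, ?_, zero_le⟩⟩
      simpa using stop_le (y := (x · ω)) (a := a) 0
    | succ m ih =>
      obtain ⟨R, hR1, hR2, hR3, hR4⟩ := ih
      have hle : (m : ℝ≥0) * h ≤ ((m + 1 : ℕ) : ℝ≥0) * h := by
        push_cast; gcongr; exact le_self_add
      have hs := ℱ.le _ _ (hA (m * h))
      have hi : Integrable ({ω | ∃ r ≤ m * h, x r ω ≤ a}ᶜ.indicator
          fun ω => N (((m + 1 : ℕ) : ℝ≥0) * h) ω - N (m * h) ω) P :=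
        ((hN.integrable _).sub (hN.integrable _)).indicator hs
      refine ⟨fun ω => R ω + {ω | ∃ r ≤ m * h, x r ω ≤ a}ᶜ.indicator
          (fun ω => N (((m + 1 : ℕ) : ℝ≥0) * h) ω - N (m * h) ω) ω,
        hR1.add (((hNm _).sub (hNm _)).indicator hs), hR2.add hi, ?_, fun ω => ?_⟩
      · rw [integral_add hR2 hi, hR3, integral_indicator hs,
          integral_sub (hN.integrable _).integrableOn (hN.integrable _).integrableOn,
          hN.setIntegral_eq hle (hA _), sub_self, add_zero]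
      · obtain ⟨r, h1, h2, h3, h4⟩ := hR4 ω
        by_cases hω : ∃ r ≤ m * h, x r ω ≤ a
        · obtain ⟨r0, h5, h6⟩ := hω
          have e : stopAt (x · ω) a (m * h) = stopAt (x · ω) a (((m + 1 : ℕ) : ℝ≥0) * h) :=
            stop_of_ge (hc ω) ((stop_le_of (y := (x · ω)) h6 _).trans h5) hle
          refine ⟨r, h1.trans hle, ?_, e ▸ h3, e ▸ h4⟩
          have hn : ω ∉ {ω | ∃ r ≤ m * h, x r ω ≤ a}ᶜ := fun h7 => h7 ⟨r0, h5, h6⟩
          simp only [indicator_of_notMem hn, add_zero, h2]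
        · have e : stopAt (x · ω) a (m * h) = m * h :=
            (stop_mem (hc ω) _).resolve_right fun h5 => hω ⟨_, stop_le _, h5⟩
          have e2 : r = m * h := le_antisymm h1 (e ▸ h3)
          refine ⟨_, le_rfl, ?_, stop_le _, ?_⟩
          · have hn : ω ∈ {ω | ∃ r ≤ m * h, x r ω ≤ a}ᶜ := hω
            simp only [indicator_of_mem hn, h2, e2]
            ring
          · have h5 : (m : ℝ≥0) * h ≤ stopAt (x · ω) a (((m + 1 : ℕ) : ℝ≥0) * h) := by
              rcases stop_mem (a := a) (hc ω) (((m + 1 : ℕ) : ℝ≥0) * h) with h6 | h6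
              · rw [h6]; exact hle
              · by_contra h7
                exact hω ⟨_, (not_le.1 h7).le, h6⟩
            calc ((m + 1 : ℕ) : ℝ≥0) * h = m * h + h := by push_cast; ring
              _ ≤ _ := by gcongr
  choose R hR1 hR2 hR3 r hr1 hr2 hr3 hr4 using fun n : ℕ => key (t / ((n + 1 : ℕ) : ℝ≥0)) (n + 1)
  have e : ∀ n : ℕ, ((n + 1 : ℕ) : ℝ≥0) * (t / ((n + 1 : ℕ) : ℝ≥0)) = t := fun n =>
    mul_div_cancel₀ _ (by positivity)
  simp only [e] at hr1 hr3 hr4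
  have hlim : ∀ ω, Tendsto (fun n => R n ω) atTop (𝓝 (N (stopAt (x · ω) a t) ω)) := by
    intro ω
    simp only [hr2]
    refine ((hNc ω).tendsto _).comp ?_
    have h0 : Tendsto (fun n : ℕ => t / ((n + 1 : ℕ) : ℝ≥0)) atTop (𝓝 0) :=
      (tendsto_add_atTop_iff_nat 1).2 (tendsto_const_div_atTop_nhds_zero_nat t)
    have h1 := h0.const_add (stopAt (x · ω) a t)
    rw [add_zero] at h1
    exact tendsto_of_tendsto_of_tendsto_of_le_of_le tendsto_const_nhds h1
      (fun n => hr3 n ω) fun n => hr4 n ω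
  refine ⟨measurable_of_tendsto_metrizable hR1 (tendsto_pi_nhds.2 hlim), ?_⟩
  have hd := tendsto_integral_of_dominated_convergence (μ := P) (fun _ => B)
    (fun n => (hR2 n).aestronglyMeasurable) (integrable_const _)
    (fun n => Eventually.of_forall fun ω => by rw [hr2]; exact hB _ (hr1 n ω) ω)
    (Eventually.of_forall hlim)
  simp only [hR3] at hd
  exact tendsto_nhds_unique hd tendsto_const_nhds

end Lap

/-- Laplace transform of the hitting time of `-1` (Schramm, Sheffield, Wilson). -/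
theorem laplace {Ω : Type*} {m0 : MeasurableSpace Ω} {P : Measure Ω} [IsProbabilityMeasure P]
    {ℱ : Filtration ℝ≥0 m0} {x : ℝ≥0 → Ω → ℝ} {κ : ℝ} (h1 : 8 / 3 < κ) (h2 : κ < 8) (h4 : κ ≠ 4)
    (hc : ∀ ω, Continuous fun t => x t ω) (hx : ∀ t, Measurable[ℱ t] (x t))
    (hb : ∀ t ω, |x t ω| ≤ 1) (h0 : ∀ ω, x 0 ω = 1)
    (hm : ∀ f : ℝ → ℝ, ContDiff ℝ 2 f → Martingale (fun (t : ℝ≥0) ω => f (x t ω)
        - ∫ s in (0 : ℝ)..t, gen κ f (x s.toNNReal ω)) ℱ P) :
    Measurable (fun ω => sInf {t | x t ω ≤ -1}) ∧ (∀ᵐ ω ∂P, ∃ t, x t ω ≤ -1) ∧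
      ∀ᶠ l in 𝓝 (0 : ℝ), ∫⁻ ω, ENNReal.ofReal (exp (-(l * (sInf {t | x t ω ≤ -1} : ℝ≥0)))) ∂P
        = ENNReal.ofReal (cos (π * (1 - 4 / κ)) / cos (π * √((1 - 4 / κ) ^ 2 - 8 * l / κ))) := by
  have hx' : ∀ t, Measurable (x t) := fun t => (hx t).mono (ℱ.le t) le_rfl
  have hopt : ∀ (a : ℝ) (f : ℝ → ℝ), ContDiff ℝ 2 f → ∀ t, Measurable (Lap.dyn κ x a f t) ∧
      ∫ ω, Lap.dyn κ x a f t ω ∂P = f 1 := by
    intro a f hf t
    have hg := Lap.continuous_gen κ hf
    obtain ⟨B1, hB1⟩ := (isCompact_Icc (a := (-1 : ℝ)) (b := 1)).exists_bound_of_continuousOn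
      hf.continuous.continuousOn
    obtain ⟨B2, hB2⟩ := (isCompact_Icc (a := (-1 : ℝ)) (b := 1)).exists_bound_of_continuousOn
      hg.continuousOn
    have := Lap.optional_stop hc hx (hm f hf) (fun ω => ?_) a t (B := B1 + B2 * t)
      fun s hs ω => ?_
    · refine ⟨this.1, this.2.trans ?_⟩
      simp [h0]
    · have hX : Continuous fun s : ℝ => gen κ f (x s.toNNReal ω) :=
        hg.comp ((hc ω).comp continuous_real_toNNReal)
      exact (hf.continuous.comp (hc ω)).sub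
        ((intervalIntegral.continuous_primitive (fun _ _ => hX.intervalIntegrable _ _) 0).comp
          NNReal.continuous_coe)
    · refine (abs_sub _ _).trans (add_le_add (hB1 _ (abs_le.1 (hb _ _))) ?_)
      refine (intervalIntegral.norm_integral_le_of_norm_le_const (C := B2)
        fun r _ => hB2 _ (abs_le.1 (hb _ _))).trans ?_
      have h0 : 0 ≤ B2 := (norm_nonneg _).trans (hB2 0 (by simp))
      have h1 : (s : ℝ) ≤ t := hs
      rw [sub_zero, abs_of_nonneg (NNReal.coe_nonneg _)]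
      gcongr
  have key := Lap.laplace_dyn (P := P) h1 h2 hc hx' hb h0
    (fun a _ f hf t => (hopt a f hf t).1) (fun a _ f hf t => (hopt a f hf t).2)
  refine ⟨Lap.measurable_hitT hc hx' _, key.1, ?_⟩
  have hν := abs_lt.1 (Lap.nu_bound h1 h2)
  have hκ : 0 < κ := by linarith
  have hν0 : 1 - 4 / κ ≠ 0 := by
    intro h
    apply h4
    field_simp at h
    linarith
  have hq : 0 < (1 - 4 / κ) ^ 2 := by positivity
  have hq' : (1 - 4 / κ) ^ 2 - 1 / 4 < 0 := by nlinarith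
  have hcont : Tendsto (fun l : ℝ => 8 * l / κ) (𝓝 0) (𝓝 0) := by
    have : Continuous fun l : ℝ => 8 * l / κ := by fun_prop
    simpa using this.tendsto 0
  filter_upwards [hcont.eventually (gt_mem_nhds hq), hcont.eventually (lt_mem_nhds hq')]
    with l hl hl'
  obtain ⟨hI, hE⟩ := key.2 l hl.le (by linarith)
  rw [← hE, ofReal_integral_eq_lintegral_ofReal hI (Eventually.of_forall fun ω => (exp_pos _).le)]

end Pool.Agent.MP_ac6554_pr
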