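import Mathlib

set_option autoImplicit false

open Filter Topology Set Finset Real

namespace Pool.Agent.MP_ac6554_pr.Lap

/-- Coefficients of the hypergeometric series with `a + a' = b`, `a a' = p`. -/
noncomputable def co (b p c : ℝ) : ℕ → ℝ
  | 0 => 1
  | n + 1 => co b p c n * (((n : ℝ) ^ 2 + b * n + p) / ((n + c) * (n + 1)))

lemma co_zero (b p c : ℝ) : co b p c 0 = 1 := rfl

lemma co_succ (b p c : ℝ) (n : ℕ) :
    co b p c (n + 1) = co b p c n * (((n : ℝ) ^ 2 + b * n + p) / ((n + c) * (n + 1))) := rfl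

lemma co_rec {b p c : ℝ} (hc : 0 < c) (n : ℕ) :
    co b p c (n + 1) * ((n + c) * (n + 1)) = co b p c n * ((n : ℝ) ^ 2 + b * n + p) := by
  have h1 : ((n : ℝ) + c) * (n + 1) ≠ 0 := by positivity
  rw [co_succ]; field_simp

lemma co_step {b p c : ℝ} (hc : 0 < c) (hb : b < c) :
    ∃ n0 : ℕ, ∀ n ≥ n0, ((n + 1 : ℕ) : ℝ) * |co b p c (n + 1)| + (c - b) / 2 * |co b p c n|
      ≤ n * |co b p c n| := by
  obtain ⟨n0, hn0⟩ := exists_nat_ge (|b| + |p| + 1 + (2 * |p| + (c - b) * c) / (c - b))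
  refine ⟨n0, fun n hn => ?_⟩
  have hg : 0 < c - b := by linarith
  have hn' : (n0 : ℝ) ≤ n := by exact_mod_cast hn
  have hq : 0 ≤ (2 * |p| + (c - b) * c) / (c - b) := by positivity
  have ha := abs_nonneg b
  have hp := abs_nonneg p
  have h1 : |b| + |p| + 1 ≤ n := by linarith
  have h2 : (2 * |p| + (c - b) * c) / (c - b) ≤ n := by linarith
  rw [div_le_iff₀ hg] at h2
  have hpos : 0 ≤ (n : ℝ) ^ 2 + b * n + p := by
    have := neg_abs_le b
    have := neg_abs_le p
    nlinarith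
  have hnc : 0 < (n : ℝ) + c := by positivity
  have hn1 : 0 < (n : ℝ) + 1 := by positivity
  rw [co_succ, abs_mul, abs_of_nonneg (div_nonneg hpos (by positivity))]
  push_cast
  have e : ((n : ℝ) + 1) * (|co b p c n| * (((n : ℝ) ^ 2 + b * n + p) / ((n + c) * (n + 1))))
      = |co b p c n| * (((n : ℝ) ^ 2 + b * n + p) / (n + c)) := by
    field_simp
  rw [e]
  have h3 : ((n : ℝ) ^ 2 + b * n + p) / (n + c) + (c - b) / 2 ≤ n := by
    rw [div_add' _ _ _ hnc.ne', div_le_iff₀ hnc]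
    have := le_abs_self p
    nlinarith
  have := abs_nonneg (co b p c n)
  nlinarith

lemma summable_abs_co {b p c : ℝ} (hc : 0 < c) (hb : b < c) :
    Summable fun n => |co b p c n| := by
  obtain ⟨n0, h⟩ := co_step (p := p) hc hb
  have hg : 0 < (c - b) / 2 := by linarith
  rw [← summable_nat_add_iff n0]
  refine summable_of_sum_range_le (c := n0 * |co b p c n0| / ((c - b) / 2))
    (fun n => abs_nonneg _) fun N => ?_
  have key : ∀ N : ℕ, (c - b) / 2 * ∑ i ∈ range N, |co b p c (i + n0)|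
      + ((N + n0 : ℕ) : ℝ) * |co b p c (N + n0)| ≤ n0 * |co b p c n0| := by
    intro N
    induction N with
    | zero => simp
    | succ N ih =>
      have := h (N + n0) (by omega)
      rw [sum_range_succ, show N + 1 + n0 = N + n0 + 1 by omega]
      linarith
  rw [le_div_iff₀ hg]
  have := key N
  have h2 : 0 ≤ ((N + n0 : ℕ) : ℝ) * |co b p c (N + n0)| := by positivity
  linarith

lemma summable_co {b p c : ℝ} (hc : 0 < c) (hb : b < c) : Summable (co b p c) :=
  (summable_abs_co hc hb).of_abs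

lemma tendsto_mul_co {b p c : ℝ} (hc : 0 < c) (hb : b < c) :
    Tendsto (fun n : ℕ => (n : ℝ) * |co b p c n|) atTop (𝓝 0) := by
  obtain ⟨n0, h⟩ := co_step (p := p) hc hb
  have hg : 0 < (c - b) / 2 := by linarith
  have hanti : Antitone fun n : ℕ => ((n + n0 : ℕ) : ℝ) * |co b p c (n + n0)| := by
    refine antitone_nat_of_succ_le fun n => ?_
    have := h (n + n0) (by omega)
    rw [show n + 1 + n0 = n + n0 + 1 by omega]
    have h2 : 0 ≤ (c - b) / 2 * |co b p c (n + n0)| := by positivity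
    linarith
  have hbd : BddBelow (range fun n : ℕ => ((n + n0 : ℕ) : ℝ) * |co b p c (n + n0)|) :=
    ⟨0, by rintro _ ⟨n, rfl⟩; positivity⟩
  have hlim := tendsto_atTop_ciInf hanti hbd
  set σ := ⨅ n : ℕ, ((n + n0 : ℕ) : ℝ) * |co b p c (n + n0)| with hσ
  have hσ0 : 0 ≤ σ := le_ciInf fun n => by positivity
  have hσle : ∀ n : ℕ, σ ≤ ((n + n0 : ℕ) : ℝ) * |co b p c (n + n0)| := fun n => ciInf_le hbd n
  have : σ = 0 := by
    by_contra hne
    have hpos : 0 < σ := lt_of_le_of_ne hσ0 (Ne.symm hne)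
    apply Real.not_summable_natCast_inv
    rw [← summable_nat_add_iff n0]
    have hs := ((summable_nat_add_iff n0).2 (summable_abs_co (p := p) hc hb)).mul_left σ⁻¹
    refine Summable.of_nonneg_of_le (fun n => by positivity) (fun n => ?_) hs
    have h1 := hσle n
    have hn : 0 < ((n + n0 : ℕ) : ℝ) := by
      by_contra h0
      have h0' : ((n + n0 : ℕ) : ℝ) = 0 := le_antisymm (not_lt.1 h0) (by positivity)
      rw [h0'] at h1; linarith
    rw [inv_le_iff_one_le_mul₀ hn]
    have : σ⁻¹ * |co b p c (n + n0)| * ((n + n0 : ℕ) : ℝ)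
        = σ⁻¹ * (((n + n0 : ℕ) : ℝ) * |co b p c (n + n0)|) := by ring
    rw [this, ← inv_mul_cancel₀ hpos.ne']
    gcongr
  rw [this] at hlim
  exact (tendsto_add_atTop_iff_nat n0).1 hlim

lemma co_add_one {b p c : ℝ} (hc : 0 < c) (n : ℕ) :
    co b p (c + 1) n * (c + n) = co b p c n * c := by
  induction n with
  | zero => simp [co_zero]
  | succ n ih =>
    have h1 : (0 : ℝ) < n + c := by positivity
    have h2 : (0 : ℝ) < n + 1 := by positivity
    have h3 : (0 : ℝ) < n + (c + 1) := by positivity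
    have e : co b p (c + 1) n = co b p c n * c / (n + c) := by
      rw [eq_div_iff h1.ne', ← ih]; ring
    rw [co_succ, co_succ, e]
    push_cast
    field_simp
    ring

lemma gauss_partial {b p c : ℝ} (hc : 0 < c) (N : ℕ) :
    c * (c - b) * ∑ n ∈ range N, co b p c n
      - (c ^ 2 - b * c + p) * ∑ n ∈ range N, co b p (c + 1) n = -(c * (N * co b p c N)) := by
  induction N with
  | zero => simp
  | succ N ih =>
    rw [sum_range_succ, sum_range_succ]
    have h1 : (0 : ℝ) < N + c := by positivity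
    have h2 : (0 : ℝ) < N + 1 := by positivity
    have e : co b p (c + 1) N = co b p c N * c / (N + c) := by
      rw [eq_div_iff h1.ne', ← co_add_one hc]; ring
    have e2 : ((N + 1 : ℕ) : ℝ) * co b p c (N + 1)
        = co b p c N * ((N : ℝ) ^ 2 + b * N + p) / (N + c) := by
      rw [eq_div_iff h1.ne', ← co_rec hc]; push_cast; ring
    rw [e2, mul_add, mul_add, e]
    have : c * (c - b) * co b p c N - (c ^ 2 - b * c + p) * (co b p c N * c / (N + c))
        = -(c * (co b p c N * ((N : ℝ) ^ 2 + b * N + p) / (N + c))) + c * (N * co b p c N) := by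
      field_simp
      ring
    linarith

lemma gauss_step {b p c : ℝ} (hc : 0 < c) (hb : b < c) :
    c * (c - b) * ∑' n, co b p c n = (c ^ 2 - b * c + p) * ∑' n, co b p (c + 1) n := by
  have h1 := (summable_co (p := p) hc hb).hasSum.tendsto_sum_nat
  have h2 := (summable_co (p := p) (c := c + 1) (by linarith) (by linarith : b < c + 1)).hasSum.tendsto_sum_nat
  have h3 := ((h1.const_mul (c * (c - b))).sub (h2.const_mul (c ^ 2 - b * c + p)))
  simp only [gauss_partial hc] at h3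
  have h4 : Tendsto (fun N : ℕ => (N : ℝ) * co b p c N) atTop (𝓝 0) := by
    rw [tendsto_zero_iff_abs_tendsto_zero]
    refine (tendsto_mul_co (p := p) hc hb).congr fun n => ?_
    simp [abs_mul]
  have h5 := (h4.const_mul c).neg
  have := tendsto_nhds_unique h3 h5
  simp only [mul_zero, neg_zero] at this
  linarith

lemma abs_co_add {b p c : ℝ} (hc : 0 < c) (k n : ℕ) :
    |co b p (c + k) (n + 1)| ≤ c / (c + k) * |co b p c (n + 1)| := by
  have hk : (0 : ℝ) ≤ k := by positivity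
  induction n with
  | zero =>
    simp only [co_succ, co_zero, Nat.cast_zero, zero_add, one_mul, mul_one, abs_div]
    rw [abs_of_pos hc, abs_of_pos (by positivity : 0 < c + k)]
    apply le_of_eq
    field_simp
  | succ n ih =>
    rw [co_succ b p (c + k), co_succ b p c (n + 1), abs_mul, abs_mul, ← mul_assoc]
    refine mul_le_mul ih ?_ (abs_nonneg _) (by positivity)
    rw [abs_div, abs_div]
    refine div_le_div_of_nonneg_left (abs_nonneg _) (by positivity) ?_
    rw [abs_of_pos (by positivity), abs_of_pos (by positivity)]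
    gcongr
    linarith

lemma tendsto_tsum_co {b p c : ℝ} (hc : 0 < c) (hb : b < c) :
    Tendsto (fun k : ℕ => ∑' n, co b p (c + k) n) atTop (𝓝 1) := by
  have hS := (summable_nat_add_iff 1).2 (summable_abs_co (p := p) hc hb)
  have hlim : Tendsto (fun k : ℕ => c / (c + k) * ∑' n, |co b p c (n + 1)|) atTop (𝓝 0) := by
    have : Tendsto (fun k : ℕ => c / (c + k)) atTop (𝓝 0) :=
      tendsto_const_nhds.div_atTop (tendsto_atTop_add_const_left _ _ tendsto_natCast_atTop_atTop)
    simpa using this.mul_const (∑' n, |co b p c (n + 1)|)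
  rw [← tendsto_sub_nhds_zero_iff]
  refine squeeze_zero_norm (fun k => ?_) hlim
  have hk : (0 : ℝ) ≤ k := by positivity
  have hs := summable_co (p := p) (c := c + k) (by positivity) (by linarith : b < c + k)
  rw [hs.tsum_eq_zero_add, co_zero, add_sub_cancel_left, ← tsum_mul_left]
  refine tsum_of_norm_bounded (hS.mul_left _).hasSum fun n => ?_
  exact abs_co_add hc k n

lemma tsum_co_prod {b p c : ℝ} (hc : 0 < c) (hb : b < c) (k : ℕ) :
    ∑' n, co b p c n = (∏ j ∈ range k, ((c + j) ^ 2 - b * (c + j) + p) / ((c + j) * (c + j - b)))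
      * ∑' n, co b p (c + k) n := by
  induction k with
  | zero => simp
  | succ k ih =>
    have hk : (0 : ℝ) ≤ k := by positivity
    have h1 : 0 < c + k := by positivity
    have h2 : 0 < c + k - b := by linarith
    have := gauss_step (p := p) h1 (by linarith : b < c + k)
    rw [ih, prod_range_succ, mul_assoc]
    congr 1
    push_cast
    rw [← add_assoc, div_mul_eq_mul_div, ← this]
    field_simp

lemma tendsto_prod_gamma {ν s : ℝ} (hν : |ν| < 1 / 2) (hs : |s| < 1 / 2) :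
    Tendsto (fun k : ℕ => ∏ j ∈ range k, ((1 / 2 - s + j) * (1 / 2 + s + j)) /
      ((1 / 2 - ν + j) * (1 / 2 + ν + j))) atTop (𝓝 (cos (π * s) / cos (π * ν))) := by
  have key : ∀ r : ℝ, |r| < 1 / 2 → Tendsto (fun n : ℕ =>
      Real.GammaSeq (1 / 2 - r) n * Real.GammaSeq (1 / 2 + r) n) atTop (𝓝 (π / cos (π * r))) := by
    intro r hr
    have := (Real.GammaSeq_tendsto_Gamma (1 / 2 - r)).mul (Real.GammaSeq_tendsto_Gamma (1 / 2 + r))
    have e : Gamma (1 / 2 - r) * Gamma (1 / 2 + r) = π / cos (π * r) := by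
      have h := Real.Gamma_mul_Gamma_one_sub (1 / 2 - r)
      rw [show 1 - (1 / 2 - r) = 1 / 2 + r by ring, show π * (1 / 2 - r) = π / 2 - π * r by ring,
        Real.sin_pi_div_two_sub] at h
      exact h
    rwa [e] at this
  have cpos : ∀ r : ℝ, |r| < 1 / 2 → 0 < cos (π * r) := by
    intro r hr
    rw [abs_lt] at hr
    apply Real.cos_pos_of_mem_Ioo
    constructor <;> nlinarith [Real.pi_pos]
  have h1 := (key ν hν).div (key s hs) (div_pos Real.pi_pos (cpos s hs)).ne'
  have e : π / cos (π * ν) / (π / cos (π * s)) = cos (π * s) / cos (π * ν) := by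
    have := cpos s hs
    have := cpos ν hν
    have := Real.pi_pos
    field_simp
  rw [e] at h1
  rw [← tendsto_add_atTop_iff_nat 1]
  refine h1.congr' ?_
  filter_upwards [eventually_ge_atTop 1] with n hn
  have hn0 : (0 : ℝ) < n := by exact_mod_cast hn
  have ppos : ∀ r : ℝ, 0 < r → 0 < ∏ j ∈ range (n + 1), (r + j) := fun r hr =>
    prod_pos fun j _ => by positivity
  rw [abs_lt] at hν hs
  have p1 := ppos (1 / 2 - ν) (by linarith)
  have p2 := ppos (1 / 2 + ν) (by linarith)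
  have p3 := ppos (1 / 2 - s) (by linarith)
  have p4 := ppos (1 / 2 + s) (by linarith)
  have q : ∀ r : ℝ, (n : ℝ) ^ (1 / 2 - r) * (n : ℝ) ^ (1 / 2 + r) = n := by
    intro r
    rw [← Real.rpow_add hn0]; norm_num
  have hf : (0 : ℝ) < n.factorial := by positivity
  simp only [Pi.div_apply, Real.GammaSeq, prod_div_distrib, prod_mul_distrib]
  rw [div_mul_div_comm, div_mul_div_comm, mul_mul_mul_comm, q, mul_mul_mul_comm ((n : ℝ) ^ _), q]
  field_simp

/-- Gauss summation in the symmetric case. -/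
theorem tsum_co {ν p : ℝ} (hν : |ν| < 1 / 2) (hp : p ≤ ν ^ 2) (hp' : ν ^ 2 - p < 1 / 4) :
    ∑' n, co (2 * ν) p (ν + 1 / 2) n = cos (π * √(ν ^ 2 - p)) / cos (π * ν) := by
  have hν' := abs_lt.1 hν
  have hc : 0 < ν + 1 / 2 := by linarith
  have hb : 2 * ν < ν + 1 / 2 := by linarith
  set s := √(ν ^ 2 - p) with hs
  have hs2 : s ^ 2 = ν ^ 2 - p := Real.sq_sqrt (by linarith)
  have hs0 : 0 ≤ s := Real.sqrt_nonneg _
  have hs1 : |s| < 1 / 2 := by
    rw [abs_of_nonneg hs0]; nlinarith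
  have h1 := (tendsto_prod_gamma hν hs1).mul (tendsto_tsum_co (p := p) hc hb)
  rw [mul_one] at h1
  refine tendsto_nhds_unique (tendsto_const_nhds.congr fun k => ?_) h1
  rw [tsum_co_prod hc hb k]
  congr 1
  refine prod_congr rfl fun j _ => ?_
  congr 1
  · nlinarith
  · ring

lemma co_nonpos {ν p : ℝ} (hν : |ν| < 1 / 2) (hp : p ≤ 0) (hp' : ν ^ 2 - p < 1 / 4) (n : ℕ) :
    co (2 * ν) p (ν + 1 / 2) (n + 1) ≤ 0 := by
  have hν' := abs_lt.1 hν
  have hc : 0 < ν + 1 / 2 := by linarith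
  induction n with
  | zero =>
    simp only [co_succ, co_zero, Nat.cast_zero, zero_add, one_mul, mul_one]
    apply div_nonpos_of_nonpos_of_nonneg <;> nlinarith
  | succ n ih =>
    rw [co_succ]
    refine mul_nonpos_of_nonpos_of_nonneg ih (div_nonneg ?_ (by positivity))
    have : (0 : ℝ) ≤ n := by positivity
    push_cast
    nlinarith

/-- The eigenfunction. -/
noncomputable def uu (b p c z : ℝ) : ℝ := ∑' n, co b p c n * ((1 - z) / 2) ^ n

lemma abs_term_le (b p c : ℝ) {z : ℝ} (hz : |z| ≤ 1) (n : ℕ) :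
    ‖co b p c n * ((1 - z) / 2) ^ n‖ ≤ |co b p c n| := by
  have := abs_le.1 hz
  rw [Real.norm_eq_abs, abs_mul, abs_pow]
  refine mul_le_of_le_one_right (abs_nonneg _) (pow_le_one₀ (abs_nonneg _) ?_)
  rw [abs_le]; constructor <;> linarith

lemma continuousOn_uu {b p c : ℝ} (hc : 0 < c) (hb : b < c) :
    ContinuousOn (uu b p c) {z | |z| ≤ 1} :=
  continuousOn_tsum (fun n => by fun_prop) (summable_abs_co hc hb)
    fun n z hz => abs_term_le b p c hz n

lemma abs_uu_le {b p c : ℝ} (hc : 0 < c) (hb : b < c) {z : ℝ} (hz : |z| ≤ 1) :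
    |uu b p c z| ≤ ∑' n, |co b p c n| :=
  tsum_of_norm_bounded (summable_abs_co hc hb).hasSum (abs_term_le b p c hz)

lemma uu_neg_one (b p c : ℝ) : uu b p c (-1) = ∑' n, co b p c n := by
  simp [uu]

lemma le_uu {ν p : ℝ} (hν : |ν| < 1 / 2) (hp : p ≤ 0) (hp' : ν ^ 2 - p < 1 / 4) {z : ℝ}
    (hz : |z| ≤ 1) : ∑' n, co (2 * ν) p (ν + 1 / 2) n ≤ uu (2 * ν) p (ν + 1 / 2) z := by
  have hν' := abs_lt.1 hν
  have hc : 0 < ν + 1 / 2 := by linarith
  have hb : 2 * ν < ν + 1 / 2 := by linarith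
  have hz' := abs_le.1 hz
  refine (summable_co hc hb).tsum_le_tsum (fun n => ?_)
    (Summable.of_norm_bounded (summable_abs_co hc hb) (abs_term_le _ _ _ hz))
  cases n with
  | zero => simp
  | succ n =>
    have h1 := co_nonpos hν hp hp' n
    have h2 : ((1 - z) / 2) ^ (n + 1) ≤ 1 := pow_le_one₀ (by linarith) (by linarith)
    nlinarith

/-- Partial sums. -/
noncomputable def ff (b p c : ℝ) (N : ℕ) (z : ℝ) : ℝ :=
  ∑ n ∈ range (N + 1), co b p c n * ((1 - z) / 2) ^ n

lemma contDiff_ff (b p c : ℝ) (N : ℕ) : ContDiff ℝ 2 (ff b p c N) := by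
  unfold ff; fun_prop

lemma ff_one (b p c : ℝ) (N : ℕ) : ff b p c N 1 = 1 := by
  simp [ff, sum_range_succ', co_zero]

lemma tendsto_ff {b p c : ℝ} (hc : 0 < c) (hb : b < c) {z : ℝ} (hz : |z| ≤ 1) :
    Tendsto (fun N => ff b p c N z) atTop (𝓝 (uu b p c z)) :=
  (tendsto_add_atTop_iff_nat 1).2
    (Summable.of_norm_bounded (summable_abs_co hc hb) (abs_term_le _ _ _ hz)).hasSum.tendsto_sum_nat

lemma abs_ff_le {b p c : ℝ} (hc : 0 < c) (hb : b < c) {z : ℝ} (hz : |z| ≤ 1) (N : ℕ) :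
    |ff b p c N z| ≤ ∑' n, |co b p c n| := by
  refine (abs_sum_le_sum_abs _ _).trans ((sum_le_sum fun n _ => abs_term_le b p c hz n).trans ?_)
  exact (summable_abs_co hc hb).sum_le_tsum _ fun n _ => abs_nonneg _

lemma hasDerivAt_y (n : ℕ) (z : ℝ) :
    HasDerivAt (fun z : ℝ => ((1 - z) / 2) ^ n) (n * ((1 - z) / 2) ^ (n - 1) * (-1 / 2)) z := by
  have h : HasDerivAt (fun z : ℝ => (1 - z) / 2) (-1 / 2) z :=
    ((hasDerivAt_id z).const_sub 1).div_const 2
  exact h.pow n

lemma deriv_ff (b p c : ℝ) (N : ℕ) : deriv (ff b p c N) = fun z =>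
    ∑ n ∈ range (N + 1), co b p c n * (n * ((1 - z) / 2) ^ (n - 1) * (-1 / 2)) := by
  funext z
  exact (HasDerivAt.fun_sum fun n _ => (hasDerivAt_y n z).const_mul _).deriv

lemma deriv2_ff (b p c : ℝ) (N : ℕ) (z : ℝ) : deriv (deriv (ff b p c N)) z =
    ∑ n ∈ range (N + 1), co b p c n *
      (n * ((n - 1 : ℕ) * ((1 - z) / 2) ^ (n - 1 - 1) * (-1 / 2)) * (-1 / 2)) := by
  rw [deriv_ff]
  exact (HasDerivAt.fun_sum fun n _ =>
    (((hasDerivAt_y (n - 1) z).const_mul (n : ℝ)).mul_const (-1 / 2 : ℝ)).const_mul _).deriv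

lemma ode_ff {p c : ℝ} (hc : 0 < c) (N : ℕ) (z : ℝ) :
    (1 - z ^ 2) * deriv (deriv (ff (2 * c - 1) p c N)) z
      - 2 * c * z * deriv (ff (2 * c - 1) p c N) z - p * ff (2 * c - 1) p c N z
      = -(co (2 * c - 1) p c N * ((N : ℝ) ^ 2 + (2 * c - 1) * N + p) * ((1 - z) / 2) ^ N) := by
  rw [deriv2_ff, deriv_ff]
  simp only [ff]
  obtain ⟨y, rfl⟩ : ∃ y, z = 1 - 2 * y := ⟨(1 - z) / 2, by ring⟩
  have hy : (1 - (1 - 2 * y)) / 2 = y := by ring
  rw [hy]
  induction N with
  | zero => simp [co_zero]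
  | succ N ih =>
    rw [sum_range_succ _ (N + 1), sum_range_succ _ (N + 1), sum_range_succ _ (N + 1)]
    have hr := co_rec (b := 2 * c - 1) (p := p) hc N
    have e : ∀ A B C A' B' C' : ℝ, (1 - (1 - 2 * y) ^ 2) * (A + A')
        - 2 * c * (1 - 2 * y) * (B + B') - p * (C + C')
        = ((1 - (1 - 2 * y) ^ 2) * A - 2 * c * (1 - 2 * y) * B - p * C)
          + ((1 - (1 - 2 * y) ^ 2) * A' - 2 * c * (1 - 2 * y) * B' - p * C') := by
      intros; ring
    rw [e, ih, ← hr]
    cases N with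
    | zero => simp; ring
    | succ N =>
      simp only [Nat.add_sub_cancel]
      push_cast
      ring

lemma tendsto_rem {b p c : ℝ} (hc : 0 < c) (hb : b < c) {y : ℝ} (hy0 : 0 ≤ y) (hy : y < 1) :
    Tendsto (fun N : ℕ => |co b p c N * ((N : ℝ) ^ 2 + b * N + p)| * y ^ N) atTop (𝓝 0) := by
  have hB : ∀ n, |co b p c n| ≤ ∑' n, |co b p c n| := fun n =>
    (summable_abs_co hc hb).le_tsum n fun _ _ => abs_nonneg _
  have hy' : |y| < 1 := by rwa [abs_of_nonneg hy0]
  have h2 := tendsto_pow_const_mul_const_pow_of_abs_lt_one 2 hy'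
  have h1 := tendsto_pow_const_mul_const_pow_of_abs_lt_one 1 hy'
  have h0 := tendsto_pow_const_mul_const_pow_of_abs_lt_one 0 hy'
  have h := ((h2.add (h1.const_mul |b|)).add (h0.const_mul |p|)).const_mul (∑' n, |co b p c n|)
  simp only [mul_zero, add_zero] at h
  refine squeeze_zero (fun N => by positivity) (fun N => ?_) h
  have e : (N : ℝ) ^ 2 * y ^ N + |b| * ((N : ℝ) ^ 1 * y ^ N) + |p| * ((N : ℝ) ^ 0 * y ^ N)
      = ((N : ℝ) ^ 2 + |b| * N + |p|) * y ^ N := by ring
  rw [e, ← mul_assoc, abs_mul]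
  have h3 : |(N : ℝ) ^ 2 + b * N + p| ≤ (N : ℝ) ^ 2 + |b| * N + |p| := by
    refine (abs_add_le _ _).trans ?_
    gcongr
    refine (abs_add_le _ _).trans (le_of_eq ?_)
    simp [abs_mul]
  have := hB N
  gcongr

end Pool.Agent.MP_ac6554_pr.Lap
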