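import Pool.Agent.MP_ac6554_pr.Couple

set_option autoImplicit false

open MeasureTheory ProbabilityTheory TopologicalSpace Metric Set Filter Topology
open scoped NNReal ENNReal

namespace Pool.Agent.MP_ac6554_pr

attribute [local irreducible] nestSum

theorem Sk.dirac {κ : ℝ} {Ω : Type} [MeasurableSpace Ω] {P : Measure Ω} {V : ℕ → Ω → Opens ℂ}
    {i : ℕ → Ω → ℕ} {f : ℕ → Ω → ℂ → ℂ} {e : ℕ → ℕ → Ω → ℕ} [IsProbabilityMeasure P]
    (h : Sk κ P V i f e) (h1 : 8 / 3 < κ) (h2 : κ < 8)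
    (h4 : κ ≠ 4) {D : Opens ℂ} {F : ℂ → ℂ} (hF : Conf F D) (μ : Measure ℝ)
    [IsProbabilityMeasure μ] (hμ : MemLp id 2 μ) (H : Ω × (ℕ → ℝ) → Distribution D ℝ ⊤)
    (hlim : ∀ φ : TestFunction D ℝ ⊤, ∀ᵐ p ∂(PP P μ),
      Tendsto (fun ε => ∫ z, centred P V μ F p z ε * φ z) (𝓝[>] 0) (𝓝 (H p φ)))
    (hG : ∀ φ : TestFunction D ℝ ⊤, HasGaussianLaw (fun p => H p φ) (PP P μ)) :
    μ = Measure.dirac 0 := by
  obtain ⟨φ, hφ⟩ := h.couple h1 h2 h4 hF μ hμ H hlim fun φ => (hG φ).aemeasurable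
  have κ0 : 0 < κ := by linarith
  have ν0 : 1 - 4 / κ ≠ 0 := by
    intro hh
    apply h4
    field_simp at hh
    linarith
  have ν1 : |1 - 4 / κ| < 1 / 2 := by
    have a1 : 4 / κ < 3 / 2 := by rw [div_lt_iff₀ κ0]; linarith
    have a2 : 1 / 2 < 4 / κ := by rw [lt_div_iff₀ κ0]; linarith
    rw [abs_lt]; constructor <;> linarith
  have mξ : ∀ a : Ω → ℕ, Measurable a → Measurable fun p : Ω × (ℕ → ℝ) => p.2 (a p.1) :=
    fun a ha => (measurable_from_prod_countable_left (f := fun q : (ℕ → ℝ) × ℕ => q.1 q.2)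
      fun l => measurable_pi_apply l).comp (measurable_snd.prodMk (ha.comp measurable_fst))
  have : IsProbabilityMeasure (P.map (Bb f 0)) :=
    Measure.isProbabilityMeasure_map (h.measurable_Bb 0).aemeasurable
  obtain ⟨hind, hlaw⟩ := h.indep_Z μ
  let G : ℕ → MeasurableSpace (Ω × (ℕ → ℝ)) := fun n => match n with
    | 0 => ⊥
    | n + 1 => MeasurableSpace.comap (fun p => (p.1, fun m : Iic n => p.2 (i m p.1)))
        ((mY f n).prod MeasurableSpace.pi)
  refine dirac_of_coupling (P := PP P μ) (β := P.map (Bb f 0)) (B := fun n p => Bb f n p.1)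
    (ξ := fun n p => p.2 (i n p.1)) (X := fun k p => H p (φ k)) κ0 ν0 ν1
    (fun n => (h.measurable_Bb n).comp measurable_fst) (fun n => mξ _ (h.imeas n)) hind hlaw
    ((ae_map_iff (h.measurable_Bb 0).aemeasurable measurableSet_Ici).mpr
      (ae_of_all _ (h.Bb_nonneg 0))) (h.ssw h1 h2 h4) hμ (fun k => hG (φ k)) G ?_ 0 ?_
  · intro n l hl
    cases n with
    | zero => omega
    | succ n =>
      have hm : Measurable[G (n + 1), (mY f n).prod MeasurableSpace.pi]
          fun p : Ω × (ℕ → ℝ) => (p.1, fun m : Iic n => p.2 (i m p.1)) :=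
        Measurable.of_comap_le le_rfl
      have hln : l ≤ n := by omega
      exact ⟨((h.measurable_Bb_mY hln).comp (@measurable_fst Ω (Iic n → ℝ) (mY f n) _)).comp hm,
        ((measurable_pi_apply (⟨l, hln⟩ : Iic n)).comp
          (@measurable_snd Ω (Iic n → ℝ) (mY f n) _)).comp hm⟩
  · intro A η hη
    obtain ⟨C, hC⟩ := hφ A η hη
    refine ⟨C, fun n k hn _ E hE hT => ?_⟩
    cases n with
    | zero => omega
    | succ n =>
      obtain ⟨E', hE', rfl⟩ := hE
      refine hC n k E' hE' fun p hp => ?_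
      have := hT p hp
      simp only [psum, sum_Bb, sub_zero] at this
      exact this

theorem main {κ : ℝ} (h1 : 8 / 3 < κ) (h2 : κ < 8) (h4 : κ ≠ 4) {Ω : Type} [MeasurableSpace Ω]
    {P : Measure Ω} [IsProbabilityMeasure P] {V : ℕ → Ω → Opens ℂ} (hV : IsCLE κ P V)
    {D : Opens ℂ} {F : ℂ → ℂ} (hF : Conf F D) (μ : Measure ℝ) [IsProbabilityMeasure μ]
    (hμ : MemLp id 2 μ) (H : Ω × (ℕ → ℝ) → Distribution D ℝ ⊤)
    (hlim : ∀ φ : TestFunction D ℝ ⊤, ∀ᵐ p ∂(PP P μ),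
      Tendsto (fun ε => ∫ z, centred P V μ F p z ε * φ z) (𝓝[>] 0) (𝓝 (H p φ)))
    (hG : ∀ φ : TestFunction D ℝ ⊤, HasGaussianLaw (fun p => H p φ) (PP P μ)) :
    μ = Measure.dirac 0 := by
  obtain ⟨Ω₀, _, P₀, _, V₀, i, f, e, T, hS, hT, hN⟩ := reduce hV μ
  have hc : ∀ p z ε, centred P₀ V₀ μ F p z ε = centred P V μ F (T p) z ε := by
    intro p z ε
    unfold centred
    simp only [hN]
    congr 1
    have m : Measurable fun q : Ω × (ℕ → ℝ) => nestSum F (fun k => V k q.1) q.2 z ε :=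
      (measurable_nestSum hF.univ ε).comp (((measurable_pi_lambda _ fun k =>
        (hV.meas k).comp measurable_fst).prodMk measurable_snd).prodMk measurable_const)
    have := integral_map (μ := PP P₀ μ) hT.measurable.aemeasurable m.aestronglyMeasurable
    rw [hT.map_eq] at this
    exact this.symm
  refine hS.dirac h1 h2 h4 hF μ hμ (fun p => H (T p)) (fun φ => ?_) fun φ => ?_
  · simp only [hc]
    exact hT.quasiMeasurePreserving.ae (hlim φ)
  · refine ⟨?_⟩
    have := (hG φ).isGaussian_map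
    have a := (hG φ).aemeasurable
    rw [← hT.map_eq] at this a
    rwa [AEMeasurable.map_map_of_aemeasurable a hT.measurable.aemeasurable] at this

end Pool.Agent.MP_ac6554_pr
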