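import Pool.Agent.MP_ac6554_pr.Koebe

set_option autoImplicit false

open MeasureTheory ProbabilityTheory TopologicalSpace Metric Set Filter Topology
open scoped NNReal ENNReal

namespace Pool.Agent.MP_ac6554_pr

theorem measurableSet_supset {K : Set ℂ} (hK : IsCompact K) :
    MeasurableSet {U : Opens ℂ | K ⊆ U} :=
  MeasurableSpace.measurableSet_generateFrom ⟨K, hK, rfl⟩

theorem measurable_opens_iff {Ω : Type} [MeasurableSpace Ω] {U : Ω → Opens ℂ} :
    Measurable U ↔ ∀ K : Set ℂ, IsCompact K → MeasurableSet {ω | K ⊆ U ω} := by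
  refine ⟨fun h K hK => h (measurableSet_supset hK), fun h => measurable_generateFrom ?_⟩
  rintro _ ⟨K, hK, rfl⟩
  exact h K hK

namespace MeasAux

lemma measurableSet_closedBall {r : ℝ} (hr : 0 ≤ r) :
    MeasurableSet {q : Opens ℂ × ℂ | closedBall q.2 r ⊆ q.1} := by
  have h : {q : Opens ℂ × ℂ | closedBall q.2 r ⊆ q.1} = ⋃ n : ℕ, ⋃ ρ : ℚ,
      {U : Opens ℂ | closedBall (denseSeq ℂ n) ρ ⊆ U} ×ˢ {z | dist z (denseSeq ℂ n) + r ≤ ρ} := by
    ext ⟨U, z⟩
    simp only [mem_ofPred_eq, mem_iUnion, mem_prod]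
    constructor
    · intro h
      obtain ⟨δ, hδ, h1⟩ := (isCompact_closedBall z r).exists_cthickening_subset_open U.isOpen h
      rw [cthickening_closedBall hδ.le hr] at h1
      obtain ⟨n, hn⟩ := (denseRange_denseSeq ℂ).exists_dist_lt z (by positivity : 0 < δ / 3)
      obtain ⟨ρ, h2, h3⟩ := exists_rat_btwn (by linarith : r + δ / 3 < r + 2 * δ / 3)
      refine ⟨n, ρ, Subset.trans (closedBall_subset_closedBall' ?_) h1, by linarith⟩
      rw [dist_comm]
      linarith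
    · rintro ⟨n, ρ, h1, h2⟩
      exact Subset.trans (closedBall_subset_closedBall' (by linarith)) h1
  rw [h]
  refine MeasurableSet.iUnion fun n => MeasurableSet.iUnion fun ρ =>
    (measurableSet_supset (isCompact_closedBall _ _)).prod ?_
  exact (isClosed_le (by fun_prop) continuous_const).measurableSet

lemma measurableSet_ball (ε : ℝ) : MeasurableSet {q : Opens ℂ × ℂ | ball q.2 ε ⊆ q.1} := by
  have h : {q : Opens ℂ × ℂ | ball q.2 ε ⊆ q.1} = ⋂ ρ : {ρ : ℚ // (0 : ℝ) ≤ ρ ∧ (ρ : ℝ) < ε},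
      {q : Opens ℂ × ℂ | closedBall q.2 ρ.1 ⊆ q.1} := by
    ext ⟨U, z⟩
    simp only [mem_ofPred_eq, mem_iInter]
    constructor
    · intro h ρ
      exact (closedBall_subset_ball ρ.2.2).trans h
    · intro h w hw
      obtain ⟨ρ, h1, h2⟩ := exists_rat_btwn (mem_ball.1 hw)
      exact h ⟨ρ, dist_nonneg.trans h1.le, h2⟩ (mem_closedBall.2 h1.le)
  rw [h]
  exact MeasurableSet.iInter fun ρ => measurableSet_closedBall ρ.2.1

/-- The image of an open set under a univalent map. -/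
def push {F : ℂ → ℂ} (hF : Univ F) (U : Opens ℂ) : Opens ℂ :=
  ⟨F '' (ball 0 1 ∩ U), univ_isOpen_image isOpen_ball hF.1 hF.2 (isOpen_ball.inter U.isOpen)
    inter_subset_left⟩

lemma measurable_push {F : ℂ → ℂ} (hF : Univ F) : Measurable (push hF) := by
  refine measurable_opens_iff.2 fun K hK => ?_
  by_cases h : K ⊆ F '' ball 0 1
  · have hc : IsCompact (Function.invFunOn F (ball 0 1) '' K) :=
      hK.image_of_continuousOn ((univ_inv_diff isOpen_ball hF.1 hF.2).continuousOn.mono h)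
    convert measurableSet_supset hc using 1
    ext U
    change K ⊆ F '' (ball 0 1 ∩ U) ↔ Function.invFunOn F (ball 0 1) '' K ⊆ U
    constructor
    · rintro h1 _ ⟨x, hx, rfl⟩
      obtain ⟨w, hw, rfl⟩ := h1 hx
      rw [hF.2.leftInvOn_invFunOn hw.1]
      exact hw.2
    · intro h1 x hx
      obtain ⟨w, hw, rfl⟩ := h hx
      refine ⟨w, ⟨hw, ?_⟩, rfl⟩
      have := h1 ⟨_, hx, rfl⟩
      rwa [hF.2.leftInvOn_invFunOn hw] at this
  · convert MeasurableSet.empty using 1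
    refine eq_empty_of_forall_notMem fun U hU => h ?_
    exact Subset.trans hU (image_mono inter_subset_left)

lemma measurable_indicator {Ω : Type} [MeasurableSpace Ω] {g : Ω → ℂ → ℂ}
    (hc : ∀ ω, ContinuousOn (g ω) (ball 0 1))
    (hm : ∀ z ∈ ball (0 : ℂ) 1, Measurable fun ω => g ω z) :
    Measurable fun q : Ω × ℂ => (ball (0 : ℂ) 1).indicator (g q.1) q.2 := by
  classical
  have h1 : Measurable (Function.uncurry fun (z : ball (0 : ℂ) 1) (ω : Ω) => g ω z) :=
    measurable_uncurry_of_continuous_of_measurable (fun ω => (hc ω).domRestrict) fun z => hm z z.2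
  have hs : MeasurableSet {q : Ω × ℂ | q.2 ∈ ball (0 : ℂ) 1} :=
    measurable_snd isOpen_ball.measurableSet
  have h2 : Measurable fun q : {q : Ω × ℂ | q.2 ∈ ball (0 : ℂ) 1} => g q.1.1 q.1.2 :=
    h1.comp (f := fun q : {q : Ω × ℂ | q.2 ∈ ball (0 : ℂ) 1} =>
      ((⟨q.1.2, q.2⟩ : ball (0 : ℂ) 1), q.1.1))
      (((measurable_snd.comp measurable_subtype_coe).subtype_mk).prodMk
        (measurable_fst.comp measurable_subtype_coe))
  have h3 := Measurable.dite h2 (g := fun _ => (0 : ℂ)) measurable_const hs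
  convert h3 using 1
  funext q
  by_cases h : q.2 ∈ ball (0 : ℂ) 1
  · rw [indicator_of_mem h, dif_pos (show q ∈ {q : Ω × ℂ | q.2 ∈ ball (0 : ℂ) 1} from h)]
  · rw [indicator_of_notMem h, dif_neg (show q ∉ {q : Ω × ℂ | q.2 ∈ ball (0 : ℂ) 1} from h)]

lemma measurable_deriv_pt {Ω : Type} [MeasurableSpace Ω] {g : Ω → ℂ → ℂ}
    (hd : ∀ ω, DifferentiableOn ℂ (g ω) (ball 0 1))
    (hm : ∀ z ∈ ball (0 : ℂ) 1, Measurable fun ω => g ω z) {z : ℂ} (hz : z ∈ ball (0 : ℂ) 1) :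
    Measurable fun ω => deriv (g ω) z := by
  obtain ⟨δ, hδ, hb⟩ := Metric.isOpen_iff.1 isOpen_ball z hz
  obtain ⟨u, -, hu, hu0⟩ := exists_seq_strictAnti_tendsto' hδ
  have h1 : Tendsto (fun n => (u n : ℂ)) atTop (𝓝[≠] 0) := by
    refine tendsto_nhdsWithin_iff.2 ⟨?_, Eventually.of_forall fun n => ?_⟩
    · exact (Complex.continuous_ofReal.tendsto 0).comp hu0
    · simpa using (hu n).1.ne'
  refine measurable_of_tendsto_metrizable
    (f := fun n ω => (u n : ℂ)⁻¹ • (g ω (z + u n) - g ω z)) (fun n => ?_) ?_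
  · refine ((hm (z + u n) (hb ?_)).sub (hm z hz)).const_smul (u n : ℂ)⁻¹
    rw [mem_ball, dist_self_add_left, Complex.norm_real, Real.norm_of_nonneg (hu n).1.le]
    exact (hu n).2
  · refine tendsto_pi_nhds.2 fun ω => ?_
    exact (hasDerivAt_iff_tendsto_slope_zero.1
      ((hd ω).differentiableAt (isOpen_ball.mem_nhds hz)).hasDerivAt).comp h1

end MeasAux

theorem measurable_pull {Ω : Type} [MeasurableSpace Ω] {g : Ω → ℂ → ℂ}
    (hc : ∀ ω, ContinuousOn (g ω) (ball 0 1)) (hm : ∀ z ∈ ball (0 : ℂ) 1, Measurable fun ω => g ω z)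
    {U : Ω → Opens ℂ} (hU : Measurable U) : Measurable fun ω => pull (g ω) (U ω) := by
  refine measurable_opens_iff.2 fun K hK => ?_
  by_cases h : K ⊆ ball 0 1
  · obtain ⟨D, hDK, hDc, hD⟩ := hK.isSeparable.exists_countable_dense_subset
    have e : {ω | K ⊆ (pull (g ω) (U ω) : Set ℂ)} = ⋃ n : ℕ, ⋂ q ∈ D,
        {ω | closedBall (g ω q) (1 / ((n : ℝ) + 1)) ⊆ U ω} := by
      ext ω
      simp only [mem_ofPred_eq, mem_iUnion, mem_iInter, coe_pull (hc ω)]
      constructor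
      · intro h1
        have h2 : g ω '' K ⊆ U ω := by
          rintro _ ⟨x, hx, rfl⟩
          exact (h1 hx).2
        obtain ⟨δ, hδ, h3⟩ := (hK.image_of_continuousOn ((hc ω).mono h)).exists_cthickening_subset_open
          (U ω).isOpen h2
        obtain ⟨n, hn⟩ := exists_nat_one_div_lt hδ
        exact ⟨n, fun q hq => ((closedBall_subset_closedBall hn.le).trans
          (closedBall_subset_cthickening (mem_image_of_mem _ (hDK hq)) δ)).trans h3⟩
      · rintro ⟨n, hn⟩ x hx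
        refine ⟨h hx, ?_⟩
        have h1 : ContinuousAt (g ω) x := (hc ω).continuousAt (isOpen_ball.mem_nhds (h hx))
        have h2 : g ω ⁻¹' ball (g ω x) (1 / ((n : ℝ) + 1)) ∈ 𝓝 x :=
          h1 (ball_mem_nhds _ (by positivity))
        obtain ⟨q, hq1, hq2⟩ := mem_closure_iff_nhds.1 (hD hx) _ h2
        exact hn q hq2 (mem_closedBall'.2 (mem_ball.1 hq1).le)
    rw [e]
    refine MeasurableSet.iUnion fun n => MeasurableSet.biInter hDc fun q hq => ?_
    exact (hU.prodMk (hm q (h (hDK hq)))) (MeasAux.measurableSet_closedBall (by positivity))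
  · convert MeasurableSet.empty using 1
    refine eq_empty_of_forall_notMem fun ω hω => h ?_
    rw [mem_ofPred_eq, coe_pull (hc ω)] at hω
    exact hω.trans inter_subset_left

theorem measurableSet_surr {F : ℂ → ℂ} (hF : Univ F) (ε : ℝ) :
    MeasurableSet {q : Opens ℂ × ℂ | ball q.2 ε ⊆ F '' (ball 0 1 ∩ q.1)} :=
  (((MeasAux.measurable_push hF).comp measurable_fst).prodMk measurable_snd)
    (MeasAux.measurableSet_ball ε)

theorem measurable_nestSum {F : ℂ → ℂ} (hF : Univ F) (ε : ℝ) :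
    Measurable fun q : (Ens × (ℕ → ℝ)) × ℂ => nestSum F q.1.1 q.1.2 q.2 ε := by
  unfold nestSum
  refine Measurable.tsum fun k => ?_
  have h1 : Measurable fun q : (Ens × (ℕ → ℝ)) × ℂ => (q.1.1 k, q.2) := by fun_prop
  have h2 : Measurable fun q : (Ens × (ℕ → ℝ)) × ℂ => q.1.2 k := by fun_prop
  exact h2.indicator (h1 (measurableSet_surr hF ε))

theorem measurable_cnt {F : ℂ → ℂ} (hF : Univ F) (ε : ℝ) :
    Measurable fun q : Ens × ℂ => cnt F q.1 q.2 ε := by
  unfold cnt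
  refine Measurable.tsum fun k => ?_
  have h1 : Measurable fun q : Ens × ℂ => (q.1 k, q.2) := by fun_prop
  have h2 : Measurable fun _ : Ens × ℂ => (1 : ℝ≥0∞) := measurable_const
  exact h2.indicator (h1 (measurableSet_surr hF ε))

theorem measurable_err {F : ℂ → ℂ} (hF : Univ F) (a b : ℝ) :
    Measurable fun q : (Ens × (ℕ → ℝ)) × ℂ => err F q.1.1 q.1.2 q.2 a b := by
  unfold err
  refine Measurable.tsum fun k => ?_
  have h1 : Measurable fun q : (Ens × (ℕ → ℝ)) × ℂ => (q.1.1 k, q.2) := by fun_prop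
  have h2 : Measurable fun q : (Ens × (ℕ → ℝ)) × ℂ => ‖q.1.2 k‖ₑ := by fun_prop
  exact h2.indicator ((h1 (measurableSet_surr hF a)).inter (h1 (measurableSet_surr hF b)).compl)

theorem measurable_eval {Ω : Type} [MeasurableSpace Ω] {g : Ω → ℂ → ℂ}
    (hd : ∀ ω, DifferentiableOn ℂ (g ω) (ball 0 1))
    (hm : ∀ z ∈ ball (0 : ℂ) 1, Measurable fun ω => g ω z) :
    (Measurable fun q : Ω × ℂ => (ball (0 : ℂ) 1).indicator (g q.1) q.2) ∧
    (Measurable fun q : Ω × ℂ => (ball (0 : ℂ) 1).indicator (deriv (g q.1)) q.2) :=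
  ⟨MeasAux.measurable_indicator (fun ω => (hd ω).continuousOn) hm,
    MeasAux.measurable_indicator (g := fun ω => deriv (g ω))
      (fun ω => ((hd ω).deriv isOpen_ball).continuousOn)
      fun _ hz => MeasAux.measurable_deriv_pt hd hm hz⟩

theorem Good.finite_surr {v : Ens} (hv : Good v) {F : ℂ → ℂ} (hF : Univ F) {ε R : ℝ} (hε : 0 < ε)
    (hR : R < 1) :
    {k | ∃ ζ ∈ closedBall (0 : ℂ) R, ball (F ζ) ε ⊆ F '' (ball 0 1 ∩ v k)}.Finite := by
  refine (isCompact_closedBall (0 : ℂ) R).induction_on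
    (p := fun s => {k | ∃ ζ ∈ s, ball (F ζ) ε ⊆ F '' (ball 0 1 ∩ v k)}.Finite) (by simp)
    (fun s t hst ht => ht.subset fun k ⟨ζ, h1, h2⟩ => ⟨ζ, hst h1, h2⟩)
    (fun s t hs ht => (hs.union ht).subset fun k ⟨ζ, h1, h2⟩ =>
      h1.elim (fun h => Or.inl ⟨ζ, h, h2⟩) fun h => Or.inr ⟨ζ, h, h2⟩) fun x hx => ?_
  have hx1 : x ∈ ball (0 : ℂ) 1 := closedBall_subset_ball hR hx
  have h1 : ContinuousAt F x := hF.1.continuousOn.continuousAt (isOpen_ball.mem_nhds hx1)
  have h2 : ball (0 : ℂ) 1 ∩ F ⁻¹' ball (F x) (ε / 2) ∈ 𝓝 x :=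
    inter_mem (isOpen_ball.mem_nhds hx1) (h1 (ball_mem_nhds _ (by positivity)))
  obtain ⟨ρ, hρ, h3⟩ := Metric.mem_nhds_iff.1 h2
  refine ⟨ball x ρ, mem_nhdsWithin_of_mem_nhds (ball_mem_nhds _ hρ), (hv.2 x ρ hρ).subset ?_⟩
  rintro k ⟨ζ, hζ, hk⟩ w hw
  have h4 : F w ∈ ball (F ζ) ε := by
    have a := mem_ball.1 (h3 hw).2
    have b := mem_ball'.1 (h3 hζ).2
    have := dist_triangle (F w) (F x) (F ζ)
    rw [mem_ball]
    linarith
  obtain ⟨w', hw', e⟩ := hk h4
  rw [← hF.2 hw'.1 (h3 hw).1 e]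
  exact hw'.2

theorem Good.pull {v : Ens} (hv : Good v) {g : ℂ → ℂ} (hg : Univ g) {e : ℕ → ℕ}
    (he : Function.Injective e) (h : ∀ k, (v (e k) : Set ℂ) ⊆ g '' ball 0 1) :
    Good fun k => pull g (v (e k)) := by
  have hc := hg.1.continuousOn
  refine ⟨fun k => ?_, fun z r hr => ?_⟩
  · simp only [coe_pull hc]
    obtain ⟨x, hx⟩ := (hv.1 (e k)).1
    obtain ⟨w, hw, rfl⟩ := h k hx
    exact ⟨⟨w, hw, hx⟩, inter_subset_left⟩
  · simp only [coe_pull hc]
    by_cases hb : ball z r ⊆ ball (0 : ℂ) 1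
    · obtain ⟨ρ, hρ, h1⟩ := Metric.isOpen_iff.1
        (univ_isOpen_image isOpen_ball hg.1 hg.2 isOpen_ball hb) (g z)
        (mem_image_of_mem _ (mem_ball_self hr))
      refine ((hv.2 (g z) ρ hρ).preimage he.injOn).subset fun k hk x hx => ?_
      obtain ⟨w, hw, rfl⟩ := h1 hx
      exact (hk hw).2
    · convert finite_empty
      exact eq_empty_of_forall_notMem fun k hk => hb (Subset.trans hk inter_subset_left)

theorem image_pull {g : ℂ → ℂ} (hg : Univ g) {U : Opens ℂ} (h : (U : Set ℂ) ⊆ g '' ball 0 1) :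
    g '' (ball 0 1 ∩ pull g U) = U := by
  rw [coe_pull hg.1.continuousOn]
  apply Subset.antisymm
  · rintro _ ⟨w, hw, rfl⟩
    exact hw.2.2
  · intro x hx
    obtain ⟨w, hw, rfl⟩ := h hx
    exact ⟨w, ⟨hw, hw, hx⟩, rfl⟩

theorem relabel_mp {Ω : Type} [MeasurableSpace Ω] (P : Measure Ω) [IsProbabilityMeasure P]
    (μ : Measure ℝ) [IsProbabilityMeasure μ] {ι : Type} [Countable ι] (a : ι → Ω → ℕ)
    (ha : ∀ k, Measurable (a k)) (hinj : ∀ ω, Function.Injective fun k => a k ω) :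
    MeasurePreserving (fun p : Ω × (ℕ → ℝ) => (p.1, fun k => p.2 (a k p.1))) (PP P μ)
      (P.prod (Measure.infinitePi fun _ : ι => μ)) := by
  have h1 : Measurable fun p : (ℕ → ℝ) × ℕ => p.1 p.2 :=
    measurable_from_prod_countable_left fun n => measurable_pi_apply n
  refine (MeasurePreserving.id P).skew_product (g := fun ω (ξ : ℕ → ℝ) k => ξ (a k ω))
    (measurable_pi_lambda _ fun k => h1.comp (measurable_snd.prodMk ((ha k).comp measurable_fst)))
    (Eventually.of_forall fun ω => ?_)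
  exact Measure.map_infinitePi_infinitePi_of_inj (P := fun _ : ℕ => μ) (hinj ω)

end Pool.Agent.MP_ac6554_pr
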