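import Pool.Agent.MP_ac6554_pr.Meas

set_option autoImplicit false

open MeasureTheory ProbabilityTheory TopologicalSpace Metric Set Filter Topology
open scoped NNReal ENNReal

namespace Pool.Agent.MP_ac6554_pr

namespace TightAux

theorem bdd {D : Opens ℂ} (T : Distribution D ℝ ⊤) (K : Compacts ℂ) (hK : (K : Set ℂ) ⊆ D)
    (M : ℕ → ℝ) : ∃ B : ℝ, ∀ φ : TestFunction D ℝ ⊤, Function.support φ ⊆ K →
      (∀ m z, ‖iteratedFDeriv ℝ m φ z‖ ≤ M m) → |T φ| ≤ B := by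
  let S : Set (ContDiffMapSupportedIn ℂ ℝ ⊤ K) := {f | ∀ m z, ‖iteratedFDeriv ℝ m f z‖ ≤ M m}
  have hS : Bornology.IsVonNBounded ℝ S := by
    rw [(ContDiffMapSupportedIn.withSeminorms ℝ ℂ ℝ ⊤ K).isVonNBounded_iff_seminorm_bounded]
    intro i
    refine ⟨|M i| + 1, by positivity, fun f hf => ?_⟩
    have : ContDiffMapSupportedIn.seminorm ℝ ℂ ℝ ⊤ K i f ≤ |M i| :=
      (ContDiffMapSupportedIn.seminorm_top_le_iff ℝ (abs_nonneg _) i f).2
        fun x _ => (hf i x).trans (le_abs_self _)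
    linarith
  let L : ContDiffMapSupportedIn ℂ ℝ ⊤ K →L[ℝ] ℝ :=
    (show TestFunction D ℝ ⊤ →L[ℝ] ℝ from T).comp (TestFunction.ofSupportedInCLM ℝ hK)
  obtain ⟨B, hB⟩ := (NormedSpace.isVonNBounded_iff' ℝ).1 (hS.image L)
  refine ⟨B, fun φ h1 h2 => ?_⟩
  exact hB _ ⟨ContDiffMapSupportedIn.of_support_subset φ.contDiff h1, h2, rfl⟩

theorem bounds {C : ℝ} (hC : ∀ (j : ℂ → ℂ) (z : ℂ) (R : ℝ), 0 < R →
    DifferentiableOn ℂ j (ball z R) → InjOn j (ball z R) →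
    ∀ ζ, ‖ζ - z‖ ≤ 3 / 4 * R → ‖deriv j ζ‖ ≤ C * ‖deriv j z‖) {g : ℂ → ℂ} (hg : Univ g) :
    (∀ w ∈ closedBall (0 : ℂ) (3 / 4), ‖deriv g w‖ ≤ C * ‖deriv g 0‖) ∧
      ∀ ζ ∈ ball (0 : ℂ) (1 / 4), ‖deriv g 0‖ ≤ C * ‖deriv g ζ‖ := by
  refine ⟨fun w hw => hC g 0 1 one_pos hg.1 hg.2 w (by simpa using hw), fun ζ hζ => ?_⟩
  have hz : ‖ζ‖ < 1 / 4 := by simpa using hζ
  have hs : ball ζ (3 / 4) ⊆ ball (0 : ℂ) 1 :=
    ball_subset_ball' (by rw [dist_zero_right]; linarith)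
  exact hC g ζ (3 / 4) (by norm_num) (hg.1.mono hs) (hg.2.mono hs) 0
    (by rw [zero_sub, norm_neg]; linarith)

theorem transfer {c : ℝ} (hc0 : 0 < c) (hc : ∀ (j : ℂ → ℂ) (z : ℂ) (R : ℝ), 0 < R →
    DifferentiableOn ℂ j (ball z R) → InjOn j (ball z R) →
    ball (j z) (c * R * ‖deriv j z‖) ⊆ j '' ball z R) {F j : ℂ → ℂ} (hF : Univ F) (hj : Univ j)
    {ζ : ℂ} (hζ : ζ ∈ ball (0 : ℂ) (1 / 4)) {l u ρ r₁ r₂ : ℝ} (hu0 : 0 < u)
    (hl : l ≤ ‖deriv j ζ‖) (hu : ∀ w ∈ closedBall (0 : ℂ) (3 / 4), ‖deriv F w‖ ≤ u)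
    (hρ : 0 < ρ) (hρ' : ρ ≤ 1 / 2) (h1 : u * ρ ≤ r₁) (h2 : r₂ ≤ c * ρ * l) {A : Set ℂ}
    (hA : A ⊆ ball (0 : ℂ) 1) (h : ball (F ζ) r₁ ⊆ F '' A) : ball (j ζ) r₂ ⊆ j '' A := by
  have hz : ‖ζ‖ < 1 / 4 := by simpa using hζ
  have hs : ball ζ ρ ⊆ closedBall (0 : ℂ) (3 / 4) :=
    (ball_subset_ball' (by rw [dist_zero_right]; linarith)).trans ball_subset_closedBall
  have hs1 : ball ζ ρ ⊆ ball (0 : ℂ) 1 := hs.trans (closedBall_subset_ball (by norm_num))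
  have key : ball ζ ρ ⊆ A := by
    intro w hw
    have hm : ‖F w - F ζ‖ ≤ u * ‖w - ζ‖ :=
      (convex_ball ζ ρ).norm_image_sub_le_of_norm_deriv_le
        (fun x hx => hF.1.differentiableAt (isOpen_ball.mem_nhds (hs1 hx)))
        (fun x hx => hu x (hs hx)) (mem_ball_self hρ) hw
    have hw' : ‖w - ζ‖ < ρ := by simpa [dist_eq_norm] using hw
    obtain ⟨w', hw1, hw2⟩ := h (show F w ∈ ball (F ζ) r₁ by
      rw [mem_ball, dist_eq_norm]
      exact hm.trans_lt ((mul_lt_mul_of_pos_left hw' hu0).trans_le h1))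
    rw [← hF.2 (hA hw1) (hs1 hw) hw2]; exact hw1
  refine (ball_subset_ball (h2.trans ?_)).trans
    ((hc j ζ ρ hρ (hj.1.mono hs1) (hj.2.mono hs1)).trans (image_mono key))
  exact mul_le_mul_of_nonneg_left hl (by positivity)

end TightAux

theorem tight {Ω : Type} [MeasurableSpace Ω] (P : Measure Ω) [IsProbabilityMeasure P]
    {D : Opens ℂ} (h : Ω → Distribution D ℝ ⊤)
    (hm : ∀ φ : TestFunction D ℝ ⊤, AEMeasurable (fun p => h p φ) P) (K : Compacts ℂ)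
    (hK : (K : Set ℂ) ⊆ D) (M : ℕ → ℝ) {η : ℝ} (hη : 0 < η) :
    ∃ C : ℝ, ∀ φ : TestFunction D ℝ ⊤, Function.support φ ⊆ K →
      (∀ m z, ‖iteratedFDeriv ℝ m φ z‖ ≤ M m) → P {p | C < |h p φ|} ≤ ENNReal.ofReal η := by
  by_contra hcon
  push Not at hcon
  choose φ h1 h2 h3 using fun n : ℕ => hcon n
  let s : ℕ → Set Ω := fun n => ⋃ k, ⋃ _ : n ≤ k, {p | (k : ℝ) < |h p (φ k)|}
  have hs : ∀ n, NullMeasurableSet (s n) P := fun n =>
    NullMeasurableSet.iUnion fun k => NullMeasurableSet.iUnion fun _ =>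
      nullMeasurableSet_lt aemeasurable_const (continuous_abs.measurable.comp_aemeasurable (hm _))
  have hanti : Antitone s := fun n m hnm =>
    iUnion₂_mono' fun k hk => ⟨k, hnm.trans hk, subset_rfl⟩
  have hlim := tendsto_measure_iInter_atTop hs hanti ⟨0, measure_ne_top _ _⟩
  have hempty : ⋂ n, s n = ∅ := by
    refine eq_empty_of_forall_notMem fun p hp => ?_
    obtain ⟨B, hB⟩ := TightAux.bdd (h p) K hK M
    obtain ⟨n, hn⟩ := exists_nat_ge B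
    have := mem_iInter.1 hp n
    simp only [s, mem_iUnion] at this
    obtain ⟨k, hk, hp'⟩ := this
    have h4 := hB _ (h1 k) (h2 k)
    have h5 : (n : ℝ) ≤ k := by exact_mod_cast hk
    have h6 : (k : ℝ) < |h p (φ k)| := hp'
    linarith
  rw [hempty, measure_empty] at hlim
  have : ENNReal.ofReal η ≤ 0 := ge_of_tendsto' hlim fun n =>
    (h3 n).le.trans (measure_mono (subset_iUnion₂_of_subset n le_rfl subset_rfl))
  exact absurd this (not_le.2 (ENNReal.ofReal_pos.2 hη))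

theorem sandwich {F : ℂ → ℂ} (hF : Univ F) {a : ℝ} (ha : 0 < a) (a₂ : ℝ) :
    ∃ c C δ₀ : ℝ, 0 < c ∧ c ≤ 1 ∧ 1 ≤ C ∧ 0 < δ₀ ∧ C * δ₀ ≤ 1 ∧
      ∀ j, Univ j → a ≤ ‖deriv j 0‖ → ‖deriv j 0‖ ≤ a₂ → ∀ ζ ∈ ball (0 : ℂ) (1 / 4),
        ∀ δ : ℝ, 0 < δ → δ ≤ δ₀ → ∀ A ⊆ ball (0 : ℂ) 1,
          (ball (F ζ) (C * δ) ⊆ F '' A → ball (j ζ) δ ⊆ j '' A) ∧
          (ball (j ζ) δ ⊆ j '' A → ball (F ζ) (c * δ) ⊆ F '' A) := by
  obtain ⟨c0, hc0, -, hc⟩ := koebe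
  obtain ⟨C1, hC1, hC⟩ := distort
  have hC0 : 0 < C1 := by linarith
  have hb : 0 < ‖deriv F 0‖ := norm_pos_iff.2
    (univ_deriv_ne_zero isOpen_ball hF.1 hF.2 (mem_ball_self one_pos))
  set b := ‖deriv F 0‖ with hbdef
  have hu : 0 < C1 * max a a₂ := mul_pos hC0 (lt_max_of_lt_left ha)
  set u := C1 * max a a₂ with hudef
  have hCC : 0 < max 1 (C1 * b * (C1 / (c0 * a))) := lt_max_of_lt_left one_pos
  refine ⟨min 1 (c0 / u * (b / C1)), max 1 (C1 * b * (C1 / (c0 * a))),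
    min (min (c0 * a / (2 * C1)) (u / 2)) (1 / max 1 (C1 * b * (C1 / (c0 * a)))),
    by positivity, min_le_left _ _, le_max_left _ _, by positivity, ?_, ?_⟩
  · exact (mul_le_mul_of_nonneg_left (min_le_right _ _) hCC.le).trans
      (by rw [mul_one_div_cancel hCC.ne'])
  intro j hj hj1 hj2 ζ hζ δ hδ hδ' A hA
  have d1 : δ ≤ c0 * a / (2 * C1) := hδ'.trans ((min_le_left _ _).trans (min_le_left _ _))
  have d2 : δ ≤ u / 2 := hδ'.trans ((min_le_left _ _).trans (min_le_right _ _))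
  obtain ⟨F1, F2⟩ := TightAux.bounds hC hF
  obtain ⟨j1, j2⟩ := TightAux.bounds hC hj
  constructor
  · refine TightAux.transfer hc0 hc hF hj hζ (l := a / C1) (u := C1 * b)
      (ρ := C1 / (c0 * a) * δ) (by positivity) ?_ F1 (by positivity) ?_ ?_ ?_ hA
    · rw [div_le_iff₀ hC0, mul_comm]; exact hj1.trans (j2 ζ hζ)
    · calc C1 / (c0 * a) * δ ≤ C1 / (c0 * a) * (c0 * a / (2 * C1)) := by gcongr
        _ = 1 / 2 := by field_simp
    · rw [← mul_assoc]; exact mul_le_mul_of_nonneg_right (le_max_right _ _) hδ.le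
    · apply le_of_eq; field_simp
  · refine TightAux.transfer hc0 hc hj hF hζ (l := b / C1) (u := u)
      (ρ := δ / u) hu ?_ ?_ (by positivity) ?_ ?_ ?_ hA
    · rw [div_le_iff₀ hC0, mul_comm]; exact F2 ζ hζ
    · exact fun w hw => (j1 w hw).trans
        (mul_le_mul_of_nonneg_left (hj2.trans (le_max_right _ _)) hC0.le)
    · rw [div_le_iff₀ hu]; linarith
    · apply le_of_eq; field_simp
    · refine (mul_le_mul_of_nonneg_right (min_le_right _ _) hδ.le).trans (le_of_eq ?_)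
      field_simp

theorem integral_conf {j : ℂ → ℂ} (hj : Univ j) (g : ℂ → ℝ) :
    ∫ z in j '' ball 0 1, g z = ∫ ζ in ball (0 : ℂ) 1, ‖deriv j ζ‖ ^ 2 * g (j ζ) := by
  have hd : ∀ x ∈ ball (0 : ℂ) 1, HasFDerivWithinAt j
      ((ContinuousLinearMap.toSpanSingleton ℂ (deriv j x)).restrictScalars ℝ) (ball 0 1) x :=
    fun x hx => ((hj.1.differentiableAt (isOpen_ball.mem_nhds hx)).hasDerivAt.hasFDerivAt.restrictScalars
      ℝ).hasFDerivWithinAt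
  rw [integral_image_eq_integral_abs_det_fderiv_smul volume measurableSet_ball hd hj.2]
  refine setIntegral_congr_fun measurableSet_ball fun x _ => ?_
  have : ((ContinuousLinearMap.toSpanSingleton ℂ (deriv j x)).restrictScalars ℝ).det =
      ‖deriv j x‖ ^ 2 := by
    rw [ContinuousLinearMap.det, ← LinearMap.det_toMatrix Complex.basisOneI, Matrix.det_fin_two]
    simp only [LinearMap.toMatrix_apply, ContinuousLinearMap.coe_coe, Complex.coe_basisOneI,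
      Complex.coe_basisOneI_repr, Complex.sq_norm, Complex.normSq_apply]
    simp
  simp only [this, smul_eq_mul, abs_pow, abs_norm]

theorem nest_diff_le {v : Ens} (hv : Good v) (ξ : ℕ → ℝ) {F j : ℂ → ℂ} (hF : Univ F) {ζ : ℂ}
    (hζ : ζ ∈ ball (0 : ℂ) 1) {a b c d : ℝ} (ha : 0 < a) (hab : a ≤ b) (hbc : b ≤ c)
    (h : ∀ A ⊆ ball (0 : ℂ) 1, (ball (F ζ) c ⊆ F '' A → ball (j ζ) d ⊆ j '' A) ∧
      (ball (j ζ) d ⊆ j '' A → ball (F ζ) a ⊆ F '' A)) :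
    ‖nestSum j v ξ (j ζ) d - nestSum F v ξ (F ζ) b‖ₑ ≤ err F v ξ (F ζ) a c := by
  have hfin : {k | ball (F ζ) a ⊆ F '' (ball 0 1 ∩ v k)}.Finite :=
    (hv.finite_surr hF ha (show ‖ζ‖ < 1 by simpa using hζ)).subset
      fun k hk => ⟨ζ, by simp, hk⟩
  have hJ : ∀ k, ball (j ζ) d ⊆ j '' (ball 0 1 ∩ v k) → ball (F ζ) a ⊆ F '' (ball 0 1 ∩ v k) :=
    fun k => (h _ inter_subset_left).2
  have hJ' : ∀ k, ball (F ζ) c ⊆ F '' (ball 0 1 ∩ v k) → ball (j ζ) d ⊆ j '' (ball 0 1 ∩ v k) :=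
    fun k => (h _ inter_subset_left).1
  have hB : ∀ k, ball (F ζ) b ⊆ F '' (ball 0 1 ∩ v k) → ball (F ζ) a ⊆ F '' (ball 0 1 ∩ v k) :=
    fun k hk => (ball_subset_ball hab).trans hk
  have hB' : ∀ k, ball (F ζ) c ⊆ F '' (ball 0 1 ∩ v k) → ball (F ζ) b ⊆ F '' (ball 0 1 ∩ v k) :=
    fun k hk => (ball_subset_ball hbc).trans hk
  have s1 : Summable ({k | ball (j ζ) d ⊆ j '' (ball 0 1 ∩ v k)}.indicator ξ) :=
    summable_of_hasFiniteSupport (hfin.subset (support_indicator_subset.trans hJ))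
  have s2 : Summable ({k | ball (F ζ) b ⊆ F '' (ball 0 1 ∩ v k)}.indicator ξ) :=
    summable_of_hasFiniteSupport (hfin.subset (support_indicator_subset.trans hB))
  unfold nestSum err
  rw [← s1.tsum_sub s2]
  refine enorm_tsum_le_tsum_enorm.trans (ENNReal.tsum_le_tsum fun k => ?_)
  by_cases e1 : ball (j ζ) d ⊆ j '' (ball 0 1 ∩ v k) <;>
    by_cases e2 : ball (F ζ) b ⊆ F '' (ball 0 1 ∩ v k)
  · simp [indicator, e1, e2]
  · have e3 : ¬ ball (F ζ) c ⊆ F '' (ball 0 1 ∩ v k) := fun e => e2 (hB' k e)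
    simp [indicator, e1, e2, e3, hJ k e1]
  · have e3 : ¬ ball (F ζ) c ⊆ F '' (ball 0 1 ∩ v k) := fun e => e1 (hJ' k e)
    simp [indicator, e1, e2, e3, hB k e2]
  · simp [indicator, e1, e2]

end Pool.Agent.MP_ac6554_pr
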