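import Pool.Agent.MP_ac6554_pr.Main

set_option autoImplicit false

open MeasureTheory ProbabilityTheory TopologicalSpace Metric Set Filter Topology
open scoped NNReal ENNReal

namespace Pool.Agent.MP_ac6554_pr

namespace ZeroAux

theorem sc_multi (i : ℕ) :
    SecondCountableTopology (ContinuousMultilinearMap ℝ (fun _ : Fin i => ℂ) ℝ) := by
  have : Module.Finite ℝ (ContinuousMultilinearMap ℝ (fun _ : Fin i => ℂ) ℝ) :=
    Module.Finite.of_injective ContinuousMultilinearMap.toMultilinearMapLinear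
      ContinuousMultilinearMap.toMultilinearMap_injective
  have := FiniteDimensional.proper_real (ContinuousMultilinearMap ℝ (fun _ : Fin i => ℂ) ℝ)
  infer_instance

/-- All derivatives, restricted to `K`. -/
noncomputable def jets (K : Compacts ℂ) (φ : ContDiffMapSupportedIn ℂ ℝ ⊤ K) (i : ℕ) :
    C(K, ContinuousMultilinearMap ℝ (fun _ : Fin i => ℂ) ℝ) :=
  ⟨fun x => iteratedFDeriv ℝ i φ x,
    (φ.contDiff.continuous_iteratedFDeriv (by exact_mod_cast le_top)).comp continuous_subtype_val⟩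

theorem exists_dense (K : Compacts ℂ) : ∃ S : Set (ContDiffMapSupportedIn ℂ ℝ ⊤ K),
    S.Countable ∧ Dense S := by
  have := sc_multi
  obtain ⟨T, hT2, hT1, hT3⟩ := (IsSeparable.of_separableSpace (range (jets K))).exists_countable_dense_subset
  choose g hg using fun t : T => hT2 t.2
  have : Countable T := hT1.to_subtype
  refine ⟨range g, countable_range g, fun φ => ?_⟩
  obtain ⟨u, hu, hu'⟩ := mem_closure_iff_seq_limit.mp (hT3 (mem_range_self φ))
  refine mem_closure_of_tendsto (f := fun n => g ⟨u n, hu n⟩) (b := atTop) ?_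
    (Eventually.of_forall fun n => mem_range_self _)
  rw [(ContDiffMapSupportedIn.withSeminorms ℝ ℂ ℝ ⊤ K).tendsto_nhds]
  intro i ε hε
  have h1 : Tendsto (fun n => ‖u n i - jets K φ i‖) atTop (𝓝 0) :=
    (tendsto_iff_norm_sub_tendsto_zero
      (E := C(K, ContinuousMultilinearMap ℝ (fun _ : Fin i => ℂ) ℝ))).mp
      (tendsto_pi_nhds.mp hu' i)
  filter_upwards [h1.eventually (gt_mem_nhds (half_pos hε))] with n hn
  refine lt_of_le_of_lt ?_ (half_lt_self hε)
  rw [ContDiffMapSupportedIn.seminorm_top_le_iff ℝ (half_pos hε).le]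
  intro x hx
  have h2 := (ContinuousMap.norm_coe_le_norm (u n i - jets K φ i) ⟨x, hx⟩).trans hn.le
  have h3 : u n = jets K (g ⟨u n, hu n⟩) := (hg ⟨u n, hu n⟩).symm
  rw [h3] at h2
  have h4 : (⇑(g ⟨u n, hu n⟩ - φ) : ℂ → ℝ) = ⇑(g ⟨u n, hu n⟩) - ⇑φ := rfl
  rw [h4, iteratedFDeriv_sub_apply
    ((g ⟨u n, hu n⟩).contDiff.of_le (by exact_mod_cast le_top)).contDiffAt
    (φ.contDiff.of_le (by exact_mod_cast le_top)).contDiffAt]
  exact h2

theorem ae_zero {X : Type} [MeasurableSpace X] (Q : Measure X) {D : Opens ℂ}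
    (H : X → Distribution D ℝ ⊤) (h : ∀ φ : TestFunction D ℝ ⊤, ∀ᵐ p ∂Q, H p φ = 0) :
    ∀ᵐ p ∂Q, H p = 0 := by
  have : LocallyCompactSpace D := D.isOpen.locallyCompactSpace
  let E := CompactExhaustion.choice D
  let K : ℕ → Compacts ℂ := fun n =>
    ⟨Subtype.val '' E n, (E.isCompact n).image continuous_subtype_val⟩
  have hK : ∀ n, (K n : Set ℂ) ⊆ D := fun n => Subtype.coe_image_subset _ _
  choose S hS1 hS2 using fun n => exists_dense (K n)
  have h1 : ∀ᵐ p ∂Q, ∀ n, ∀ ψ ∈ S n, H p (TestFunction.ofSupportedIn (hK n) ψ) = 0 :=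
    ae_all_iff.mpr fun n => (ae_ball_iff (hS1 n)).mpr fun ψ _ => h _
  filter_upwards [h1] with p hp
  ext φ
  have hc : IsCompact (Subtype.val ⁻¹' tsupport φ : Set D) :=
    Topology.IsInducing.subtypeVal.isCompact_preimage' φ.hasCompactSupport
      (by rw [Subtype.range_coe]; exact φ.tsupport_subset)
  obtain ⟨n, hn⟩ := E.exists_superset_of_isCompact hc
  have hs : Function.support φ ⊆ K n := fun z hz =>
    ⟨⟨z, φ.tsupport_subset (subset_tsupport _ hz)⟩, hn (subset_tsupport _ hz), rfl⟩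
  have e : φ = TestFunction.ofSupportedIn (hK n)
      (ContDiffMapSupportedIn.of_support_subset φ.contDiff hs) := by ext z; rfl
  have hcont : Continuous fun ψ : ContDiffMapSupportedIn ℂ ℝ ⊤ (K n) =>
      H p (TestFunction.ofSupportedIn (hK n) ψ) :=
    (H p).continuous.comp (TestFunction.continuous_ofSupportedIn (hK n))
  have := Continuous.ext_on (hS2 n) hcont continuous_const (hp n)
  rw [e]
  exact congrFun this _

end ZeroAux

theorem zero_of_dirac {Ω : Type} [MeasurableSpace Ω] (P : Measure Ω) [IsProbabilityMeasure P]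
    (V : ℕ → Ω → Opens ℂ) {D : Opens ℂ} (F : ℂ → ℂ) (H : Ω × (ℕ → ℝ) → Distribution D ℝ ⊤)
    (hlim : ∀ φ : TestFunction D ℝ ⊤, ∀ᵐ p ∂(PP P (Measure.dirac 0)),
      Tendsto (fun ε => ∫ z, centred P V (Measure.dirac 0) F p z ε * φ z) (𝓝[>] 0)
        (𝓝 (H p φ))) : ∀ᵐ p ∂(PP P (Measure.dirac 0)), H p = 0 := by
  have h0 : ∀ᵐ p ∂(PP P (Measure.dirac (0 : ℝ))), p.2 = fun _ => 0 := by
    have : ∀ᵐ ξ ∂(Measure.infinitePi fun _ : ℕ => Measure.dirac (0 : ℝ)), ξ = fun _ => 0 := by
      rw [Measure.infinitePi_dirac]; simp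
    exact Measure.quasiMeasurePreserving_snd.ae this
  have h1 : ∀ (v : Ens) z ε, nestSum F v (fun _ => 0) z ε = 0 := by
    intro v z ε; simp [nestSum]
  refine ZeroAux.ae_zero _ H fun φ => ?_
  filter_upwards [hlim φ, h0] with p hp hp0
  have h2 : ∀ z ε, centred P V (Measure.dirac 0) F p z ε = 0 := by
    intro z ε
    unfold centred
    rw [hp0, h1, integral_eq_zero_of_ae, sub_zero]
    filter_upwards [h0] with q hq
    rw [hq, h1]; rfl
  simp only [h2, zero_mul, integral_zero] at hp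
  exact tendsto_nhds_unique hp tendsto_const_nhds

end Pool.Agent.MP_ac6554_pr
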